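import Pool.Agent.EAU.StE

/-!
# EAU, part E: [AMA] common elementary extensions
-/

set_option autoImplicit false
set_option linter.unusedVariables false

namespace EAU

open Set FirstOrder.Language
open scoped FirstOrder
open Pool.Agent.WOM (tp Mon IsEl IsoM Fam ThS Small SatF)

private theorem AMA_ths {L : FirstOrder.Language.{0, 0}} (S S' : L.Structure ℕ)
    (h : @FirstOrder.Language.Theory.Model L ℕ S' (ThS L S)) : ThS L S' = ThS L S := by
  have h0 : ∀ φ ∈ ThS L S, @Sentence.Realize L ℕ S' φ := by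
    let _ := S'
    exact (Theory.model_iff (M := ℕ) _).1 h
  ext φ
  constructor
  · intro h1
    by_contra h2
    have h3 : φ.not ∈ ThS L S := h2
    exact h0 _ h3 h1
  · intro h1
    exact h0 φ h1

/-- [AMA] -/
theorem thm_AMA (hSEF : St_SEF) (hULT : Pool.Agent.WOM.St_ULT) (hCMS : Pool.Agent.MST.St_CMS) :
    St_AMA := by
  intro L hL S S' hS'
  obtain ⟨V, iV, hne, hV, hsat⟩ := hULT L hL S
  have hV' : V ⊨ ThS L S' := by
    rw [AMA_ths S S' hS']
    exact hV
  obtain ⟨f, hf, hft⟩ := hSEF L V hsat S hV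
  obtain ⟨f', hf', hft'⟩ := hSEF L V hsat S' hV'
  have hinf : Infinite V := Infinite.of_injective f hf
  obtain ⟨S'', i, hi, hX, -, -, hr⟩ := hCMS L hL V hinf (range f ∪ range f')
    ((countable_range f).union (countable_range f'))
  have h1 : ∀ n, ∃ k, i k = f n := fun n => hX (Or.inl (mem_range_self n))
  have h2 : ∀ n, ∃ k, i k = f' n := fun n => hX (Or.inr (mem_range_self n))
  choose g hg using h1
  choose g' hg' using h2
  have key : ∀ (T : L.Structure ℕ) (u v : ℕ → ℕ) (w : ℕ → V), (∀ n, i (v n) = w n) →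
      (∀ (n : ℕ) (a : Fin n → ℕ), @tp L ℕ T n a = tp (L := L) (w ∘ a)) → Elm T S'' v := by
    intro T u v w hv hw n a
    rw [hw n a]
    ext φ
    have h3 := hr (Fin n) φ (v ∘ a)
    have h4 : (i ∘ (v ∘ a)) = w ∘ a := by
      funext x
      exact hv (a x)
    rw [h4] at h3
    exact h3.symm
  exact ⟨S'', g, g', key S id g f hg hft, key S' id g' f' hg' hft'⟩

end EAU
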