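import Pool.Agent.EAU.StF

/-!
# EAU [BAI]: invariant `Σ⁰₂` sets are closed under existentially closed extensions
-/

set_option autoImplicit false
set_option linter.unusedVariables false
set_option linter.unusedSectionVars false

namespace EAU

open Set FirstOrder.Language ORD EAP
open scoped FirstOrder

open Pool.Agent.Helper6.Str (PerfK CtblK Iso RelIso Code toStr ofStr)
open Pool.Agent.Helper79.VC (pl Scat)

/-- a code outside a closed set is separated by finitely many coordinates -/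
private theorem BAI_sep {ι : Type} {D : Set (ι → Bool)} (hD : IsClosed D) {c : ι → Bool}
    (hc : c ∉ D) : ∃ I : Finset ι, ∀ c' : ι → Bool, (∀ j ∈ I, c' j = c j) → c' ∉ D := by
  have h1 := isOpen_pi_iff.1 hD.isOpen_compl c hc
  obtain ⟨I, u, hu, hsub⟩ := h1
  refine ⟨I, fun c' hc' => ?_⟩
  have h2 : c' ∈ (I : Set ι).pi u := by
    intro j hj
    rw [hc' j hj]
    exact (hu j hj).2
  exact hsub h2

/-- finite partial injections extend to permutations -/
private theorem BAI_ext (E : Finset ℕ) (c : ℕ → ℕ) (hc : Set.InjOn c E) :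
    ∃ g : Equiv.Perm ℕ, ∀ x ∈ E, g x = c x := by
  classical
  let e1 : (E : Set ℕ) ≃ (c '' (E : Set ℕ) : Set ℕ) := Equiv.Set.imageOfInjOn c E hc
  have hinf1 : Infinite ((E : Set ℕ)ᶜ : Set ℕ) := (Set.Finite.infinite_compl E.finite_toSet).to_subtype
  have hinf2 : Infinite ((c '' (E : Set ℕ))ᶜ : Set ℕ) :=
    (Set.Finite.infinite_compl (E.finite_toSet.image c)).to_subtype
  obtain ⟨e2⟩ : Nonempty (((E : Set ℕ)ᶜ : Set ℕ) ≃ ((c '' (E : Set ℕ))ᶜ : Set ℕ)) :=
    nonempty_equiv_of_countable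
  refine ⟨(Equiv.Set.sumCompl (E : Set ℕ)).symm.trans
    ((Equiv.sumCongr e1 e2).trans (Equiv.Set.sumCompl (c '' (E : Set ℕ)))), ?_⟩
  intro x hx
  have hx' : x ∈ (E : Set ℕ) := hx
  simp only [Equiv.trans_apply, Equiv.Set.sumCompl_symm_apply_of_mem hx', Equiv.sumCongr_apply,
    Sum.map_inl, Equiv.Set.sumCompl_apply_inl]
  rfl

section
variable {L : FirstOrder.Language.{0, 0}} [∀ n, IsEmpty (L.Functions n)]

private theorem BAI_iso (S : L.Structure ℕ) (g : Equiv.Perm ℕ) : Iso (pl S g) S :=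
  ⟨g, fun n R v => Iff.rfl⟩

/-- the entries of finitely many atomic facts -/
private def BAI_ent (I : Finset ((n : ℕ) × (L.Relations n × (Fin n → ℕ)))) : Finset ℕ :=
  I.biUnion fun p => Finset.univ.image p.2.2

private theorem BAI_mem_ent {I : Finset ((n : ℕ) × (L.Relations n × (Fin n → ℕ)))}
    {p : (n : ℕ) × (L.Relations n × (Fin n → ℕ))} (hp : p ∈ I) (k : Fin p.1) :
    p.2.2 k ∈ BAI_ent I :=
  Finset.mem_biUnion.2 ⟨p, hp, Finset.mem_image.2 ⟨k, Finset.mem_univ _, rfl⟩⟩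

private theorem BAI_ofStr_eq {S S' : L.Structure ℕ} {p : (n : ℕ) × (L.Relations n × (Fin n → ℕ))}
    (h : S.RelMap p.2.1 p.2.2 ↔ S'.RelMap p.2.1 p.2.2) : ofStr S p = ofStr S' p := by
  unfold ofStr
  exact decide_eq_decide.2 h

/-- the category argument -/
private theorem BAI_cat (S : L.Structure ℕ) (D : ℕ → Set (Code L)) (hD : ∀ i, IsClosed (D i))
    (hS : ∀ g : Equiv.Perm ℕ, ∃ i, ofStr (pl S g) ∈ D i) :
    ∃ (i : ℕ) (σ : Equiv.Perm ℕ) (F : Finset ℕ), ∀ g : Equiv.Perm ℕ, (∀ x ∈ F, g x = σ x) →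
      ofStr (pl S g) ∈ D i := by
  classical
  by_contra hcon
  push Not at hcon
  -- one step
  have step : ∀ (i : ℕ) (a : Equiv.Perm ℕ × Finset ℕ), ∃ b : Equiv.Perm ℕ × Finset ℕ,
      a.2 ⊆ b.2 ∧ (∀ x ∈ a.2, b.1 x = a.1 x) ∧ i ∈ b.2 ∧ b.1.symm i ∈ b.2 ∧
      ∀ g : Equiv.Perm ℕ, (∀ x ∈ b.2, g x = b.1 x) → ofStr (pl S g) ∉ D i := by
    intro i a
    obtain ⟨g, hg, hgD⟩ := hcon i a.1 a.2
    obtain ⟨I, hI⟩ := BAI_sep (hD i) hgD
    refine ⟨(g, a.2 ∪ BAI_ent I ∪ {i, g.symm i}), ?_, hg, ?_, ?_, ?_⟩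
    · exact Finset.subset_union_left.trans Finset.subset_union_left
    · exact Finset.mem_union_right _ (Finset.mem_insert_self _ _)
    · exact Finset.mem_union_right _ (Finset.mem_insert_of_mem (Finset.mem_singleton_self _))
    · intro g' hg'
      refine hI _ fun p hp => BAI_ofStr_eq ?_
      show S.RelMap p.2.1 (fun k => g' (p.2.2 k)) ↔ S.RelMap p.2.1 (fun k => g (p.2.2 k))
      have : (fun k => g' (p.2.2 k)) = fun k => g (p.2.2 k) := by
        funext k
        exact hg' _ (Finset.mem_union_left _ (Finset.mem_union_right _ (BAI_mem_ent hp k)))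
      rw [this]
  choose nx hn1 hn2 hn3 hn4 hn5 using step
  let a : ℕ → Equiv.Perm ℕ × Finset ℕ := fun j => Nat.rec (Equiv.refl ℕ, ∅) (fun i b => nx i b) j
  have ha : ∀ i, a (i + 1) = nx i (a i) := fun i => rfl
  have hmono : ∀ i j, i ≤ j → (a i).2 ⊆ (a j).2 ∧ ∀ x ∈ (a i).2, (a j).1 x = (a i).1 x := by
    intro i j hij
    induction hij with
    | refl => exact ⟨Finset.Subset.refl _, fun x _ => rfl⟩
    | step h ih =>
      rename_i m
      rw [Nat.succ_eq_add_one, ha]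
      refine ⟨ih.1.trans (hn1 _ _), fun x hx => ?_⟩
      rw [hn2 _ _ x (ih.1 hx), ih.2 x hx]
  have hdom : ∀ x, x ∈ (a (x + 1)).2 := fun x => by rw [ha]; exact hn3 _ _
  have hran : ∀ x, (a (x + 1)).1.symm x ∈ (a (x + 1)).2 := fun x => by rw [ha]; exact hn4 _ _
  let g0 : ℕ → ℕ := fun x => (a (x + 1)).1 x
  have hg0 : ∀ i, ∀ x ∈ (a i).2, g0 x = (a i).1 x := by
    intro i x hx
    have h1 := (hmono i (max i (x + 1)) (le_max_left _ _)).2 x hx
    have h2 := (hmono (x + 1) (max i (x + 1)) (le_max_right _ _)).2 x (hdom x)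
    show (a (x + 1)).1 x = (a i).1 x
    rw [← h1, ← h2]
  have hinj : Function.Injective g0 := by
    intro x y hxy
    have hx := (hmono (x + 1) (max (x + 1) (y + 1)) (le_max_left _ _)).1 (hdom x)
    have hy := (hmono (y + 1) (max (x + 1) (y + 1)) (le_max_right _ _)).1 (hdom y)
    rw [hg0 _ x hx, hg0 _ y hy] at hxy
    exact (a (max (x + 1) (y + 1))).1.injective hxy
  have hsurj : Function.Surjective g0 := by
    intro y
    refine ⟨(a (y + 1)).1.symm y, ?_⟩
    rw [hg0 (y + 1) _ (hran y), Equiv.apply_symm_apply]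
  let g : Equiv.Perm ℕ := Equiv.ofBijective g0 ⟨hinj, hsurj⟩
  obtain ⟨i, hi⟩ := hS g
  refine hn5 i (a i) g ?_ hi
  intro x hx
  show g0 x = _
  rw [← ha] at hx ⊢
  exact hg0 (i + 1) x hx

end

theorem thm_BAI : St_BAI := by
  classical
  intro L _ K hiso D hD hK S S' f hf hrel hEC hS
  have h1 : ∀ g : Equiv.Perm ℕ, ∃ i, ofStr (pl S g) ∈ D i := fun g =>
    (hK _).1 (hiso S (pl S g) (Pool.Agent.Helper6.Str.Iso.symm (BAI_iso S g)) hS)
  obtain ⟨i, σ, F, hσ⟩ := BAI_cat S D hD h1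
  obtain ⟨g', hg'⟩ := BAI_ext F (fun x => f (σ x)) (by
    intro x _ y _ hxy
    exact σ.injective (hf hxy))
  have h2 : ofStr (pl S' g') ∈ D i := by
    by_contra hcon
    obtain ⟨I, hI⟩ := BAI_sep (hD i) hcon
    let E : Finset ℕ := F ∪ BAI_ent I
    let eF := F.equivFin
    let eE := E.equivFin
    let a : Fin F.card → ℕ := fun j => f (σ (eF.symm j))
    let b : Fin E.card → ℕ := fun j => g' (eE.symm j)
    have hent : ∀ p ∈ I, ∀ k : Fin p.1, p.2.2 k ∈ E := fun p hp k =>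
      Finset.mem_union_right _ (BAI_mem_ent hp k)
    let Φ : Set ((k : ℕ) × L.Relations k × (Fin k → Fin F.card ⊕ Fin E.card)) :=
      (fun p : {p // p ∈ I} => (⟨p.1.1, p.1.2.1, fun k =>
        Sum.inr (eE ⟨p.1.2.2 k, hent p.1 p.2 k⟩)⟩ :
        (k : ℕ) × L.Relations k × (Fin k → Fin F.card ⊕ Fin E.card))) '' Set.univ
    obtain ⟨b', hb'1, hb'2, hb'3⟩ := hEC.2 F.card E.card a b (fun j => ⟨_, rfl⟩)
      (fun j => Set.mem_univ _) Φ (Set.toFinite _)
    choose c hc using hb'1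
    -- `f (c j) = b' j`
    have hbinj : ∀ j j', c j = c j' → j = j' := by
      intro j j' hjj
      have h3 : b' j = b' j' := by rw [← hc j, ← hc j', hjj]
      have h4 := (hb'2 (Sum.inr j) (Sum.inr j')).2 h3
      have h5 : (eE.symm j : ℕ) = (eE.symm j' : ℕ) := g'.injective h4
      exact eE.symm.injective (Subtype.ext h5)
    obtain ⟨g, hg⟩ := BAI_ext E (fun x => if hx : x ∈ E then c (eE ⟨x, hx⟩) else 0) (by
      intro x hx y hy hxy
      have hx' : x ∈ E := hx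
      have hy' : y ∈ E := hy
      simp only [dif_pos hx', dif_pos hy'] at hxy
      have h3 := eE.injective (hbinj _ _ hxy)
      exact congrArg Subtype.val h3)
    have hgE : ∀ x (hx : x ∈ E), f (g x) = b' (eE ⟨x, hx⟩) := by
      intro x hx
      rw [hg x hx, dif_pos hx, hc]
    have hgF : ∀ x ∈ F, g x = σ x := by
      intro x hx
      have hxE : x ∈ E := Finset.mem_union_left _ hx
      apply hf
      rw [hgE x hxE]
      have h3 : a (eF ⟨x, hx⟩) = b (eE ⟨x, hxE⟩) := by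
        simp only [a, b, Equiv.symm_apply_apply]
        exact (hg' x hx).symm
      have h4 : a (eF ⟨x, hx⟩) = b' (eE ⟨x, hxE⟩) :=
        (hb'2 (Sum.inl (eF ⟨x, hx⟩)) (Sum.inr (eE ⟨x, hxE⟩))).1 h3
      rw [← h4]
      simp only [a, Equiv.symm_apply_apply]
    refine hI (ofStr (pl S g)) ?_ (hσ g hgF)
    intro p hp
    refine BAI_ofStr_eq ?_
    show S.RelMap p.2.1 (fun k => g (p.2.2 k)) ↔ S'.RelMap p.2.1 (fun k => g' (p.2.2 k))
    rw [hrel]
    have h3 := hb'3 _ ⟨⟨p, hp⟩, Set.mem_univ _, rfl⟩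
    have e1 : (fun k => Sum.elim a b (Sum.inr (eE ⟨p.2.2 k, hent p hp k⟩) : Fin F.card ⊕ Fin E.card))
        = fun k => g' (p.2.2 k) := by
      funext k
      simp only [b, Sum.elim_inr, Equiv.symm_apply_apply]
    have e2' : (fun k => Sum.elim a b' (Sum.inr (eE ⟨p.2.2 k, hent p hp k⟩) : Fin F.card ⊕ Fin E.card))
        = f ∘ fun k => g (p.2.2 k) := by
      funext k
      simp only [Sum.elim_inr, Function.comp_apply]
      exact (hgE _ (hent p hp k)).symm
    rw [← e1, ← e2']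
    exact h3.symm
  exact hiso _ _ (BAI_iso S' g') ((hK _).2 ⟨i, h2⟩)

end EAU
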