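import Pool.Agent.EAU.StF

/-!
# EAU, module CLO: existentially closed extensions from models of `Gam S`
-/

set_option autoImplicit false
set_option linter.unusedVariables false

namespace EAU

open Set FirstOrder.Language ORD EAP
open scoped FirstOrder

open Pool.Agent.Helper6.Str (PerfK CtblK Iso RelIso Code toStr ofStr)
open Pool.Agent.Helper79.VC (pl Scat)

private lemma CLO_lit {L : FirstOrder.Language.{0, 0}} {ι : Type} (q : Qf L ι) (p : Prop) :
    ∃ q' : Qf L ι, ∀ (M : Type) (S : L.Structure M) (v : ι → M),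
      q'.Tr S v ↔ (p ↔ q.Tr S v) := by
  by_cases hp : p
  · exact ⟨q, fun M S v => ⟨fun h => ⟨fun _ => h, fun _ => hp⟩, fun h => h.1 hp⟩⟩
  · refine ⟨q.not, fun M S v => ?_⟩
    show (q.Tr S v → False) ↔ _
    tauto

private lemma CLO_qf {L : FirstOrder.Language.{0, 0}} {S : L.Structure ℕ} {V : Type}
    {S' : L.Structure V} {w : ℕ → V} (h : Mdl (Gam S) S' w) (q : Qf L ℕ) :
    q.Tr S id ↔ q.Tr S' w := by
  constructor
  · intro h1
    exact (BAS_uqf S' univ w q).1 (h _ ((BAS_uqf S univ id q).2 h1))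
  · intro h1
    by_contra h2
    have h3 : (q.not).Tr S id := h2
    exact (BAS_uqf S' univ w q.not).1 (h _ ((BAS_uqf S univ id q.not).2 h3)) h1

theorem thm_CLO : St_CLO := by
  classical
  intro L _ K hK S hS V S' w hM e he hr
  have hw : ∀ x, ∃ y, e y = w x := fun x => hr (mem_range_self x)
  choose f hf using hw
  have hwinj : Function.Injective w := by
    intro x y hxy
    have := CLO_qf hM (.eq x y)
    exact this.2 hxy
  have hfinj : Function.Injective f := by
    intro x y hxy
    apply hwinj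
    rw [← hf x, ← hf y, hxy]
  have hrel : ∀ (n : ℕ) (R : L.Relations n) (v : Fin n → ℕ),
      S.RelMap R v ↔ S'.RelMap R (fun k => w (v k)) := fun n R v => CLO_qf hM (.rel n R v)
  refine hK S (pl S' e) f hfinj ?_ ?_ hS
  · intro n R v
    rw [hrel n R v]
    show _ ↔ S'.RelMap R (fun i => e ((f ∘ v) i))
    have : (fun k => w (v k)) = fun i => e ((f ∘ v) i) := funext fun i => (hf (v i)).symm
    rw [this]
  · refine ⟨subset_univ _, fun m n a b ha _ F hF => ?_⟩
    choose a0 ha0 using ha
    let h : Fin m ⊕ Fin n → ℕ ⊕ Fin n := Sum.map a0 id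
    have hval : ∀ i, Sum.elim w (e ∘ b) (h i) = e (Sum.elim a b i) := by
      rintro (i | i)
      · show w (a0 i) = e (a i)
        rw [← hf, ha0]
      · rfl
    have hval2 : ∀ (z : Fin n → ℕ) i, Sum.elim a (f ∘ z) i = f (Sum.elim id z (h i)) := by
      rintro z (i | i)
      · exact (ha0 i).symm
      · rfl
    -- the literals
    have hE := fun p : (Fin m ⊕ Fin n) × (Fin m ⊕ Fin n) =>
      CLO_lit (L := L) (Qf.eq (h p.1) (h p.2)) (Sum.elim a b p.1 = Sum.elim a b p.2)
    choose qE hqE using hE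
    have hR := fun r : (k : ℕ) × L.Relations k × (Fin k → Fin m ⊕ Fin n) =>
      CLO_lit (L := L) (Qf.rel r.1 r.2.1 fun k => h (r.2.2 k))
        ((pl S' e).RelMap r.2.1 fun k => Sum.elim a b (r.2.2 k))
    choose qR hqR using hR
    let l : List (Qf L (ℕ ⊕ Fin n)) :=
      (Finset.univ : Finset ((Fin m ⊕ Fin n) × (Fin m ⊕ Fin n))).toList.map qE ++
        hF.toFinset.toList.map qR
    have hl : ∀ (M : Type) (T : L.Structure M) (v : ℕ ⊕ Fin n → M),
        (Qf.all l).Tr T v ↔ (∀ p : (Fin m ⊕ Fin n) × (Fin m ⊕ Fin n),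
            (Sum.elim a b p.1 = Sum.elim a b p.2 ↔ v (h p.1) = v (h p.2))) ∧
          ∀ r ∈ F, ((pl S' e).RelMap r.2.1 (fun k => Sum.elim a b (r.2.2 k)) ↔
            T.RelMap r.2.1 fun k => v (h (r.2.2 k))) := by
      intro M T v
      rw [BAS_qall]
      constructor
      · intro hh
        refine ⟨fun p => (hqE p M T v).1 (hh _ (List.mem_append_left _ (List.mem_map_of_mem
          (Finset.mem_toList.2 (Finset.mem_univ p))))), fun r hr' => (hqR r M T v).1 (hh _
          (List.mem_append_right _ (List.mem_map_of_mem (Finset.mem_toList.2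
            (hF.mem_toFinset.2 hr')))))⟩
      · rintro ⟨h1, h2⟩ φ hφ
        rcases List.mem_append.1 hφ with hφ | hφ
        · obtain ⟨p, -, rfl⟩ := List.mem_map.1 hφ
          exact (hqE p M T v).2 (h1 p)
        · obtain ⟨r, hr', rfl⟩ := List.mem_map.1 hφ
          exact (hqR r M T v).2 (h2 r (hF.mem_toFinset.1 (Finset.mem_toList.1 hr')))
    have hex : ∃ z : Fin n → ℕ, (Qf.all l).Tr S (Sum.elim id z) := by
      by_contra hcon
      push Not at hcon
      have hmem : (⟨n, (Qf.all l).not⟩ : Uf L ℕ) ∈ Gam S := by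
        intro z _
        exact hcon z
      have h1 := hM _ hmem (e ∘ b) fun _ => mem_univ _
      refine h1 ((hl V S' (Sum.elim w (e ∘ b))).2 ⟨fun p => ?_, fun r _ => ?_⟩)
      · rw [hval, hval]
        exact he.eq_iff.symm
      · show S'.RelMap r.2.1 (fun k => e (Sum.elim a b (r.2.2 k))) ↔ _
        have : (fun k => e (Sum.elim a b (r.2.2 k))) =
            fun k => Sum.elim w (e ∘ b) (h (r.2.2 k)) := funext fun k => (hval _).symm
        rw [this]
    obtain ⟨z, hz⟩ := hex
    obtain ⟨h1, h2⟩ := (hl ℕ S _).1 hz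
    refine ⟨f ∘ z, fun i => ⟨z i, rfl⟩, fun i j => ?_, fun r hr' => ?_⟩
    · rw [hval2, hval2, hfinj.eq_iff]
      exact h1 (i, j)
    · refine (h2 r hr').trans ?_
      rw [hrel]
      show _ ↔ S'.RelMap r.2.1 (fun k => e (Sum.elim a (f ∘ z) (r.2.2 k)))
      have : (fun k => w (Sum.elim id z (h (r.2.2 k)))) =
          fun k => e (Sum.elim a (f ∘ z) (r.2.2 k)) := by
        funext k
        rw [hval2, hf]
      rw [this]

end EAU
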