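import Pool.Agent.EAU.StE

/-!
EAU [CNTK] (helper44): the dichotomy for an upward closed family of countable elementary submodels.
-/

set_option autoImplicit false

namespace EAU

open FirstOrder.Language Set
open scoped FirstOrder
open Pool.Agent.WOM (tp Mon IsEl IsoM Fam ThS)
open Pool.Agent.MST (Stb MSt CM At NTr mul App Tau Cx UN FM)

/-- pairwise disjoint nonempty subsets of a countable set are countably many -/
private theorem CNTK_count {X : Type} (M : Set X) (hM : M.Countable) (A : Set (Set X))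
    (hA : ∀ K ∈ A, K ⊆ M ∧ K.Nonempty)
    (hd : ∀ K ∈ A, ∀ K' ∈ A, (K ∩ K').Nonempty → K = K') : A.Countable := by
  classical
  have hne : ∀ K : A, ∃ x : M, (x : X) ∈ (K : Set X) := fun K => by
    obtain ⟨x, hx⟩ := (hA K K.2).2
    exact ⟨⟨x, (hA K K.2).1 hx⟩, hx⟩
  choose c hc using hne
  have hinj : Function.Injective c := by
    intro K K' h
    apply Subtype.ext
    refine hd K K.2 K' K'.2 ⟨c K, hc K, ?_⟩
    rw [h]
    exact hc K'
  have : Countable M := hM.to_subtype
  exact Set.countable_coe_iff.1 hinj.countable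

/-- [CNTK] -/
theorem thm_CNTK (hPRFK : St_PRFK) (hCNBK : St_CNBK) (hATM : Pool.Agent.MST.St_ATM)
    (hAPQ : Pool.Agent.MST.St_APQ) (hGLU : Pool.Agent.MST.St_GLU)
    (hCNA : Pool.Agent.MST.St_CNA) : St_CNTK := by
  intro L U V _ _ j hC hU F hF
  by_cases hE : ∃ M ∈ F, ∃ K : ℕ → Set V,
      (∀ n, K n ∈ At j M ∧ NTr j (K n) ∧ mul j M (K n) ≠ ⊤) ∧ ∀ m n, m ≠ n → ¬ App L (K m) (K n)
  · obtain ⟨M, hM, hK⟩ := hE
    exact Or.inr (hPRFK L U V j hC hU F hF M hM hK)
  · left
    have hE' : ∀ M ∈ F, ¬ ∃ K : ℕ → Set V,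
        (∀ n, K n ∈ At j M ∧ NTr j (K n) ∧ mul j M (K n) ≠ ⊤) ∧
          ∀ m n, m ≠ n → ¬ App L (K m) (K n) := fun M hM h => hE ⟨M, hM, h⟩
    obtain ⟨hr, hs, ht, hP⟩ := hAPQ L U V j hC
    have hmul : ∀ M K K' : Set V, App L K K' → mul j M K = mul j M K' := by
      intro M K K' h
      unfold Pool.Agent.MST.mul
      congr 1
      ext K''
      constructor
      · rintro ⟨h1, h2⟩
        exact ⟨h1, ht _ _ _ (hs _ _ h) h2⟩
      · rintro ⟨h1, h2⟩
        exact ⟨h1, ht _ _ _ h h2⟩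
    rcases F.eq_empty_or_nonempty with hemp | hne
    · refine ⟨fun _ => ∅, fun M hM => ?_⟩
      rw [hemp] at hM
      exact hM.elim
    have hlast : ∀ M ∈ F, ∃ k : ℕ → Set V, ∀ K ∈ Tau j,
        mul j M K ≠ 0 → ∃ n, App L K (k n) := by
      intro M hM
      have hct : (At j M).Countable := CNTK_count M (hF.cm M hM).1 (At j M)
        (fun K hK => ⟨hK.1, hK.2.2.1⟩) (fun K hK K' hK' h => (hATM L U V j hC M).2.1 K hK K' hK' h)
      by_cases h0 : (At j M).Nonempty
      · obtain ⟨k, hk⟩ := hct.exists_eq_range h0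
        refine ⟨k, fun K _ hK => ?_⟩
        have h1 : {K' ∈ At j M | App L K K'}.Nonempty := by
          rw [← Set.encard_ne_zero]
          exact hK
        obtain ⟨K', hK', h2⟩ := h1
        rw [hk] at hK'
        obtain ⟨n, rfl⟩ := hK'
        exact ⟨n, h2⟩
      · refine ⟨fun _ => ∅, fun K _ hK => ?_⟩
        exfalso
        apply hK
        unfold Pool.Agent.MST.mul
        rw [Set.encard_eq_zero]
        ext K'
        constructor
        · rintro ⟨h1, _⟩
          exact h0 ⟨K', h1⟩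
        · intro h
          exact h.elim
    obtain ⟨g, hg, hcov⟩ := hCNA (Set V) (Set V) F (Tau j) (App L)
      (fun M K => mul j M K) hne ⟨hr, fun {K K'} h => hs K K' h, fun {K K' K''} h h' =>
        ht K K' K'' h h'⟩ hmul (fun M hM => hCNBK L U V j hC hU F hF hE' M hM) hlast
    refine ⟨g, fun M hM => ?_⟩
    obtain ⟨n, hn⟩ := hcov M hM
    exact ⟨n, hGLU L U V j hC M (g n) (hF.cm M hM) (hF.cm _ (hg n)) hn⟩

end EAU
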