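import Pool.Agent.EAU.StF
import Pool.Agent.VPF.Defs

/-!
# EAU, part F: [EAT] theories with prefixes `∃*∀*`
-/

set_option autoImplicit false
set_option linter.unusedVariables false

namespace EAU

open Set FirstOrder FirstOrder.Language VPF

variable {L : FirstOrder.Language.{0, 0}}

/-- the value of a term in a relational language -/
theorem EAT_term [∀ n, IsEmpty (L.Functions n)] {k : ℕ} (t : L.Term (Empty ⊕ Fin k)) :
    ∃ j : Fin k, ∀ (M : Type) (S : L.Structure M) (v : Empty → M) (xs : Fin k → M),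
      @Term.realize L M S _ (Sum.elim v xs) t = xs j := by
  cases t with
  | var x =>
    rcases x with x | j
    · exact x.elim
    · exact ⟨j, fun M S v xs => rfl⟩
  | func f ts => exact isEmptyElim f

/-- a quantifier free formula depends on the equations and on finitely many relations -/
theorem EAT_qf [∀ n, IsEmpty (L.Functions n)] {k : ℕ} {φ : L.BoundedFormula Empty k} (h : φ.IsQF) :
    ∃ F : Set ((n : ℕ) × L.Relations n × (Fin n → Fin k)), F.Finite ∧
      ∀ (M M' : Type) (S : L.Structure M) (S' : L.Structure M') (v : Empty → M) (v' : Empty → M')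
        (xs : Fin k → M) (xs' : Fin k → M'),
        (∀ i j, xs i = xs j ↔ xs' i = xs' j) →
        (∀ r ∈ F, (S.RelMap r.2.1 (fun i => xs (r.2.2 i)) ↔
          S'.RelMap r.2.1 (fun i => xs' (r.2.2 i)))) →
        (@BoundedFormula.Realize L M S _ _ φ v xs ↔ @BoundedFormula.Realize L M' S' _ _ φ v' xs') := by
  induction h with
  | falsum => exact ⟨∅, finite_empty, fun M M' S S' v v' xs xs' _ _ => Iff.rfl⟩
  | of_isAtomic h =>
    cases h with
    | equal t₁ t₂ =>
      obtain ⟨j₁, h₁⟩ := EAT_term t₁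
      obtain ⟨j₂, h₂⟩ := EAT_term t₂
      refine ⟨∅, finite_empty, fun M M' S S' v v' xs xs' he _ => ?_⟩
      rw [BoundedFormula.realize_bdEqual, BoundedFormula.realize_bdEqual, h₁, h₂, h₁, h₂]
      exact he _ _
    | rel R ts =>
      choose j hj using fun i => EAT_term (ts i)
      refine ⟨{⟨_, R, j⟩}, finite_singleton _, fun M M' S S' v v' xs xs' _ hF => ?_⟩
      have h1 := hF _ (mem_singleton _)
      rw [BoundedFormula.realize_rel, BoundedFormula.realize_rel]
      simp only [hj]
      exact h1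
  | imp _ _ ih1 ih2 =>
    obtain ⟨F1, hF1, h1⟩ := ih1
    obtain ⟨F2, hF2, h2⟩ := ih2
    refine ⟨F1 ∪ F2, hF1.union hF2, fun M M' S S' v v' xs xs' he hF => ?_⟩
    rw [BoundedFormula.realize_imp, BoundedFormula.realize_imp]
    rw [h1 M M' S S' v v' xs xs' he fun r hr => hF r (Or.inl hr),
      h2 M M' S S' v v' xs xs' he fun r hr => hF r (Or.inr hr)]

/-- universal formulas: failures can be found in the small structure -/
theorem EAT_univ [∀ n, IsEmpty (L.Functions n)] {S S' : L.Structure ℕ} {f : ℕ → ℕ}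
    (hf : Function.Injective f)
    (hr : ∀ (n : ℕ) (R : L.Relations n) (v : Fin n → ℕ), S.RelMap R v ↔ S'.RelMap R (f ∘ v))
    (hE : @EC L ℕ S' (range f) univ) (n : ℕ) : ∀ {k : ℕ} {φ : L.BoundedFormula Empty k},
    Pre (List.replicate n true) φ → ∀ (ys : Fin k → ℕ) (I : Set (Fin k)) (v : Empty → ℕ),
      (∀ i ∈ I, ys i ∈ range f) → ¬ @BoundedFormula.Realize L ℕ S' _ _ φ v ys →
      ∃ xs : Fin k → ℕ, (∀ i ∈ I, f (xs i) = ys i) ∧ ¬ @BoundedFormula.Realize L ℕ S _ _ φ v xs := by
  classical
  induction n with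
  | zero =>
    intro k φ h ys I v hI hys
    have h' : φ.IsQF := by
      cases h with
      | qf h => exact h
    obtain ⟨F, hF, hF2⟩ := EAT_qf h'
    -- the tuple of the entries in `I`
    obtain ⟨m, e⟩ := finite_iff_exists_equiv_fin.1 (inferInstance : Finite I)
    obtain ⟨e⟩ := e
    let a : Fin m → ℕ := fun i => ys (e.symm i)
    have ha : ∀ i, a i ∈ range f := fun i => hI _ (e.symm i).2
    let F' : Set ((n : ℕ) × L.Relations n × (Fin n → Fin m ⊕ Fin k)) :=
      (fun r => ⟨r.1, r.2.1, fun i => Sum.inr (r.2.2 i)⟩) '' F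
    obtain ⟨b', hb1, hb2, hb3⟩ := hE.2 m k a ys ha (fun _ => mem_univ _) F' (hF.image _)
    choose xs hxs using hb1
    refine ⟨xs, fun i hi => ?_, ?_⟩
    · rw [hxs]
      have h1 := (hb2 (Sum.inl (e ⟨i, hi⟩)) (Sum.inr i)).1 (by simp [a])
      simpa [a] using h1.symm
    · intro hreal
      refine hys ((hF2 ℕ ℕ S S' v v xs ys (fun i j => ?_) fun r hr' => ?_).1 hreal)
      · have h1 := hb2 (Sum.inr i) (Sum.inr j)
        simp only [Sum.elim_inr] at h1
        rw [h1, ← hxs, ← hxs, hf.eq_iff]
      · have h1 := hb3 _ (mem_image_of_mem _ hr')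
        simp only [Sum.elim_inr] at h1
        rw [hr]
        have h2 : (f ∘ fun i => xs (r.2.2 i)) = fun i => b' (r.2.2 i) := by
          funext i
          simp [hxs]
        rw [h2]
        exact h1.symm
  | succ n ih =>
    intro k φ h ys I v hI hys
    have h0 : Pre (true :: List.replicate n true) φ := h
    cases h0 with
    | all h1 =>
      let _ := S'
      rw [BoundedFormula.realize_all] at hys
      push Not at hys
      obtain ⟨z, hz⟩ := hys
      obtain ⟨xs, hx1, hx2⟩ := ih h1 (Fin.snoc ys z) (Fin.castSucc '' I) v (by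
        rintro _ ⟨i, hi, rfl⟩
        rw [Fin.snoc_castSucc]
        exact hI i hi) hz
      refine ⟨fun i => xs i.castSucc, fun i hi => ?_, fun hcon => hx2 ?_⟩
      · have h2 := hx1 _ (mem_image_of_mem _ hi)
        rwa [Fin.snoc_castSucc] at h2
      · have h3 := hcon (xs (Fin.last k))
        have h4 : (Fin.snoc (fun i => xs (Fin.castSucc i)) (xs (Fin.last k)) : Fin (k + 1) → ℕ)
            = xs := Fin.snoc_init_self xs
        rwa [h4] at h3

/-- `∃*∀*` formulas go up to existentially closed extensions -/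
theorem EAT_ex [∀ n, IsEmpty (L.Functions n)] {S S' : L.Structure ℕ} {f : ℕ → ℕ}
    (hf : Function.Injective f)
    (hr : ∀ (n : ℕ) (R : L.Relations n) (v : Fin n → ℕ), S.RelMap R v ↔ S'.RelMap R (f ∘ v))
    (hE : @EC L ℕ S' (range f) univ) (n m : ℕ) : ∀ {k : ℕ} {φ : L.BoundedFormula Empty k},
    Pre (List.replicate m false ++ List.replicate n true) φ → ∀ (v : Empty → ℕ) (xs : Fin k → ℕ),
      @BoundedFormula.Realize L ℕ S _ _ φ v xs → @BoundedFormula.Realize L ℕ S' _ _ φ v (f ∘ xs) := by
  induction m with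
  | zero =>
    intro k φ h v xs hx
    by_contra hcon
    obtain ⟨xs', h1, h2⟩ := EAT_univ hf hr hE n h (f ∘ xs) univ v
      (fun i _ => mem_range_self _) hcon
    have h3 : xs' = xs := funext fun i => hf (h1 i (mem_univ _))
    rw [h3] at h2
    exact h2 hx
  | succ m ih =>
    intro k φ h v xs hx
    have h' : Pre (false :: (List.replicate m false ++ List.replicate n true)) φ := h
    cases h' with
    | ex h1 =>
      rename_i φ'
      have h2 : ∃ a, @BoundedFormula.Realize L ℕ S _ _ φ' v (Fin.snoc xs a) := by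
        let _ := S
        exact BoundedFormula.realize_ex.1 hx
      obtain ⟨a, ha⟩ := h2
      have h3 := ih h1 v _ ha
      let _ := S'
      rw [BoundedFormula.realize_ex]
      refine ⟨f a, ?_⟩
      have h4 : (Fin.snoc (f ∘ xs) (f a) : Fin (k + 1) → ℕ) = f ∘ Fin.snoc xs a := by
        rw [Fin.comp_snoc]
      rw [h4]
      exact h3

theorem EAT_sent (S : L.Structure ℕ) (φ : L.Sentence) (v : Empty → ℕ) (xs : Fin 0 → ℕ) :
    @Sentence.Realize L ℕ S φ ↔ @BoundedFormula.Realize L ℕ S _ _ φ v xs := by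
  unfold Sentence.Realize Formula.Realize
  rw [Subsingleton.elim v (@default (Empty → ℕ) Unique.instInhabited),
    Subsingleton.elim xs (@default (Fin 0 → ℕ) Unique.instInhabited)]

/-- [EAT] -/
theorem thm_EAT [∀ n, IsEmpty (L.Functions n)] (T : L.Theory)
    (hT : ∀ φ ∈ T, ∃ m n, Pre (List.replicate m false ++ List.replicate n true) φ) :
    ECc (ModF T) := by
  intro S S' f hf hr hE hS
  have h1 : ∀ φ ∈ T, @Sentence.Realize L ℕ S φ := by
    let _ := S
    exact (Theory.model_iff (M := ℕ) T).1 hS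
  have h2 : ∀ φ ∈ T, @Sentence.Realize L ℕ S' φ := by
    intro φ hφ
    obtain ⟨m, n, h⟩ := hT φ hφ
    have h3 := EAT_ex hf hr hE n m h (fun e => e.elim) (fun i => i.elim0)
      ((EAT_sent S φ _ _).1 (h1 φ hφ))
    exact (EAT_sent S' φ _ _).2 h3
  let _ := S'
  exact (Theory.model_iff (M := ℕ) T).2 h2

end EAU
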