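import Pool.Agent.EAU.StE

/-!
# EAU, part E: elementary extensions are existentially closed extensions (helper22)
-/

set_option autoImplicit false

namespace EAU

open Set FirstOrder.Language
open scoped FirstOrder Classical
open Pool.Agent.WOM (tp)

section

variable {L : FirstOrder.Language.{0, 0}} {M M' : Type} [L.Structure M] [L.Structure M']

/-- elementary maps preserve formulas with finitely many variables -/
theorem ECE_rz {f : M → M'} (h : ∀ (n : ℕ) (a : Fin n → M), tp (L := L) a = tp (L := L) (f ∘ a))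
    {α : Type} [Finite α] (φ : L.Formula α) (v : α → M) :
    φ.Realize v ↔ φ.Realize (f ∘ v) := by
  obtain ⟨n, ⟨e⟩⟩ := Finite.exists_equiv_fin α
  have h1 : φ.relabel e ∈ tp (L := L) (v ∘ e.symm) ↔ φ.relabel e ∈ tp (L := L) (f ∘ v ∘ e.symm) := by
    rw [h n (v ∘ e.symm)]
  have h2 : (v ∘ e.symm) ∘ e = v := by funext i; simp
  have h3 : (f ∘ v ∘ e.symm) ∘ e = f ∘ v := by funext i; simp
  change (φ.relabel e).Realize (v ∘ e.symm) ↔ (φ.relabel e).Realize (f ∘ v ∘ e.symm) at h1
  rw [FirstOrder.Language.Formula.realize_relabel, FirstOrder.Language.Formula.realize_relabel,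
    h2, h3] at h1
  exact h1

private noncomputable def ECE_sg {α : Type} (p : Prop) (φ : L.Formula α) : L.Formula α :=
  if p then φ else ∼φ

private theorem ECE_sg_rz {α : Type} (p : Prop) (φ : L.Formula α) (v : α → M) :
    (ECE_sg p φ).Realize v ↔ (p ↔ φ.Realize v) := by
  by_cases hp : p
  · simp [ECE_sg, hp]
  · simp [ECE_sg, hp]

theorem ECE_inj {f : M → M'}
    (h : ∀ (n : ℕ) (a : Fin n → M), tp (L := L) a = tp (L := L) (f ∘ a)) :
    Function.Injective f := by
  intro x y hxy
  have := (ECE_rz h ((Term.var (0 : Fin 2)).equal (Term.var 1)) ![x, y]).2 (by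
    rw [FirstOrder.Language.Formula.realize_equal]
    exact hxy)
  rw [FirstOrder.Language.Formula.realize_equal] at this
  exact this

theorem ECE_rel {f : M → M'}
    (h : ∀ (n : ℕ) (a : Fin n → M), tp (L := L) a = tp (L := L) (f ∘ a)) (n : ℕ)
    (R : L.Relations n) (v : Fin n → M) : Structure.RelMap R v ↔ Structure.RelMap R (f ∘ v) := by
  have := ECE_rz h (R.formula fun i => Term.var i) v
  rwa [FirstOrder.Language.Formula.realize_rel, FirstOrder.Language.Formula.realize_rel] at this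

theorem ECE_ec {f : M → M'}
    (h : ∀ (n : ℕ) (a : Fin n → M), tp (L := L) a = tp (L := L) (f ∘ a)) :
    EC L (range f) (univ : Set M') := by
  refine ⟨subset_univ _, fun m n a b ha _ F hF => ?_⟩
  choose a₀ ha₀ using ha
  have : Finite F := hF
  let ψ : L.Formula (Fin m ⊕ Fin n) :=
    FirstOrder.Language.Formula.iInf (fun p : (Fin m ⊕ Fin n) × (Fin m ⊕ Fin n) =>
      ECE_sg (Sum.elim a b p.1 = Sum.elim a b p.2) ((Term.var p.1).equal (Term.var p.2))) ⊓
    FirstOrder.Language.Formula.iInf (fun r : F =>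
      ECE_sg (Structure.RelMap r.1.2.1 fun k => Sum.elim a b (r.1.2.2 k))
        (r.1.2.1.formula fun k => Term.var (r.1.2.2 k)))
  have hψ : ∀ (K : Type) [L.Structure K] (w : Fin m ⊕ Fin n → K), ψ.Realize w ↔
      (∀ i j, Sum.elim a b i = Sum.elim a b j ↔ w i = w j) ∧
      ∀ r ∈ F, (Structure.RelMap r.2.1 (fun k => Sum.elim a b (r.2.2 k)) ↔
        Structure.RelMap r.2.1 (fun k => w (r.2.2 k))) := by
    intro K _ w
    rw [FirstOrder.Language.Formula.realize_inf, FirstOrder.Language.Formula.realize_iInf,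
      FirstOrder.Language.Formula.realize_iInf]
    refine and_congr ⟨fun h i j => ?_, fun h p => ?_⟩ ⟨fun h r hr => ?_, fun h r => ?_⟩
    · have := (ECE_sg_rz _ _ _).1 (h (i, j))
      rwa [FirstOrder.Language.Formula.realize_equal] at this
    · rw [ECE_sg_rz, FirstOrder.Language.Formula.realize_equal]
      exact h p.1 p.2
    · have := (ECE_sg_rz _ _ _).1 (h ⟨r, hr⟩)
      rwa [FirstOrder.Language.Formula.realize_rel] at this
    · rw [ECE_sg_rz, FirstOrder.Language.Formula.realize_rel]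
      exact h r.1 r.2
  have h1 : (ψ.iExs (Fin n)).Realize (f ∘ a₀) := by
    rw [FirstOrder.Language.Formula.realize_iExs]
    refine ⟨b, ?_⟩
    have h2 : f ∘ a₀ = a := funext ha₀
    rw [h2]
    exact (hψ M' (Sum.elim a b)).2 ⟨fun _ _ => Iff.rfl, fun _ _ => Iff.rfl⟩
  rw [← ECE_rz h, FirstOrder.Language.Formula.realize_iExs] at h1
  obtain ⟨b₀, hb₀⟩ := h1
  have h3 : ψ.Realize (Sum.elim a (f ∘ b₀)) := by
    have h4 := (ECE_rz h ψ (Sum.elim a₀ b₀)).1 hb₀
    have h5 : f ∘ Sum.elim a₀ b₀ = Sum.elim a (f ∘ b₀) := by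
      rw [Sum.comp_elim]
      congr 1
      exact funext ha₀
    rwa [h5] at h4
  obtain ⟨h6, h7⟩ := (hψ M' _).1 h3
  exact ⟨f ∘ b₀, fun i => mem_range_self _, h6, h7⟩

end

theorem thm_ECE : St_ECE := by
  intro L _ K hK S S' f hf hS
  exact hK S S' f (@ECE_inj L ℕ ℕ S S' f hf) (@ECE_rel L ℕ ℕ S S' f hf)
    (@ECE_ec L ℕ ℕ S S' f hf) hS

end EAU
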