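import Pool.Agent.EAU.StF

/-!
# EAU, part F: [ECT] the theorem for Borel classes closed under existentially closed extensions
-/

set_option autoImplicit false
set_option linter.unusedVariables false

namespace EAU

open Pool.Agent.Helper6.Str (PerfK CtblK Iso RelIso Code toStr ofStr)

/-- [ECT] -/
theorem thm_ECT (hNMS : St_NMS) (hMSK : St_MSK) : St_ECT := by
  intro L _ _ K hK hE
  by_cases hP : PerfK K
  · exact Or.inr hP
  · exact hMSK L K hK hE (hNMS L K hK hE hP)

end EAU
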