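import Pool.Agent.EAU.StF

/-!
# EAU, part F: [FIN] existentially closed embeddings with Mathlib formulas, Borel sets in the
logic topology, invariant `F_σ` sets
-/

set_option autoImplicit false
set_option linter.unusedVariables false

namespace EAU

open Set FirstOrder FirstOrder.Language
open Pool.Agent.Helper6.Str (PerfK CtblK Iso RelIso Code toStr ofStr relMap_toStr toStr_ofStr
  isClopen_relMap)

variable {L : FirstOrder.Language.{0, 0}}

/-- the value of a term without functions -/
theorem FIN_term [∀ n, IsEmpty (L.Functions n)] {α : Type} (t : L.Term (α ⊕ Fin 0)) :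
    ∃ j : α, ∀ (M : Type) (S : L.Structure M) (v : α → M) (xs : Fin 0 → M),
      @Term.realize L M S _ (Sum.elim v xs) t = v j := by
  cases t with
  | var x =>
    rcases x with x | j
    · exact ⟨x, fun M S v xs => rfl⟩
    · exact j.elim0
  | func f ts => exact isEmptyElim f

/-- a quantifier free formula depends on the equations and on finitely many relations -/
theorem FIN_qf [∀ n, IsEmpty (L.Functions n)] {α : Type} {k : ℕ} (hk : k = 0)
    {φ : L.BoundedFormula α k} (h : φ.IsQF) :
    ∃ F : Set ((n : ℕ) × L.Relations n × (Fin n → α)), F.Finite ∧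
      ∀ (M M' : Type) (S : L.Structure M) (S' : L.Structure M') (v : α → M) (v' : α → M')
        (xs : Fin k → M) (xs' : Fin k → M'),
        (∀ i j, v i = v j ↔ v' i = v' j) →
        (∀ r ∈ F, (S.RelMap r.2.1 (fun i => v (r.2.2 i)) ↔
          S'.RelMap r.2.1 (fun i => v' (r.2.2 i)))) →
        (@BoundedFormula.Realize L M S _ _ φ v xs ↔ @BoundedFormula.Realize L M' S' _ _ φ v' xs') := by
  subst hk
  induction h with
  | falsum => exact ⟨∅, finite_empty, fun M M' S S' v v' xs xs' _ _ => Iff.rfl⟩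
  | of_isAtomic h =>
    cases h with
    | equal t₁ t₂ =>
      obtain ⟨j₁, h₁⟩ := FIN_term t₁
      obtain ⟨j₂, h₂⟩ := FIN_term t₂
      refine ⟨∅, finite_empty, fun M M' S S' v v' xs xs' he _ => ?_⟩
      rw [BoundedFormula.realize_bdEqual, BoundedFormula.realize_bdEqual, h₁, h₂, h₁, h₂]
      exact he _ _
    | rel R ts =>
      choose j hj using fun i => FIN_term (ts i)
      refine ⟨{⟨_, R, j⟩}, finite_singleton _, fun M M' S S' v v' xs xs' _ hF => ?_⟩
      have h1 := hF _ (mem_singleton _)
      rw [BoundedFormula.realize_rel, BoundedFormula.realize_rel]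
      simp only [hj]
      exact h1
  | imp _ _ ih1 ih2 =>
    obtain ⟨F1, hF1, h1⟩ := ih1
    obtain ⟨F2, hF2, h2⟩ := ih2
    refine ⟨F1 ∪ F2, hF1.union hF2, fun M M' S S' v v' xs xs' he hF => ?_⟩
    rw [BoundedFormula.realize_imp, BoundedFormula.realize_imp]
    rw [h1 M M' S S' v v' xs xs' he fun r hr => hF r (Or.inl hr),
      h2 M M' S S' v v' xs xs' he fun r hr => hF r (Or.inr hr)]

/-- every existential formula with parameters from `S` which is true in `S'` is true in `S` -/
def ECEmb (S S' : L.Structure ℕ) (f : ℕ → ℕ) : Prop :=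
  ∀ (m n : ℕ) (φ : L.Formula (Fin m ⊕ Fin n)), BoundedFormula.IsQF φ → ∀ a : Fin m → ℕ,
    (∃ b : Fin n → ℕ, @Formula.Realize L ℕ S' _ φ (Sum.elim (f ∘ a) b)) →
      ∃ b : Fin n → ℕ, @Formula.Realize L ℕ S _ φ (Sum.elim a b)

/-- `K` contains all existentially closed extensions of its elements -/
def ECClosed (K : Set (L.Structure ℕ)) : Prop :=
  ∀ (S S' : L.Structure ℕ) (f : ℕ → ℕ), ECEmb S S' f → S ∈ K → S' ∈ K

theorem ecc_of_closed [∀ n, IsEmpty (L.Functions n)] {K : Set (L.Structure ℕ)}
    (h : ECClosed K) : ECc K := by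
  intro S S' f hf hr hE hS
  refine h S S' f (fun m n φ hφ a hb => ?_) hS
  obtain ⟨b, hb⟩ := hb
  obtain ⟨F, hF, hF2⟩ := FIN_qf rfl hφ
  obtain ⟨b', h1, h2, h3⟩ := hE.2 m n (f ∘ a) b (fun i => mem_range_self _) (fun _ => mem_univ _) F hF
  choose c hc using h1
  refine ⟨c, ?_⟩
  have h4 : Sum.elim (f ∘ a) b' = f ∘ Sum.elim a c := by
    funext x
    rcases x with i | i
    · rfl
    · exact (hc i).symm
  refine (hF2 ℕ ℕ S S' (Sum.elim a c) (Sum.elim (f ∘ a) b) _ _ (fun i j => ?_)
    fun r hr' => ?_).2 hb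
  · rw [h2 i j, h4]
    exact hf.eq_iff.symm
  · have h5 := h3 r hr'
    rw [h4] at h5
    rw [hr, h5]
    exact Iff.rfl

/-- the logic topology in a relational language -/
@[instance_reducible]
def lTop (L : FirstOrder.Language.{0, 0}) : TopologicalSpace (L.Structure ℕ) :=
  TopologicalSpace.generateFrom {A : Set (L.Structure ℕ) |
    ∃ (n : ℕ) (R : L.Relations n) (a : Fin n → ℕ),
      A = {S : L.Structure ℕ | S.RelMap R a} ∨ A = {S : L.Structure ℕ | ¬ S.RelMap R a}}

theorem continuous_toStr [∀ n, IsEmpty (L.Functions n)] :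
    @Continuous (Code L) (L.Structure ℕ) _ (lTop L) (fun c => toStr c) := by
  let _ := lTop L
  refine continuous_generateFrom_iff.2 ?_
  rintro A ⟨n, R, a, rfl | rfl⟩
  · exact (isClopen_relMap R a).isOpen
  · exact (isClopen_relMap R a).compl.isOpen

theorem meas_of_borel [∀ n, IsEmpty (L.Functions n)] [∀ n, Countable (L.Relations n)]
    {K : Set (L.Structure ℕ)} (hK : @MeasurableSet _ (@borel _ (lTop L)) K) :
    MeasurableSet {c : Code L | toStr c ∈ K} := by
  let _ := lTop L
  let _ : MeasurableSpace (L.Structure ℕ) := borel _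
  have _ : BorelSpace (L.Structure ℕ) := ⟨rfl⟩
  exact (continuous_toStr (L := L)).measurable hK

end EAU
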