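import Pool.Agent.EAU.StF

/-!
# EAU, part F: existentially closed extensions are models of `Gam S` (GAM)
-/

set_option autoImplicit false

namespace EAU

open Set FirstOrder.Language ORD EAP
open scoped FirstOrder

variable {L : FirstOrder.Language.{0, 0}} {M ι κ : Type}

private theorem GAM_map (S : L.Structure M) (h : ι → κ) (v : κ → M) :
    ∀ q : Qf L ι, (q.map h).Tr S v ↔ q.Tr S (v ∘ h)
  | .eq i j => Iff.rfl
  | .rel n R t => Iff.rfl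
  | .bot => Iff.rfl
  | .imp φ ψ => by
    show ((φ.map h).Tr S v → (ψ.map h).Tr S v) ↔ (φ.Tr S (v ∘ h) → ψ.Tr S (v ∘ h))
    rw [GAM_map S h v φ, GAM_map S h v ψ]

/-- finitely many names -/
private theorem GAM_names {m : ℕ} : ∀ q : Qf L (ℕ ⊕ Fin m), ∃ K : ℕ, ∀ K' : ℕ, K ≤ K' →
    ∃ q' : Qf L (Fin K' ⊕ Fin m), q'.map (Sum.map Fin.val id) = q
  | .eq i j => by
    have h : ∀ x : ℕ ⊕ Fin m, ∃ K : ℕ, ∀ K' : ℕ, K ≤ K' →
        ∃ y : Fin K' ⊕ Fin m, Sum.map Fin.val id y = x := by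
      rintro (x | x)
      · exact ⟨x + 1, fun K' hK' => ⟨Sum.inl ⟨x, by omega⟩, rfl⟩⟩
      · exact ⟨0, fun K' _ => ⟨Sum.inr x, rfl⟩⟩
    obtain ⟨K₁, h₁⟩ := h i
    obtain ⟨K₂, h₂⟩ := h j
    refine ⟨max K₁ K₂, fun K' hK' => ?_⟩
    obtain ⟨y₁, e₁⟩ := h₁ K' (le_trans (le_max_left _ _) hK')
    obtain ⟨y₂, e₂⟩ := h₂ K' (le_trans (le_max_right _ _) hK')
    refine ⟨.eq y₁ y₂, ?_⟩
    show Qf.eq _ _ = _
    rw [e₁, e₂]
  | .rel n R t => by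
    have h : ∀ x : ℕ ⊕ Fin m, ∃ K : ℕ, ∀ K' : ℕ, K ≤ K' →
        ∃ y : Fin K' ⊕ Fin m, Sum.map Fin.val id y = x := by
      rintro (x | x)
      · exact ⟨x + 1, fun K' hK' => ⟨Sum.inl ⟨x, by omega⟩, rfl⟩⟩
      · exact ⟨0, fun K' _ => ⟨Sum.inr x, rfl⟩⟩
    choose K hK using h
    refine ⟨Finset.univ.sup fun k => K (t k), fun K' hK' => ?_⟩
    have h2 : ∀ k : Fin n, ∃ y : Fin K' ⊕ Fin m, Sum.map Fin.val id y = t k := fun k =>
      hK (t k) K' (le_trans (Finset.le_sup (f := fun k => K (t k)) (Finset.mem_univ k)) hK')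
    choose y hy using h2
    refine ⟨.rel n R y, ?_⟩
    show Qf.rel n R (fun k => Sum.map Fin.val id (y k)) = _
    simp only [hy]
  | .bot => ⟨0, fun _ _ => ⟨.bot, rfl⟩⟩
  | .imp φ ψ => by
    obtain ⟨K₁, h₁⟩ := GAM_names φ
    obtain ⟨K₂, h₂⟩ := GAM_names ψ
    refine ⟨max K₁ K₂, fun K' hK' => ?_⟩
    obtain ⟨y₁, e₁⟩ := h₁ K' (le_trans (le_max_left _ _) hK')
    obtain ⟨y₂, e₂⟩ := h₂ K' (le_trans (le_max_right _ _) hK')
    refine ⟨.imp y₁ y₂, ?_⟩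
    show Qf.imp _ _ = _
    rw [e₁, e₂]

/-- a quantifier free formula depends on finitely many facts -/
private theorem GAM_fin (S : L.Structure M) : ∀ q : Qf L κ,
    ∃ F : Set ((k : ℕ) × L.Relations k × (Fin k → κ)), F.Finite ∧
      ∀ v v' : κ → M, (∀ i j, v i = v j ↔ v' i = v' j) →
        (∀ r ∈ F, (S.RelMap r.2.1 (fun k => v (r.2.2 k)) ↔
          S.RelMap r.2.1 (fun k => v' (r.2.2 k)))) → (q.Tr S v ↔ q.Tr S v')
  | .eq i j => ⟨∅, Set.finite_empty, fun v v' h _ => h i j⟩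
  | .rel n R t => ⟨{⟨n, R, t⟩}, Set.finite_singleton _, fun v v' _ h => h ⟨n, R, t⟩ rfl⟩
  | .bot => ⟨∅, Set.finite_empty, fun _ _ _ _ => Iff.rfl⟩
  | .imp φ ψ => by
    obtain ⟨F₁, f₁, h₁⟩ := GAM_fin S φ
    obtain ⟨F₂, f₂, h₂⟩ := GAM_fin S ψ
    refine ⟨F₁ ∪ F₂, f₁.union f₂, fun v v' h hr => ?_⟩
    show (φ.Tr S v → ψ.Tr S v) ↔ (φ.Tr S v' → ψ.Tr S v')
    rw [h₁ v v' h fun r hrr => hr r (Or.inl hrr), h₂ v v' h fun r hrr => hr r (Or.inr hrr)]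

/-- embeddings preserve quantifier free formulas -/
private theorem GAM_emb {N : Type} (S : L.Structure M) (T : L.Structure N) (i : M → N)
    (hi : Function.Injective i)
    (hr : ∀ (n : ℕ) (R : L.Relations n) (v : Fin n → M), S.RelMap R v ↔ T.RelMap R (i ∘ v)) :
    ∀ (q : Qf L κ) (v : κ → M), q.Tr T (i ∘ v) ↔ q.Tr S v
  | .eq a b, v => hi.eq_iff
  | .rel n R t, v => (hr n R fun k => v (t k)).symm
  | .bot, _ => Iff.rfl
  | .imp φ ψ, v => by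
    show (φ.Tr T (i ∘ v) → ψ.Tr T (i ∘ v)) ↔ (φ.Tr S v → ψ.Tr S v)
    rw [GAM_emb S T i hi hr φ v, GAM_emb S T i hi hr ψ v]

theorem thm_GAM : St_GAM := by
  intro L S N T i hi hr hE φ hφ z _
  obtain ⟨m, q⟩ := φ
  by_contra hcon
  obtain ⟨K, hK⟩ := GAM_names q
  obtain ⟨q', hq'⟩ := hK K le_rfl
  obtain ⟨F, hF, hF'⟩ := GAM_fin T q'
  obtain ⟨b', h1, h2, h3⟩ := hE.2 K m (fun k => i k) z (fun k => ⟨k, rfl⟩) (fun _ => mem_univ _) F hF
  have h4 : Sum.elim i z ∘ Sum.map (Fin.val : Fin K → ℕ) id = Sum.elim (fun k : Fin K => i k) z := by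
    funext x
    rcases x with x | x <;> rfl
  choose z' hz' using h1
  have h5 : i ∘ (Sum.elim id z' ∘ Sum.map (Fin.val : Fin K → ℕ) id) =
      Sum.elim (fun k : Fin K => i k) b' := by
    funext x
    rcases x with x | x
    · rfl
    · exact hz' x
  have h6 : q'.Tr T (Sum.elim (fun k : Fin K => i k) z) ↔
      q'.Tr T (Sum.elim (fun k : Fin K => i k) b') := hF' _ _ h2 h3
  apply hcon
  show q.Tr T (Sum.elim i z)
  rw [← hq', GAM_map, h4, h6, ← h5, GAM_emb S T i hi hr, ← GAM_map, hq']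
  exact hφ z' fun _ => mem_univ _

end EAU
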