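import Pool.Agent.EAU.StE

/-!
EAU, module KVU: the members of `K` among the submodels of `V` (helper60)
-/

set_option autoImplicit false

namespace EAU

open Set FirstOrder.Language
open scoped FirstOrder
open Pool.Agent.Helper79.VC (pl)
open Pool.Agent.WOM (tp IsEl)
open Pool.Agent.MST (CM)

private theorem KVU_step (hPLT : St_PLT) (L : FirstOrder.Language.{0, 0})
    [∀ n, IsEmpty (L.Functions n)] (K : Set (L.Structure ℕ)) (hK : ElC K) (V : Type)
    [i : L.Structure V] (u w : ℕ → V) (hu : Function.Injective u) (hw : Function.Injective w)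
    (hu' : IsEl L (range u)) (hw' : IsEl L (range w)) (huw : range u ⊆ range w)
    (h : pl i u ∈ K) : pl i w ∈ K := by
  have h1 : ∀ k : ℕ, ∃ l : ℕ, w l = u k := fun k => huw ⟨k, rfl⟩
  choose f hf using h1
  refine hK (pl i u) (pl i w) f ?_ h
  intro n a
  have e1 := hPLT L V u hu hu' n a
  have e2 := hPLT L V w hw hw' n (f ∘ a)
  have e3 : w ∘ (f ∘ a) = u ∘ a := by
    funext k
    exact hf (a k)
  rw [e3] at e2
  exact e1.trans e2.symm

theorem thm_KVU (hPLT : St_PLT) : St_KVU := by
  intro L _ K hK V i
  refine ⟨⟨fun M hM => hM.1, ?_⟩, ?_, ?_⟩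
  · rintro M ⟨hM, u, hu, hur, huK⟩ N hN hMN
    have hinf : N.Infinite := by
      refine Set.Infinite.mono hMN ?_
      rw [← hur]
      exact Set.infinite_range_of_injective hu
    have : Infinite N := hinf.to_subtype
    have : Countable N := hN.1.to_subtype
    obtain ⟨hD⟩ := nonempty_denumerable N
    let w : ℕ → V := fun k => ((Denumerable.eqv N).symm k : N)
    have hw : Function.Injective w := fun a b hab =>
      (Denumerable.eqv N).symm.injective (Subtype.ext hab)
    have hwr : range w = N := by
      ext x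
      constructor
      · rintro ⟨k, rfl⟩
        exact ((Denumerable.eqv N).symm k).2
      · intro hx
        exact ⟨Denumerable.eqv N ⟨x, hx⟩, by simp [w]⟩
    refine ⟨hN, w, hw, hwr, ?_⟩
    refine KVU_step hPLT L K hK V u w hu hw ?_ ?_ ?_ huK
    · rw [hur]
      exact hM.2
    · rw [hwr]
      exact hN.2
    · rw [hur, hwr]
      exact hMN
  · rintro M ⟨hM, u, hu, hur, huK⟩ w hw hwr
    refine KVU_step hPLT L K hK V u w hu hw ?_ ?_ ?_ huK
    · rw [hur]
      exact hM.2
    · rw [hwr]
      exact hM.2
    · rw [hur, hwr]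
  · intro S hS g hg hgr hgt
    refine ⟨⟨countable_range g, hgr⟩, g, hg, rfl, ?_⟩
    refine hK S (pl i g) id ?_ hS
    intro n a
    exact (hgt n a).trans (hPLT L V g hg hgr n a).symm

end EAU
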