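import Pool.Agent.EAU.StE
import Pool.Agent.WOM.TRP
import Pool.Agent.WOM.EMB
import Pool.Agent.WOM.DEF1
import Pool.Agent.WOM.DEFF

/-!
# EAU: [MATK], from `V` to structures on `ℕ`
-/

set_option autoImplicit false

namespace EAU

open Set FirstOrder.Language
open scoped FirstOrder
open Pool.Agent.Helper6.Str (PerfK CtblK Iso RelIso Code toStr ofStr)
open Pool.Agent.Helper79.VC (pl)
open Pool.Agent.WOM (tp Mon IsEl IsoM Fam ThS Small SatF)
open Pool.Agent.MST (Stb MSt CM At NTr mul App Tau Cx UN FM emb_real emb_ex comp_elim)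

section

variable {L : FirstOrder.Language.{0, 0}}

private theorem MATK_iso (S S' : L.Structure ℕ) [∀ n, IsEmpty (L.Functions n)] (h : ℕ ≃ ℕ)
    (H : ∀ (n : ℕ) (a : Fin n → ℕ), @tp L ℕ S n a = @tp L ℕ S' n (h ∘ a)) : Iso S S' := by
  refine ⟨h, fun n R x => ?_⟩
  have h0 : (R.formula fun i => FirstOrder.Language.Term.var i) ∈ @tp L ℕ S n x ↔
      (R.formula fun i => FirstOrder.Language.Term.var i) ∈ @tp L ℕ S' n (h ∘ x) := by rw [H n x]
  have h1 : @FirstOrder.Language.Formula.Realize L ℕ S (Fin n)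
      (R.formula fun i => FirstOrder.Language.Term.var i) x ↔
        @FirstOrder.Language.Formula.Realize L ℕ S' (Fin n)
          (R.formula fun i => FirstOrder.Language.Term.var i) (h ∘ x) := h0
  rw [@FirstOrder.Language.Formula.realize_rel L ℕ S, @FirstOrder.Language.Formula.realize_rel
    L ℕ S'] at h1
  exact h1

private theorem MATK_th (S S' : L.Structure ℕ)
    (h : @FirstOrder.Language.Theory.Model L ℕ S' (ThS L S)) : ThS L S' = ThS L S := by
  ext φ
  constructor
  · intro h1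
    by_contra h2
    have h3 : φ.not ∈ ThS L S := h2
    exact h.1 _ h3 h1
  · intro h1
    exact h.1 _ h1

variable {U V : Type} [L.Structure U] [L.Structure V]

private theorem MATK_tp (j : U ↪ₑ[L] V) {n : ℕ} (a : Fin n → U) :
    tp (L := L) (fun i => j (a i)) = tp (L := L) a := by
  ext φ
  exact emb_real j φ a

private theorem MATK_el (h : Pool.Agent.MST.St_ELX) (j : U ↪ₑ[L] V) {M : Set U}
    (hM : IsEl L M) : IsEl L (j '' M) := by
  obtain ⟨-, c2, -, -, -, -⟩ := h L V
  obtain ⟨d1, -, -, -, -, -⟩ := h L U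
  refine c2 _ fun n φ m hm x hx => ?_
  choose m' hm' hjm using hm
  have e1 : m = j ∘ m' := funext fun i => (hjm i).symm
  subst e1
  obtain ⟨y, hy⟩ := emb_ex j φ m' ⟨fun _ => x, hx⟩
  obtain ⟨z, hzM, hz⟩ := d1 M hM Unit (Fin n) φ m' hm' ⟨y, hy⟩
  refine ⟨j (z ()), mem_image_of_mem _ (hzM ()), ?_⟩
  have h5 := (emb_real j φ (Sum.elim z m')).2 hz
  rw [comp_elim] at h5
  exact h5

/-- a relational isomorphism as an `L`-equivalence -/
private theorem MATK_eqv [∀ n, IsEmpty (L.Functions n)] (S S' : L.Structure ℕ) (h : Iso S S') :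
    Nonempty (@FirstOrder.Language.Equiv L ℕ ℕ S S') := by
  obtain ⟨e, he⟩ := h
  exact ⟨@FirstOrder.Language.Equiv.mk L ℕ ℕ S S' e (fun F _ => isEmptyElim F)
    (fun R x => (he _ R x).symm)⟩

end

/-- [MATK] -/
theorem thm_MATK (hELX : Pool.Agent.MST.St_ELX) (hPLT : St_PLT) (hKVU : St_KVU) : St_MATK := by
  classical
  intro L _ K hK U V _ iV j
  obtain ⟨-, hk2, hk3⟩ := hKVU L K hK V
  constructor
  · intro hU S hS hC
    obtain ⟨g, hg⟩ := hC
    let P : ℕ → L.Structure ℕ → Prop := fun n S' => ∃ f : ℕ → V, Function.Injective f ∧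
      (∀ (n : ℕ) (a : Fin n → ℕ), @tp L ℕ S' n a = tp (L := L) (f ∘ a)) ∧ IsoM L (range f) (g n)
    let G : ℕ → L.Structure ℕ := fun n => if h : ∃ S', P n S' then h.choose else S
    refine ⟨G, fun S'' hS'' => ?_⟩
    obtain ⟨hSK, hST⟩ := hS''
    have hth := MATK_th S S'' hST
    obtain ⟨f0, hf1, hf2, hf3⟩ := Pool.Agent.WOM.thm_EMB
      (Pool.Agent.WOM.thm_DEF1 Pool.Agent.WOM.thm_DEFF) L U hU S'' (by rw [hth]; exact hS)
    obtain ⟨f, hf⟩ : ∃ f : ℕ → V, f = j ∘ f0 := ⟨_, rfl⟩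
    have hfi : Function.Injective f := by
      rw [hf]
      exact j.injective.comp hf1
    have hft : ∀ (n : ℕ) (a : Fin n → ℕ), @tp L ℕ S'' n a = tp (L := L) (f ∘ a) := by
      intro n a
      rw [hf2 n a, hf]
      exact (MATK_tp j (f0 ∘ a)).symm
    have hfe : IsEl L (range f) := by
      rw [hf, range_comp]
      exact MATK_el hELX j hf3
    obtain ⟨n, hn⟩ := hg (range f) (hk3 S'' hSK f hfi hfe hft)
    have hex : ∃ S', P n S' := ⟨S'', f, hfi, hft, hn⟩
    refine ⟨n, ?_⟩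
    have hG : G n = hex.choose := dif_pos hex
    rw [hG]
    obtain ⟨f', hf1', hf2', hn'⟩ := hex.choose_spec
    obtain ⟨e, he⟩ := hn
    obtain ⟨e', he'⟩ := hn'
    let E : ℕ ≃ ℕ := (Equiv.ofInjective f hfi).trans (e.trans (e'.symm.trans
      (Equiv.ofInjective f' hf1').symm))
    refine MATK_iso S'' hex.choose E fun k a => ?_
    rw [hft, hf2']
    have h5 := he k (fun i => Equiv.ofInjective f hfi (a i))
    have h6 := he' k (fun i => Equiv.ofInjective f' hf1' (E (a i)))
    have h7 : ∀ i, e' (Equiv.ofInjective f' hf1' (E (a i))) = e (Equiv.ofInjective f hfi (a i)) := by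
      intro i
      show e' (Equiv.ofInjective f' hf1' ((Equiv.ofInjective f' hf1').symm (e'.symm
        (e (Equiv.ofInjective f hfi (a i)))))) = _
      rw [Equiv.apply_symm_apply, Equiv.apply_symm_apply]
    simp only [h7] at h6
    exact h5.trans h6.symm
  · rintro ⟨u, hfam, hmem, hinj⟩
    refine ⟨fun x => pl iV (u x), fun x => hk2 _ (hmem x) (u x) (hfam.inj x) rfl,
      fun x y hxy => ?_, fun n R a => ?_⟩
    · obtain ⟨e⟩ := MATK_eqv _ _ hxy
      exact hinj x y (Pool.Agent.WOM.TRP_iso (hfam.inj x) (hfam.inj y) (pl iV (u x)) (pl iV (u y))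
        (hPLT L V (u x) (hfam.inj x) (hfam.el x)) (hPLT L V (u y) (hfam.inj y) (hfam.el y)) e)
    · exact Pool.Agent.WOM.TRP_clopen hfam.cont n a fun v =>
        FirstOrder.Language.Structure.RelMap R v

end EAU
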