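import Pool.Agent.EAU.StE

/-!
# EAU, part E: [MSK] the theorem for classes all of whose members are `MSt`
-/

set_option autoImplicit false
set_option linter.unusedVariables false

namespace EAU

open Set FirstOrder.Language
open scoped FirstOrder
open Pool.Agent.Helper6.Str (PerfK CtblK Iso RelIso Code toStr ofStr)
open Pool.Agent.WOM (tp Mon IsEl IsoM Fam ThS Small SatF)

/-- [MSK] -/
theorem thm_MSK (hECE : St_ECE) (hSMK : St_SMK) (hONK : St_ONK) : St_MSK := by
  intro L _ _ K hK hE hM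
  by_cases hP : PerfK K
  · exact Or.inr hP
  refine Or.inl ?_
  have hEl : ElC K := hECE L K hE
  obtain ⟨-, τ, hτ⟩ := hSMK L K hK hP hEl
  have hO := hONK L K hK hP hEl hM
  have h1 : ∀ m, ∃ g : ℕ → L.Structure ℕ, τ m ∈ K → ∀ S', S' ∈ K →
      @FirstOrder.Language.Theory.Model L ℕ S' (ThS L (τ m)) → ∃ n, Iso S' (g n) := by
    intro m
    by_cases hm : τ m ∈ K
    · obtain ⟨g, hg⟩ := hO (τ m) hm
      exact ⟨g, fun _ S' h1 h2 => hg S' ⟨h1, h2⟩⟩
    · exact ⟨fun _ => τ 0, fun h => absurd h hm⟩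
  choose g hg using h1
  refine ⟨fun p => g (Nat.unpair p).1 (Nat.unpair p).2, fun S hS => ?_⟩
  obtain ⟨m, hm1, hm2⟩ := hτ S hS
  have h2 : @FirstOrder.Language.Theory.Model L ℕ S (ThS L (τ m)) := by
    rw [← hm2]
    let _ := S
    exact (Theory.model_iff (M := ℕ) _).2 fun φ hφ => hφ
  obtain ⟨n, hn⟩ := hg m hm1 S hS h2
  refine ⟨Nat.pair m n, ?_⟩
  simp only [Nat.unpair_pair]
  exact hn

end EAU
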