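import Pool.Agent.EAU.ECE

/-!
# EAU, part E: `MSt` implies `Stb`; `MSt` goes down to elementary submodels (helper22)
-/

set_option autoImplicit false

namespace EAU

open Set FirstOrder.Language
open scoped FirstOrder
open Pool.Agent.WOM (tp)
open Pool.Agent.MST (Stb MSt)

private theorem MSS_stb (L : FirstOrder.Language.{0, 0}) (M : Type) [L.Structure M] (h : MSt L M) :
    Stb L M := by
  intro m n φ a b hl
  rcases isEmpty_or_nonempty M with hM | ⟨⟨z₀⟩⟩
  · have h1 := (hl 0 1).2 Nat.zero_lt_one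
    have ha : a 1 = a 0 := funext fun i => hM.elim (a 0 i)
    have hb : b 0 = b 1 := funext fun i => hM.elim (b 0 i)
    rw [← ha, ← hb] at h1
    exact absurd ((hl 1 0).1 h1) (Nat.not_lt_zero 1)
  · refine h univ m n (φ.relabel Sum.inl) a b fun i k => ?_
    rw [← hl i k]
    have h2 : ∀ z : M, Sum.elim (Sum.elim (a i) (b k)) (fun _ : Unit => z) ∘ Sum.inl =
        Sum.elim (a i) (b k) := fun z => Sum.elim_comp_inl _ _
    constructor
    · rintro ⟨z, -, hz⟩
      rw [FirstOrder.Language.Formula.realize_relabel, h2] at hz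
      exact hz
    · intro h3
      refine ⟨z₀, mem_univ _, ?_⟩
      rw [FirstOrder.Language.Formula.realize_relabel, h2]
      exact h3

private theorem MSS_down (L : FirstOrder.Language.{0, 0}) (M M' : Type) [L.Structure M]
    [L.Structure M'] (f : M → M')
    (hf : ∀ (n : ℕ) (a : Fin n → M), tp (L := L) a = tp (L := L) (f ∘ a)) (h : MSt L M') :
    MSt L M := by
  intro P m n φ a b hl
  refine h (f '' P) m n φ (fun i => f ∘ a i) (fun i => f ∘ b i) fun i k => ?_
  rw [← hl i k]
  have h1 : ∀ z : M, f ∘ Sum.elim (Sum.elim (a i) (b k)) (fun _ : Unit => z) =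
      Sum.elim (Sum.elim (f ∘ a i) (f ∘ b k)) (fun _ : Unit => f z) := by
    intro z
    rw [Sum.comp_elim, Sum.comp_elim]
    rfl
  constructor
  · rintro ⟨_, ⟨z, hz, rfl⟩, h2⟩
    rw [← h1, ← ECE_rz hf] at h2
    exact ⟨z, hz, h2⟩
  · rintro ⟨z, hz, h2⟩
    rw [ECE_rz hf, h1] at h2
    exact ⟨f z, mem_image_of_mem f hz, h2⟩

theorem thm_MSS : St_MSS := fun L =>
  ⟨fun M _ h => MSS_stb L M h, fun S S' f hf h => @MSS_down L ℕ ℕ S S' f hf h⟩

end EAU
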