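import Pool.Agent.EAU.StF

/-!
# EAU, part F: [NMS] the members of a scattered class closed under existentially closed extensions
-/

set_option autoImplicit false
set_option linter.unusedVariables false

namespace EAU

open Set FirstOrder.Language ORD EAP
open Pool.Agent.Helper6.Str (PerfK CtblK Iso RelIso Code toStr ofStr)
open Pool.Agent.Helper79.VC (pl Scat scat_of_not_perf)
open Pool.Agent.MST (MSt)

/-- [NMS] -/
theorem thm_NMS (hSKO : St_SKO) (hGAM : St_GAM) (hCLO : St_CLO) (hSLB : St_SLB) (hCUT : St_CUT)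
    (hLSP : St_LSP) (hLNK : St_LNK) (hDCD : St_DCD) : St_NMS := by
  intro L _ _ K hKm hE hP S hS
  by_contra hM
  have hK : Scat K := scat_of_not_perf hKm hP
  obtain ⟨N, iN, iA, hsys, ⟨i, hi, hrel, hfix, hEC⟩, P, hPinv, k, ψ, hψ, c, hc, hlad⟩ := hSKO L S hM
  have hmd : Mdl (Gam S) iN i := hGAM L S N iN i hi hrel hEC
  obtain ⟨hst, hlb⟩ := hSLB L K hK hE S hS N iN i hmd
  obtain ⟨U, hU⟩ := hCUT
  obtain ⟨x, hx⟩ := hU.ne
  obtain ⟨y, hy, hxy⟩ := hU.up x hx
  obtain ⟨Z, u, v, hZ, huZ, hvZ, hsu, hsv, hcon⟩ :=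
    hLNK L N hsys hst P hPinv k ψ hψ c hc hlad U hU x hx y hy hxy
  have harr : Arr L U Z x y u v := ⟨hU, hZ, hx, hy, hxy, huZ, hvZ, hsu, hsv, hcon⟩
  obtain ⟨m, p, X, hX0, hXp, hXc, hXi⟩ := hDCD L N hsys hst hlb U Z x y u v harr
  have hcN : Countable N := hsys.ct
  have hbase : ∀ n, i n ∈ (MU U : Set N) := by
    intro n q hq
    have h1 := (hLSP L N hsys).2.1 (i n) ∅ (fun g _ => hfix g n) hq
    simp at h1
  have hinf : ∀ f, (X f).Infinite := fun f =>
    (infinite_range_of_injective hi).mono fun z hz => by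
      obtain ⟨n, rfl⟩ := hz
      exact hX0 f (hbase n)
  obtain ⟨f, f', hne, g, hg1, hg2⟩ := UNE.dec2 (S := iN) hK hXc hinf (G := range p) (finite_range p)
    (fun f => by rintro _ ⟨j, rfl⟩; exact hXp f j) (fun f e he hr => by
      refine hCLO L K hE S hS N iN i hmd e he ?_
      rw [hr]
      rintro _ ⟨n, rfl⟩
      exact hX0 f (hbase n))
  exact hne (hXi f f' ⟨g, fun j hj => hg1 _ ⟨j, rfl⟩, fun n R t => hg2 n R t⟩)

end EAU
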