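import Pool.Agent.EAU.StE
import Pool.Agent.WOM.TOP

/-!
# EAU, part E: [ONK] the members of the class with a given theory
-/

set_option autoImplicit false
set_option linter.unusedVariables false

namespace EAU

open Set FirstOrder.Language
open scoped FirstOrder
open Pool.Agent.Helper6.Str (PerfK CtblK Iso RelIso Code toStr ofStr)
open Pool.Agent.WOM (tp Mon IsEl IsoM Fam ThS Small SatF)
open Pool.Agent.MST (Stb MSt CM At NTr mul App Tau Cx UN FM emb_real comp_elim)

section

variable {L : FirstOrder.Language.{0, 0}}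

private theorem ONK_cth {U V : Type} [L.Structure U] [L.Structure V] (j : U ↪ₑ[L] V) :
    L.completeTheory V = L.completeTheory U := by
  ext φ
  exact (j.map_sentence φ).symm

private theorem ONK_ths (S : L.Structure ℕ) {U : Type} [L.Structure U]
    (h : U ⊨ ThS L S) : L.completeTheory U = ThS L S := by
  ext φ
  constructor
  · intro h1
    by_contra h2
    have h3 : φ.not ∈ ThS L S := h2
    exact (h.realize_of_mem _ h3) h1
  · intro h1
    exact h.realize_of_mem _ h1

private theorem ONK_stb {U V : Type} [L.Structure U] [L.Structure V] (j : U ↪ₑ[L] V)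
    (h : Stb L V) : Stb L U := by
  intro m n φ a b hab
  refine h m n φ (fun i => j ∘ a i) (fun i => j ∘ b i) fun i k => ?_
  rw [← comp_elim, emb_real]
  exact hab i k

end

theorem thm_ONK (hMSS : St_MSS) (hAMA : St_AMA) (hSMK : St_SMK) (hKVU : St_KVU)
    (hCNTK : St_CNTK) (hMATK : St_MATK) (hULT : Pool.Agent.WOM.St_ULT)
    (hSUBM : Pool.Agent.WOM.St_SUBM) (hHOMG : Pool.Agent.WOM.St_HOMG)
    (hSAW : Pool.Agent.MST.St_SAW) (hUNM : Pool.Agent.MST.St_UNM)
    (hHYP : Pool.Agent.MST.St_HYP) : St_ONK := by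
  intro L hF hR K hK hP hEl hM S hS
  have hL : Countable L.Symbols :=
    inferInstanceAs (Countable ((Σ n, L.Functions n) ⊕ Σ n, L.Relations n))
  have hsm : Small L (ThS L S) := (hSMK L K hK hP hEl).1 S hS
  obtain ⟨V0, _, _, hV0, hsV0⟩ := hULT L hL S
  obtain ⟨U, _, hc, hi, hU, hsU⟩ := hSUBM L hL S hsm V0 hV0 hsV0
  have hMon : Mon L U := hHOMG L U hc hi hsU
  obtain ⟨V, _, hW, ⟨j⟩⟩ := hSAW L hL U inferInstance
  have hiV : Infinite V := Infinite.of_injective j j.injective
  have hth : L.completeTheory V = ThS L S := (ONK_cth j).trans (ONK_ths S hU)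
  have hmod : ∀ S' : L.Structure ℕ,
      @FirstOrder.Language.Theory.Model L ℕ S' (L.completeTheory V) → @MSt L ℕ S' := by
    intro S' hS'
    rw [hth] at hS'
    obtain ⟨S'', f, f', h1, h2⟩ := hAMA L hL S S' hS'
    exact (hMSS L).2 S' S'' f' h2 (hM S'' (hEl S S'' f h1 hS))
  obtain ⟨hY1, hY2, -⟩ := hHYP L hL V hiV
  obtain ⟨hMS1, hMS2⟩ := hMSS L
  have hsV : Stb L V := hY1 fun S' hS' => @hMS1 ℕ S' (hmod S' hS')
  have hX : Cx L U V := ⟨⟨hL, hMon, ONK_stb j hsV⟩, hsV, hW⟩
  have hUN : UN j := hUNM L U V j hX (hY2 hmod)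
  rcases hCNTK L U V j hX hUN (KV K V) (hKVU L K hEl V).1 with h | h
  · exact (hMATK L K hEl U V j).1 hMon S hU h
  · exact absurd ((hMATK L K hEl U V j).2 h) hP

end EAU
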