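import Pool.Agent.EAU.StE

/-!
# EAU, module PLT: types in the structure pulled back to `ℕ`
-/

set_option autoImplicit false
set_option linter.unusedVariables false

namespace EAU

open Set FirstOrder.Language
open scoped FirstOrder
open Pool.Agent.Helper79.VC (pl)
open Pool.Agent.WOM (tp IsEl)

/-- relations are formulas -/
private theorem PLT_rel {L : FirstOrder.Language.{0, 0}} {M N : Type} (S : L.Structure M)
    (S' : L.Structure N) {n : ℕ} (a : Fin n → M) (b : Fin n → N)
    (h : @tp L M S n a = @tp L N S' n b) (R : L.Relations n) : S.RelMap R a ↔ S'.RelMap R b := by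
  have h1 : (R.formula (fun k => (Term.var k : L.Term (Fin n)))) ∈ @tp L M S n a ↔
      (R.formula (fun k => (Term.var k : L.Term (Fin n)))) ∈ @tp L N S' n b := by rw [h]
  have h2 : ∀ (P : Type) (T : L.Structure P) (c : Fin n → P),
      (R.formula (fun k => (Term.var k : L.Term (Fin n)))) ∈ @tp L P T n c ↔ T.RelMap R c := by
    intro P T c
    show @Formula.Realize L P T (Fin n) _ c ↔ _
    exact Formula.realize_rel
  rw [h2, h2] at h1
  exact h1

theorem thm_PLT (h : Pool.Agent.WOM.St_PULL) : St_PLT := by
  intro L _ V i u hu hel n a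
  obtain ⟨S, hS⟩ := h L V u hu hel
  have h1 : S = pl i u := by
    refine FirstOrder.Language.Structure.ext ?_ ?_
    · funext m f
      exact isEmptyElim f
    · funext m R v
      refine propext ?_
      exact PLT_rel S i v (u ∘ v) (hS m v) R
  rw [← h1]
  exact hS n a

end EAU
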