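import Pool.Agent.EAU.StE
import Pool.Agent.WOM.EMB

/-!
# EAU, part E: [SEF] embedding of countable models in saturated models
-/

set_option autoImplicit false
set_option linter.unusedVariables false

namespace EAU

open Set FirstOrder.Language
open scoped FirstOrder
open Pool.Agent.WOM (tp Mon IsEl IsoM Fam ThS Small SatF EMB_ex EMB_ex_realize EMB_relabel EMB_zero)

variable {L : FirstOrder.Language.{0, 0}} {M U : Type} [L.Structure M] [L.Structure U]

private theorem SEF_step (hU : SatF L U) {n : ℕ} (b : Fin n → M) (a : Fin n → U)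
    (h : tp (L := L) b = tp a) (c : M) :
    ∃ c' : U, tp (L := L) (Fin.snoc b c : Fin (n + 1) → M) =
      tp (Fin.snoc a c' : Fin (n + 1) → U) := by
  obtain ⟨c', hc'⟩ := hU n a (tp (L := L) (Fin.snoc b c : Fin (n + 1) → M)) (by
    intro G hG hGf
    have hGf' : Finite G := hGf
    have h4 : EMB_ex (FirstOrder.Language.Formula.iInf fun s : G => s.1) ∈ tp (L := L) b := by
      unfold tp
      rw [mem_ofPred_eq, EMB_ex_realize]
      refine ⟨c, ?_⟩
      rw [FirstOrder.Language.Formula.realize_iInf]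
      exact fun s => hG s.2
    rw [h] at h4
    unfold tp at h4
    rw [mem_ofPred_eq, EMB_ex_realize] at h4
    obtain ⟨x, hx⟩ := h4
    rw [FirstOrder.Language.Formula.realize_iInf] at hx
    exact ⟨x, fun φ hφ => hx ⟨φ, hφ⟩⟩)
  have h3 : ∀ φ ∈ tp (L := L) (Fin.snoc b c : Fin (n + 1) → M),
      φ ∈ tp (L := L) (Fin.snoc a c' : Fin (n + 1) → U) := fun φ hφ => hc' φ hφ
  refine ⟨c', Set.Subset.antisymm h3 ?_⟩
  intro φ hφ
  by_contra h4
  have h5 : φ.not ∈ tp (L := L) (Fin.snoc b c : Fin (n + 1) → M) := by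
    unfold tp at h4 ⊢
    rw [mem_ofPred_eq] at h4 ⊢
    rw [FirstOrder.Language.Formula.realize_not]
    exact h4
  have h6 := h3 _ h5
  unfold tp at h6 hφ
  rw [mem_ofPred_eq] at h6 hφ
  rw [FirstOrder.Language.Formula.realize_not] at h6
  exact h6 hφ

private theorem SEF_seq (hU : SatF L U) (h : ∀ σ : L.Sentence, U ⊨ σ ↔ M ⊨ σ)
    (m : ℕ → M) : ∃ f : ℕ → U, ∀ n, tp (L := L) (fun i : Fin n => m i) =
      tp (fun i : Fin n => f i) := by
  have key : ∀ (n : ℕ) (a : Fin n → U), tp (L := L) (fun i : Fin n => m i) = tp a →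
      ∃ c' : U, tp (L := L) (fun i : Fin (n + 1) => m i) = tp (Fin.snoc a c' : Fin (n + 1) → U) := by
    intro n a ha
    obtain ⟨c', hc'⟩ := SEF_step hU (fun i : Fin n => m i) a ha (m n)
    refine ⟨c', ?_⟩
    rw [← hc']
    congr 1
    funext k
    refine Fin.lastCases ?_ (fun k => ?_) k
    · simp
    · simp
  choose g hg using key
  let A : (n : ℕ) → {a : Fin n → U // tp (L := L) (fun i : Fin n => m i) = tp a} := fun n =>
    Nat.rec ⟨Fin.elim0, EMB_zero h _ _⟩
      (fun n a => ⟨(Fin.snoc a.1 (g n a.1 a.2) : Fin (n + 1) → U), hg n a.1 a.2⟩) n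
  let f : ℕ → U := fun n => g n (A n).1 (A n).2
  have hA : ∀ n, (A n).1 = fun i : Fin n => f i := by
    intro n
    induction n with
    | zero => exact Subsingleton.elim _ _
    | succ n ih =>
      have h2 : (A (n + 1)).1 = (Fin.snoc (A n).1 (f n) : Fin (n + 1) → U) := rfl
      rw [h2, ih]
      funext k
      refine Fin.lastCases ?_ (fun k => ?_) k
      · simp
      · simp
  refine ⟨f, fun n => ?_⟩
  rw [← hA n]
  exact (A n).2

/-- [SEF] -/
theorem thm_SEF : St_SEF := by
  intro L V iV hsat S hV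
  have h0 : ∀ σ : L.Sentence, @Sentence.Realize L V iV σ ↔ @Sentence.Realize L ℕ S σ := by
    intro σ
    have h1 : ∀ φ ∈ ThS L S, @Sentence.Realize L V iV φ := (Theory.model_iff (M := V) _).1 hV
    constructor
    · intro h2
      by_contra h3
      have h4 : σ.not ∈ ThS L S := h3
      exact h1 _ h4 h2
    · intro h2
      exact h1 σ h2
  obtain ⟨f, hf⟩ := @SEF_seq L ℕ V S iV hsat h0 id
  have htp : ∀ (n : ℕ) (a : Fin n → ℕ), @tp L ℕ S n a = tp (L := L) (f ∘ a) := by
    intro n a
    let N : ℕ := Finset.univ.sup a + 1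
    have hN : ∀ i, a i < N := fun i =>
      Nat.lt_succ_of_le (Finset.le_sup (f := a) (Finset.mem_univ i))
    exact @EMB_relabel L ℕ V S iV N n (fun i : Fin N => (i : ℕ)) (fun i : Fin N => f i) (hf N)
      (fun i => ⟨a i, hN i⟩)
  refine ⟨f, ?_, htp⟩
  intro i j hij
  have h2 := htp 2 ![i, j]
  have h3 : (FirstOrder.Language.Term.equal (FirstOrder.Language.var 0)
      (FirstOrder.Language.var 1) : L.Formula (Fin 2)) ∈ tp (L := L) (f ∘ ![i, j]) := by
    unfold tp
    rw [mem_ofPred_eq, FirstOrder.Language.Formula.realize_equal]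
    simpa using hij
  rw [← h2] at h3
  unfold tp at h3
  rw [mem_ofPred_eq, @FirstOrder.Language.Formula.realize_equal L ℕ S] at h3
  simpa using h3

end EAU
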