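import Pool.Agent.EAU.Defs
import Pool.Agent.MST.StC
import Pool.Agent.VB.B

/-!
# EAU, part E: the theorem MST relative to a Borel class closed under elementary extensions (helper6)

`K` is a Borel class of structures on `ℕ` (relational language), closed under existentially closed
extensions (`ECc`; this contains isomorphism invariance), hence under countable elementary extensions
(`ElC`). If every member is `MSt` then `CtblK K ∨ PerfK K` (`St_MSK`). The models of the perfect family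
of `Pool/Agent/MST` are elementary extensions of a member of `K`.
-/

set_option autoImplicit false
set_option linter.unusedVariables false

namespace EAU

open Set FirstOrder.Language
open scoped FirstOrder
open Pool.Agent.Helper6.Str (PerfK CtblK Iso RelIso Code toStr ofStr)
open Pool.Agent.Helper79.VC (pl)
open Pool.Agent.WOM (tp Mon IsEl IsoM Fam ThS Small SatF)
open Pool.Agent.MST (Stb MSt CM At NTr mul App Tau Cx UN FM)

section defs

variable {L : FirstOrder.Language.{0, 0}}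

/-- `f` is an elementary map of `S` into `S'` -/
def Elm (S S' : L.Structure ℕ) (f : ℕ → ℕ) : Prop :=
  ∀ (n : ℕ) (a : Fin n → ℕ), @tp L ℕ S n a = @tp L ℕ S' n (f ∘ a)

/-- closed under elementary extensions (on `ℕ`) -/
def ElC (K : Set (L.Structure ℕ)) : Prop :=
  ∀ (S S' : L.Structure ℕ) (f : ℕ → ℕ), Elm S S' f → S ∈ K → S' ∈ K

/-- closed under existentially closed extensions (on `ℕ`), in particular under isomorphism -/
def ECc (K : Set (L.Structure ℕ)) : Prop :=
  ∀ (S S' : L.Structure ℕ) (f : ℕ → ℕ), Function.Injective f →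
    (∀ (n : ℕ) (R : L.Relations n) (v : Fin n → ℕ), S.RelMap R v ↔ S'.RelMap R (f ∘ v)) →
    @EC L ℕ S' (range f) univ → S ∈ K → S' ∈ K

variable (L) in
/-- families of countable elementary submodels of `V`, closed upwards -/
structure Upw {V : Type} [L.Structure V] (F : Set (Set V)) : Prop where
  cm : ∀ M ∈ F, CM L M
  up : ∀ M ∈ F, ∀ N, CM L N → M ⊆ N → N ∈ F

/-- the countable elementary submodels of `V` which are in `K` -/
def KV [∀ n, IsEmpty (L.Functions n)] (K : Set (L.Structure ℕ)) (V : Type) [i : L.Structure V] :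
    Set (Set V) :=
  {M | CM L M ∧ ∃ u : ℕ → V, Function.Injective u ∧ range u = M ∧ pl i u ∈ K}

variable (L) in
/-- countably many members of the family up to isomorphism -/
def CtF {V : Type} [L.Structure V] (F : Set (Set V)) : Prop :=
  ∃ g : ℕ → Set V, ∀ M ∈ F, ∃ n, IsoM L M (g n)

variable (L) in
/-- perfectly many members of the family -/
def PfF {V : Type} [L.Structure V] (F : Set (Set V)) : Prop :=
  ∃ u : (ℕ → Bool) → ℕ → V, Fam L u ∧ (∀ x, range (u x) ∈ F) ∧
    ∀ x y, IsoM L (range (u x)) (range (u y)) → x = y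

end defs

/-! ### The class -/

/-- [ECE] (0.8h) Elementary extensions are existentially closed extensions.
PROOF. `Elm S S' f`: `f` is injective (formula `x = y`) and preserves the relations (`Relations.formula`).
`EC (range f) univ` in `S'`: `a = f ∘ a₀`; let `ψ(x, y)` be the conjunction of the (negated) equations and of the
(negated) relations of `F` which hold for `(a, b)` (finite conjunctions `Formula.iInf`, variables `Fin m ⊕ Fin n`).
`∃ y ψ(a, y)` (`Formula.iExs`) holds in `S'`, so in `S` for `a₀` (reindex `Fin m ⊕ Empty`...): `y`, put `b' = f ∘ y`. -/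
def St_ECE : Prop :=
  ∀ (L : FirstOrder.Language.{0, 0}) [∀ n, IsEmpty (L.Functions n)] (K : Set (L.Structure ℕ)),
    ECc K → ElC K

/-- [MSS] (0.5h) `MSt` implies `Stb`; `MSt` goes down to elementary submodels.
PROOF. (1) `P = univ`, the formula `φ` with a dummy variable. (2) a ladder in `S` for `P`: the images
are a ladder in `S'` for `f '' P` (formulas in `(Fin m ⊕ Fin n) ⊕ Unit` to be relabelled to `Fin k`,
`Formula.realize_relabel`). -/
def St_MSS : Prop :=
  ∀ (L : FirstOrder.Language.{0, 0}), (∀ (M : Type) [L.Structure M], MSt L M → Stb L M) ∧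
    ∀ (S S' : L.Structure ℕ) (f : ℕ → ℕ), Elm S S' f → @MSt L ℕ S' → @MSt L ℕ S

/-- [SEF] (0.8h) Countable models embed in saturated ones (not necessarily countable).
PROOF. Copy of `Pool/Agent/WOM/EMB.lean` with `SatF` instead of `Mon.sat`. -/
def St_SEF : Prop :=
  ∀ (L : FirstOrder.Language.{0, 0}) (V : Type) [L.Structure V], SatF L V → ∀ S : L.Structure ℕ,
    V ⊨ ThS L S → ∃ f : ℕ → V, Function.Injective f ∧
      ∀ (n : ℕ) (a : Fin n → ℕ), @tp L ℕ S n a = tp (L := L) (f ∘ a)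

/-- [AMA] (1h; SEF, `WOM.St_ULT`, `MST.St_CMS`) Common elementary extensions.
PROOF. ULT: `V ⊨ ThS L S`, `SatF L V`; `V ⊨ ThS L S'` (`S'` is a model of the complete theory `ThS L S`, so
`ThS L S' = ThS L S`). SEF: `f`, `f'`. CMS with `X = range f ∪ range f'`: `S''`, `i`; the maps `i⁻¹ ∘ f`, `i⁻¹ ∘ f'`. -/
def St_AMA : Prop :=
  ∀ (L : FirstOrder.Language.{0, 0}), Countable L.Symbols → ∀ (S S' : L.Structure ℕ),
    @FirstOrder.Language.Theory.Model L ℕ S' (ThS L S) →
    ∃ (S'' : L.Structure ℕ) (f f' : ℕ → ℕ), Elm S S'' f ∧ Elm S' S'' f'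

/-- [TYK] (1.2h) Countably many types in a class which is not perfect.
PROOF. `ctbl_of_props` (Pool/Agent/VB/B.lean) with `ι = L.Formula (Fin n)`, `A φ S v` = `φ` holds in `S` for `v`.
Measurable: `measurableSet_sat` and `sat_toI` (VB/B; relabel to `BoundedFormula Empty n`), or induction on the
formula as in `Pool/Agent/WOM/MEAS.lean`. Invariant: `RelIso` gives an `L`-equivalence (relational language),
`StrongHomClass.realize_formula`. -/
def St_TYK : Prop :=
  ∀ (L : FirstOrder.Language.{0, 0}) [∀ n, IsEmpty (L.Functions n)] [∀ n, Countable (L.Relations n)]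
    (K : Set (L.Structure ℕ)), MeasurableSet {c : Code L | toStr c ∈ K} → ¬ PerfK K → ∀ n : ℕ,
    ∃ σ : ℕ → L.Structure ℕ × (Fin n → ℕ), ∀ S ∈ K, ∀ v : Fin n → ℕ,
      ∃ m, (σ m).1 ∈ K ∧ @tp L ℕ S n v = @tp L ℕ (σ m).1 n (σ m).2

/-- [SMK] (0.8h; TYK, AMA) The theories of the members are small, and they are countably many.
PROOF. (1) `S' ⊨ ThS L S`, `a` in `S'`: AMA: `S''`, `S'' ∈ K` (`ElC`), and the type of `a` in `S'` is the one of `f' ∘ a` in `S''`.
So the set in `Small` is contained in the range of `(n, m) ↦ ⟨n, tp (σ n m).2⟩`. (2) TYK for `n = 0`: the type of the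
empty tuple determines the theory (relabel `Empty → Fin 0`). -/
def St_SMK : Prop :=
  ∀ (L : FirstOrder.Language.{0, 0}) [∀ n, IsEmpty (L.Functions n)] [∀ n, Countable (L.Relations n)]
    (K : Set (L.Structure ℕ)), MeasurableSet {c : Code L | toStr c ∈ K} → ¬ PerfK K → ElC K →
    (∀ S ∈ K, Small L (ThS L S)) ∧
    ∃ τ : ℕ → L.Structure ℕ, ∀ S ∈ K, ∃ m, τ m ∈ K ∧ ThS L S = ThS L (τ m)

/-! ### Families of submodels of `V` -/

/-- [PRAK] (0.6h) `MST.St_PRA` with the additional statement `M ⊆ X f`.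
PROOF. Copy `Pool/Agent/MST/PRA.lean` (`X f = M ∪ ⋃ k ∈ J_f, K'_k`). -/
def St_PRAK : Prop :=
  ∀ (L : FirstOrder.Language.{0, 0}) (U V : Type) [L.Structure U] [L.Structure V] (j : U ↪ₑ[L] V),
    Cx L U V → UN j → ∀ M : Set V, CM L M →
    (∃ K : ℕ → Set V, (∀ n, K n ∈ At j M ∧ NTr j (K n) ∧ mul j M (K n) ≠ ⊤) ∧
      ∀ m n, m ≠ n → ¬ App L (K m) (K n)) →
    ∃ (N : Set V) (X : (ℕ → Bool) → Set V) (i : ℕ → ℕ), StrictMono i ∧ N.Countable ∧
      (∀ f, X f ⊆ N ∧ CM L (X f) ∧ M ⊆ X f) ∧ (∀ v ∈ N, IsClopen {f | v ∈ X f}) ∧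
      ∀ f, FM j (X f) = {m | ∃ n, m = 2 * i n + (f n).toNat}

/-- [PRFK] (0.6h; PRAK, ELX, FMI, ENU) Copy of `Pool/Agent/MST/PRF.lean`; `X f ∈ F` by `Upw.up`. -/
def St_PRFK : Prop :=
  ∀ (L : FirstOrder.Language.{0, 0}) (U V : Type) [L.Structure U] [L.Structure V] (j : U ↪ₑ[L] V),
    Cx L U V → UN j → ∀ F : Set (Set V), Upw L F → ∀ M ∈ F,
    (∃ K : ℕ → Set V, (∀ n, K n ∈ At j M ∧ NTr j (K n) ∧ mul j M (K n) ≠ ⊤) ∧
      ∀ m n, m ≠ n → ¬ App L (K m) (K n)) → PfF L F

/-- [CNBK] (0.6h; APQ, ADJ, ADK, MLA) Copy of `Pool/Agent/MST/CNB.lean`; `M' = M ∪ ⋃ n, K' n ∈ F` by `Upw.up`. -/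
def St_CNBK : Prop :=
  ∀ (L : FirstOrder.Language.{0, 0}) (U V : Type) [L.Structure U] [L.Structure V] (j : U ↪ₑ[L] V),
    Cx L U V → UN j → ∀ F : Set (Set V), Upw L F →
    (∀ M ∈ F, ¬ ∃ K : ℕ → Set V,
      (∀ n, K n ∈ At j M ∧ NTr j (K n) ∧ mul j M (K n) ≠ ⊤) ∧ ∀ m n, m ≠ n → ¬ App L (K m) (K n)) →
    ∀ M ∈ F, ¬ ∃ K : ℕ → Set V,
      (∀ n, K n ∈ Tau j ∧ mul j M (K n) ≠ ⊤) ∧ ∀ m n, m ≠ n → ¬ App L (K m) (K n)

/-- [CNTK] (0.6h; PRFK, CNBK, ATM, APQ, GLU, CNA) Copy of `Pool/Agent/MST/CNT.lean` with `F` instead of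
`{M | CM L M}` (`F` empty: trivial). -/
def St_CNTK : Prop :=
  ∀ (L : FirstOrder.Language.{0, 0}) (U V : Type) [L.Structure U] [L.Structure V] (j : U ↪ₑ[L] V),
    Cx L U V → UN j → ∀ F : Set (Set V), Upw L F → CtF L F ∨ PfF L F

/-! ### Transfer -/

/-- [PLT] (0.7h) Types in the structure pulled back to `ℕ`.
PROOF. `WOM.St_PULL` (Pool/Agent/WOM/PULL.lean) gives `S` with `tp S a = tp (u ∘ a)`; `S = pl i u`: the language is
relational and relations are formulas (`Structure.ext`). -/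
def St_PLT : Prop :=
  ∀ (L : FirstOrder.Language.{0, 0}) [∀ n, IsEmpty (L.Functions n)] (V : Type) [i : L.Structure V]
    (u : ℕ → V), Function.Injective u → IsEl L (range u) →
    ∀ (n : ℕ) (a : Fin n → ℕ), @tp L ℕ (pl i u) n a = tp (L := L) (u ∘ a)

/-- [KVU] (0.8h; PLT, ELX) The members of `K` among the submodels of `V`.
PROOF. Let `M ∈ KV K V` with `u`, `N ⊇ M` with `CM L N` and `w` injective with range `N` (`N` is infinite and countable):
`f k` = the index of `u k` in `w`; `Elm (pl i u) (pl i w) f` by PLT, so `pl i w ∈ K`. `N = M`: (2). (3) `S ∈ K` and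
`g : ℕ → V` elementary with range `M`: `M ∈ KV K V` (`pl i g` and `S` have the same types, `Elm S (pl i g) id`). -/
def St_KVU : Prop :=
  ∀ (L : FirstOrder.Language.{0, 0}) [∀ n, IsEmpty (L.Functions n)] (K : Set (L.Structure ℕ)),
    ElC K → ∀ (V : Type) [i : L.Structure V], Upw L (KV K V) ∧
    (∀ M ∈ KV K V, ∀ u : ℕ → V, Function.Injective u → range u = M → pl i u ∈ K) ∧
    ∀ S ∈ K, ∀ g : ℕ → V, Function.Injective g → IsEl L (range g) →
      (∀ (n : ℕ) (a : Fin n → ℕ), @tp L ℕ S n a = tp (L := L) (g ∘ a)) → range g ∈ KV K V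

/-- [MATK] (1.5h; ELX, PLT, KVU) From `V` to structures on `ℕ` (compare `Pool/Agent/MST/MAT.lean`,
`Pool/Agent/WOM/TRC.lean`, `Pool/Agent/WOM/TRP.lean`).
PROOF. (1) `S' ∈ K`, `S' ⊨ ThS L S`: `WOM.St_EMB` gives `f : ℕ → U` with the same types and `IsEl L (range f)`;
`j ∘ f` has an elementary range (`MAT_el`) in `KV K V` (KVU 3), so `IsoM` to some `g n`. For every `n` choose one such `S'`
(if there is one). If `range (j ∘ f)`, `range (j ∘ f')` are `IsoM` to `g n` then `Iso S' S''` (same types, so same relations).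
(2) `x ↦ pl i (u x)`: in `K` by KVU 2; `Iso` of two of them gives `IsoM` of the ranges (PLT, an isomorphism preserves
types); clopen: `RelMap R (u x ∘ a)` depends on finitely many `u x k` (`WOM.TRP_clopen`). -/
def St_MATK : Prop :=
  ∀ (L : FirstOrder.Language.{0, 0}) [∀ n, IsEmpty (L.Functions n)] (K : Set (L.Structure ℕ)),
    ElC K → ∀ (U V : Type) [L.Structure U] [L.Structure V] (j : U ↪ₑ[L] V),
    (Mon L U → ∀ S : L.Structure ℕ, U ⊨ ThS L S → CtF L (KV K V) →
      CtblK {S' | S' ∈ K ∧ @FirstOrder.Language.Theory.Model L ℕ S' (ThS L S)}) ∧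
    (PfF L (KV K V) → PerfK K)

/-! ### The theorem -/

/-- [ONK] (1h; MSS, AMA, SMK, CNTK, MATK and the modules of `MTOP`) One theory.
PROOF. Copy of `Pool/Agent/MST/MTOP.lean`: `Small` by SMK; ULT, SUBM, HOMG: `U`, `Mon L U`; SAW: `V`, `j`. For every model
`S'` of `L.completeTheory V = ThS L S` AMA gives `S'' ∈ K` with `Elm S' S'' f'`, so `MSt S'` and `Stb S'` (MSS): HYP gives
`Stb L V`, `NC L V`; UNM: `UN j`. CNTK for `KV K V` (KVU), MATK. -/
def St_ONK : Prop :=
  ∀ (L : FirstOrder.Language.{0, 0}) [∀ n, IsEmpty (L.Functions n)] [∀ n, Countable (L.Relations n)]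
    (K : Set (L.Structure ℕ)), MeasurableSet {c : Code L | toStr c ∈ K} → ¬ PerfK K → ElC K →
    (∀ S ∈ K, @MSt L ℕ S) → ∀ S ∈ K,
      CtblK {S' | S' ∈ K ∧ @FirstOrder.Language.Theory.Model L ℕ S' (ThS L S)}

/-- [MSK] (0.5h; SMK, ONK, ECE) THE THEOREM: a Borel class, closed under existentially closed
extensions, all of whose members are `MSt`. PROOF. Suppose `¬ PerfK K`. `τ` of SMK; for every `m` with `τ m ∈ K` the
list of ONK; `S ∈ K` is a model of `ThS L S = ThS L (τ m)`. -/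
def St_MSK : Prop :=
  ∀ (L : FirstOrder.Language.{0, 0}) [∀ n, IsEmpty (L.Functions n)] [∀ n, Countable (L.Relations n)]
    (K : Set (L.Structure ℕ)), MeasurableSet {c : Code L | toStr c ∈ K} → ECc K →
    (∀ S ∈ K, @MSt L ℕ S) → CtblK K ∨ PerfK K

end EAU
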