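import Pool.Agent.EAU.StD
import Pool.Agent.EAU.StE
import Pool.Agent.EAP.PD
import Pool.Agent.UNE.DEC

/-!
# EAU, part F: assembly (helper97)

`Gam S` is the set of all U-formulas (universal formulas with names for the elements of `S`) which are
true in `S`. Its models are the existentially closed extensions of `S`.
-/

set_option autoImplicit false
set_option linter.unusedVariables false

namespace EAU

open Set FirstOrder.Language ORD EAP
open scoped FirstOrder

open Pool.Agent.Helper6.Str (PerfK CtblK Iso RelIso Code toStr ofStr)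
open Pool.Agent.Helper79.VC (pl Scat)
open Pool.Agent.MST (MSt)

/-- the U-formulas with names for the elements which are true in `S` -/
def Gam {L : FirstOrder.Language.{0, 0}} (S : L.Structure ℕ) : Set (Uf L ℕ) :=
  {φ | φ.Tr S univ id}

/-- [GAM] (1 h) Existentially closed extensions are models of `Gam S`.
PROOF. Let `φ = ⟨m, q⟩ ∈ Gam S` and `z : Fin m → N` with `¬ q.Tr S' (Sum.elim i z)`. All names in `q` are `< K` for
some `K` (induction on `q`). Let `a : Fin K → N`, `a k = i k`, `b = z`, and let `F` be the finite set of all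
`⟨n, R, r ∘ t⟩` for the subformulas `.rel n R t` of `q`, where `r : ℕ ⊕ Fin m → Fin K ⊕ Fin m` sends `Sum.inl x` to
`Sum.inl x` for `x < K`. (Or: prove by induction on `q` that there are `K` and a finite `F` such that for all `b`, `b'`
which agree on the equations and on `F`: `q.Tr (i, b) ↔ q.Tr (i, b')`.) `EC` gives `b' = i ∘ z'`, so
`¬ q.Tr S' (Sum.elim i (i ∘ z'))`, so `¬ q.Tr S (Sum.elim id z')` (`i` is an embedding): contradiction. -/
def St_GAM : Prop :=
  ∀ (L : FirstOrder.Language.{0, 0}) (S : L.Structure ℕ) (N : Type) (T : L.Structure N) (i : ℕ → N),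
    Function.Injective i →
    (∀ (n : ℕ) (R : L.Relations n) (v : Fin n → ℕ), S.RelMap R v ↔ T.RelMap R (i ∘ v)) →
    @EC L N T (range i) univ → Mdl (Gam S) T i

/-- [CLO] (1 h) The closure hypothesis of `EAP.bound`.
PROOF. `f x` = the index of `w x` in `e` (`e (f x) = w x`). `f` is injective: `¬ x = y` is a formula of `Gam S` for
`x ≠ y`. Relations: `R(v)` or its negation is in `Gam S` (`Uf.qf`). `EC (range f) univ` in `pl S' e`: let `a = f ∘ a₀`, `b`,
`F` be given, and suppose that no `b'` exists. Let `ψ` be the quantifier free formula in the names `ℕ` and the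
variables `Fin n` which says: `¬` (all equations between the entries of `(a₀, z)` as for `(a, b)`, and the elements of
`F` as for `(a, b)`) (`Qf.all` of a list). Then `∀ z ψ` is true in `S` for the names `id`: `z` with `¬ ψ` would give
`b' = f ∘ z`. So `∀ z ψ` is in `Gam S`, so true in `S'` for `w`; but it is false for `z = e ∘ b`. -/
def St_CLO : Prop :=
  ∀ (L : FirstOrder.Language.{0, 0}) [∀ n, IsEmpty (L.Functions n)] (K : Set (L.Structure ℕ)), ECc K → ∀ S ∈ K,
    ∀ (V : Type) (S' : L.Structure V) (w : ℕ → V), Mdl (Gam S) S' w → ∀ e : ℕ → V,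
      Function.Injective e → range w ⊆ range e → pl S' e ∈ K

/-- [SLB] (0.7 h) Stability and bounds for ladders from `EAP.bound`.
PROOF. `EAP.bound` with `P = Empty`, `α = β = Fin n`, `q = .rel n R (fun k => if k ∈ D then Sum.inr (Sum.inl k) else
Sum.inr (Sum.inr k))`: `Rf T c q x y ↔ RelMap R (Mix D x y)`. -/
def St_SLB : Prop :=
  ∀ (L : FirstOrder.Language.{0, 0}) [∀ n, IsEmpty (L.Functions n)] (K : Set (L.Structure ℕ)), Scat K →
    ECc K → ∀ S ∈ K, ∀ (N : Type) (T : L.Structure N) (i : ℕ → N), Mdl (Gam S) T i →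
      @Stab L N T ∧ @LB L N T

/-- the output of part B for a countable structure `S` which is not `MSt` -/
def St_SKO : Prop :=
  ∀ (L : FirstOrder.Language.{0, 0}) [∀ n, IsEmpty (L.Functions n)] [∀ n, Countable (L.Relations n)]
    (S : L.Structure ℕ), ¬ @MSt L ℕ S →
    ∃ (N : Type) (_ : L.Structure N) (_ : MulAction AQ N), Sys L N ∧
      (∃ i : ℕ → N, Function.Injective i ∧
        (∀ (n : ℕ) (R : L.Relations n) (v : Fin n → ℕ),
          S.RelMap R v ↔ Structure.RelMap R (i ∘ v)) ∧
        (∀ (g : AQ) (x : ℕ), g • i x = i x) ∧ EC L (range i) univ) ∧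
      ∃ P : Set N, (∀ (g : AQ) x, g • x ∈ P ↔ x ∈ P) ∧
      ∃ (k : ℕ) (ψ : (Fin k → N) → (Fin k → N) → Prop),
        (∀ σ : N ≃ N, Aut L σ → (∀ x, σ x ∈ P ↔ x ∈ P) →
          ∀ c d, ψ (fun i => σ (c i)) (fun i => σ (d i)) ↔ ψ c d) ∧
        ∃ c : ℚ → Fin k → N, (∀ (g : AQ) q i, g • c q i = c (g q) i) ∧
          ∀ p q, p ≠ q → (ψ (c p) (c q) ↔ p < q)

/-- [NMS] (0.8 h) The members of `K` are `MSt` if `K` is scattered.
PROOF. SKO: `N`. GAM, SLB: `Stab`, `LB`. CUT, LNK, DCD: `Out L N (MU U)` with `X f`. `UNE.dec2` with `G = range p`;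
`hmem`: `e : ℕ → N` injective with range `X f ⊇ MU U ⊇ range i` (LSP: `i x` has empty support): CLO. -/
def St_NMS : Prop :=
  ∀ (L : FirstOrder.Language.{0, 0}) [∀ n, IsEmpty (L.Functions n)] [∀ n, Countable (L.Relations n)]
    (K : Set (L.Structure ℕ)), MeasurableSet {c : Code L | toStr c ∈ K} → ECc K → ¬ PerfK K →
    ∀ S ∈ K, @MSt L ℕ S

/-- [ECT] THE THEOREM -/
def St_ECT : Prop :=
  ∀ (L : FirstOrder.Language.{0, 0}) [∀ n, IsEmpty (L.Functions n)] [∀ n, Countable (L.Relations n)]
    (K : Set (L.Structure ℕ)), MeasurableSet {c : Code L | toStr c ∈ K} → ECc K → CtblK K ∨ PerfK K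

/-- [BAI] (2 h) Invariant `Σ⁰₂` sets are closed under existentially closed extensions. (`IsClosed` in the space
`Code L`; `D i` is a set of codes.)
PROOF. Let `S ∈ K`, `f : S → S'` as in `ECc`, and suppose that for all `i` and all finite injective partial maps `p`
from `ℕ` to `ℕ` there is a bijection `g ⊇ p` with `ofStr (pl S g) ∉ D i`. Then there is also a finite `q ⊇ p` with
`ofStr (pl S g) ∉ D i` for all bijections `g ⊇ q` (the complement of `D i` is open: finitely many atomic facts
about `pl S g`, which depend on finitely many values of `g`). Construct `p 0 ⊆ p 1 ⊆ ...` with `i` in the domain and in the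
range of `p (i + 1)` and `ofStr (pl S g) ∉ D i` for all `g ⊇ p (i + 1)`. The union `g` is a bijection; `pl S g` is
isomorphic to `S`, so in `K`, so `ofStr (pl S g) ∈ D i` for some `i`: contradiction. So there are `i`, `p` such that
`ofStr (pl S g) ∈ D i` for all bijections `g ⊇ p`. Let `g'` be a bijection of `ℕ` with `g' x = f (p x)` for `x` in the
domain of `p`. `ofStr (pl S' g') ∈ D i`: `D i` is closed; let finitely many facts `R(v)` about `pl S' g'` be given, let `k` bound the
entries of the `v`. Let `a` = the tuple of the `f (p x)`, `b` = the tuple of the `g' x`, `x < k`. `EC`: `b'` in the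
range of `f`, `b' = f ∘ c`, such that `(a, b')` has the same equations and the same relations (finitely many) as `(a, b)`.
The finite partial map `p ∪ {(x, c x) : x < k}` is injective (a function!) and extends to a bijection `g ⊇ p`; `pl S g` and
`pl S' g'` agree on the given facts. So `pl S' g' ∈ K` and `S'` is isomorphic to it.
The finite partial maps may be represented as lists or as `Finset (ℕ × ℕ)`, or by pairs (injection on `Fin n`). -/
def St_BAI : Prop :=
  ∀ (L : FirstOrder.Language.{0, 0}) [∀ n, IsEmpty (L.Functions n)] (K : Set (L.Structure ℕ)),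
    (∀ S S' : L.Structure ℕ, Iso S S' → S ∈ K → S' ∈ K) →
    ∀ D : ℕ → Set (Code L), (∀ i, IsClosed (D i)) → (∀ S, S ∈ K ↔ ∃ i, ofStr S ∈ D i) → ECc K

end EAU
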