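import Pool.Agent.EAU.TKM
import Pool.Agent.EAU.StF

/-!
# EAU, part B: [SKO] the system of a countable structure which is not `MSt` (helper34)
-/

set_option autoImplicit false
set_option linter.unusedVariables false

namespace EAU

open Set FirstOrder FirstOrder.Language
open scoped FirstOrder
open Pool.Agent.MST (MSt)

section

variable {m n : ℕ}

/-- the value of the variables: first part -/
theorem sko_app_l (a : Fin m → ℕ) (b : Fin n → ℕ) (i : Fin m) :
    (Fin.append a b) (Fin.castAdd n i) = a i := Fin.append_left a b i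

theorem sko_app_r (a : Fin m → ℕ) (b : Fin n → ℕ) (i : Fin n) :
    (Fin.append a b) (Fin.natAdd m i) = b i := Fin.append_right a b i

/-- the witness function -/
theorem sko_wf {L : FirstOrder.Language.{0, 0}} (S : L.Structure ℕ) (P : Set ℕ)
    (φ : L.Formula ((Fin m ⊕ Fin n) ⊕ Unit)) :
    ∃ Wf : (k : ℕ) → (Fin k → ℕ) → ℕ, ∀ w : Fin (m + n) → ℕ,
      (∃ z ∈ P, @Formula.Realize L ℕ S _ φ (Sum.elim (Sum.elim (fun i => w (Fin.castAdd n i))
        (fun i => w (Fin.natAdd m i))) (fun _ => z))) →
      Wf (m + n) w ∈ P ∧ @Formula.Realize L ℕ S _ φ (Sum.elim (Sum.elim (fun i => w (Fin.castAdd n i))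
        (fun i => w (Fin.natAdd m i))) (fun _ => Wf (m + n) w)) := by
  classical
  let ex : ∀ k : ℕ, (Fin k → ℕ) → ℕ → ℕ := fun k w i => if h : i < k then w ⟨i, h⟩ else 0
  let Pr : ∀ k : ℕ, (Fin k → ℕ) → ℕ → Prop := fun k w z => z ∈ P ∧
    @Formula.Realize L ℕ S _ φ (Sum.elim (Sum.elim (fun i : Fin m => ex k w i)
        (fun i : Fin n => ex k w (m + i))) (fun _ => z))
  refine ⟨fun k w => if h : ∃ z, Pr k w z then h.choose else 0, fun w hw => ?_⟩
  have h1 : (fun i : Fin m => ex (m + n) w i) = fun i => w (Fin.castAdd n i) := by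
    funext i
    have : (i : ℕ) < m + n := by omega
    simp only [ex, dif_pos this]
    rfl
  have h2 : (fun i : Fin n => ex (m + n) w (m + i)) = fun i => w (Fin.natAdd m i) := by
    funext i
    have : m + (i : ℕ) < m + n := by omega
    simp only [ex, dif_pos this]
    rfl
  have h3 : ∃ z, Pr (m + n) w z := by
    obtain ⟨z, hz, hr⟩ := hw
    refine ⟨z, hz, ?_⟩
    rw [h1, h2]
    exact hr
  have h4 := h3.choose_spec
  simp only [dif_pos h3]
  refine ⟨h4.1, ?_⟩
  have h5 := h4.2
  rw [h1, h2] at h5
  exact h5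

end

/-- [SKO] -/
theorem thm_SKO : St_SKO := by
  intro L _ _ S hM
  unfold MSt at hM
  push Not at hM
  obtain ⟨P, m, n, φ, a, b, hab⟩ := hM
  obtain ⟨W, hlt, hinv⟩ := thm_WUF
  obtain ⟨Wf, hWf⟩ := sko_wf S P φ
  let D : Dk L := ⟨m + n, S, fun j => Fin.append (a j) (b j), Wf, W, hlt, hinv⟩
  let cst : ℕ → D.Tm := fun s => Term.func (L := LK L) (l := 0) (Sum.inr (some s)) Fin.elim0
  have hcst : ∀ s x, D.ev (cst s) x = s := fun s x => rfl
  have hcrn : ∀ g s, D.rn g (cst s) = cst s := by
    intro g s
    show Term.func _ _ = Term.func _ _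
    congr 1
    funext i
    exact i.elim0
  let vr : ℚ → Fin (m + n) → D.Tm := fun q i => Term.var (q, i)
  have hvr : ∀ q i x, D.ev (vr q i) x = Fin.append (a (x q)) (b (x q)) i := fun q i x => rfl
  let PN : Set D.N := {y | {x | D.ev (D.out y) x ∈ P} ∈ D.W}
  have hPN : ∀ t : D.Tm, D.cl t ∈ PN ↔ {x | D.ev t x ∈ P} ∈ D.W := fun t =>
    D.out_mem (fun _ : Unit => t) (fun w => w () ∈ P)
  refine ⟨D.N, D.str, D.act, D.sys, ⟨fun s => D.cl (cst s), ?_, ?_, ?_, ?_⟩, PN, ?_, m + n,
    fun c d => ∃ z ∈ PN, φ.Realize (Sum.elim (Sum.elim (fun i => c (Fin.castAdd n i))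
      (fun i => d (Fin.natAdd m i))) (fun _ => z)), ?_, fun q i => D.cl (vr q i), ?_, ?_⟩
  · -- injective
    intro s s' h
    obtain ⟨x, hx⟩ := D.W.nonempty_of_mem (D.cl_eq.1 h)
    exact hx
  · -- relations
    intro k R v
    have h1 := D.rel_cl R (fun i => cst (v i))
    refine Iff.trans ?_ h1.symm
    constructor
    · intro h
      exact Filter.univ_mem' fun x => h
    · intro h
      obtain ⟨x, hx⟩ := D.W.nonempty_of_mem h
      exact hx
  · -- fixed
    intro g s
    show D.cl (D.rn g (cst s)) = _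
    rw [hcrn]
  · -- existentially closed
    refine ⟨subset_univ _, fun r k u v hu hv F hF => ?_⟩
    choose s hs using hu
    let t : Fin r ⊕ Fin k → D.Tm := Sum.elim (fun i => cst (s i)) (fun j => D.out (v j))
    have ht : ∀ i, D.cl (t i) = Sum.elim u v i := by
      rintro (i | j)
      · exact hs i
      · exact D.cl_out (v j)
    have h1 : ∀ i j, {x | (D.ev (t i) x = D.ev (t j) x) ↔ Sum.elim u v i = Sum.elim u v j} ∈ D.W := by
      intro i j
      by_cases h : Sum.elim u v i = Sum.elim u v j
      · have h2 : D.cl (t i) = D.cl (t j) := by rw [ht, ht, h]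
        filter_upwards [D.cl_eq.1 h2] with x hx
        exact ⟨fun _ => h, fun _ => hx⟩
      · have h2 : ¬ {x | D.ev (t i) x = D.ev (t j) x} ∈ D.W := fun h3 => h (by
          rw [← ht, ← ht]
          exact D.cl_eq.2 h3)
        filter_upwards [Ultrafilter.compl_mem_iff_notMem.2 h2] with x hx
        exact ⟨fun h3 => absurd h3 hx, fun h3 => absurd h3 h⟩
    have h2 : ∀ q ∈ F, {x | D.S.RelMap q.2.1 (fun i => D.ev (t (q.2.2 i)) x) ↔
        Structure.RelMap q.2.1 (fun i => Sum.elim u v (q.2.2 i))} ∈ D.W := by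
      rintro ⟨l, R, f⟩ -
      have h3 : Structure.RelMap R (fun i => Sum.elim u v (f i)) ↔
          {x | D.S.RelMap R fun i => D.ev (t (f i)) x} ∈ D.W := by
        have h4 : (fun i => Sum.elim u v (f i)) = fun i => D.cl (t (f i)) :=
          funext fun i => (ht _).symm
        rw [h4]
        exact D.rel_cl R fun i => t (f i)
      by_cases h : Structure.RelMap R (fun i => Sum.elim u v (f i))
      · filter_upwards [h3.1 h] with x hx
        exact ⟨fun _ => h, fun _ => hx⟩
      · filter_upwards [Ultrafilter.compl_mem_iff_notMem.2 fun h5 => h (h3.2 h5)] with x hx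
        exact ⟨fun h5 => absurd h5 hx, fun h5 => absurd h5 h⟩
    have h3 : {x | (∀ i j, (D.ev (t i) x = D.ev (t j) x) ↔ Sum.elim u v i = Sum.elim u v j)} ∈ D.W :=
      Filter.eventually_all.2 fun i => Filter.eventually_all.2 fun j => h1 i j
    have h4 : {x | ∀ q ∈ F, (D.S.RelMap q.2.1 (fun i => D.ev (t (q.2.2 i)) x) ↔
        Structure.RelMap q.2.1 (fun i => Sum.elim u v (q.2.2 i)))} ∈ D.W :=
      (Filter.eventually_all_finite hF).2 h2
    obtain ⟨x, hx3, hx4⟩ := D.W.nonempty_of_mem (Filter.inter_mem h3 h4)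
    let v' : Fin k → D.N := fun j => D.cl (cst (D.ev (t (Sum.inr j)) x))
    have hv' : ∀ i, Sum.elim u v' i = D.cl (cst (D.ev (t i) x)) := by
      rintro (i | j)
      · show u i = _
        rw [← hs i]
        rfl
      · rfl
    refine ⟨v', fun i => ⟨_, rfl⟩, fun i j => ?_, fun q hq => ?_⟩
    · rw [hv', hv', D.cl_eq, ← hx3 i j]
      constructor
      · intro h
        exact Filter.univ_mem' fun y => h
      · intro h
        obtain ⟨y, hy⟩ := D.W.nonempty_of_mem h
        exact hy
    · rw [← hx4 q hq]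
      have h5 : (fun i => Sum.elim u v' (q.2.2 i)) =
          fun i => D.cl (cst (D.ev (t (q.2.2 i)) x)) := funext fun i => hv' _
      rw [h5, D.rel_cl]
      constructor
      · intro h
        exact Filter.univ_mem' fun y => h
      · intro h
        obtain ⟨y, hy⟩ := D.W.nonempty_of_mem h
        exact hy
  · -- `P` is invariant
    intro g x
    obtain ⟨t, rfl⟩ := D.cl_surj x
    rw [D.smul_cl, hPN, hPN]
    exact D.rn_mem (fun _ : Fin 1 => t) (fun w => w 0 ∈ P) g
  · -- `ψ` is invariant
    intro σ hσ hσP c d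
    let E : D.N ≃[L] D.N :=
      { toEquiv := σ
        map_fun' := fun f => isEmptyElim f
        map_rel' := fun {k} R v => hσ k R v }
    constructor
    · rintro ⟨z, hz, hr⟩
      refine ⟨σ.symm z, (hσP _).1 (by rw [σ.apply_symm_apply]; exact hz), ?_⟩
      have h1 := (StrongHomClass.realize_formula E φ (v := Sum.elim (Sum.elim (fun i => c (Fin.castAdd n i))
        (fun i => d (Fin.natAdd m i))) (fun _ => σ.symm z))).1
      apply h1
      have h2 : E ∘ (Sum.elim (Sum.elim (fun i => c (Fin.castAdd n i))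
        (fun i => d (Fin.natAdd m i))) (fun _ : Unit => σ.symm z)) =
          Sum.elim (Sum.elim (fun i => σ (c (Fin.castAdd n i))) (fun i => σ (d (Fin.natAdd m i))))
            (fun _ : Unit => z) := by
        funext j
        rcases j with (j | j) | j
        · rfl
        · rfl
        · exact σ.apply_symm_apply z
      rw [h2]
      exact hr
    · rintro ⟨z, hz, hr⟩
      refine ⟨σ z, (hσP _).2 hz, ?_⟩
      have h1 := (StrongHomClass.realize_formula E φ (v := Sum.elim (Sum.elim (fun i => c (Fin.castAdd n i))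
        (fun i => d (Fin.natAdd m i))) (fun _ => z))).2 hr
      have h2 : E ∘ (Sum.elim (Sum.elim (fun i => c (Fin.castAdd n i))
        (fun i => d (Fin.natAdd m i))) (fun _ : Unit => z)) =
          Sum.elim (Sum.elim (fun i => σ (c (Fin.castAdd n i))) (fun i => σ (d (Fin.natAdd m i))))
            (fun _ : Unit => σ z) := by
        funext j
        rcases j with (j | j) | j
        · rfl
        · rfl
        · rfl
      rw [h2] at h1
      exact h1
  · -- the action on the sequence
    intro g q i
    rfl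
  · -- the ladder
    intro p q hpq
    have key : ∀ t : D.Tm, φ.Realize (Sum.elim (Sum.elim (fun i => D.cl (vr p (Fin.castAdd n i)))
        (fun i => D.cl (vr q (Fin.natAdd m i)))) (fun _ : Unit => D.cl t)) ↔
        {x | @Formula.Realize L ℕ S _ φ (Sum.elim (Sum.elim (a (x p)) (b (x q)))
          (fun _ => D.ev t x))} ∈ D.W := by
      intro t
      let u : (Fin m ⊕ Fin n) ⊕ Unit → D.Tm :=
        Sum.elim (Sum.elim (fun i => vr p (Fin.castAdd n i)) (fun i => vr q (Fin.natAdd m i)))
          (fun _ => t)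
      have h1 := D.losF φ u
      have h2 : (fun j => D.cl (u j)) = Sum.elim (Sum.elim (fun i => D.cl (vr p (Fin.castAdd n i)))
        (fun i => D.cl (vr q (Fin.natAdd m i)))) (fun _ : Unit => D.cl t) := by
        funext j
        rcases j with (j | j) | j <;> rfl
      have h3 : ∀ x, (fun j => D.ev (u j) x) = Sum.elim (Sum.elim (a (x p)) (b (x q)))
          (fun _ => D.ev t x) := by
        intro x
        funext j
        rcases j with (j | j) | j
        · exact (hvr p (Fin.castAdd n j) x).trans (sko_app_l _ _ _)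
        · exact (hvr q (Fin.natAdd m j) x).trans (sko_app_r _ _ _)
        · rfl
      rw [h2] at h1
      rw [h1]
      have h4 : {x | @Formula.Realize L ℕ D.S _ φ (fun j => D.ev (u j) x)} =
          {x | @Formula.Realize L ℕ S _ φ (Sum.elim (Sum.elim (a (x p)) (b (x q)))
          (fun _ => D.ev t x))} := by
        ext x
        rw [mem_setOf_eq, mem_setOf_eq, h3]
      rw [h4]
    constructor
    · rintro ⟨z, hz, hr⟩
      obtain ⟨t, rfl⟩ := D.cl_surj z
      by_contra hc
      have hqp : q < p := lt_of_le_of_ne (not_lt.1 hc) (Ne.symm hpq)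
      obtain ⟨x, ⟨hx1, hx2⟩, hx3⟩ := D.W.nonempty_of_mem
        (Filter.inter_mem (Filter.inter_mem ((hPN t).1 hz) ((key t).1 hr)) (D.lt q p hqp))
      have h5 := (hab (x p) (x q)).1 ⟨D.ev t x, hx1, hx2⟩
      exact lt_asymm h5 hx3
    · intro hlt'
      let t : D.Tm := Term.func (L := LK L) (l := m + n) (Sum.inr none)
        (Fin.append (fun i => vr p (Fin.castAdd n i)) (fun i => vr q (Fin.natAdd m i)))
      have ht : ∀ x : ℚ → ℕ, x p < x q → D.ev t x ∈ P ∧
          @Formula.Realize L ℕ S _ φ (Sum.elim (Sum.elim (a (x p)) (b (x q)))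
            (fun _ => D.ev t x)) := by
        intro x hx
        let w : Fin (m + n) → ℕ := fun i => D.ev ((Fin.append (fun i => vr p (Fin.castAdd n i))
          (fun i => vr q (Fin.natAdd m i)) : Fin (m + n) → D.Tm) i) x
        have hwl : (fun i => w (Fin.castAdd n i)) = a (x p) := by
          funext i
          simp only [w, Fin.append_left]
          exact (hvr p (Fin.castAdd n i) x).trans (sko_app_l _ _ _)
        have hwr : (fun i => w (Fin.natAdd m i)) = b (x q) := by
          funext i
          simp only [w, Fin.append_right]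
          exact (hvr q (Fin.natAdd m i) x).trans (sko_app_r _ _ _)
        have h6 : D.ev t x = Wf (m + n) w := rfl
        have h7 := hWf w (by
          rw [hwl, hwr]
          exact (hab (x p) (x q)).2 hx)
        rw [hwl, hwr] at h7
        rw [h6]
        exact h7
      refine ⟨D.cl t, (hPN t).2 ?_, (key t).2 ?_⟩
      · filter_upwards [D.lt p q hlt'] with x hx using (ht x hx).1
      · filter_upwards [D.lt p q hlt'] with x hx using (ht x hx).2

end EAU
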