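import Pool.Agent.EAU.StF

/-!
# EAU, part F: [SLB] stability and bounds for ladders
-/

set_option autoImplicit false
set_option linter.unusedVariables false

namespace EAU

open Set FirstOrder.Language ORD EAP
open scoped Classical
open Pool.Agent.Helper6.Str (PerfK CtblK Iso RelIso Code toStr ofStr)
open Pool.Agent.Helper79.VC (pl Scat)

/-- [SLB] -/
theorem thm_SLB (hCLO : St_CLO) : St_SLB := by
  intro L _ K hK hE S hS N T i hi
  have hb : ∀ (n : ℕ) (R : L.Relations n) (D : Set (Fin n)), ∃ M : ℕ, ∀ (a b : ℕ → Fin n → N),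
      ¬ ∀ k l, k < M → l < M → k ≠ l → (Structure.RelMap R (Mix D (a k) (b l)) ↔ k < l) := by
    intro n R D
    let q : Qf L (Empty ⊕ (Fin n ⊕ Fin n)) :=
      .rel n R (fun k => if k ∈ D then Sum.inr (Sum.inl k) else Sum.inr (Sum.inr k))
    obtain ⟨M, hM⟩ := EAP.bound hK (Gam S) (fun V S' w h e he hr => hCLO L K hE S hS V S' w h e he hr)
      Empty (Fin n) (Fin n) q
    refine ⟨M, fun a b hab => hM N T i hi (fun x => x.elim) a b fun k l hk hl hkl => ?_⟩
    rw [← hab k l hk hl hkl]
    have : (fun t => Sum.elim (fun x : Empty => (x.elim : N)) (Sum.elim (a k) (b l))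
        (if t ∈ D then Sum.inr (Sum.inl t) else Sum.inr (Sum.inr t))) = Mix D (a k) (b l) := by
      funext t
      unfold Mix
      by_cases h : t ∈ D
      · simp [h]
      · simp [h]
    rw [← this]
    exact Iff.rfl
  refine ⟨fun n R D a b hab => ?_, fun n R D => ?_⟩
  · obtain ⟨M, hM⟩ := hb n R D
    exact hM a b fun k l _ _ _ => hab k l
  · obtain ⟨M, hM⟩ := hb n R D
    refine ⟨M, fun a b hab => ?_⟩
    let z : N := i 0
    refine hM (fun k => if h : k < M then a ⟨k, h⟩ else fun _ => z)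
      (fun k => if h : k < M then b ⟨k, h⟩ else fun _ => z) fun k l hk hl _ => ?_
    simp only [hk, hl, dif_pos]
    exact (hab ⟨k, hk⟩ ⟨l, hl⟩).trans Iff.rfl

end EAU
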