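import Pool.Agent.EAU.StE

/-!
# EAU, part E: [SMK] the theories of the members are small, and they are countably many
-/

set_option autoImplicit false
set_option linter.unusedVariables false

namespace EAU

open Set FirstOrder.Language
open scoped FirstOrder
open Pool.Agent.Helper6.Str (PerfK CtblK Iso RelIso Code toStr ofStr countable_relations)
open Pool.Agent.WOM (tp Mon IsEl IsoM Fam ThS Small SatF)

variable {L : FirstOrder.Language.{0, 0}}

private theorem SMK_sym [∀ n, IsEmpty (L.Functions n)] [∀ n, Countable (L.Relations n)] :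
    Countable L.Symbols := by
  have h3 : Countable ((n : ℕ) × L.Relations n) := inferInstance
  have h4 : Countable ((n : ℕ) × L.Functions n) := by
    have : IsEmpty ((n : ℕ) × L.Functions n) := ⟨fun x => isEmptyElim x.2⟩
    infer_instance
  exact inferInstanceAs (Countable (((n : ℕ) × L.Functions n) ⊕ ((n : ℕ) × L.Relations n)))

private theorem SMK_real (S : L.Structure ℕ) (φ : L.Sentence) (v : Fin 0 → ℕ) :
    φ ∈ ThS L S ↔ (BoundedFormula.relabel (fun x : Empty => (x.elim : Fin 0 ⊕ Fin 0)) φ :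
      L.Formula (Fin 0)) ∈ @tp L ℕ S 0 v := by
  let _ := S
  show (ℕ ⊨ φ) ↔ Formula.Realize (BoundedFormula.relabel
    (fun x : Empty => (x.elim : Fin 0 ⊕ Fin 0)) φ : L.Formula (Fin 0)) v
  unfold Sentence.Realize Formula.Realize
  rw [BoundedFormula.realize_relabel]
  apply iff_of_eq
  congr 1
  exact Subsingleton.elim _ _

/-- [SMK] -/
theorem thm_SMK (hTYK : St_TYK) (hAMA : St_AMA) : St_SMK := by
  intro L _ _ K hK hP hE
  have hTY := hTYK L K hK hP
  choose σ hσ using hTY
  refine ⟨fun S hS => ?_, ?_⟩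
  · unfold Pool.Agent.WOM.Small
    refine (countable_range fun p : ℕ × ℕ =>
      (⟨p.1, @tp L ℕ (σ p.1 p.2).1 p.1 (σ p.1 p.2).2⟩ :
        (n : ℕ) × Set (L.Formula (Fin n)))).mono ?_
    rintro ⟨n, p⟩ ⟨S', hS', a, ha⟩
    obtain ⟨S'', f, f', hf, hf'⟩ := hAMA L SMK_sym S S' hS'
    obtain ⟨m, -, hm⟩ := hσ n S'' (hE S S'' f hf hS) (f' ∘ a)
    refine ⟨(n, m), ?_⟩
    have h1 : p = @tp L ℕ (σ n m).1 n (σ n m).2 := by
      have h2 : p = @tp L ℕ S' n a := ha
      rw [h2, hf' n a, hm]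
    rw [h1]
  · refine ⟨fun m => (σ 0 m).1, fun S hS => ?_⟩
    obtain ⟨m, hm1, hm2⟩ := hσ 0 S hS default
    refine ⟨m, hm1, ?_⟩
    ext φ
    rw [SMK_real S φ default, SMK_real (σ 0 m).1 φ (σ 0 m).2, hm2]

end EAU
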