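import Pool.Agent.EAU.StE

/-!
# EAU, part E: countably many types in a class which is not perfect
-/

set_option autoImplicit false

namespace EAU

open Set FirstOrder.Language
open scoped FirstOrder
open Pool.Agent.Helper6.Str (PerfK CtblK Iso RelIso Code toStr ofStr measurableSet_relMap)
open Pool.Agent.WOM (tp)

section

variable {L : FirstOrder.Language.{0, 0}} [∀ n, IsEmpty (L.Functions n)]

private theorem TYK_term {α : Type} (t : L.Term α) :
    ∃ a : α, ∀ (S : L.Structure ℕ) (v : α → ℕ), @FirstOrder.Language.Term.realize L ℕ S α v t = v a := by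
  cases t with
  | var a => exact ⟨a, fun S v => rfl⟩
  | func f ts => exact isEmptyElim f

private theorem TYK_meas [∀ n, Countable (L.Relations n)] {α : Type} {n : ℕ}
    (φ : L.BoundedFormula α n) (v : α → ℕ) (xs : Fin n → ℕ) : MeasurableSet {c : Code L |
      @FirstOrder.Language.BoundedFormula.Realize L ℕ (toStr c) α n φ v xs} := by
  induction φ with
  | falsum => exact MeasurableSet.const _
  | @equal n t₁ t₂ =>
    obtain ⟨a₁, h₁⟩ := TYK_term t₁
    obtain ⟨a₂, h₂⟩ := TYK_term t₂
    have h : {c : Code L | @FirstOrder.Language.BoundedFormula.Realize L ℕ (toStr c) α _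
        (FirstOrder.Language.BoundedFormula.equal t₁ t₂) v xs} =
        {c : Code L | Sum.elim v xs a₁ = Sum.elim v xs a₂} := by
      ext c
      change @FirstOrder.Language.Term.realize L ℕ (toStr c) _ (Sum.elim v xs) t₁ =
        @FirstOrder.Language.Term.realize L ℕ (toStr c) _ (Sum.elim v xs) t₂ ↔ _
      rw [h₁ (toStr c), h₂ (toStr c)]
      rfl
    rw [h]
    exact MeasurableSet.const _
  | @rel n l R ts =>
    choose a ha using fun i => TYK_term (ts i)
    have h : {c : Code L | @FirstOrder.Language.BoundedFormula.Realize L ℕ (toStr c) α _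
        (FirstOrder.Language.BoundedFormula.rel R ts) v xs} =
        {c : Code L | (toStr c).RelMap R (fun i => Sum.elim v xs (a i))} := by
      ext c
      change (toStr c).RelMap R (fun i =>
        @FirstOrder.Language.Term.realize L ℕ (toStr c) _ (Sum.elim v xs) (ts i)) ↔ _
      have h2 : (fun i => @FirstOrder.Language.Term.realize L ℕ (toStr c) _
          (Sum.elim v xs) (ts i)) = fun i => Sum.elim v xs (a i) := funext fun i => ha i _ _
      rw [h2]
      rfl
    rw [h]
    exact measurableSet_relMap R _
  | imp f₁ f₂ ih₁ ih₂ =>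
    have h1 := ih₁ xs
    have h2 := ih₂ xs
    have h3 : {c : Code L | @FirstOrder.Language.BoundedFormula.Realize L ℕ (toStr c) α _
        (f₁.imp f₂) v xs} =
        {c : Code L | @FirstOrder.Language.BoundedFormula.Realize L ℕ (toStr c) α _ f₁ v xs}ᶜ ∪
        {c : Code L | @FirstOrder.Language.BoundedFormula.Realize L ℕ (toStr c) α _ f₂ v xs} := by
      ext c
      simp only [mem_ofPred_eq, mem_union, mem_compl_iff,
        FirstOrder.Language.BoundedFormula.realize_imp]
      tauto
    rw [h3]
    exact h1.compl.union h2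
  | all f ih =>
    have h1 : {c : Code L | @FirstOrder.Language.BoundedFormula.Realize L ℕ (toStr c) α _
        f.all v xs} = ⋂ a : ℕ, {c : Code L |
        @FirstOrder.Language.BoundedFormula.Realize L ℕ (toStr c) α _ f v (Fin.snoc xs a)} := by
      ext c
      simp only [mem_ofPred_eq, mem_iInter, FirstOrder.Language.BoundedFormula.realize_all]
    rw [h1]
    exact MeasurableSet.iInter fun a => ih _

private theorem TYK_meas' [∀ n, Countable (L.Relations n)] {n : ℕ} (φ : L.Formula (Fin n))
    (v : Fin n → ℕ) : MeasurableSet {c : Code L |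
      @FirstOrder.Language.Formula.Realize L ℕ (toStr c) (Fin n) φ v} := by
  unfold FirstOrder.Language.Formula.Realize
  exact TYK_meas φ v _

private theorem TYK_inv {n : ℕ} (φ : L.Formula (Fin n)) (S S' : L.Structure ℕ) (e : ℕ ≃ ℕ)
    (v : Fin n → ℕ) (he : RelIso S S' e) :
    @FirstOrder.Language.Formula.Realize L ℕ S (Fin n) φ v →
      @FirstOrder.Language.Formula.Realize L ℕ S' (Fin n) φ (e ∘ v) := by
  intro h
  let E : @FirstOrder.Language.Equiv L ℕ ℕ S S' :=
    @FirstOrder.Language.Equiv.mk L ℕ ℕ S S' e (fun f => isEmptyElim f)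
      fun R v => (he _ R v).symm
  exact (@FirstOrder.Language.StrongHomClass.realize_formula L ℕ ℕ S S' (Fin n) _ _ _ E φ v).2 h

end

theorem thm_TYK : St_TYK := by
  intro L _ _ K hK hP n
  have hcF : Countable (L.Formula (Fin n)) := inferInstance
  obtain ⟨ρ, hρ⟩ := Pool.Agent.Helper5.DU.ctbl_of_props hK hP (n := n)
    (ι := L.Formula (Fin n))
    (fun φ S v => @FirstOrder.Language.Formula.Realize L ℕ S (Fin n) φ v)
    (fun φ v => TYK_meas' φ v)
    (fun φ S S' e v he => TYK_inv φ S S' e v he)
  refine ⟨ρ, fun S hS v => ?_⟩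
  obtain ⟨m, hm, h⟩ := hρ S hS v
  refine ⟨m, hm, ?_⟩
  ext φ
  exact h φ

end EAU
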