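import Pool.Agent.EAU.ALLD
import Pool.Agent.EAU.SKO
import Pool.Agent.EAU.GAM
import Pool.Agent.EAU.CLO
import Pool.Agent.EAU.SLB
import Pool.Agent.EAU.NMS
import Pool.Agent.EAU.ECT
import Pool.Agent.EAU.BAI
import Pool.Agent.EAU.EAT
import Pool.Agent.EAU.FIN
import Pool.Agent.EAU.ECE
import Pool.Agent.EAU.MSS
import Pool.Agent.EAU.SEF
import Pool.Agent.EAU.AMA
import Pool.Agent.EAU.TYK
import Pool.Agent.EAU.SMK
import Pool.Agent.EAU.PRAK
import Pool.Agent.EAU.PRFK
import Pool.Agent.EAU.CNBK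
import Pool.Agent.EAU.CNTK
import Pool.Agent.EAU.PLT
import Pool.Agent.EAU.KVU
import Pool.Agent.EAU.MATK
import Pool.Agent.EAU.ONK
import Pool.Agent.EAU.MSK
import Pool.Agent.MST.ALL
import Pool.Agent.WOM.PULL

/-!
# EAU: assembly

Vaught's conjecture for all Borel classes of structures in a countable relational language which are
closed under existentially closed extensions.
-/

set_option autoImplicit false
set_option linter.unusedVariables false

namespace EAU

open Pool.Agent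

/-! Part B, C, F -/

theorem all_SKO : St_SKO := thm_SKO
theorem all_GAM : St_GAM := thm_GAM
theorem all_CLO : St_CLO := thm_CLO
theorem all_SLB : St_SLB := thm_SLB all_CLO
theorem all_NMS : St_NMS :=
  thm_NMS all_SKO all_GAM all_CLO all_SLB all_CUT all_LSP all_LNK all_DCD
theorem all_BAI : St_BAI := thm_BAI

/-! Part E -/

theorem all_ECE : St_ECE := thm_ECE
theorem all_MSS : St_MSS := thm_MSS
theorem all_SEF : St_SEF := thm_SEF
theorem all_AMA : St_AMA := thm_AMA all_SEF (WOM.thm_ULT (WOM.thm_DEF1 WOM.thm_DEFF)) MST.all_CMS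
theorem all_TYK : St_TYK := thm_TYK
theorem all_SMK : St_SMK := thm_SMK all_TYK all_AMA
theorem all_PRAK : St_PRAK :=
  thm_PRAK MST.all_APQ MST.all_ATM MST.all_ADJ MST.all_ADK MST.all_MLA MST.all_ECL
theorem all_PRFK : St_PRFK := thm_PRFK MST.all_ELX MST.all_FMI MST.all_ENU all_PRAK
theorem all_CNBK : St_CNBK := thm_CNBK MST.all_APQ MST.all_ADJ MST.all_ADK MST.all_MLA
theorem all_CNTK : St_CNTK :=
  thm_CNTK all_PRFK all_CNBK MST.all_ATM MST.all_APQ MST.all_GLU MST.all_CNA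
theorem all_PLT : St_PLT := thm_PLT (WOM.thm_PULL (WOM.thm_DEF1 WOM.thm_DEFF))
theorem all_KVU : St_KVU := thm_KVU all_PLT
theorem all_MATK : St_MATK := thm_MATK MST.all_ELX all_PLT all_KVU
theorem all_ONK : St_ONK :=
  thm_ONK all_MSS all_AMA all_SMK all_KVU all_CNTK all_MATK (WOM.thm_ULT (WOM.thm_DEF1 WOM.thm_DEFF))
    (WOM.thm_SUBM (WOM.thm_DEF1 WOM.thm_DEFF)) (WOM.thm_HOMG (WOM.thm_DEF1 WOM.thm_DEFF)) MST.all_SAW MST.all_UNM MST.all_HYP
theorem all_MSK : St_MSK := thm_MSK all_ECE all_SMK all_ONK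

/-! The theorem -/

theorem all_ECT : St_ECT := thm_ECT all_NMS all_MSK

end EAU
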