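import Pool.Agent.EAU.StD

/-!
# EAU, part D: balls in the path with pendants
-/

set_option autoImplicit false
set_option linter.unusedVariables false

namespace EAU

open Set

theorem BAL_mem {N ι : Type} {s : N → Set ι} {D : Finset N → Finset N → Prop} {l : ℕ}
    {P Q : ℕ → Finset N} {vt pe : ℕ → N} (h : Cat s D l P Q vt pe) (b : ℕ → ℕ) (z : ℕ → Bool) :
    ∀ (r : ℕ), ∀ x ∈ Bl s (Az s P Q b z) (vt 0) r,
      (∃ n ≤ r, x ∈ P n) ∨ ∃ k, z k = true ∧ 2 * b k ≤ r ∧ x ∈ Q (b k) := by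
  intro r
  induction r with
  | zero =>
    intro x hx
    have e : x = vt 0 := hx
    exact Or.inl ⟨0, le_rfl, e ▸ (h.va 0).1⟩
  | succ r ih =>
    intro y hy
    rcases hy with hy | ⟨hyA, x, hx, hne⟩
    · rcases ih y hy with ⟨n, hn, h1⟩ | ⟨k, hk, h1, h2⟩
      · exact Or.inl ⟨n, by omega, h1⟩
      · exact Or.inr ⟨k, hk, by omega, h2⟩
    · have hne' : (s y ∩ s x).Nonempty := by rwa [inter_comm]
      have hyA' : s y = ∅ ∨ (∃ m, y ∈ P m) ∨ ∃ k, z k = true ∧ y ∈ Q (b k) := by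
        rcases hyA with (h0 | h0) | h0
        · exact Or.inl h0
        · obtain ⟨m, hm⟩ := mem_iUnion.mp h0
          exact Or.inr (Or.inl ⟨m, hm⟩)
        · exact Or.inr (Or.inr h0)
      rcases hyA' with h0 | ⟨m, hm⟩ | ⟨k, hk, hm⟩
      · rw [h0, empty_inter] at hne'
        exact absurd hne' not_nonempty_empty
      · rcases ih x hx with ⟨n, hn, h1⟩ | ⟨k', hk', h1, h2⟩
        · have := h.pp m n y hm x h1 hne'
          exact Or.inl ⟨m, by omega, hm⟩
        · have := (h.pq m (b k') y hm x h2 hne').1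
          exact Or.inl ⟨m, by omega, hm⟩
      · rcases ih x hx with ⟨n, hn, h1⟩ | ⟨k', hk', h1, h2⟩
        · have := (h.pq n (b k) x h1 y hm hne).2
          exact Or.inr ⟨k, hk, by omega, hm⟩
        · have := h.qq (b k') (b k) x h2 y hm hne
          exact Or.inr ⟨k, hk, by omega, hm⟩

theorem thm_BAL : St_BAL := by
  intro N ι s D l P Q vt pe h b hb z r
  refine ⟨BAL_mem h b z r, ?_⟩
  have hfin : ((⋃ n ∈ Iic r, (P n : Set N)) ∪ ⋃ k ∈ Iic r, (Q (b k) : Set N)).Finite :=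
    ((finite_Iic r).biUnion fun n _ => (P n).finite_toSet).union
      ((finite_Iic r).biUnion fun k _ => (Q (b k)).finite_toSet)
  refine hfin.subset fun x hx => ?_
  rcases BAL_mem h b z r x hx with ⟨n, hn, h1⟩ | ⟨k, _, h1, h2⟩
  · exact Or.inl (mem_biUnion (mem_Iic.mpr hn) h1)
  · refine Or.inr (mem_biUnion (x := k) (mem_Iic.mpr ?_) h2)
    have := hb.le_apply (x := k)
    omega

end EAU
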