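import Pool.Agent.EAU.StD

/-!
# EAU, part D: translates outside `U` in consecutive blocks
-/

set_option autoImplicit false
set_option linter.unusedVariables false

noncomputable section

namespace EAU

open Set FirstOrder.Language
open scoped Classical

/-- the combinatorial core: a family of strictly monotone maps into consecutive blocks -/
private theorem BLK_core (U : Set ℚ) (hU : Cut U) (D F : Finset ℚ) (hD : ∀ q ∈ D, q ∈ U)
    (hF : ∀ q ∈ F, q ∉ U) :
    ∃ (r q' : ℚ) (f : ℕ → ℚ → ℚ), (∀ u ∈ U, u < r) ∧ r < q' ∧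
      (∀ p ∈ F, (∀ u ∈ U, p < u) ∨ q' ≤ p) ∧
      (∀ l, ∀ q ∈ D, r < f l q ∧ f l q < q') ∧
      (∀ l, ∀ q ∈ D, ∀ q₁ ∈ D, q < q₁ → f l q < f l q₁) ∧
      (∀ l l', l < l' → ∀ q ∈ D, ∀ q₁ ∈ D, f l q < f l' q₁) := by
  have hside : ∀ p, p ∉ U → (∀ u ∈ U, p < u) ∨ (∀ u ∈ U, u < p) := by
    intro p hp
    by_cases h : ∀ u ∈ U, p < u
    · exact Or.inl h
    · push Not at h
      obtain ⟨u0, hu0, hle⟩ := h
      right
      intro u hu
      by_contra hcon
      push Not at hcon
      exact hp (hU.cv u0 hu0 u hu p hle hcon)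
  obtain ⟨q', hq'U, hq'F⟩ : ∃ q' : ℚ, (∀ u ∈ U, u < q') ∧
      ∀ p ∈ F, (∀ u ∈ U, p < u) ∨ q' ≤ p := by
    set G := F.filter (fun p => ∀ u ∈ U, u < p) with hG
    by_cases hne : G.Nonempty
    · refine ⟨G.min' hne, (Finset.mem_filter.1 (G.min'_mem hne)).2, fun p hp => ?_⟩
      rcases hside p (hF p hp) with h | h
      · exact Or.inl h
      · exact Or.inr (G.min'_le p (Finset.mem_filter.2 ⟨hp, h⟩))
    · obtain ⟨q0, hq0⟩ := hU.bd
      refine ⟨q0, hq0, fun p hp => ?_⟩
      rcases hside p (hF p hp) with h | h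
      · exact Or.inl h
      · exact absurd ⟨p, Finset.mem_filter.2 ⟨hp, h⟩⟩ hne
  obtain ⟨r, hrq, hrU⟩ := hU.ab q' hq'U
  obtain ⟨M, hM0, hM⟩ : ∃ M : ℚ, 0 < M ∧ ∀ q ∈ D, -M < q ∧ q < M := by
    refine ⟨∑ q ∈ D, |q| + 1, ?_, fun q hq => ?_⟩
    · have : 0 ≤ ∑ q ∈ D, |q| := Finset.sum_nonneg fun i _ => abs_nonneg i
      linarith
    · have h1 : |q| ≤ ∑ q ∈ D, |q| :=
        Finset.single_le_sum (f := fun q : ℚ => |q|) (fun i _ => abs_nonneg i) hq
      exact abs_lt.1 (lt_of_le_of_lt h1 (lt_add_one _))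
  have h2M : 0 < 2 * M := by linarith
  set ψ : ℚ → ℚ := fun q => (q + M) / (2 * M) with hψ
  have hψ0 : ∀ q ∈ D, 0 < ψ q := fun q hq => div_pos (by linarith [(hM q hq).1]) h2M
  have hψ1 : ∀ q ∈ D, ψ q < 1 := fun q hq => by
    rw [hψ]
    show (q + M) / (2 * M) < 1
    rw [div_lt_one h2M]
    linarith [(hM q hq).2]
  have hψm : ∀ x y : ℚ, x < y → ψ x < ψ y := fun x y hxy => by
    show (x + M) / (2 * M) < (y + M) / (2 * M)
    exact div_lt_div_of_pos_right (by linarith) h2M
  have hd : 0 < q' - r := sub_pos.2 hrq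
  set T : ℚ → ℚ := fun x => r + (q' - r) * (x / (x + 1)) with hT
  have hT1 : ∀ x, 0 < x → r < T x := fun x hx => by
    have : 0 < (q' - r) * (x / (x + 1)) := mul_pos hd (div_pos hx (by linarith))
    show r < r + (q' - r) * (x / (x + 1))
    linarith
  have hT2 : ∀ x, 0 < x → T x < q' := fun x hx => by
    have h1 : x / (x + 1) < 1 := by
      rw [div_lt_one (by linarith)]
      linarith
    have : (q' - r) * (x / (x + 1)) < (q' - r) * 1 := mul_lt_mul_of_pos_left h1 hd
    show r + (q' - r) * (x / (x + 1)) < q'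
    linarith
  have hT3 : ∀ x y, 0 < x → x < y → T x < T y := fun x y hx hxy => by
    have h1 : x / (x + 1) < y / (y + 1) := by
      rw [div_lt_div_iff₀ (by linarith) (by linarith)]
      nlinarith
    have := mul_lt_mul_of_pos_left h1 hd
    show r + (q' - r) * (x / (x + 1)) < r + (q' - r) * (y / (y + 1))
    linarith
  refine ⟨r, q', fun l q => T (l + ψ q), hrU, hrq, hq'F, ?_, ?_, ?_⟩
  · intro l q hq
    have h0 : (0 : ℚ) < l + ψ q := by
      have := hψ0 q hq
      have hl : (0 : ℚ) ≤ l := Nat.cast_nonneg l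
      linarith
    exact ⟨hT1 _ h0, hT2 _ h0⟩
  · intro l q hq q₁ hq₁ hlt
    have h0 : (0 : ℚ) < l + ψ q := by
      have := hψ0 q hq
      have hl : (0 : ℚ) ≤ l := Nat.cast_nonneg l
      linarith
    exact hT3 _ _ h0 (by linarith [hψm q q₁ hlt])
  · intro l l' hl q hq q₁ hq₁
    have h0 : (0 : ℚ) < l + ψ q := by
      have := hψ0 q hq
      have hl : (0 : ℚ) ≤ l := Nat.cast_nonneg l
      linarith
    refine hT3 _ _ h0 ?_
    have h1 : (l : ℚ) + 1 ≤ l' := by exact_mod_cast hl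
    have h2 := hψ1 q hq
    have h3 := hψ0 q₁ hq₁
    linarith

theorem thm_BLK (hHOM : St_HOM) : St_BLK := by
  intro U hU D F hD hF
  obtain ⟨-, H2, -⟩ := hHOM
  obtain ⟨r, q', f, hrU, hrq, hq'F, hf1, hf2, hf3⟩ := BLK_core U hU D F hD hF
  obtain ⟨u0, hu0⟩ := hU.ne
  have hFD : ∀ p ∈ F, p ∉ D := fun p hp h => hF p hp (hD p h)
  have hex : ∀ l : ℕ, ∃ g : AQ, (∀ q ∈ F, g q = q) ∧ ∀ q ∈ D, g q = f l q := by
    intro l
    obtain ⟨g, hg⟩ := H2 (D ∪ F) (fun q => if q ∈ D then f l q else q) (by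
      intro x hx y hy hxy
      rw [Finset.coe_union] at hx hy
      show (if x ∈ D then f l x else x) < (if y ∈ D then f l y else y)
      rcases hx with hx | hx <;> rcases hy with hy | hy
      · have hx' : x ∈ D := hx
        have hy' : y ∈ D := hy
        rw [if_pos hx', if_pos hy']
        exact hf2 l x hx' y hy' hxy
      · have hx' : x ∈ D := hx
        have hy' : y ∈ F := hy
        rw [if_pos hx', if_neg (hFD y hy')]
        rcases hq'F y hy' with h | h
        · exact absurd (h x (hD x hx')) (not_lt.2 hxy.le)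
        · exact (hf1 l x hx').2.trans_le h
      · have hx' : x ∈ F := hx
        have hy' : y ∈ D := hy
        rw [if_neg (hFD x hx'), if_pos hy']
        exact (hxy.trans (hrU y (hD y hy'))).trans (hf1 l y hy').1
      · have hx' : x ∈ F := hx
        have hy' : y ∈ F := hy
        rw [if_neg (hFD x hx'), if_neg (hFD y hy')]
        exact hxy)
    refine ⟨g, fun q hq => ?_, fun q hq => ?_⟩
    · rw [hg q (Finset.mem_union_right _ hq), if_neg (hFD q hq)]
    · rw [hg q (Finset.mem_union_left _ hq), if_pos hq]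
  choose γ hγ1 hγ2 using hex
  -- comparison of points of blocks
  have hcmp : ∀ (a b : ℕ) (x y : ℚ), x ∈ D → y ∈ D → γ a x < γ b y → a < b ∨ (a = b ∧ x < y) := by
    intro a b x y hx hy hlt
    rw [hγ2 a x hx, hγ2 b y hy] at hlt
    rcases lt_trichotomy a b with h | h | h
    · exact Or.inl h
    · refine Or.inr ⟨h, ?_⟩
      subst h
      rcases lt_trichotomy x y with h1 | h1 | h1
      · exact h1
      · subst h1
        exact absurd hlt (lt_irrefl _)
      · exact absurd (hf2 a y hy x hx h1) (not_lt.2 hlt.le)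
    · exact absurd (hf3 b a h y hy x hx) (not_lt.2 hlt.le)
  refine ⟨γ, hγ1, ?_, ?_, ?_⟩
  · intro l q hq hU'
    have h1 := hrU _ hU'
    rw [hγ2 l q hq] at h1
    exact absurd (hf1 l q hq).1 (not_lt.2 h1.le)
  · intro l l' hl q hq q₁ hq₁
    rw [hγ2 l q hq, hγ2 l' q₁ hq₁]
    exact hf3 l l' hl q hq q₁ hq₁
  · intro k s hs
    set K : Finset ℚ := (Finset.univ.biUnion fun i : Fin k => D.image (fun q => γ (s i) q)) ∪ F
      with hK
    set φ : ℚ → ℚ := fun x => if h : ∃ p : Fin k × ℚ, p.2 ∈ D ∧ γ (s p.1) p.2 = x then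
      γ h.choose.1 h.choose.2 else x with hφ
    have hφ1 : ∀ (i : Fin k) (q : ℚ), q ∈ D → φ (γ (s i) q) = γ i q := by
      intro i q hq
      have h : ∃ p : Fin k × ℚ, p.2 ∈ D ∧ γ (s p.1) p.2 = γ (s i) q := ⟨(i, q), hq, rfl⟩
      have h0 : φ (γ (s i) q) = γ h.choose.1 h.choose.2 := dif_pos h
      rw [h0]
      obtain ⟨h1, h2⟩ := h.choose_spec
      set p := h.choose with hp
      have hs1 : s p.1 = s i := by
        rcases lt_trichotomy (s p.1) (s i) with h3 | h3 | h3
        · have := hf3 _ _ h3 p.2 h1 q hq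
          rw [← hγ2 _ _ h1, ← hγ2 _ _ hq, h2] at this
          exact absurd this (lt_irrefl _)
        · exact h3
        · have := hf3 _ _ h3 q hq p.2 h1
          rw [← hγ2 _ _ h1, ← hγ2 _ _ hq, h2] at this
          exact absurd this (lt_irrefl _)
      have h4 : p.1 = i := hs.injective hs1
      have h5 : p.2 = q := by
        rw [hs1] at h2
        exact (γ (s i)).injective h2
      rw [h4, h5]
    have hφ2 : ∀ q ∈ F, φ q = q := by
      intro q hq
      have h : ¬ ∃ p : Fin k × ℚ, p.2 ∈ D ∧ γ (s p.1) p.2 = q := by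
        rintro ⟨p, hp, hpq⟩
        rw [hγ2 _ _ hp] at hpq
        have h1 := hf1 (s p.1) p.2 hp
        rw [hpq] at h1
        rcases hq'F q hq with h2 | h2
        · exact absurd ((h2 u0 hu0).trans (hrU u0 hu0)) (not_lt.2 h1.1.le)
        · exact absurd h1.2 (not_lt.2 h2)
      exact dif_neg h
    have hmono : StrictMonoOn φ K := by
      intro x hx y hy hxy
      have hx' : x ∈ K := hx
      have hy' : y ∈ K := hy
      rw [hK, Finset.mem_union] at hx' hy'
      rcases hx' with hx' | hx' <;> rcases hy' with hy' | hy'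
      · obtain ⟨i, -, hi⟩ := Finset.mem_biUnion.1 hx'
        obtain ⟨p, hp, rfl⟩ := Finset.mem_image.1 hi
        obtain ⟨j, -, hj⟩ := Finset.mem_biUnion.1 hy'
        obtain ⟨q, hq, rfl⟩ := Finset.mem_image.1 hj
        rw [hφ1 i p hp, hφ1 j q hq]
        rcases hcmp _ _ _ _ hp hq hxy with h | ⟨h, h'⟩
        · have hij : (i : ℕ) < j := hs.lt_iff_lt.1 h
          rw [hγ2 _ _ hp, hγ2 _ _ hq]
          exact hf3 _ _ hij p hp q hq
        · have hij : i = j := hs.injective h
          subst hij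
          exact (γ i).strictMono h'
      · obtain ⟨i, -, hi⟩ := Finset.mem_biUnion.1 hx'
        obtain ⟨p, hp, rfl⟩ := Finset.mem_image.1 hi
        rw [hφ1 i p hp, hφ2 y hy', hγ2 _ _ hp]
        rcases hq'F y hy' with h | h
        · rw [hγ2 _ _ hp] at hxy
          have h1 := (hf1 (s i) p hp).1
          have h2 := (h u0 hu0).trans (hrU u0 hu0)
          exact absurd (h1.trans hxy) (not_lt.2 h2.le)
        · exact (hf1 i p hp).2.trans_le h
      · obtain ⟨j, -, hj⟩ := Finset.mem_biUnion.1 hy'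
        obtain ⟨q, hq, rfl⟩ := Finset.mem_image.1 hj
        rw [hφ1 j q hq, hφ2 x hx', hγ2 _ _ hq]
        rcases hq'F x hx' with h | h
        · exact ((h u0 hu0).trans (hrU u0 hu0)).trans (hf1 j q hq).1
        · rw [hγ2 _ _ hq] at hxy
          have h1 := (hf1 (s j) q hq).2
          exact absurd (hxy.trans h1) (not_lt.2 h)
      · rw [hφ2 x hx', hφ2 y hy']
        exact hxy
    obtain ⟨g, hg⟩ := H2 K φ hmono
    refine ⟨g, fun q hq => ?_, fun i q hq => ?_⟩
    · rw [hg q (Finset.mem_union_right _ hq), hφ2 q hq]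
    · rw [hg (γ (s i) q) (Finset.mem_union_left _ (Finset.mem_biUnion.2
        ⟨i, Finset.mem_univ _, Finset.mem_image.2 ⟨q, hq, rfl⟩⟩)), hφ1 i q hq]

end EAU
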