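import Pool.Agent.EAU.StD

/-!
# EAU, part D: chains of overlapping supports
-/

set_option autoImplicit false

noncomputable section

namespace EAU

open Set FirstOrder.Language
open scoped Classical

/-- the elements reached in `k` steps -/
def CHN_C {N ι : Type} (s : N → Set ι) (S X : Finset N) : ℕ → Finset N
  | 0 => X
  | k + 1 => CHN_C s S X k ∪ S.filter fun z => ∃ x ∈ CHN_C s S X k, (s x ∩ s z).Nonempty

theorem CHN_mem {N ι : Type} (s : N → Set ι) (S X : Finset N) (k : ℕ) (z : N) :
    z ∈ CHN_C s S X (k + 1) ↔ z ∈ CHN_C s S X k ∨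
      (z ∈ S ∧ ∃ x ∈ CHN_C s S X k, (s x ∩ s z).Nonempty) := by
  rw [CHN_C, Finset.mem_union, Finset.mem_filter]

theorem CHN_eq {N ι : Type} (s : N → Set ι) (S X : Finset N) (k : ℕ)
    (h : CHN_C s S X k = CHN_C s S X (k + 1)) :
    CHN_C s S X (k + 1) = CHN_C s S X (k + 2) := by
  ext z
  rw [CHN_mem s S X (k + 1), ← h, ← CHN_mem s S X k, ← h]

theorem CHN_sub {N ι : Type} (s : N → Set ι) (S X : Finset N) (k : ℕ) :
    CHN_C s S X k ⊆ CHN_C s S X (k + 1) := by
  intro z hz
  exact (CHN_mem s S X k z).2 (Or.inl hz)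

theorem CHN_card {N ι : Type} (s : N → Set ι) (S X : Finset N) (k : ℕ) :
    CHN_C s S X k = CHN_C s S X (k + 1) ∨
      k + 1 ≤ (S.filter fun z => z ∈ CHN_C s S X (k + 1)).card := by
  have hstep : ∀ k, CHN_C s S X k ≠ CHN_C s S X (k + 1) →
      ∃ z ∈ S, z ∈ CHN_C s S X (k + 1) ∧ z ∉ CHN_C s S X k := by
    intro k hk
    by_contra hcon
    push Not at hcon
    apply hk
    refine Finset.Subset.antisymm (CHN_sub s S X k) ?_
    intro z hz
    rcases (CHN_mem s S X k z).1 hz with h | h
    · exact h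
    · exact hcon z h.1 hz
  induction k with
  | zero =>
    by_cases h : CHN_C s S X 0 = CHN_C s S X (0 + 1)
    · exact Or.inl h
    · right
      obtain ⟨z, hz1, hz2, -⟩ := hstep 0 h
      exact Finset.card_pos.2 ⟨z, Finset.mem_filter.2 ⟨hz1, hz2⟩⟩
  | succ k ih =>
    by_cases h : CHN_C s S X (k + 1) = CHN_C s S X (k + 1 + 1)
    · exact Or.inl h
    · right
      have h1 : k + 1 ≤ (S.filter fun z => z ∈ CHN_C s S X (k + 1)).card := by
        rcases ih with h2 | h2
        · exact absurd (CHN_eq s S X k h2) h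
        · exact h2
      obtain ⟨z, hz1, hz2, hz3⟩ := hstep (k + 1) h
      have h3 : (S.filter fun z => z ∈ CHN_C s S X (k + 1)) ⊂
          (S.filter fun z => z ∈ CHN_C s S X (k + 1 + 1)) := by
        rw [Finset.ssubset_iff_of_subset]
        · exact ⟨z, Finset.mem_filter.2 ⟨hz1, hz2⟩, fun h4 => hz3 (Finset.mem_filter.1 h4).2⟩
        · intro y hy
          have h4 := Finset.mem_filter.1 hy
          exact Finset.mem_filter.2 ⟨h4.1, CHN_sub s S X (k + 1) h4.2⟩
      have := Finset.card_lt_card h3
      omega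

theorem thm_CHN : St_CHN := by
  intro N ι s D hD l X B y hBl hXB hXyB
  obtain ⟨S, hS⟩ : ∃ S : Finset N, S = insert y B := ⟨_, rfl⟩
  have hScard : S.card ≤ l + 1 := by
    rw [hS]
    exact (Finset.card_insert_le y B).trans (by omega)
  obtain ⟨C, hC⟩ : ∃ C : Finset N, C = CHN_C s S X (l + 1) := ⟨_, rfl⟩
  have hcl : C = CHN_C s S X (l + 2) := by
    rcases CHN_card s S X (l + 1) with h | h
    · rw [hC]
      exact h
    · have := Finset.card_le_card
        (Finset.filter_subset (fun z => z ∈ CHN_C s S X (l + 1 + 1)) S)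
      omega
  have hclosed : ∀ x ∈ C, ∀ z ∈ S, (s x ∩ s z).Nonempty → z ∈ C := by
    intro x hx z hz h
    rw [hcl]
    exact (CHN_mem s S X (l + 1) z).2 (Or.inr ⟨hz, x, hC ▸ hx, h⟩)
  have hdisj : ∀ x ∈ C, ∀ z ∈ S, z ∉ C → Disjoint (s x) (s z) := by
    intro x hx z hz hzC
    rw [Set.disjoint_iff_inter_eq_empty]
    by_contra hne
    exact hzC (hclosed x hx z hz (Set.nonempty_iff_ne_empty.2 hne))
  have hXC : X ⊆ C := by
    have h1 : ∀ k, X ⊆ CHN_C s S X k := by
      intro k
      induction k with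
      | zero => exact Finset.Subset.refl _
      | succ k ih => exact ih.trans (CHN_sub s S X k)
    rw [hC]
    exact h1 _
  set B₁ : Finset N := B.filter fun z => z ∈ C with hB₁
  have hB₁B : B₁ ⊆ B := Finset.filter_subset _ _
  have hDB₁ : D X B₁ := hD.mono _ _ _ hXB hB₁B
  have hyC : y ∈ C := by
    by_contra hy
    apply hXyB
    have h1 : D (X ∪ B₁) (insert y (B.filter fun z => z ∉ C)) := by
      refine hD.dis _ _ ?_
      intro x hx b hb
      have hxC : x ∈ C := by
        rcases Finset.mem_union.1 hx with h | h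
        · exact hXC h
        · exact (Finset.mem_filter.1 h).2
      rcases Finset.mem_insert.1 hb with rfl | hb
      · exact hdisj x hxC b (hS ▸ Finset.mem_insert_self _ _) hy
      · have h2 := Finset.mem_filter.1 hb
        exact hdisj x hxC b (hS ▸ Finset.mem_insert_of_mem h2.1) h2.2
    have h2 := hD.tr _ _ _ hDB₁ h1
    have e : B₁ ∪ insert y (B.filter fun z => z ∉ C) = insert y B := by
      ext z
      simp only [hB₁, Finset.mem_union, Finset.mem_filter, Finset.mem_insert]
      tauto
    rwa [e] at h2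
  have hnot : ¬ D X (insert y B₁) := by
    intro h
    apply hXyB
    have h1 : D (X ∪ insert y B₁) (B.filter fun z => z ∉ C) := by
      refine hD.dis _ _ ?_
      intro x hx b hb
      have hxC : x ∈ C := by
        rcases Finset.mem_union.1 hx with h | h
        · exact hXC h
        · rcases Finset.mem_insert.1 h with rfl | h
          · exact hyC
          · exact (Finset.mem_filter.1 h).2
      have h2 := Finset.mem_filter.1 hb
      exact hdisj x hxC b (hS ▸ Finset.mem_insert_of_mem h2.1) h2.2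
    have h2 := hD.tr _ _ _ h h1
    have e : insert y B₁ ∪ (B.filter fun z => z ∉ C) = insert y B := by
      ext z
      simp only [hB₁, Finset.mem_union, Finset.mem_filter, Finset.mem_insert]
      tauto
    rwa [e] at h2
  refine ⟨B₁, hB₁B, hDB₁, hnot, ?_⟩
  intro A u m hX hA
  have hall : ∀ k, ∀ z ∈ CHN_C s S X k, z ∈ Bl s A u (m + k) := by
    intro k
    induction k with
    | zero => exact fun z hz => hX hz
    | succ k ih =>
      intro z hz
      rcases (CHN_mem s S X k z).1 hz with h | ⟨h1, x, hx, h2⟩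
      · exact Or.inl (ih z h)
      · exact Or.inr ⟨hA z (hS ▸ h1), x, ih x hx, h2⟩
  intro z hz
  refine hall (l + 1) z ?_
  rw [← hC]
  rcases Finset.mem_insert.1 hz with rfl | hz
  · exact hyC
  · exact (Finset.mem_filter.1 hz).2

end EAU
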