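import Pool.Agent.EAU.StD

/-!
# EAU, part D, module CNT: the numbers of visible elements determine `z`
-/

set_option autoImplicit false
set_option linter.unusedVariables false

noncomputable section

namespace EAU

open Set
open scoped Classical

/-- the places of the pendants -/
def CNT_b (l : ℕ) : ℕ → ℕ
  | 0 => 1
  | k + 1 => (l + 1) * (l * (2 * CNT_b l k + 1)) + 2 * CNT_b l k + 1

theorem CNT_b_strict (l : ℕ) : StrictMono (CNT_b l) :=
  strictMono_nat_of_lt_succ fun k => by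
    have h : CNT_b l (k + 1) = (l + 1) * (l * (2 * CNT_b l k + 1)) + 2 * CNT_b l k + 1 := rfl
    omega

theorem CNT_b_gap (l : ℕ) {j k : ℕ} (h : 2 * CNT_b l j ≤ (l + 1) * (l * (2 * CNT_b l k + 1))) :
    j ≤ k := by
  by_contra hjk
  push Not at hjk
  have h1 : CNT_b l (k + 1) ≤ CNT_b l j := (CNT_b_strict l).monotone hjk
  have h2 : CNT_b l (k + 1) = (l + 1) * (l * (2 * CNT_b l k + 1)) + 2 * CNT_b l k + 1 := rfl
  omega

section

variable {N ι : Type} {s : N → Set ι} {D : Finset N → Finset N → Prop} {l : ℕ}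
  {P Q : ℕ → Finset N} {vt pe : ℕ → N}

theorem CNT_PA (b : ℕ → ℕ) (z : ℕ → Bool) (n : ℕ) : (P n : Set N) ⊆ Az s P Q b z :=
  fun _ hx => Or.inl (Or.inr (mem_iUnion.2 ⟨n, hx⟩))

theorem CNT_vt (hGRO : St_GRO) (hI : IAx s D) (hC : Cat s D l P Q vt pe) (b : ℕ → ℕ)
    (z : ℕ → Bool) (n : ℕ) : vt n ∈ Rr D l (Az s P Q b z) (vt 0) (l * n) := by
  induction n with
  | zero => exact mem_singleton _
  | succ n ih =>
    exact hGRO N ι s D hI l (Az s P Q b z) (vt 0) (P n) (vt n) (vt (n + 1)) (CNT_PA b z n)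
      (hC.cP n) (hC.va n).1 (hC.va n).2 (hC.vb n) (l * n) ih

theorem CNT_pe (hGRO : St_GRO) (hI : IAx s D) (hC : Cat s D l P Q vt pe) (b : ℕ → ℕ)
    (z : ℕ → Bool) (k : ℕ) (hk : z k = true) :
    pe (b k) ∈ Rr D l (Az s P Q b z) (vt 0) (l * (2 * b k + 1)) :=
  hGRO N ι s D hI l (Az s P Q b z) (vt 0) (Q (b k)) (vt (2 * b k)) (pe (b k))
    (fun _ hx => Or.inr ⟨k, hk, hx⟩) (hC.cQ _) (hC.wa _).1 (hC.wa _).2 (hC.wb _) (l * (2 * b k))
    (CNT_vt hGRO hI hC b z _)

/-- the elements of `Q (b k)` are in `Az z` only if `z k = true` or they are in the path -/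
theorem CNT_Q (hC : Cat s D l P Q vt pe) {b : ℕ → ℕ} (hb : StrictMono b) {z : ℕ → Bool} {k : ℕ}
    {x : N} (hx : x ∈ Q (b k)) (hP : ∀ n, x ∉ P n) (hA : x ∈ Az s P Q b z) : z k = true := by
  have hne := hC.nQ _ x hx
  rcases hA with (h | h) | ⟨j, hj, h⟩
  · rw [mem_ofPred_eq] at h
    rw [h] at hne
    exact absurd hne not_nonempty_empty
  · obtain ⟨n, hn⟩ := mem_iUnion.1 h
    exact absurd hn (hP n)
  · have := hC.qq _ _ x hx x h (by rwa [inter_self])
    rw [hb.injective this]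
    exact hj

/-- cutting `z` at the place `k` does not change the visible elements -/
theorem CNT_cut (hLOC : St_LOC) (hBAL : St_BAL) (hI : IAx s D) (hC : Cat s D l P Q vt pe)
    {b : ℕ → ℕ} (hb : StrictMono b) (r : ℕ) (z z₁ : ℕ → Bool) (h₁ : ∀ j, z₁ j = true → z j = true)
    (h : ∀ j, z j = true → 2 * b j ≤ (l + 1) * r → z₁ j = true) :
    Rr D l (Az s P Q b z) (vt 0) r = Rr D l (Az s P Q b z₁) (vt 0) r := by
  have hu : vt 0 ∈ Az s P Q b z₁ := CNT_PA b z₁ 0 (hC.va 0).1
  refine ((hLOC N ι s D hI l (Az s P Q b z₁) (vt 0) hu r).2.2.2 (Az s P Q b z) ?_).2 ?_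
  · rintro x ((hx | hx) | ⟨k, hk, hx⟩)
    · exact Or.inl (Or.inl hx)
    · exact Or.inl (Or.inr hx)
    · exact Or.inr ⟨k, h₁ k hk, hx⟩
  · intro x hx
    rcases (hBAL N ι s D l P Q vt pe hC b hb z ((l + 1) * r)).1 x hx with ⟨n, -, hn⟩ | ⟨k, hk, hr, hn⟩
    · exact CNT_PA b z₁ n hn
    · exact Or.inr ⟨k, h k hk hr, hn⟩

theorem CNT_fin (hLOC : St_LOC) (hBAL : St_BAL) (hI : IAx s D) (hC : Cat s D l P Q vt pe)
    {b : ℕ → ℕ} (hb : StrictMono b) (r : ℕ) (z : ℕ → Bool) :
    (Rr D l (Az s P Q b z) (vt 0) r).Finite :=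
  ((hBAL N ι s D l P Q vt pe hC b hb z ((l + 1) * r)).2).subset
    (hLOC N ι s D hI l (Az s P Q b z) (vt 0) (CNT_PA b z 0 (hC.va 0).1) r).2.1

theorem CNT_lt (hLOC : St_LOC) (hGRO : St_GRO) (hBAL : St_BAL) (hI : IAx s D)
    (hC : Cat s D l P Q vt pe) (z z' : ℕ → Bool) (k : ℕ) (hz : z k = true) (hz' : z' k = false)
    (hk : ∀ j < k, z j = z' j) :
    (Rr D l (Az s P Q (CNT_b l) z') (vt 0) (l * (2 * CNT_b l k + 1))).ncard <
      (Rr D l (Az s P Q (CNT_b l) z) (vt 0) (l * (2 * CNT_b l k + 1))).ncard := by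
  have hb := CNT_b_strict l
  set b := CNT_b l with hbdef
  set r := l * (2 * b k + 1) with hr
  set z₁ : ℕ → Bool := fun j => if j ≤ k then z j else false with h₁
  set z₀ : ℕ → Bool := fun j => if j < k then z j else false with h₀
  have e₁ : Rr D l (Az s P Q b z) (vt 0) r = Rr D l (Az s P Q b z₁) (vt 0) r := by
    refine CNT_cut hLOC hBAL hI hC hb r z z₁ (fun j hj => ?_) (fun j hj hjr => ?_)
    · simp only [h₁] at hj
      split_ifs at hj with h
      exact hj
    · simp only [h₁]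
      rw [if_pos (CNT_b_gap l hjr)]
      exact hj
  have e₀ : Rr D l (Az s P Q b z') (vt 0) r = Rr D l (Az s P Q b z₀) (vt 0) r := by
    refine CNT_cut hLOC hBAL hI hC hb r z' z₀ (fun j hj => ?_) (fun j hj hjr => ?_)
    · simp only [h₀] at hj
      split_ifs at hj with h
      rw [← hk j h]
      exact hj
    · simp only [h₀]
      have hjk : j < k := by
        refine lt_of_le_of_ne (CNT_b_gap l hjr) ?_
        rintro rfl
        rw [hz'] at hj
        exact Bool.false_ne_true hj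
      rw [if_pos hjk, hk j hjk]
      exact hj
  rw [e₀, e₁]
  have hu₀ : vt 0 ∈ Az s P Q b z₀ := CNT_PA b z₀ 0 (hC.va 0).1
  refine ncard_lt_ncard (ssubset_iff_subset_ne.2 ⟨?_, ?_⟩) (CNT_fin hLOC hBAL hI hC hb r z₁)
  · refine ((hLOC N ι s D hI l (Az s P Q b z₀) (vt 0) hu₀ r).2.2.2 (Az s P Q b z₁) ?_).1
    rintro x ((hx | hx) | ⟨j, hj, hx⟩)
    · exact Or.inl (Or.inl hx)
    · exact Or.inl (Or.inr hx)
    · refine Or.inr ⟨j, ?_, hx⟩
      simp only [h₀] at hj
      simp only [h₁]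
      split_ifs at hj with h
      rw [if_pos h.le]
      exact hj
  · intro he
    have hp : pe (b k) ∈ Rr D l (Az s P Q b z₁) (vt 0) r := by
      refine CNT_pe hGRO hI hC b z₁ k ?_
      simp only [h₁]
      rw [if_pos le_rfl]
      exact hz
    rw [← he] at hp
    have hA := (hLOC N ι s D hI l (Az s P Q b z₀) (vt 0) hu₀ r).1 hp
    have := CNT_Q hC hb (hC.wa _).2 (hC.wn _) hA
    simp only [h₀] at this
    rw [if_neg (lt_irrefl k)] at this
    exact Bool.false_ne_true this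

theorem CNT_clopen (hC : Cat s D l P Q vt pe) {b : ℕ → ℕ} (hb : StrictMono b) (x : N) :
    IsClopen {z : ℕ → Bool | x ∈ Az s P Q b z} := by
  by_cases h : s x = ∅ ∨ ∃ n, x ∈ P n
  · have : {z : ℕ → Bool | x ∈ Az s P Q b z} = univ := by
      refine eq_univ_of_forall fun z => ?_
      rcases h with h | ⟨n, h⟩
      · exact Or.inl (Or.inl h)
      · exact CNT_PA b z n h
    rw [this]
    exact isClopen_univ
  · push Not at h
    by_cases hq : ∃ k, x ∈ Q (b k)
    · obtain ⟨k, hk⟩ := hq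
      have : {z : ℕ → Bool | x ∈ Az s P Q b z} = (fun z : ℕ → Bool => z k) ⁻¹' {true} := by
        ext z
        rw [mem_ofPred_eq, mem_preimage, mem_singleton_iff]
        exact ⟨fun hA => CNT_Q hC hb hk h.2 hA, fun hz => Or.inr ⟨k, hz, hk⟩⟩
      rw [this]
      exact (isClopen_discrete _).preimage (continuous_apply k)
    · push Not at hq
      have : {z : ℕ → Bool | x ∈ Az s P Q b z} = ∅ := by
        refine eq_empty_of_forall_notMem fun z hA => ?_
        rcases hA with (hA | hA) | ⟨j, hj, hA⟩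
        · rw [mem_ofPred_eq] at hA
          exact h.1.ne_empty hA
        · obtain ⟨n, hn⟩ := mem_iUnion.1 hA
          exact h.2 n hn
        · exact hq j hA
      rw [this]
      exact isClopen_empty

end

/-- [CNT] The numbers of visible elements determine `z`. -/
theorem thm_CNT (hLOC : St_LOC) (hGRO : St_GRO) (hBAL : St_BAL) : St_CNT := by
  intro N ι s D l P Q vt pe hI hC
  refine ⟨CNT_b l, CNT_b_strict l, CNT_clopen hC (CNT_b_strict l), fun z z' hne => ?_⟩
  have hex : ∃ k, z k ≠ z' k := by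
    by_contra h
    push Not at h
    exact hne (funext h)
  have hk := Nat.find_spec hex
  have hlt : ∀ j < Nat.find hex, z j = z' j := fun j hj => not_not.1 (Nat.find_min hex hj)
  set k := Nat.find hex
  refine ⟨l * (2 * CNT_b l k + 1), CNT_fin hLOC hBAL hI hC (CNT_b_strict l) _ z,
    CNT_fin hLOC hBAL hI hC (CNT_b_strict l) _ z', ?_⟩
  cases hz : z k with
  | true =>
    have hz' : z' k = false := by
      rw [hz] at hk
      cases h : z' k with
      | true => rw [h] at hk; exact absurd rfl hk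
      | false => rfl
    exact (CNT_lt hLOC hGRO hBAL hI hC z z' k hz hz' hlt).ne'
  | false =>
    have hz' : z' k = true := by
      rw [hz] at hk
      cases h : z' k with
      | true => rfl
      | false => rw [h] at hk; exact absurd rfl hk
    exact (CNT_lt hLOC hGRO hBAL hI hC z' z k hz' hz (fun j hj => (hlt j hj).symm)).ne

end EAU
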