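import Pool.Agent.EAU.StD

/-!
# EAU, module CTT: the path with pendants in a system
-/

set_option autoImplicit false
set_option linter.unusedVariables false

noncomputable section

namespace EAU

open Set FirstOrder.Language
open scoped Classical

private theorem off_mem {U : Set ℚ} {g : AQ} (hg : Off U g) (q : ℚ) : g q ∈ U ↔ q ∈ U := by
  constructor
  · intro h
    by_contra hq
    rw [hg q hq] at h
    exact hq h
  · intro h
    by_contra hq
    have h1 := hg (g q) hq
    have h2 : g q = q := g.injective h1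
    rw [h2] at hq
    exact hq h

private theorem off_inv {U : Set ℚ} {g : AQ} (hg : Off U g) : Off U g⁻¹ := by
  intro q hq
  have h1 := hg q hq
  have h2 : g⁻¹ (g q) = q := g.symm_apply_apply q
  rwa [h1] at h2

section

variable {N : Type} [MulAction AQ N]

private theorem us_smul (l3 : ∀ (g : AQ) (x : N) (q : ℚ), g q ∈ sp (g • x) ↔ q ∈ sp x)
    {U : Set ℚ} {g : AQ} (hg : Off U g) (x : N) : us U (g • x) = g '' us U x := by
  ext q
  have h0 : g (g.symm q) = q := g.apply_symm_apply q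
  constructor
  · rintro ⟨h1, h2⟩
    refine ⟨g.symm q, ⟨?_, ?_⟩, h0⟩
    · rw [← l3 g, h0]
      exact h1
    · rw [← off_mem hg, h0]
      exact h2
  · rintro ⟨p, ⟨h1, h2⟩, rfl⟩
    exact ⟨(l3 g x p).2 h1, (off_mem hg p).2 h2⟩

end

/-- [CTT] the path with pendants -/
theorem thm_CTT (hLSP : St_LSP) (hSET : St_SET) (hEMB : St_EMB) : St_CTT := by
  intro L N _ _ hS hStab U Z i j u v hA
  obtain ⟨-, -, l3, l4, -, -⟩ := hLSP L N hS
  obtain ⟨s1, s2, -, -, -, s6, -⟩ := hSET L N hS hStab U hA.cut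
  set K : Finset ℚ := Z.biUnion (fun z => (sp z).filter (fun q => q ∈ U)) with hK
  have memK : ∀ z ∈ Z, ∀ q ∈ us U z, q ∈ K := by
    intro z hz q hq
    rw [hK, Finset.mem_biUnion]
    exact ⟨z, hz, Finset.mem_filter.2 ⟨hq.1, hq.2⟩⟩
  have KU : ∀ q ∈ K, q ∈ U := by
    intro q hq
    rw [hK, Finset.mem_biUnion] at hq
    obtain ⟨z, -, hz⟩ := hq
    exact (Finset.mem_filter.1 hz).2
  have iu : i ∈ us U u := ⟨by rw [hA.su]; exact Finset.mem_singleton_self i, hA.iu⟩
  have jv : j ∈ us U v := ⟨by rw [hA.sv]; exact Finset.mem_singleton_self j, hA.ju⟩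
  obtain ⟨h, g, e1, e2, e3, e4, e5, e6, e7, e8, e9⟩ := hEMB U hA.cut K KU i (memK u hA.uz i iu) j
    (memK v hA.vz j jv) hA.ij.ne
  -- translates
  have tr : ∀ (k : AQ), Off U k → ∀ X : Finset N, X ⊆ Z.image (fun z => k • z) →
      IndF L U X (Z.image (fun z => k • z) \ X) →
      IndS L U {z | z ∈ Z ∧ k • z ∈ X} ((Z : Set N) \ {z | z ∈ Z ∧ k • z ∈ X}) := by
    intro k hk X hX hI
    have h1 := s6 _ _ k⁻¹ (off_inv hk) hI
    refine s2 _ _ _ _ h1 ?_ ?_
    · rintro z ⟨hz, hzX⟩
      exact Or.inl ⟨k • z, hzX, inv_smul_smul k z⟩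
    · rintro z ⟨hz, hzX⟩
      refine Or.inl ⟨k • z, ?_, inv_smul_smul k z⟩
      rw [Finset.mem_coe, Finset.mem_sdiff]
      exact ⟨Finset.mem_image_of_mem _ hz, fun h' => hzX ⟨hz, h'⟩⟩
  have conn : ∀ (k : AQ), Off U k → ∀ X : Finset N, X ⊆ Z.image (fun z => k • z) →
      k • u ∈ X → k • v ∉ X → ¬ IndF L U X (Z.image (fun z => k • z) \ X) := by
    intro k hk X hX hu hv hI
    refine hA.con {z | z ∈ Z ∧ k • z ∈ X} (fun z hz => hz.1) ⟨hA.uz, hu⟩ (fun h' => hv h'.2) ?_
    exact tr k hk X hX hI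
  have conn' : ∀ (k : AQ), Off U k → ∀ X : Finset N, X ⊆ Z.image (fun z => k • z) →
      k • v ∈ X → k • u ∉ X → ¬ IndF L U X (Z.image (fun z => k • z) \ X) := by
    intro k hk X hX hv hu hI
    refine hA.con ((Z : Set N) \ {z | z ∈ Z ∧ k • z ∈ X}) sdiff_subset
      ⟨hA.uz, fun h' => hu h'.2⟩ (fun h' => h'.2 ⟨hA.vz, hv⟩) ?_
    have h1 : (Z : Set N) \ ((Z : Set N) \ {z | z ∈ Z ∧ k • z ∈ X}) = {z | z ∈ Z ∧ k • z ∈ X} := by
      rw [sdiff_sdiff_right_self]
      ext z
      exact ⟨fun h' => h'.2, fun h' => ⟨h'.1, h'⟩⟩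
    rw [h1]
    exact s1 _ _ (tr k hk X hX hI)
  have hev : ∀ n, Even n → h (n + 1) • v = h n • v := by
    intro n hn
    refine l4 _ _ _ fun q hq => ?_
    rw [hA.sv, Finset.mem_singleton] at hq
    rw [hq, e3 n hn]
  have hod : ∀ n, ¬ Even n → h (n + 1) • u = h n • u := by
    intro n hn
    refine l4 _ _ _ fun q hq => ?_
    rw [hA.su, Finset.mem_singleton] at hq
    rw [hq, e4 n hn]
  have hgm : ∀ m, g m • u = h (2 * m) • u := by
    intro m
    refine l4 _ _ _ fun q hq => ?_
    rw [hA.su, Finset.mem_singleton] at hq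
    rw [hq, e5 m]
  have hne : ∀ z ∈ Z, (us U z).Nonempty := by
    intro z hz
    have h1 := hA.zm z hz
    unfold MU at h1
    rw [mem_ofPred_eq] at h1
    push Not at h1
    obtain ⟨q, h2, h3⟩ := h1
    exact ⟨q, h2, h3⟩
  have vt1 : ∀ n, Even n → (if Even (n + 1) then h (n + 1) • u else h (n + 1) • v) = h n • v := by
    intro n hn
    rw [if_neg (by rw [Nat.even_add_one]; exact fun h' => h' hn), hev n hn]
  have vt2 : ∀ n, ¬ Even n → (if Even (n + 1) then h (n + 1) • u else h (n + 1) • v) = h n • u := by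
    intro n hn
    rw [if_pos (by rw [Nat.even_add_one]; exact hn), hod n hn]
  refine ⟨fun n => Z.image (fun z => h n • z), fun m => Z.image (fun z => g m • z),
    fun n => if Even n then h n • u else h n • v, fun m => g m • v, ?_, ?_, ?_⟩
  · refine ⟨fun n => Finset.card_image_le, fun n => Finset.card_image_le, ?_, ?_, ?_, ?_, ?_, ?_,
      ?_, ?_, ?_, ?_⟩
    · intro n x hx
      obtain ⟨z, hz, rfl⟩ := Finset.mem_image.1 hx
      rw [us_smul l3 (e1 n)]
      exact (hne z hz).image _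
    · intro n x hx
      obtain ⟨z, hz, rfl⟩ := Finset.mem_image.1 hx
      rw [us_smul l3 (e2 n)]
      exact (hne z hz).image _
    · intro n m x hx y hy hxy
      obtain ⟨z, hz, rfl⟩ := Finset.mem_image.1 hx
      obtain ⟨z', hz', rfl⟩ := Finset.mem_image.1 hy
      rw [us_smul l3 (e1 n), us_smul l3 (e1 m)] at hxy
      obtain ⟨p, ⟨q, hq, hp⟩, ⟨q', hq', hp'⟩⟩ := hxy
      exact e6 n m q (memK z hz q hq) q' (memK z' hz' q' hq') (hp.trans hp'.symm)
    · intro n m x hx y hy hxy
      obtain ⟨z, hz, rfl⟩ := Finset.mem_image.1 hx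
      obtain ⟨z', hz', rfl⟩ := Finset.mem_image.1 hy
      rw [us_smul l3 (e1 n), us_smul l3 (e2 m)] at hxy
      obtain ⟨p, ⟨q, hq, hp⟩, ⟨q', hq', hp'⟩⟩ := hxy
      exact e7 n m q (memK z hz q hq) q' (memK z' hz' q' hq') (hp.trans hp'.symm)
    · intro n m x hx y hy hxy
      obtain ⟨z, hz, rfl⟩ := Finset.mem_image.1 hx
      obtain ⟨z', hz', rfl⟩ := Finset.mem_image.1 hy
      rw [us_smul l3 (e2 n), us_smul l3 (e2 m)] at hxy
      obtain ⟨p, ⟨q, hq, hp⟩, ⟨q', hq', hp'⟩⟩ := hxy
      exact e8 n m q (memK z hz q hq) q' (memK z' hz' q' hq') (hp.trans hp'.symm)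
    · intro n
      constructor
      · show (if Even n then h n • u else h n • v) ∈ Z.image (fun z => h n • z)
        split_ifs
        · exact Finset.mem_image_of_mem _ hA.uz
        · exact Finset.mem_image_of_mem _ hA.vz
      · show (if Even (n + 1) then h (n + 1) • u else h (n + 1) • v) ∈ Z.image (fun z => h n • z)
        by_cases hn : Even n
        · rw [vt1 n hn]
          exact Finset.mem_image_of_mem _ hA.vz
        · rw [vt2 n hn]
          exact Finset.mem_image_of_mem _ hA.uz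
    · intro n X hX h1 h2
      change (if Even n then h n • u else h n • v) ∈ X at h1
      change (if Even (n + 1) then h (n + 1) • u else h (n + 1) • v) ∉ X at h2
      by_cases hn : Even n
      · rw [vt1 n hn] at h2
        rw [if_pos hn] at h1
        exact conn (h n) (e1 n) X hX h1 h2
      · rw [vt2 n hn] at h2
        rw [if_neg hn] at h1
        exact conn' (h n) (e1 n) X hX h1 h2
    · intro m
      constructor
      · show (if Even (2 * m) then h (2 * m) • u else h (2 * m) • v) ∈ Z.image (fun z => g m • z)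
        rw [if_pos (even_two_mul m), ← hgm m]
        exact Finset.mem_image_of_mem _ hA.uz
      · exact Finset.mem_image_of_mem _ hA.vz
    · intro m X hX h1 h2
      change (if Even (2 * m) then h (2 * m) • u else h (2 * m) • v) ∈ X at h1
      rw [if_pos (even_two_mul m), ← hgm m] at h1
      exact conn (g m) (e2 m) X hX h1 h2
    · intro m n hmn
      obtain ⟨z, hz, hzv⟩ := Finset.mem_image.1 hmn
      have h1 : g m j ∈ us U (g m • v) := by
        rw [us_smul l3 (e2 m)]
        exact ⟨j, jv, rfl⟩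
      have hzv' : h n • z = g m • v := hzv
      rw [← hzv', us_smul l3 (e1 n)] at h1
      obtain ⟨q, hq, hq'⟩ := h1
      exact e9 n m q (memK z hz q hq) hq'.symm
  · intro n x hx
    obtain ⟨z, hz, rfl⟩ := Finset.mem_image.1 hx
    exact ⟨h n, e1 n, z, hz, rfl⟩
  · intro n x hx
    obtain ⟨z, hz, rfl⟩ := Finset.mem_image.1 hx
    exact ⟨g n, e2 n, z, hz, rfl⟩

end EAU
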