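import Pool.Agent.EAU.StA

/-!
# EAU: [CUT], existence of a cut
-/

set_option autoImplicit false

namespace EAU

open Set

/-- [CUT] -/
theorem thm_CUT : St_CUT := by
  have i2 : Irrational (Real.sqrt 2) := Nat.Prime.irrational_sqrt (by norm_num)
  have i3 : Irrational (Real.sqrt 3) := by
    have := Nat.Prime.irrational_sqrt (p := 3) (by norm_num)
    exact_mod_cast this
  have h2 : Real.sqrt 2 < 3 / 2 := by
    rw [Real.sqrt_lt' (by norm_num)]; norm_num
  have h3 : (3 / 2 : ℝ) < Real.sqrt 3 := by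
    rw [Real.lt_sqrt (by norm_num)]; norm_num
  have h3' : Real.sqrt 3 < 2 := by
    rw [Real.sqrt_lt' (by norm_num)]; norm_num
  have h23 : Real.sqrt 2 < Real.sqrt 3 := h2.trans h3
  refine ⟨{q : ℚ | Real.sqrt 2 < (q : ℝ) ∧ (q : ℝ) < Real.sqrt 3}, ⟨?_, ?_, ?_, ?_, ?_, ?_, ?_⟩⟩
  · refine ⟨3 / 2, ?_, ?_⟩ <;> push_cast <;> assumption
  · intro x hx z hz y hxy hyz
    have a : (x : ℝ) ≤ y := by exact_mod_cast hxy
    have b : (y : ℝ) ≤ z := by exact_mod_cast hyz
    exact ⟨lt_of_lt_of_le hx.1 a, lt_of_le_of_lt b hz.2⟩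
  · intro x hx
    obtain ⟨y, h1, h2⟩ := exists_rat_btwn hx.2
    exact ⟨y, ⟨hx.1.trans h1, h2⟩, by exact_mod_cast h1⟩
  · intro x hx
    obtain ⟨y, h1, h2⟩ := exists_rat_btwn hx.1
    exact ⟨y, ⟨h1, h2.trans hx.2⟩, by exact_mod_cast h2⟩
  · refine ⟨2, fun u hu => ?_⟩
    have : (u : ℝ) < ((2 : ℚ) : ℝ) := by push_cast; exact hu.2.trans h3'
    exact_mod_cast this
  · intro q hq
    have hle : Real.sqrt 3 ≤ q := by
      by_contra hcon
      push Not at hcon
      obtain ⟨y, h1, h2⟩ := exists_rat_btwn (max_lt hcon h23)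
      have h4 : y < q := hq y ⟨(le_max_right _ _).trans_lt h1, h2⟩
      have h5 : (q : ℝ) < y := (le_max_left _ _).trans_lt h1
      have h6 : q < y := by exact_mod_cast h5
      exact absurd h4 (not_lt.2 h6.le)
    have hne : Real.sqrt 3 ≠ q := fun h => i3 ⟨q, h.symm⟩
    obtain ⟨r, h1, h2⟩ := exists_rat_btwn (lt_of_le_of_ne hle hne)
    refine ⟨r, by exact_mod_cast h2, fun u hu => ?_⟩
    have : (u : ℝ) < r := hu.2.trans h1
    exact_mod_cast this
  · intro q hq
    have hle : (q : ℝ) ≤ Real.sqrt 2 := by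
      by_contra hcon
      push Not at hcon
      obtain ⟨y, h1, h2⟩ := exists_rat_btwn (lt_min hcon h23)
      have h4 : q < y := hq y ⟨h1, h2.trans_le (min_le_right _ _)⟩
      have h5 : (y : ℝ) < q := h2.trans_le (min_le_left _ _)
      have h6 : y < q := by exact_mod_cast h5
      exact absurd h4 (not_lt.2 h6.le)
    have hne : (q : ℝ) ≠ Real.sqrt 2 := fun h => i2 ⟨q, h⟩
    obtain ⟨r, h1, h2⟩ := exists_rat_btwn (lt_of_le_of_ne hle hne)
    refine ⟨r, by exact_mod_cast h1, fun u hu => ?_⟩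
    have : (r : ℝ) < u := h2.trans hu.1
    exact_mod_cast this

end EAU
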