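import Pool.Agent.EAU.StD

/-!
# EAU, module DCD: the output of part D (helper73)
-/

set_option autoImplicit false
set_option linter.unusedVariables false

noncomputable section

namespace EAU

open Set FirstOrder.Language
open scoped Classical

private theorem DCD_iax {L : FirstOrder.Language.{0, 0}} {N : Type} [L.Structure N]
    [MulAction AQ N] (hSET : St_SET) (hS : Sys L N) (hst : Stab L N) (U : Set ℚ) (hU : Cut U) :
    IAx (us (N := N) U) (IndF L U) := by
  obtain ⟨h1, h2, h3, h4, h5, h6, h7⟩ := hSET L N hS hst U hU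
  refine ⟨fun X B C hXB hXBC => ?_, fun X B B' h hB => ?_, fun X B h => ?_⟩
  · unfold IndF at *
    rw [Finset.coe_union] at *
    exact h3 _ _ _ hXB hXBC
  · exact h2 _ _ _ _ h subset_union_left ((Finset.coe_subset.2 hB).trans subset_union_left)
  · exact h4 _ _ fun a ha b hb q hqa hqU hqb =>
      Set.disjoint_left.1 (h a ha b hb) ⟨hqa, hqU⟩ ⟨hqb, hqU⟩

private theorem DCD_us {N : Type} [MulAction AQ N] (U : Set ℚ) (x : N) :
    (us U x).Nonempty ↔ x ∉ MU U := by
  constructor
  · rintro ⟨q, hq, hqU⟩ hx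
    exact hx q hq hqU
  · intro hx
    by_contra h
    rw [Set.not_nonempty_iff_eq_empty] at h
    exact hx fun q hq hqU => by
      have : q ∈ us U x := ⟨hq, hqU⟩
      rw [h] at this
      exact this

private theorem DCD_mu {N : Type} [MulAction AQ N] (U : Set ℚ) (x : N) (hx : x ∈ MU U) :
    us U x = ∅ := by
  by_contra h
  exact (DCD_us U x).1 (Set.nonempty_iff_ne_empty.2 h) hx

/-- the function given by a bijection of subsets -/
private def DCD_ext {N : Type} {A B : Set N} (h : A ≃ B) (x : N) : N :=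
  if hx : x ∈ A then (h ⟨x, hx⟩ : N) else x

private theorem DCD_ext_mem {N : Type} {A B : Set N} (h : A ≃ B) {x : N} (hx : x ∈ A) :
    DCD_ext h x ∈ B := by
  rw [DCD_ext, dif_pos hx]
  exact (h ⟨x, hx⟩).2

private theorem DCD_ext_inv {N : Type} {A B : Set N} (h : A ≃ B) {x : N} (hx : x ∈ A) :
    DCD_ext h.symm (DCD_ext h x) = x := by
  have h1 : DCD_ext h x = (h ⟨x, hx⟩ : N) := by rw [DCD_ext, dif_pos hx]
  have h2 : (h ⟨x, hx⟩ : N) ∈ B := (h ⟨x, hx⟩).2
  rw [h1, DCD_ext, dif_pos h2]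
  have h3 : (⟨(h ⟨x, hx⟩ : N), h2⟩ : B) = h ⟨x, hx⟩ := rfl
  rw [h3, Equiv.symm_apply_apply]

private theorem DCD_iso {L : FirstOrder.Language.{0, 0}} {N : Type} [L.Structure N]
    {A B : Set N} (h : A ≃ B)
    (hr : ∀ (n : ℕ) (R : L.Relations n) (t : Fin n → A),
      Structure.RelMap R (fun k => (t k : N)) ↔ Structure.RelMap R (fun k => (h (t k) : N))) :
    IsoF L A B (DCD_ext h) (DCD_ext h.symm) := by
  refine ⟨fun x hx => DCD_ext_mem h hx, fun y hy => DCD_ext_mem h.symm hy,
    fun x hx => DCD_ext_inv h hx, fun y hy => ?_, fun n R w hw => ?_⟩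
  · have := DCD_ext_inv h.symm hy
    rwa [Equiv.symm_symm] at this
  · have h1 := hr n R fun i => ⟨w i, hw i⟩
    have h2 : (fun i => DCD_ext h (w i)) = fun i => (h ⟨w i, hw i⟩ : N) := by
      funext i
      rw [DCD_ext, dif_pos (hw i)]
    rw [h2]
    exact h1

private theorem DCD_swap {L : FirstOrder.Language.{0, 0}} {N : Type} [L.Structure N]
    {A B : Set N} {f f' : N → N} (h : IsoF L A B f f') : IsoF L B A f' f := by
  refine ⟨h.m', h.m, h.i', h.i, fun n R w hw => ?_⟩
  rw [h.r n R (fun i => f' (w i)) fun i => h.m' _ (hw i)]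
  have h2 : (fun i => f (f' (w i))) = w := funext fun i => h.i' _ (hw i)
  rw [h2]

private theorem DCD_img {L : FirstOrder.Language.{0, 0}} {N : Type} [L.Structure N]
    {A B : Set N} {f f' : N → N} (h : IsoF L A B f f') (X : Finset N) (hX : (X : Set N) ⊆ A) :
    (X.image f).image f' = X := by
  ext y
  simp only [Finset.mem_image, exists_exists_and_eq_and]
  constructor
  · rintro ⟨x, hx, rfl⟩
    rwa [h.i x (hX hx)]
  · intro hy
    exact ⟨y, hy, h.i y (hX hy)⟩

theorem thm_DCD (hSET : St_SET) (hCNT : St_CNT) (hRIN : St_RIN) (hFIE : St_FIE)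
    (hCTT : St_CTT) (hLOC : St_LOC) : St_DCD := by
  intro L N _ _ hS hst hLB U Z i j u v hA
  have hI := DCD_iax hSET hS hst U hA.cut
  obtain ⟨P, Q, vt, pe, hC, hP, hQ⟩ := hCTT L N hS hst U Z i j u v hA
  obtain ⟨b, hb, hcl, hne⟩ := hCNT N ℚ (us U) (IndF L U) Z.card P Q vt pe hI hC
  obtain ⟨e, heM, hE⟩ := hFIE L N hS hst hLB U hA.cut Z hA.zm Z.card
  have hsub : ∀ z, MU (N := N) U ⊆ Az (us U) P Q b z := fun z x hx =>
    Or.inl (Or.inl (DCD_mu U x hx))
  have hvt : ∀ z, vt 0 ∈ Az (us U) P Q b z := fun z =>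
    Or.inl (Or.inr (mem_iUnion.2 ⟨0, (hC.va 0).1⟩))
  have hSb : ∀ z, Sb U Z (Az (us U) P Q b z) := by
    intro z
    refine ⟨hsub z, ?_⟩
    rintro x ((hx | hx) | ⟨k, hk, hx⟩) hxM
    · exact absurd ((DCD_us U x).2 hxM) (by rw [Set.not_nonempty_iff_eq_empty]; exact hx)
    · obtain ⟨n, hn⟩ := mem_iUnion.1 hx
      exact hP n x hn
    · exact hQ (b k) x hx
  let E : Finset N := insert (vt 0) e
  refine ⟨E.card, fun i => (E.equivFin.symm i : N), Az (us U) P Q b, hsub, ?_, hcl, ?_⟩
  · intro z i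
    have h1 : (E.equivFin.symm i : N) ∈ E := (E.equivFin.symm i).2
    rcases Finset.mem_insert.1 h1 with h2 | h2
    · show (E.equivFin.symm i : N) ∈ _
      rw [h2]
      exact hvt z
    · exact hsub z (heM h2)
  · rintro z z' ⟨h, hp, hr⟩
    by_contra hzz
    obtain ⟨r, hf1, hf2, hne'⟩ := hne z z' hzz
    apply hne'
    have hfix : ∀ x ∈ E, DCD_ext h x = x := by
      intro x hx
      have hxA : x ∈ Az (us U) P Q b z := by
        rcases Finset.mem_insert.1 hx with h2 | h2
        · rw [h2]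
          exact hvt z
        · exact hsub z (heM h2)
      have h3 := hp (E.equivFin ⟨x, hx⟩)
      simp only [Equiv.symm_apply_apply] at h3
      rw [DCD_ext, dif_pos hxA]
      exact h3 hxA
    have hF := DCD_iso (L := L) h hr
    have hF' := DCD_swap hF
    have hfix' : ∀ x ∈ E, DCD_ext h.symm x = x := by
      intro x hx
      have hxA : x ∈ Az (us U) P Q b z := by
        rcases Finset.mem_insert.1 hx with h2 | h2
        · rw [h2]
          exact hvt z
        · exact hsub z (heM h2)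
      have h3 := hF.i x hxA
      rwa [hfix x hx] at h3
    have key := hRIN N ℚ (us U) (IndF L U) hI Z.card (Az (us U) P Q b z) (Az (us U) P Q b z')
      (DCD_ext h) (DCD_ext h.symm) (vt 0) (hvt z) (hC.nP 0 _ (hC.va 0).1)
      (hfix _ (Finset.mem_insert_self _ _)) hF.m hF.m' hF.i hF.i' ?_ r
    · rw [← key]
      refine (Set.InjOn.ncard_image ?_).symm
      intro x hx y hy hxy
      have hRA := (hLOC N ℚ (us U) (IndF L U) hI Z.card (Az (us U) P Q b z) (vt 0) (hvt z) r).1
      rw [← hF.i x (hRA hx), hxy, hF.i y (hRA hy)]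
    · intro X B hX hXs hXc hB hBc
      constructor
      · exact hE _ _ _ _ (hSb z) (hSb z') hF
          (fun x hx => hfix x (Finset.mem_insert_of_mem hx)) X B hX
          (fun x hx => ⟨(DCD_us U x).1 (hXs x hx).1, (DCD_us U _).1 (hXs x hx).2⟩) hXc hB hBc
      · intro hD
        have h1 := hE _ _ _ _ (hSb z') (hSb z) hF'
          (fun x hx => hfix' x (Finset.mem_insert_of_mem hx)) (X.image (DCD_ext h))
          (B.image (DCD_ext h)) ?_ ?_ ?_ ?_ ?_ hD
        · rwa [DCD_img hF X hX, DCD_img hF B hB] at h1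
        · intro y hy
          obtain ⟨x, hx, rfl⟩ := Finset.mem_image.1 (Finset.mem_coe.1 hy)
          exact hF.m x (hX hx)
        · intro y hy
          obtain ⟨x, hx, rfl⟩ := Finset.mem_image.1 hy
          refine ⟨(DCD_us U _).1 (hXs x hx).2, ?_⟩
          rw [hF.i x (hX hx)]
          exact (DCD_us U x).1 (hXs x hx).1
        · exact Finset.card_image_le.trans hXc
        · intro y hy
          obtain ⟨x, hx, rfl⟩ := Finset.mem_image.1 (Finset.mem_coe.1 hy)
          exact hF.m x (hB hx)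
        · exact Finset.card_image_le.trans hBc

end EAU
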