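import Pool.Agent.EAU.StD

/-!
# EAU, part D: the embeddings for the path and the pendants

One sequence `s` of automorphisms: `s (3 m) = h (2 m)`, `s (3 m + 1) = g m`, `s (3 m + 2) = h (2 m + 1)`.
Every value `s t q`, `q ∈ K`, is equal to `s β q` for a stage `β ≤ t` where it is fresh.
-/

set_option autoImplicit false
set_option linter.unusedVariables false

noncomputable section

namespace EAU

open Set
open scoped Classical

private theorem EMB_off {U : Set ℚ} {g : AQ} (h : Off U g) {q : ℚ} (hq : q ∈ U) : g q ∈ U := by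
  by_contra h1
  have h2 := h _ h1
  have h3 : g q = q := g.injective h2
  exact h1 (h3.symm ▸ hq)

private theorem EMB_seq (hSTP : St_STP) {U : Set ℚ} (hU : Cut U) {K : Finset ℚ}
    (hK : ∀ q ∈ K, q ∈ U) (c : ℕ → ℚ) (hc : ∀ t, c t ∈ K) (pr : ℕ → ℕ)
    (hpr : ∀ t, pr (t + 1) ≤ t) :
    ∃ s : ℕ → AQ, (∀ t, Off U (s t)) ∧
      (∀ t, s (t + 1) (c (t + 1)) = s (pr (t + 1)) (c (t + 1))) ∧
      ∀ t, ∀ q ∈ K, q ≠ c (t + 1) → ∀ t' < t + 1, ∀ q' ∈ K, s (t + 1) q ≠ s t' q' := by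
  have hG : ∀ (f : {f : ℕ → AQ // ∀ t, Off U (f t)}) (t : ℕ), ∃ g : AQ, Off U g ∧
      g (c t) = f.1 (pr t) (c t) ∧
      ∀ q ∈ K, q ≠ c t → ∀ t' < t, ∀ q' ∈ K, g q ≠ f.1 t' q' := by
    intro f t
    obtain ⟨g, h1, h2, h3⟩ := hSTP U hU K hK (c t) (hc t) (f.1 (pr t) (c t))
      (EMB_off (f.2 _) (hK _ (hc t)))
      ((Finset.range t).biUnion fun t' => K.image fun q => f.1 t' q)
    refine ⟨g, h1, h2, fun q hq hqc t' ht' q' hq' he => h3 q hq hqc ?_⟩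
    rw [he]
    exact Finset.mem_biUnion.2 ⟨t', Finset.mem_range.2 ht', Finset.mem_image.2 ⟨q', hq', rfl⟩⟩
  choose G hG1 hG2 hG3 using hG
  let S : ℕ → {f : ℕ → AQ // ∀ t, Off U (f t)} := fun t =>
    Nat.rec ⟨fun _ => (1 : AQ), fun _ _ _ => rfl⟩ (fun t f =>
      ⟨Function.update f.1 (t + 1) (G f (t + 1)), fun t' => by
        by_cases h : t' = t + 1
        · rw [h, Function.update_self]
          exact hG1 _ _
        · rw [Function.update_of_ne h]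
          exact f.2 _⟩) t
  have hS : ∀ t, (S (t + 1)).1 = Function.update (S t).1 (t + 1) (G (S t) (t + 1)) :=
    fun t => rfl
  have hst : ∀ t t', t' ≤ t → (S t).1 t' = (S t').1 t' := by
    intro t
    induction t with
    | zero =>
      intro t' ht'
      rw [Nat.le_zero.1 ht']
    | succ t ih =>
      intro t' ht'
      rcases Nat.lt_or_ge t' (t + 1) with h | h
      · rw [hS, Function.update_of_ne (Nat.ne_of_lt h)]
        exact ih t' (by omega)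
      · rw [le_antisymm ht' h]
  have hs1 : ∀ t, (S (t + 1)).1 (t + 1) = G (S t) (t + 1) := fun t => by
    rw [hS, Function.update_self]
  refine ⟨fun t => (S t).1 t, fun t => (S t).2 t, fun t => ?_, fun t q hq hqc t' ht' q' hq' => ?_⟩
  · show (S (t + 1)).1 (t + 1) (c (t + 1)) = (S (pr (t + 1))).1 (pr (t + 1)) (c (t + 1))
    rw [hs1, hG2, hst t _ (hpr t)]
  · show (S (t + 1)).1 (t + 1) q ≠ (S t').1 t' q'
    rw [hs1, ← hst t t' (by omega)]
    exact hG3 (S t) (t + 1) q hq hqc t' ht' q' hq'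

/-- the value `s t q` is fresh at the stage `t` -/
private def EMB_Fr (K : Finset ℚ) (s : ℕ → AQ) (t : ℕ) (q : ℚ) : Prop :=
  t = 0 ∨ ∀ t' < t, ∀ q' ∈ K, s t q ≠ s t' q'

private theorem EMB_uniq {K : Finset ℚ} {s : ℕ → AQ} {t t' : ℕ} {q q' : ℚ} (hq : q ∈ K)
    (hq' : q' ∈ K) (h : EMB_Fr K s t q) (h' : EMB_Fr K s t' q') (he : s t q = s t' q') :
    t = t' ∧ q = q' := by
  have h1 : t = t' := by
    rcases Nat.lt_trichotomy t t' with h1 | h1 | h1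
    · rcases h' with h' | h'
      · omega
      · exact absurd he.symm (h' t h1 q hq)
    · exact h1
    · rcases h with h | h
      · omega
      · exact absurd he (h t' h1 q' hq')
  subst h1
  exact ⟨rfl, (s t).injective he⟩

theorem thm_EMB (hSTP : St_STP) : St_EMB := by
  intro U hU K hK i hi j hj hij
  let c : ℕ → ℚ := fun t => if t % 3 = 2 then j else i
  let pr : ℕ → ℕ := fun t => if t % 3 = 2 then t - 2 else t - 1
  obtain ⟨s, hoff, heq, hfr⟩ := EMB_seq hSTP hU hK c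
    (fun t => by
      show (if t % 3 = 2 then j else i) ∈ K
      split_ifs <;> assumption) pr
    (fun t => by
      show (if (t + 1) % 3 = 2 then t + 1 - 2 else t + 1 - 1) ≤ t
      split_ifs <;> omega)
  have c2 : ∀ m, c (3 * m + 2) = j := fun m => if_pos (by omega)
  have c1 : ∀ m, c (3 * m + 1) = i := fun m => if_neg (by omega)
  have c0 : ∀ m, c (3 * m + 3) = i := fun m => if_neg (by omega)
  have p2 : ∀ m, pr (3 * m + 2) = 3 * m := fun m => if_pos (by omega)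
  have p1 : ∀ m, pr (3 * m + 1) = 3 * m := fun m => if_neg (by omega)
  have p0 : ∀ m, pr (3 * m + 3) = 3 * m + 2 := fun m => if_neg (by omega)
  have e1 : ∀ m, s (3 * m + 1) i = s (3 * m) i := fun m => by
    have := heq (3 * m)
    rwa [c1, p1] at this
  have e2 : ∀ m, s (3 * m + 2) j = s (3 * m) j := fun m => by
    have := heq (3 * m + 1)
    rwa [c2, p2] at this
  have e0 : ∀ m, s (3 * m + 3) i = s (3 * m + 2) i := fun m => by
    have := heq (3 * m + 2)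
    rwa [c0, p0] at this
  have f1 : ∀ m, ∀ q ∈ K, q ≠ i → EMB_Fr K s (3 * m + 1) q := fun m q hq hqi =>
    Or.inr (hfr (3 * m) q hq (by rw [c1]; exact hqi))
  have f2 : ∀ m, ∀ q ∈ K, q ≠ j → EMB_Fr K s (3 * m + 2) q := fun m q hq hqj =>
    Or.inr (hfr (3 * m + 1) q hq (by rw [c2]; exact hqj))
  have f0 : ∀ m, ∀ q ∈ K, q ≠ i → EMB_Fr K s (3 * m) q := fun m q hq hqi => by
    rcases Nat.eq_zero_or_pos m with hm | hm
    · exact Or.inl (by omega)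
    · obtain ⟨m', rfl⟩ : ∃ m', m = m' + 1 := ⟨m - 1, by omega⟩
      exact Or.inr (hfr (3 * m' + 2) q hq (by rw [c0]; exact hqi))
  -- the birth of the value `i` at the stage `3 m`
  have b0i : ∀ m, ∃ β, EMB_Fr K s β i ∧ s (3 * m) i = s β i ∧
      (β + 1 = 3 * m ∨ (m = 0 ∧ β = 0)) := fun m => by
    rcases Nat.eq_zero_or_pos m with hm | hm
    · refine ⟨0, Or.inl rfl, by rw [hm], Or.inr ⟨hm, rfl⟩⟩
    · obtain ⟨m', rfl⟩ : ∃ m', m = m' + 1 := ⟨m - 1, by omega⟩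
      exact ⟨3 * m' + 2, f2 m' i hi hij, e0 m', Or.inl (by omega)⟩
  let h : ℕ → AQ := fun n => s (3 * (n / 2) + 2 * (n % 2))
  have hh : ∀ n, h n = s (3 * (n / 2) + 2 * (n % 2)) := fun n => rfl
  have bh : ∀ n, ∀ q ∈ K, ∃ β, EMB_Fr K s β q ∧ h n q = s β q ∧
      (β = 3 * (n / 2) + 2 * (n % 2) ∨ (n % 2 = 0 ∧ q = i ∧ β + 1 = 3 * (n / 2)) ∨
        (n % 2 = 1 ∧ q = j ∧ β = 3 * (n / 2))) := by
    intro n q hq
    rcases Nat.mod_two_eq_zero_or_one n with hn | hn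
    · have h1 : h n = s (3 * (n / 2)) := by rw [hh, hn, mul_zero, add_zero]
      by_cases hqi : q = i
      · obtain ⟨β, hβ, hβ', h2⟩ := b0i (n / 2)
        refine ⟨β, hqi ▸ hβ, by rw [h1, hqi, hβ'], ?_⟩
        rcases h2 with h2 | ⟨h2, h3⟩
        · exact Or.inr (Or.inl ⟨hn, hqi, h2⟩)
        · exact Or.inl (by omega)
      · exact ⟨3 * (n / 2), f0 _ q hq hqi, by rw [h1], Or.inl (by omega)⟩
    · have h1 : h n = s (3 * (n / 2) + 2) := by rw [hh, hn]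
      by_cases hqj : q = j
      · refine ⟨3 * (n / 2), f0 _ q hq (hqj ▸ hij.symm), by rw [h1, hqj, e2], ?_⟩
        exact Or.inr (Or.inr ⟨hn, hqj, rfl⟩)
      · exact ⟨3 * (n / 2) + 2, f2 _ q hq hqj, by rw [h1], Or.inl (by omega)⟩
  have bg : ∀ m, ∀ q ∈ K, ∃ β, EMB_Fr K s β q ∧ s (3 * m + 1) q = s β q ∧
      ((q ≠ i ∧ β = 3 * m + 1) ∨ (q = i ∧ (β + 1 = 3 * m ∨ (m = 0 ∧ β = 0)))) := by
    intro m q hq
    by_cases hqi : q = i
    · obtain ⟨β, hβ, hβ', h2⟩ := b0i m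
      exact ⟨β, hqi ▸ hβ, by rw [hqi, e1, hβ'], Or.inr ⟨hqi, h2⟩⟩
    · exact ⟨3 * m + 1, f1 m q hq hqi, rfl, Or.inl ⟨hqi, rfl⟩⟩
  refine ⟨h, fun m => s (3 * m + 1), fun n => hoff _, fun n => hoff _, fun n hn => ?_,
    fun n hn => ?_, fun m => ?_, ?_, ?_, ?_, ?_⟩
  · obtain ⟨k, hk⟩ := hn
    have h1 : 3 * ((n + 1) / 2) + 2 * ((n + 1) % 2) = 3 * k + 2 := by omega
    have h2 : 3 * (n / 2) + 2 * (n % 2) = 3 * k := by omega
    rw [hh, hh, h1, h2]
    exact e2 k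
  · obtain ⟨k, hk⟩ := Nat.not_even_iff_odd.1 hn
    have h1 : 3 * ((n + 1) / 2) + 2 * ((n + 1) % 2) = 3 * k + 3 := by omega
    have h2 : 3 * (n / 2) + 2 * (n % 2) = 3 * k + 2 := by omega
    rw [hh, hh, h1, h2]
    exact e0 k
  · have h1 : 3 * (2 * m / 2) + 2 * (2 * m % 2) = 3 * m := by omega
    show s (3 * m + 1) i = h (2 * m) i
    rw [hh, h1]
    exact e1 m
  · intro n m q hq q' hq' he
    obtain ⟨β, hβ, hβ', h1⟩ := bh n q hq
    obtain ⟨β', hβ1, hβ1', h2⟩ := bh m q' hq'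
    rw [hβ', hβ1'] at he
    obtain ⟨h3, -⟩ := EMB_uniq hq hq' hβ hβ1 he
    rcases h1 with h1 | ⟨h1, -, h1'⟩ | ⟨h1, -, h1'⟩ <;>
      rcases h2 with h2 | ⟨h2, -, h2'⟩ | ⟨h2, -, h2'⟩ <;> omega
  · intro n m q hq q' hq' he
    obtain ⟨β, hβ, hβ', h1⟩ := bh n q hq
    obtain ⟨β', hβ1, hβ1', h2⟩ := bg m q' hq'
    rw [hβ'] at he
    have he' : s β q = s β' q' := he.trans hβ1'
    obtain ⟨h3, h4⟩ := EMB_uniq hq hq' hβ hβ1 he'
    rcases h2 with ⟨-, h2⟩ | ⟨h2q, h2 | ⟨h2, h2'⟩⟩ <;>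
      rcases h1 with h1 | ⟨h1, -, h1'⟩ | ⟨h1, h1q, h1'⟩
    · omega
    · omega
    · omega
    · omega
    · omega
    · omega
    · omega
    · omega
    · exact absurd (h2q.symm.trans (h4.symm.trans h1q)) hij
  · intro n m q hq q' hq' he
    obtain ⟨β, hβ, hβ', h1⟩ := bg n q hq
    obtain ⟨β', hβ1, hβ1', h2⟩ := bg m q' hq'
    have he' : s β q = s β' q' := hβ'.symm.trans (he.trans hβ1')
    obtain ⟨h3, -⟩ := EMB_uniq hq hq' hβ hβ1 he'
    rcases h1 with ⟨-, h1⟩ | ⟨-, h1 | ⟨h1, h1'⟩⟩ <;>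
      rcases h2 with ⟨-, h2⟩ | ⟨-, h2 | ⟨h2, h2'⟩⟩ <;> omega
  · intro n m q hq he
    obtain ⟨β, hβ, hβ', h1⟩ := bh n q hq
    obtain ⟨β', hβ1, hβ1', h2⟩ := bg m j hj
    rw [hβ'] at he
    have he' : s β' j = s β q := hβ1'.symm.trans he
    obtain ⟨h3, -⟩ := EMB_uniq hj hq hβ1 hβ he'
    rcases h2 with ⟨-, h2⟩ | ⟨h2, -⟩
    · rcases h1 with h1 | ⟨h1, -, h1'⟩ | ⟨h1, -, h1'⟩ <;> omega
    · exact hij h2.symm

end EAU
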