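import Pool.Agent.EAU.StD

/-!
# EAU, part D: [FIE] a finite set in the base decides independence
-/

set_option autoImplicit false
set_option linter.unusedVariables false

noncomputable section

namespace EAU

open Set FirstOrder.Language
open scoped Classical

private theorem FIE_mem {N : Type} (X : Finset N) (i : Fin X.card) :
    ((X.equivFin.symm i : X) : N) ∈ X := (X.equivFin.symm i).2

private theorem FIE_range {N : Type} (X : Finset N) :
    range (fun i : Fin X.card => ((X.equivFin.symm i : X) : N)) = (X : Set N) := by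
  ext y
  constructor
  · rintro ⟨i, rfl⟩
    exact FIE_mem X i
  · intro hy
    exact ⟨X.equivFin ⟨y, hy⟩, by simp⟩

theorem thm_FIE (hHOM : St_HOM) (hLSP : St_LSP) (hSET : St_SET) (hSEP : St_SEP)
    (hVIO : St_VIO) : St_FIE := by
  intro L N _ _ hS hst hlb U hU Z hZ l
  obtain ⟨e₁, K, he₁, hV⟩ := hVIO L N hS hst hlb U hU Z hZ l
  choose e₂ he₂ hP using fun t : ℕ => hSEP L N hS U hU Z t
  obtain ⟨_, hs2, _, _, _, _, hs7⟩ := hSET L N hS hst U hU
  have hl3 := (hLSP L N hS).2.2.1
  refine ⟨e₁ ∪ (Finset.range (l + 1)).biUnion e₂, ?_, ?_⟩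
  · intro y hy
    rw [Finset.mem_coe, Finset.mem_union, Finset.mem_biUnion] at hy
    rcases hy with hy | ⟨t, _, hy⟩
    · exact he₁ hy
    · exact he₂ t hy
  intro A A' f f' hA hA' hf hfe X B hXA hXM hXc hBA hBc hXB
  have hinj : ∀ y ∈ A, ∀ z ∈ A, f y = f z → y = z := by
    intro y hy z hz h
    rw [← hf.i y hy, ← hf.i z hz, h]
  by_contra hnot
  let B₀ : Finset N := B.filter fun y => f y ∉ MU U
  have hB₀ : ∀ y ∈ B₀, y ∈ B ∧ f y ∉ MU U := fun y hy => Finset.mem_filter.1 hy
  have hB₀c : B₀.card ≤ l + 1 := (Finset.card_filter_le _ _).trans hBc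
  let x : Fin X.card → N := fun i => ((X.equivFin.symm i : X) : N)
  let b : Fin B₀.card → N := fun i => ((B₀.equivFin.symm i : B₀) : N)
  have hx : ∀ i, x i ∈ X := FIE_mem X
  have hb : ∀ i, b i ∈ B₀ := FIE_mem B₀
  have hxr : range x = (X : Set N) := FIE_range X
  have hbr : range b = (B₀ : Set N) := FIE_range B₀
  have hxA : ∀ i, x i ∈ A := fun i => hXA (hx i)
  have hbA : ∀ i, b i ∈ A := fun i => hBA (hB₀ _ (hb i)).1
  have hind : Ind L U x b := by
    rw [hs7, hxr, hbr]
    exact hs2 _ _ _ _ hXB subset_union_left fun y hy => Or.inl (hB₀ y hy).1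
  have hnind : ¬ Ind L U (fun i => f (x i)) (fun i => f (b i)) := by
    intro h
    apply hnot
    rw [hs7] at h
    refine hs2 _ _ _ _ h ?_ ?_
    · intro y hy
      rw [Finset.mem_coe, Finset.mem_image] at hy
      obtain ⟨z, hz, rfl⟩ := hy
      have h1 : z ∈ range x := by
        rw [hxr]
        exact hz
      obtain ⟨i, rfl⟩ := h1
      exact Or.inl ⟨i, rfl⟩
    · intro y hy
      rw [Finset.mem_coe, Finset.mem_image] at hy
      obtain ⟨z, hz, rfl⟩ := hy
      by_cases h2 : f z ∈ MU U
      · exact Or.inr h2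
      · have h1 : z ∈ range b := by
          rw [hbr]
          exact Finset.mem_filter.2 ⟨hz, h2⟩
        obtain ⟨i, rfl⟩ := h1
        exact Or.inl ⟨i, rfl⟩
  have hxW : ∀ i, x i ∈ Wd U Z := fun i => hA.2 _ (hxA i) (hXM _ (hx i)).1
  have hfxW : ∀ i, f (x i) ∈ Wd U Z := fun i => hA'.2 _ (hf.m _ (hxA i)) (hXM _ (hx i)).2
  have hfbW : ∀ i, f (b i) ∈ Wd U Z := fun i => hA'.2 _ (hf.m _ (hbA i)) (hB₀ _ (hb i)).2
  have hne : ∀ i j, f (x i) ≠ f (b j) := by
    intro i j hij
    have h1 : x i = b j := hinj _ (hxA i) _ (hbA j) hij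
    let Kx : Finset ℚ := Finset.univ.biUnion fun i => sp (x i)
    let Kb : Finset ℚ := Finset.univ.biUnion fun i => sp (b i)
    obtain ⟨g, hg, hgK⟩ := hHOM.2.2.2.1 U hU Kx Kb
    have h2 : ∀ q ∈ spt x, q ∈ U → g q ∉ spt b := by
      intro q hq hqU hgq
      obtain ⟨i', hi'⟩ := mem_iUnion.1 hq
      obtain ⟨j', hj'⟩ := mem_iUnion.1 hgq
      exact hgK q (Finset.mem_biUnion.2 ⟨i', Finset.mem_univ _, hi'⟩) hqU
        (Finset.mem_biUnion.2 ⟨j', Finset.mem_univ _, hj'⟩)
    have h3 := (hind g hg h2 0 Fin.elim0 (fun i => i.elim0)).1 (Sum.inl (Sum.inl i))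
      (Sum.inl (Sum.inr j))
    have h4 : g • x i = b j := h3.2 h1
    have h5 := (hXM _ (hx i)).1
    have h6 : ∃ q, q ∈ sp (x i) ∧ q ∈ U := by
      by_contra h7
      apply h5
      intro q hq hqU
      exact h7 ⟨q, hq, hqU⟩
    obtain ⟨q, hq, hqU⟩ := h6
    have h7 : g q ∈ sp (b j) := by
      rw [← h4]
      exact (hl3 g (x i) q).2 hq
    exact h2 q (mem_iUnion.2 ⟨i, hq⟩) hqU (mem_iUnion.2 ⟨j, h7⟩)
  obtain ⟨n, c, R, p, m, z, hm, hz, hviol, hlast⟩ := hV X.card B₀.card hXc hB₀c _ _ hfxW hfbW hne
    hnind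
  have hfe1 : ∀ y ∈ e₁, f y = y := fun y hy => hfe y (Finset.mem_union_left _ hy)
  have he1A : ∀ y ∈ e₁, y ∈ A := fun y hy => hA.1 (he₁ hy)
  -- transport of values
  have happ : ∀ k, f (Fin.append b m k) = Fin.append (fun i => f (b i)) m k := by
    intro k
    refine Fin.addCases (fun i => ?_) (fun i => ?_) k
    · rw [Fin.append_left, Fin.append_left]
    · rw [Fin.append_right, Fin.append_right]
      exact hfe1 _ (hm i)
  have happA : ∀ k, Fin.append b m k ∈ A := by
    intro k
    refine Fin.addCases (fun i => ?_) (fun i => ?_) k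
    · rw [Fin.append_left]
      exact hbA i
    · rw [Fin.append_right]
      exact he1A _ (hm i)
  have htr : ∀ w : Fin X.card → N, (∀ i, w i ∈ A) →
      (val R p w (Fin.append b m) ↔
        val R p (fun i => f (w i)) (Fin.append (fun i => f (b i)) m)) := by
    intro w hw
    have h1 := hf.r n R (fun k => Sum.elim w (Fin.append b m) (p k)) fun k => by
      rcases p k with i | i
      · exact hw i
      · exact happA i
    have h2 : (fun k => f (Sum.elim w (Fin.append b m) (p k))) =
        fun k => Sum.elim (fun i => f (w i)) (Fin.append (fun i => f (b i)) m) (p k) := by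
      funext k
      rcases p k with i | i
      · rfl
      · exact happ i
    rw [h2] at h1
    exact h1
  have hset : {j : ℕ | j < 2 * K + 1 ∧ val R p (fun i => z i j) (Fin.append b m)} =
      {j : ℕ | j < 2 * K + 1 ∧
        val R p (fun i => z i j) (Fin.append (fun i => f (b i)) m)} := by
    ext j
    refine and_congr_right fun hj => ?_
    have h1 := htr (fun i => z i j) fun i => he1A _ (hz i j hj)
    have h2 : (fun i => f (z i j)) = fun i => z i j := by
      funext i
      exact hfe1 _ (hz i j hj)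
    rw [h2] at h1
    exact h1
  apply hviol
  rw [← htr x hxA, ← hset]
  refine hlast x b ?_ ?_
  · refine hP X.card x (fun i => f (x i)) hxW hfxW ?_
    intro k w hw
    have hwf : ∀ i, f (w i) = w i := fun i => hfe _ (Finset.mem_union_right _
      (Finset.mem_biUnion.2 ⟨X.card, Finset.mem_range.2 (by omega), hw i⟩))
    have hwA : ∀ i, w i ∈ A := fun i => hA.1 (he₂ X.card (hw i))
    have hall : ∀ i, Sum.elim x w i ∈ A := by
      intro i
      rcases i with i | i
      · exact hxA i
      · exact hwA i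
    have hel : ∀ i, Sum.elim (fun i => f (x i)) w i = f (Sum.elim x w i) := by
      intro i
      rcases i with i | i
      · rfl
      · exact (hwf i).symm
    refine ⟨fun i j => ?_, fun r Q t => ?_⟩
    · rw [hel, hel]
      exact ⟨fun h => by rw [h], fun h => hinj _ (hall i) _ (hall j) h⟩
    · have h1 := hf.r r Q (fun k => Sum.elim x w (t k)) fun k => hall _
      have h2 : (fun k => f (Sum.elim x w (t k))) =
          fun k => Sum.elim (fun i => f (x i)) w (t k) := by
        funext k
        exact (hel _).symm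
      rw [h2] at h1
      exact h1
  · intro g hg hgx
    have h1 := (hind g hg hgx c m (fun i => he₁ (hm i))).2 n R fun k =>
      Sum.elim (fun i => Sum.inl (Sum.inl i))
        (fun j => Fin.addCases (motive := fun _ => (Fin X.card ⊕ Fin B₀.card) ⊕ Fin c)
          (fun i => Sum.inl (Sum.inr i)) (fun i => Sum.inr i) j) (p k)
    have h2 : ∀ w : Fin X.card → N, (fun k => Sum.elim (Sum.elim w b) m
        (Sum.elim (fun i => Sum.inl (Sum.inl i))
        (fun j => Fin.addCases (motive := fun _ => (Fin X.card ⊕ Fin B₀.card) ⊕ Fin c)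
          (fun i => Sum.inl (Sum.inr i)) (fun i => Sum.inr i) j) (p k))) =
        fun k => Sum.elim w (Fin.append b m) (p k) := by
      intro w
      funext k
      rcases p k with i | i
      · rfl
      · show Sum.elim (Sum.elim w b) m
          (Fin.addCases (motive := fun _ => (Fin X.card ⊕ Fin B₀.card) ⊕ Fin c)
          (fun i => Sum.inl (Sum.inr i)) (fun i => Sum.inr i) i) = Fin.append b m i
        refine Fin.addCases (fun j => ?_) (fun j => ?_) i
        · rw [Fin.addCases_left, Fin.append_left]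
          rfl
        · rw [Fin.addCases_right, Fin.append_right]
          rfl
    rw [h2, h2] at h1
    exact h1.symm

end EAU
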