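import Pool.Agent.EAU.StA

/-!
# EAU, part A: the field of free sets
-/

set_option autoImplicit false

namespace EAU

open Set FirstOrder.Language

theorem thm_FLD (hLSP : St_LSP) (hSET : St_SET) : St_FLD := by
  classical
  intro L N _ _ hS hSt U hU
  obtain ⟨hsym, hmono, htr, hdis, hfin, hact, -⟩ := hSET L N hS hSt U hU
  obtain ⟨-, -, -, -, hMU, -⟩ := hLSP L N hS
  have hcompl : ∀ A ∈ Fre L (N := N) U, (MU U)ᶜ \ A ∈ Fre L (N := N) U := by
    rintro A ⟨hA, hAi⟩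
    refine ⟨sdiff_subset, ?_⟩
    rw [sdiff_sdiff_cancel_left hA]
    exact hsym _ _ hAi
  have htop : ((MU U)ᶜ : Set N) ∈ Fre L (N := N) U := by
    refine ⟨Subset.rfl, ?_⟩
    rw [sdiff_self]
    exact hdis _ _ (fun a _ b hb => hb.elim)
  have hint : ∀ A ∈ Fre L (N := N) U, ∀ B ∈ Fre L (N := N) U, A ∩ B ∈ Fre L (N := N) U := by
    rintro A ⟨hA, hAi⟩ B ⟨hB, hBi⟩
    refine ⟨inter_subset_left.trans hA, ?_⟩
    have h1 : IndS L U (A ∩ B) (A \ B) := by
      refine hmono _ _ _ _ hBi (fun x hx => Or.inl hx.2) ?_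
      exact fun x hx => Or.inl ⟨hA hx.1, hx.2⟩
    have h2 : IndS L U (A ∩ B ∪ A \ B) ((MU U)ᶜ \ A) := by
      rw [inter_union_sdiff]
      exact hAi
    have h3 := htr _ _ _ h1 h2
    have e : A \ B ∪ (MU U)ᶜ \ A = (MU U)ᶜ \ (A ∩ B) := by
      ext x
      constructor
      · rintro (hx | hx)
        · exact ⟨hA hx.1, fun h => hx.2 h.2⟩
        · exact ⟨hx.1, fun h => hx.2 h.1⟩
      · rintro ⟨hx1, hx2⟩
        by_cases h : x ∈ A
        · exact Or.inl ⟨h, fun h' => hx2 ⟨h, h'⟩⟩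
        · exact Or.inr ⟨hx1, h⟩
    rwa [e] at h3
  refine ⟨hcompl, ?_, ?_⟩
  · intro 𝒜 h𝒜
    refine ⟨inter_subset_left, ?_⟩
    refine hfin _ _ ?_
    intro A' hA' B' hB' _ hB'f
    have key : ∀ B' : Set N, B'.Finite → B' ⊆ (MU U)ᶜ \ ((MU U)ᶜ ∩ ⋂₀ 𝒜) →
        ∃ Y ∈ Fre L (N := N) U, (MU U)ᶜ ∩ ⋂₀ 𝒜 ⊆ Y ∧ ∀ b ∈ B', b ∉ Y := by
      intro B' hB'
      induction B', hB' using Set.Finite.induction_on with
      | empty => exact fun _ => ⟨_, htop, inter_subset_left, fun b hb => hb.elim⟩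
      | @insert b B' _ _ ih =>
        intro hsub
        obtain ⟨Y, hY, hXY, hbY⟩ := ih ((subset_insert b B').trans hsub)
        have hb := hsub (mem_insert b B')
        have h1 : ∃ A ∈ 𝒜, b ∉ A := by
          by_contra hcon
          push Not at hcon
          exact hb.2 ⟨hb.1, fun A hA => hcon A hA⟩
        obtain ⟨A, hA, hbA⟩ := h1
        refine ⟨Y ∩ A, hint Y hY A (h𝒜 hA), fun x hx => ⟨hXY hx, hx.2 A hA⟩, ?_⟩
        intro c hc
        rcases mem_insert_iff.1 hc with rfl | hc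
        · exact fun h => hbA h.2
        · exact fun h => hbY c hc h.1
    obtain ⟨Y, hY, hXY, hbY⟩ := key B' hB'f hB'
    refine hmono _ _ _ _ hY.2 (fun x hx => Or.inl (hXY (hA' hx))) ?_
    exact fun x hx => Or.inl ⟨(hB' hx).1, hbY x hx⟩
  · rintro A ⟨hA, hAi⟩ h hh
    have hinv : Off U h⁻¹ := by
      intro q hq
      have h1 := hh q hq
      have h2 : h⁻¹ (h q) = q := by
        rw [← RelIso.mul_apply, inv_mul_cancel]
        rfl
      rwa [h1] at h2
    refine ⟨?_, ?_⟩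
    · rintro _ ⟨x, hx, rfl⟩ hcon
      exact hA hx ((hMU U h x hh).1 hcon)
    · have h3 := hact _ _ h hh hAi
      have e : (fun x => h • x) '' ((MU U)ᶜ \ A) = (MU U)ᶜ \ ((fun x => h • x) '' A) := by
        ext x
        constructor
        · rintro ⟨y, hy, rfl⟩
          refine ⟨fun hcon => hy.1 ((hMU U h y hh).1 hcon), ?_⟩
          rintro ⟨z, hz, hzy⟩
          have : z = y := MulAction.injective h hzy
          exact hy.2 (this ▸ hz)
        · rintro ⟨hx1, hx2⟩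
          refine ⟨h⁻¹ • x, ⟨fun hcon => hx1 ((hMU U h⁻¹ x hinv).1 hcon), ?_⟩, smul_inv_smul h x⟩
          intro hcon
          exact hx2 ⟨_, hcon, smul_inv_smul h x⟩
      rwa [e] at h3

end EAU
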