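import Pool.Agent.EAU.StA

/-!
# EAU: independent unions are determined by the types of the parts (module FRE)
-/

set_option autoImplicit false
set_option linter.unusedVariables false

namespace EAU

open Set FirstOrder.Language

private theorem FRE_off {U : Set ℚ} {g : AQ} (hg : Off U g) {q : ℚ} (h : g q ∈ U) : q ∈ U := by
  by_contra h'
  rw [hg q h'] at h
  exact h' h

private theorem FRE_fin {N : Type} [MulAction AQ N] {α : Type} [Finite α] (X : α → N) :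
    (spt X).Finite :=
  Set.finite_iUnion fun i => (sp (X i)).finite_toSet

theorem thm_FRE (hHOM : St_HOM) (hLSP : St_LSP) (hQEB : St_QEB) (hPSH : St_PSH)
    (hIND : St_IND) : St_FRE := by
  intro L N _ _ hS hSt U hU α β _ _ X X' Y Y' hXY hXY' hX hY n m hm
  obtain ⟨-, -, l3, -, -, -⟩ := hLSP L N hS
  obtain ⟨-, q2, q3, q4, -, -, -, q8, q9⟩ := hQEB L N hS
  obtain ⟨-, -, -, H4, -⟩ := hHOM
  -- the support of everything
  have hfin : (spt X ∪ spt X' ∪ spt Y ∪ spt Y' ∪ spt m).Finite :=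
    ((((FRE_fin X).union (FRE_fin X')).union (FRE_fin Y)).union (FRE_fin Y')).union (FRE_fin m)
  obtain ⟨S, hSe⟩ : ∃ S : Finset ℚ, (S : Set ℚ) = spt X ∪ spt X' ∪ spt Y ∪ spt Y' ∪ spt m :=
    ⟨hfin.toFinset, hfin.coe_toFinset⟩
  have hmem : ∀ q : ℚ, q ∈ spt X ∪ spt X' ∪ spt Y ∪ spt Y' ∪ spt m → q ∈ S := fun q hq => by
    rw [← hSe] at hq
    exact hq
  have sX : ∀ q ∈ spt X, q ∈ S := fun q hq =>
    hmem q (Or.inl (Or.inl (Or.inl (Or.inl hq))))
  have sX' : ∀ q ∈ spt X', q ∈ S := fun q hq =>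
    hmem q (Or.inl (Or.inl (Or.inl (Or.inr hq))))
  have sY : ∀ q ∈ spt Y, q ∈ S := fun q hq => hmem q (Or.inl (Or.inl (Or.inr hq)))
  have sY' : ∀ q ∈ spt Y', q ∈ S := fun q hq => hmem q (Or.inl (Or.inr hq))
  have sm : ∀ q ∈ spt m, q ∈ S := fun q hq => hmem q (Or.inr hq)
  obtain ⟨g, hg, hgS⟩ := H4 U hU S S
  -- supports of translates
  have hmv : ∀ {γ : Type} (Z : γ → N), (∀ q ∈ spt Z, q ∈ S) →
      ∀ q ∈ spt (fun i => g • Z i), q ∈ U → q ∉ S := by
    intro γ Z hZ q hq hqU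
    obtain ⟨i, hi⟩ := Set.mem_iUnion.1 hq
    have e : g (g.symm q) = q := g.apply_symm_apply q
    have h1 : g.symm q ∈ sp (Z i) := by
      refine (l3 g (Z i) (g.symm q)).1 ?_
      rw [e]
      exact hi
    have h2 : g.symm q ∈ U := FRE_off hg (by rw [e]; exact hqU)
    have h3 := hgS (g.symm q) (hZ _ (Set.mem_iUnion.2 ⟨i, h1⟩)) h2
    rw [e] at h3
    exact h3
  -- three formats of the triples
  have fmt1 : ∀ (A A' : α → N) (B B' : β → N),
      QE L (Sum.elim A (Sum.elim B m)) (Sum.elim A' (Sum.elim B' m)) →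
      QE L (Sum.elim (Sum.elim A B) m) (Sum.elim (Sum.elim A' B') m) := by
    intro A A' B B' h
    have h1 := q4 _ ((α ⊕ β) ⊕ Fin n)
      (Sum.elim (Sum.elim (fun a => Sum.inl a) (fun b => Sum.inr (Sum.inl b)))
        (fun c => Sum.inr (Sum.inr c))) _ _ h
    have e : ∀ (A : α → N) (B : β → N), (Sum.elim A (Sum.elim B m)) ∘
        (Sum.elim (Sum.elim (fun a => Sum.inl a) (fun b => Sum.inr (Sum.inl b)))
          (fun c => Sum.inr (Sum.inr c)) : (α ⊕ β) ⊕ Fin n → α ⊕ (β ⊕ Fin n)) =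
        Sum.elim (Sum.elim A B) m := by
      intro A B
      funext x
      rcases x with (x | x) | x <;> rfl
    rw [e, e] at h1
    exact h1
  have fmt2 : ∀ (A A' : α → N) (B B' : β → N),
      QE L (Sum.elim B (Sum.elim A m)) (Sum.elim B' (Sum.elim A' m)) →
      QE L (Sum.elim (Sum.elim A B) m) (Sum.elim (Sum.elim A' B') m) := by
    intro A A' B B' h
    have h1 := q4 _ ((α ⊕ β) ⊕ Fin n)
      (Sum.elim (Sum.elim (fun a => Sum.inr (Sum.inl a)) (fun b => Sum.inl b))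
        (fun c => Sum.inr (Sum.inr c))) _ _ h
    have e : ∀ (A : α → N) (B : β → N), (Sum.elim B (Sum.elim A m)) ∘
        (Sum.elim (Sum.elim (fun a => Sum.inr (Sum.inl a)) (fun b => Sum.inl b))
          (fun c => Sum.inr (Sum.inr c)) : (α ⊕ β) ⊕ Fin n → β ⊕ (α ⊕ Fin n)) =
        Sum.elim (Sum.elim A B) m := by
      intro A B
      funext x
      rcases x with (x | x) | x <;> rfl
    rw [e, e] at h1
    exact h1
  have hsub : ∀ (B : β → N), (∀ q ∈ spt B, q ∈ S) →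
      spt (Sum.elim B m) ⊆ (S : Set ℚ) := by
    intro B hB q hq
    obtain ⟨i, hi⟩ := Set.mem_iUnion.1 hq
    rcases i with i | i
    · exact hB q (Set.mem_iUnion.2 ⟨i, hi⟩)
    · exact sm q (Set.mem_iUnion.2 ⟨i, hi⟩)
  -- push `g X` into the base
  obtain ⟨h, hW, hWQ⟩ := hPSH L N hS hSt U hU α (fun i => g • X i) S (hmv X sX)
  -- push `Y'` into the base, over `g X`, `g X'`, `m`
  have hfin2 : (spt (fun i => g • X i) ∪ spt (fun i => g • X' i) ∪ spt m).Finite :=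
    ((FRE_fin _).union (FRE_fin _)).union (FRE_fin m)
  obtain ⟨T, hTe⟩ : ∃ T : Finset ℚ,
      (T : Set ℚ) = spt (fun i => g • X i) ∪ spt (fun i => g • X' i) ∪ spt m :=
    ⟨hfin2.toFinset, hfin2.coe_toFinset⟩
  have hYT : ∀ q ∈ spt Y', q ∈ U → q ∉ T := by
    intro q hq hqU hqT
    have h1 : q ∈ (T : Set ℚ) := hqT
    rw [hTe] at h1
    rcases h1 with (h1 | h1) | h1
    · exact hmv X sX q h1 hqU (sY' q hq)
    · exact hmv X' sX' q h1 hqU (sY' q hq)
    · obtain ⟨i, hi⟩ := Set.mem_iUnion.1 h1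
      exact hm i q hi hqU
  obtain ⟨k, hV, hVQ⟩ := hPSH L N hS hSt U hU β Y' T hYT
  have hsubT : ∀ (A : α → N), spt A ⊆ (T : Set ℚ) → spt (Sum.elim A m) ⊆ (T : Set ℚ) := by
    intro A hA q hq
    obtain ⟨i, hi⟩ := Set.mem_iUnion.1 hq
    rcases i with i | i
    · exact hA (Set.mem_iUnion.2 ⟨i, hi⟩)
    · rw [hTe]
      exact Or.inr (Set.mem_iUnion.2 ⟨i, hi⟩)
  have tX : spt (fun i => g • X i) ⊆ (T : Set ℚ) := by
    rw [hTe]
    exact fun q hq => Or.inl (Or.inl hq)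
  have tX' : spt (fun i => g • X' i) ⊆ (T : Set ℚ) := by
    rw [hTe]
    exact fun q hq => Or.inl (Or.inr hq)
  -- the chain
  have c1 : QE L (Sum.elim (Sum.elim (fun i => g • X i) Y) m) (Sum.elim (Sum.elim X Y) m) :=
    hXY g hg (fun q hq hqU hq' => hgS q (sX q hq) hqU (sY _ hq')) n m hm
  have c2 : QE L (Sum.elim (Sum.elim (fun i => h • g • X i) Y) m)
      (Sum.elim (Sum.elim (fun i => g • X i) Y) m) :=
    fmt1 _ _ _ _ (hWQ (β ⊕ Fin n) (Sum.elim Y m) (hsub Y sY))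
  have c3 : QE L (Sum.elim (Sum.elim (fun i => h • g • X i) Y) m)
      (Sum.elim (Sum.elim (fun i => h • g • X i) Y') m) := by
    refine fmt2 _ _ _ _ (q8 U β (α ⊕ Fin n) Y Y' (Sum.elim (fun i => h • g • X i) m) ?_ hY).1
    rintro (i | i)
    · exact hW i
    · exact hm i
  have c4 : QE L (Sum.elim (Sum.elim (fun i => h • g • X i) Y') m)
      (Sum.elim (Sum.elim (fun i => g • X i) Y') m) :=
    fmt1 _ _ _ _ (hWQ (β ⊕ Fin n) (Sum.elim Y' m) (hsub Y' sY'))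
  have c5 : QE L (Sum.elim (Sum.elim (fun i => g • X i) (fun i => k • Y' i)) m)
      (Sum.elim (Sum.elim (fun i => g • X i) Y') m) :=
    fmt2 _ _ _ _ (hVQ (α ⊕ Fin n) (Sum.elim (fun i => g • X i) m) (hsubT _ tX))
  have c6 : QE L (Sum.elim (Sum.elim (fun i => g • X i) (fun i => k • Y' i)) m)
      (Sum.elim (Sum.elim (fun i => g • X' i) (fun i => k • Y' i)) m) := by
    have hb : ∀ i, Sum.elim (fun i => k • Y' i) m i ∈ MU U := by
      rintro (i | i)
      · exact hV i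
      · exact hm i
    have d1 := (q8 U α (β ⊕ Fin n) _ _ (Sum.elim (fun i => k • Y' i) m) hb (q9 U α X g hg)).1
    have d2 := (q8 U α (β ⊕ Fin n) _ _ (Sum.elim (fun i => k • Y' i) m) hb hX).1
    have d3 := (q8 U α (β ⊕ Fin n) _ _ (Sum.elim (fun i => k • Y' i) m) hb (q9 U α X' g hg)).1
    exact fmt1 _ _ _ _ (q3 _ _ _ _ d1 (q3 _ _ _ _ d2 (q2 _ _ _ d3)))
  have c7 : QE L (Sum.elim (Sum.elim (fun i => g • X' i) (fun i => k • Y' i)) m)
      (Sum.elim (Sum.elim (fun i => g • X' i) Y') m) :=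
    fmt2 _ _ _ _ (hVQ (α ⊕ Fin n) (Sum.elim (fun i => g • X' i) m) (hsubT _ tX'))
  have c8 : QE L (Sum.elim (Sum.elim (fun i => g • X' i) Y') m) (Sum.elim (Sum.elim X' Y') m) :=
    hXY' g hg (fun q hq hqU hq' => hgS q (sX' q hq) hqU (sY' _ hq')) n m hm
  exact q3 _ _ _ _ (q2 _ _ _ c1) (q3 _ _ _ _ (q2 _ _ _ c2) (q3 _ _ _ _ c3 (q3 _ _ _ _ c4
    (q3 _ _ _ _ (q2 _ _ _ c5) (q3 _ _ _ _ c6 (q3 _ _ _ _ c7 c8))))))

end EAU
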