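import Pool.Agent.EAU.StD

/-!
# EAU, part D: growth of the visible sets
-/

set_option autoImplicit false

noncomputable section

namespace EAU

open Set FirstOrder.Language
open scoped Classical

theorem thm_GRO : St_GRO := by
  intro N ι s D hD l A u F a b hFA hFl ha hb hcon r har
  have hmono : ∀ k, Rr D l A u k ⊆ Rr D l A u (k + 1) := fun k x hx => Or.inl hx
  have hemp : ∀ X : Finset N, D X ∅ := by
    intro X
    refine hD.dis X ∅ fun x _ c hc => ?_
    simp at hc
  -- the step: a new element of `F` becomes visible
  have hstep : ∀ k, a ∈ Rr D l A u k → b ∉ Rr D l A u k →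
      ∃ y ∈ F, y ∉ Rr D l A u k ∧ y ∈ Rr D l A u (k + 1) := by
    intro k hak hbk
    set X : Finset N := F.filter (fun x => x ∈ Rr D l A u k) with hX
    have hXF : X ⊆ F := Finset.filter_subset _ _
    have haX : a ∈ X := Finset.mem_filter.2 ⟨ha, hak⟩
    have hbX : b ∉ X := fun h => hbk (Finset.mem_filter.1 h).2
    have hXR : (X : Set N) ⊆ Rr D l A u k := fun x hx => (Finset.mem_filter.1 hx).2
    have hXl : X.card ≤ l := (Finset.card_le_card hXF).trans hFl
    by_contra hno
    push Not at hno
    have key : ∀ B : Finset N, B ⊆ F \ X → D X B := by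
      intro B
      induction B using Finset.induction_on with
      | empty => exact fun _ => hemp X
      | insert y B hy ih =>
        intro hB
        have hB1 : B ⊆ F \ X := fun z hz => hB (Finset.mem_insert_of_mem hz)
        have hB2 : D X B := ih hB1
        have hyF : y ∈ F \ X := hB (Finset.mem_insert_self _ _)
        obtain ⟨hyF1, hyF2⟩ := Finset.mem_sdiff.1 hyF
        have hyR : y ∉ Rr D l A u k := fun h => hyF2 (Finset.mem_filter.2 ⟨hyF1, h⟩)
        by_contra hne
        refine hno y hyF1 hyR (Or.inr ⟨X, hXR, hXl, hFA hyF1, B, ?_, ?_, hB2, hne⟩)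
        · exact fun z hz => hFA (Finset.mem_sdiff.1 (hB1 hz)).1
        · exact (Finset.card_le_card (hB1.trans Finset.sdiff_subset)).trans hFl
    exact hcon X hXF haX hbX (key _ (Finset.Subset.refl _))
  have hak : ∀ k, a ∈ Rr D l A u (r + k) := by
    intro k
    induction k with
    | zero => exact har
    | succ k ih => exact hmono _ ih
  have claim : ∀ k, b ∈ Rr D l A u (r + k) ∨
      k + 1 ≤ (F.filter (fun x => x ∈ Rr D l A u (r + k))).card := by
    intro k
    induction k with
    | zero =>
      right
      have : a ∈ F.filter (fun x => x ∈ Rr D l A u (r + 0)) := Finset.mem_filter.2 ⟨ha, har⟩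
      exact Finset.card_pos.2 ⟨a, this⟩
    | succ k ih =>
      rcases ih with ih | ih
      · exact Or.inl (hmono _ ih)
      · by_cases hb1 : b ∈ Rr D l A u (r + k)
        · exact Or.inl (hmono _ hb1)
        · obtain ⟨y, hyF, hy1, hy2⟩ := hstep (r + k) (hak k) hb1
          right
          have hlt : (F.filter (fun x => x ∈ Rr D l A u (r + k))) ⊂
              (F.filter (fun x => x ∈ Rr D l A u (r + (k + 1)))) := by
            rw [Finset.ssubset_iff_of_subset]
            · exact ⟨y, Finset.mem_filter.2 ⟨hyF, hy2⟩, fun h => hy1 (Finset.mem_filter.1 h).2⟩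
            · intro x hx
              exact Finset.mem_filter.2 ⟨(Finset.mem_filter.1 hx).1,
                hmono _ (Finset.mem_filter.1 hx).2⟩
          have := Finset.card_lt_card hlt
          omega
  rcases claim l with h | h
  · exact h
  · have h1 := Finset.card_le_card (Finset.filter_subset (fun x => x ∈ Rr D l A u (r + l)) F)
    omega

end EAU
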