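import Pool.Agent.EAU.StA

/-!
# EAU, part A: independence, first properties
-/

set_option autoImplicit false
set_option linter.unusedVariables false

namespace EAU

open Set FirstOrder.Language

private theorem IND_off_mem {U : Set ℚ} {g : AQ} (hg : Off U g) (q : ℚ) : g q ∈ U ↔ q ∈ U := by
  constructor
  · intro h
    by_contra hq
    rw [hg q hq] at h
    exact hq h
  · intro h
    by_contra hq
    have h1 := hg (g q) hq
    have h2 : g q = q := g.injective h1
    rw [h2] at hq
    exact hq h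

private theorem IND_off_inv {U : Set ℚ} {g : AQ} (hg : Off U g) : Off U g⁻¹ := by
  intro q hq
  have h1 : g q = q := hg q hq
  have h2 : g⁻¹ (g q) = q := by
    rw [← RelIso.mul_apply, inv_mul_cancel]
    rfl
  rw [h1] at h2
  exact h2

private theorem IND_off_mul {U : Set ℚ} {g h : AQ} (hg : Off U g) (hh : Off U h) : Off U (g * h) := by
  intro q hq
  rw [RelIso.mul_apply, hh q hq, hg q hq]

private theorem IND_inv_app (g : AQ) (q : ℚ) : g⁻¹ (g q) = q := by
  rw [← RelIso.mul_apply, inv_mul_cancel]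
  rfl

private theorem IND_app_inv (g : AQ) (q : ℚ) : g (g⁻¹ q) = q := by
  rw [← RelIso.mul_apply, mul_inv_cancel]
  rfl

private theorem IND_mem_spt {N : Type} [MulAction AQ N] {α : Type} (X : α → N) (q : ℚ) :
    q ∈ spt X ↔ ∃ i, q ∈ sp (X i) := by
  simp only [spt, mem_iUnion, Finset.mem_coe]

private theorem IND_spt_elim {N : Type} [MulAction AQ N] {α β : Type} (X : α → N) (Y : β → N) (q : ℚ) :
    q ∈ spt (Sum.elim X Y) ↔ q ∈ spt X ∨ q ∈ spt Y := by
  simp only [IND_mem_spt, Sum.exists, Sum.elim_inl, Sum.elim_inr]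

private theorem IND_spt_fin {N : Type} [MulAction AQ N] {α : Type} [Finite α] (X : α → N) :
    (spt X).Finite := by
  unfold spt
  exact Set.finite_iUnion fun i => (sp (X i)).finite_toSet

section

variable (L : FirstOrder.Language.{0, 0}) {N : Type} [L.Structure N] [MulAction AQ N]

private theorem IND_tr (hQ : ∀ (ι : Type) (u v w : ι → N), QE L u v → QE L v w → QE L u w)
    {U : Set ℚ} {α : Type} {X Y Z : α → N} (h1 : TpM L U X Y) (h2 : TpM L U Y Z) : TpM L U X Z :=
  fun n m hm => hQ _ _ _ _ (h1 n m hm) (h2 n m hm)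

private theorem IND_sy (hQ : ∀ (ι : Type) (v w : ι → N), QE L v w → QE L w v)
    {U : Set ℚ} {α : Type} {X Y : α → N} (h1 : TpM L U X Y) : TpM L U Y X :=
  fun n m hm => hQ _ _ _ (h1 n m hm)

/-- insertion over the base -/
private theorem IND_key
    (hR : ∀ (ι κ : Type) (f : κ → ι) (v w : ι → N), QE L v w → QE L (v ∘ f) (w ∘ f))
    (hI : ∀ (α β : Type) [Finite α] [Finite β] (X : α → N) (Y : β → N) (g : AQ),
      (∀ q ∈ spt X, q ∈ spt Y → g q = q) → (∀ q ∈ spt X, g q ∈ spt Y → q ∈ spt Y) →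
        QE L (Sum.elim (fun i => g • X i) Y) (Sum.elim X Y))
    (U : Set ℚ) (α β : Type) [Finite α] [Finite β] (X : α → N) (Y : β → N) (g : AQ) (hg : Off U g)
    (h1 : ∀ q ∈ spt X, q ∈ U → q ∉ spt Y) (h2 : ∀ q ∈ spt X, q ∈ U → g q ∉ spt Y) :
    TpM L U (Sum.elim (fun i => g • X i) Y) (Sum.elim X Y) := by
  intro n m hm
  have hmU : ∀ q, q ∈ spt m → q ∉ U := by
    intro q hq
    obtain ⟨i, hi⟩ := (IND_mem_spt m q).1 hq
    exact hm i q hi
  have h := hI α (β ⊕ Fin n) X (Sum.elim Y m) g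
    (by
      intro q hq hq'
      by_cases hqU : q ∈ U
      · rcases (IND_spt_elim Y m q).1 hq' with h | h
        · exact absurd h (h1 q hq hqU)
        · exact absurd hqU (hmU q h)
      · exact hg q hqU)
    (by
      intro q hq hq'
      by_cases hqU : q ∈ U
      · exfalso
        rcases (IND_spt_elim Y m (g q)).1 hq' with h | h
        · exact h2 q hq hqU h
        · exact hmU _ h ((IND_off_mem hg q).2 hqU)
      · rwa [hg q hqU] at hq')
  have h' := hR _ _ (Equiv.sumAssoc α β (Fin n)) _ _ h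
  have e : ∀ A : α → N, (Sum.elim A (Sum.elim Y m)) ∘ (Equiv.sumAssoc α β (Fin n)) =
      Sum.elim (Sum.elim A Y) m := by
    intro A
    funext x
    rcases x with (x | x) | x <;> rfl
  rw [e, e] at h'
  exact h'

end

theorem thm_IND (hHOM : St_HOM) (hLSP : St_LSP) (hQEB : St_QEB) (hINQ : St_INQ) : St_IND := by
  intro L N _ _ hS hSt U hU
  obtain ⟨l1, l2, l3, l4, l5, l6⟩ := hLSP L N hS
  obtain ⟨q1, q2, q3, q4, q5, q6, q7, q8, q9⟩ := hQEB L N hS
  have hI := hINQ L N hS hSt
  -- supports of translates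
  have s1 : ∀ (α : Type) (X : α → N) (g : AQ) (q : ℚ),
      g q ∈ spt (fun i => g • X i) ↔ q ∈ spt X := by
    intro α X g q
    rw [IND_mem_spt, IND_mem_spt]
    exact exists_congr fun i => l3 g (X i) q
  have s2 : ∀ (α : Type) (X : α → N) (g : AQ) (q : ℚ), q ∈ spt (fun i => g • X i) →
      ∃ q0 ∈ spt X, g q0 = q := by
    intro α X g q hq
    refine ⟨g⁻¹ q, ?_, IND_app_inv g q⟩
    rw [← s1 α X g, IND_app_inv]
    exact hq
  have K := fun (α β : Type) [Finite α] [Finite β] => IND_key L q4 hI U α β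
  have P1 : ∀ (α β : Type) [Finite α] [Finite β] (X : α → N) (Y : β → N) (g : AQ), Off U g →
      (∀ q ∈ spt X, q ∈ U → g q ∉ spt Y) → TpM L U (Sum.elim (fun i => g • X i) Y) (Sum.elim X Y) →
      Ind L U X Y := by
    intro α β _ _ X Y g hg ha ht g' hg' ha'
    have hh : Off U (g' * g⁻¹) := IND_off_mul hg' (IND_off_inv hg)
    have h := K α β (fun i => g • X i) Y (g' * g⁻¹) hh
      (by
        intro q hq hqU
        obtain ⟨q0, h0, rfl⟩ := s2 α X g q hq
        exact ha q0 h0 ((IND_off_mem hg q0).1 hqU))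
      (by
        intro q hq hqU
        obtain ⟨q0, h0, rfl⟩ := s2 α X g q hq
        rw [RelIso.mul_apply, IND_inv_app]
        exact ha' q0 h0 ((IND_off_mem hg q0).1 hqU))
    have e : (fun i => (g' * g⁻¹) • g • X i) = fun i => g' • X i := by
      funext i
      rw [smul_smul, inv_mul_cancel_right]
    rw [e] at h
    exact IND_tr L q3 h ht
  refine ⟨P1, ?_, ?_, ?_, ?_⟩
  · -- symmetry
    intro α β _ _ X Y h g hg ha
    have hgi := IND_off_inv hg
    have h1 := h g⁻¹ hgi (by
      intro q hq hqU hqY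
      have hp : g⁻¹ q ∈ U := (IND_off_mem hgi q).2 hqU
      have h2 := ha (g⁻¹ q) hqY hp
      rw [IND_app_inv] at h2
      exact h2 hq)
    have h2 := q9 U (α ⊕ β) (Sum.elim (fun i => g⁻¹ • X i) Y) g hg
    have h3 := IND_tr L q3 h2 h1
    have h4 := q7 U (α ⊕ β) (β ⊕ α) Sum.swap _ _ h3
    have e1 : (fun i => g • Sum.elim (fun i => g⁻¹ • X i) Y i) ∘ (Sum.swap : β ⊕ α → α ⊕ β) =
        Sum.elim (fun i => g • Y i) X := by
      funext x
      rcases x with x | x
      · rfl
      · show g • g⁻¹ • X x = X x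
        rw [smul_inv_smul]
    have e2 : (Sum.elim X Y) ∘ (Sum.swap : β ⊕ α → α ⊕ β) = Sum.elim Y X := by
      funext x
      rcases x with x | x <;> rfl
    rw [e1, e2] at h4
    exact h4
  · -- disjoint supports
    intro α β _ _ X Y h g hg ha
    exact K α β X Y g hg h ha
  · -- reindexing
    intro α β γ δ _ _ _ _ X Y X' Y' h hX hY
    classical
    obtain ⟨g, hg, hgF⟩ := hHOM.2.2.2.1 U hU
      (((IND_spt_fin X).union (IND_spt_fin X')).toFinset)
      (((IND_spt_fin Y).union (IND_spt_fin Y')).toFinset)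
    simp only [Set.Finite.mem_toFinset, mem_union] at hgF
    have h1 := h g hg (fun q hq hqU hqY => hgF q (Or.inl hq) hqU (Or.inl hqY))
    refine P1 γ δ X' Y' g hg (fun q hq hqU hqY => hgF q (Or.inr hq) hqU (Or.inr hqY)) ?_
    have h2 := (q8 U (α ⊕ β) {x : N // x ∈ MU U} _ _ (fun x => x.1) (fun x => x.2) h1).2
    have hX2 : ∀ i, ∃ a : (α ⊕ β) ⊕ {x : N // x ∈ MU U},
        (Sum.elim (Sum.elim X Y) (fun x : {x : N // x ∈ MU U} => x.1) a = X' i) ∧
        (Sum.elim (Sum.elim (fun i => g • X i) Y) (fun x : {x : N // x ∈ MU U} => x.1) a = g • X' i) := by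
      intro i
      rcases hX i with ⟨a, ha⟩ | hb
      · exact ⟨Sum.inl (Sum.inl a), ha, by show g • X a = g • X' i; rw [ha]⟩
      · exact ⟨Sum.inr ⟨X' i, hb⟩, rfl, (l6 U g (X' i) hg hb).symm⟩
    have hY2 : ∀ j, ∃ a : (α ⊕ β) ⊕ {x : N // x ∈ MU U},
        (Sum.elim (Sum.elim X Y) (fun x : {x : N // x ∈ MU U} => x.1) a = Y' j) ∧
        (Sum.elim (Sum.elim (fun i => g • X i) Y) (fun x : {x : N // x ∈ MU U} => x.1) a = Y' j) := by
      intro j
      rcases hY j with ⟨a, ha⟩ | hb
      · exact ⟨Sum.inl (Sum.inr a), ha, ha⟩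
      · exact ⟨Sum.inr ⟨Y' j, hb⟩, rfl, rfl⟩
    choose f1 f1a f1b using hX2
    choose f2 f2a f2b using hY2
    have h3 := q7 U _ (γ ⊕ δ) (Sum.elim f1 f2) _ _ h2
    have e1 : (Sum.elim (Sum.elim (fun i => g • X i) Y) (fun x : {x : N // x ∈ MU U} => x.1)) ∘
        (Sum.elim f1 f2) = Sum.elim (fun i => g • X' i) Y' := by
      funext x
      rcases x with x | x
      · exact f1b x
      · exact f2b x
    have e2 : (Sum.elim (Sum.elim X Y) (fun x : {x : N // x ∈ MU U} => x.1)) ∘
        (Sum.elim f1 f2) = Sum.elim X' Y' := by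
      funext x
      rcases x with x | x
      · exact f1a x
      · exact f2a x
    rw [e1, e2] at h3
    exact h3
  · -- invariance
    intro α β _ _ X Y h hh hI' g hg ha
    have hc : Off U (h⁻¹ * (g * h)) := IND_off_mul (IND_off_inv hh) (IND_off_mul hg hh)
    have h1 := hI' (h⁻¹ * (g * h)) hc (by
      intro q hq hqU hqY
      have h2 := ha (h q) ((s1 α X h q).2 hq) ((IND_off_mem hh q).2 hqU)
      apply h2
      have h3 := (s1 β Y h _).2 hqY
      rw [RelIso.mul_apply, RelIso.mul_apply, IND_app_inv] at h3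
      exact h3)
    have h2 := q9 U (α ⊕ β) (Sum.elim (fun i => (h⁻¹ * (g * h)) • X i) Y) h hh
    have h3 := q9 U (α ⊕ β) (Sum.elim X Y) h hh
    have h4 := IND_tr L q3 (IND_tr L q3 h2 h1) (IND_sy L q2 h3)
    have e1 : (fun i => h • Sum.elim (fun i => (h⁻¹ * (g * h)) • X i) Y i) =
        Sum.elim (fun i => g • h • X i) (fun i => h • Y i) := by
      funext x
      rcases x with x | x
      · show h • (h⁻¹ * (g * h)) • X x = g • h • X x
        rw [smul_smul, mul_inv_cancel_left, mul_smul]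
      · rfl
    have e2 : (fun i => h • Sum.elim X Y i) = Sum.elim (fun i => h • X i) (fun i => h • Y i) := by
      funext x
      rcases x with x | x <;> rfl
    rw [e1, e2] at h4
    exact h4

end EAU
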