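import Pool.Agent.EAU.StA

/-!
# EAU: [INQ] insertion for atomic types
-/

set_option autoImplicit false

namespace EAU

open Set FirstOrder.Language

/-- [INQ] -/
theorem thm_INQ (hINS : St_INS) (hLSP : St_LSP) : St_INQ := by
  classical
  intro L N _ _ hSys hStab α β _ _ X Y g h1 h2
  have := Fintype.ofFinite α
  have := Fintype.ofFinite β
  obtain ⟨l1, _, _, _, _, _⟩ := hLSP L N hSys
  obtain ⟨K, hK⟩ : ∃ K : Finset ℚ, K = Finset.univ.biUnion fun i => sp (X i) := ⟨_, rfl⟩
  obtain ⟨K', hK'⟩ : ∃ K' : Finset ℚ, K' = Finset.univ.biUnion fun i => sp (Y i) := ⟨_, rfl⟩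
  have mK : ∀ q, q ∈ K ↔ q ∈ spt X := by
    intro q
    rw [hK, Finset.mem_biUnion]
    show _ ↔ q ∈ ⋃ i, (sp (X i) : Set ℚ)
    rw [Set.mem_iUnion]
    exact ⟨fun ⟨i, _, h⟩ => ⟨i, h⟩, fun ⟨i, h⟩ => ⟨i, Finset.mem_univ i, h⟩⟩
  have mK' : ∀ q, q ∈ K' ↔ q ∈ spt Y := by
    intro q
    rw [hK', Finset.mem_biUnion]
    show _ ↔ q ∈ ⋃ i, (sp (Y i) : Set ℚ)
    rw [Set.mem_iUnion]
    exact ⟨fun ⟨i, _, h⟩ => ⟨i, h⟩, fun ⟨i, h⟩ => ⟨i, Finset.mem_univ i, h⟩⟩
  have sX : ∀ i, Spt K (X i) := by
    intro i f hf
    refine l1 (X i) f fun q hq => hf q ?_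
    rw [hK, Finset.mem_biUnion]
    exact ⟨i, Finset.mem_univ i, hq⟩
  have sY : ∀ i, Spt K' (Y i) := by
    intro i f hf
    refine l1 (Y i) f fun q hq => hf q ?_
    rw [hK', Finset.mem_biUnion]
    exact ⟨i, Finset.mem_univ i, hq⟩
  have c1 : ∀ q ∈ K, q ∈ K' → g q = q := fun q hq hq' => h1 q ((mK q).1 hq) ((mK' q).1 hq')
  have c2 : ∀ q ∈ K, g q ∈ K' → q ∈ K' := fun q hq hq' =>
    (mK' q).2 (h2 q ((mK q).1 hq) ((mK' _).1 hq'))
  have heq : ∀ (a : α) (b : β), g • X a = Y b ↔ X a = Y b := by
    intro a b
    refine hINS N Unit Unit (fun x y => x () = y ()) ?_ ?_ (fun _ => X a) (fun _ => Y b) K K'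
      (fun _ => sX a) (fun _ => sY b) g c1 c2
    · intro f x y
      exact smul_left_cancel_iff f
    · intro a' b' h
      have e1 : a' 0 () = b' 1 () := (h 0 1).2 (by norm_num)
      have e2 : a' 0 () = b' 2 () := (h 0 2).2 (by norm_num)
      have e3 : a' 1 () = b' 2 () := (h 1 2).2 (by norm_num)
      exact absurd ((h 1 1).1 (e3.trans (e2.symm.trans e1))) (lt_irrefl 1)
  refine ⟨?_, ?_⟩
  · rintro (a | b) (a' | b')
    · show g • X a = g • X a' ↔ X a = X a'
      exact smul_left_cancel_iff g
    · exact heq a b'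
    · show Y b = g • X a' ↔ Y b = X a'
      rw [eq_comm, heq a' b, eq_comm]
    · exact Iff.rfl
  · intro n R t
    by_cases hl : ∀ k, ∃ a, t k = Sum.inl a
    · choose s hs using hl
      have e1 : (fun k => Sum.elim (fun i => g • X i) Y (t k)) = fun k => g • X (s k) := by
        funext k
        rw [hs k]
        rfl
      have e2 : (fun k => Sum.elim X Y (t k)) = fun k => X (s k) := by
        funext k
        rw [hs k]
        rfl
      rw [e1, e2]
      exact hSys.rel g n R fun k => X (s k)
    · by_cases hr : ∀ k, ∃ b, t k = Sum.inr b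
      · choose s hs using hr
        have e1 : (fun k => Sum.elim (fun i => g • X i) Y (t k)) = fun k => Sum.elim X Y (t k) := by
          funext k
          rw [hs k]
          rfl
        rw [e1]
      · rw [not_forall] at hl hr
        obtain ⟨k1, hk1⟩ := hl
        obtain ⟨k2, hk2⟩ := hr
        obtain ⟨b0, _⟩ : ∃ b, t k1 = Sum.inr b := by
          rcases ht : t k1 with a | b
          · exact absurd ⟨a, ht⟩ hk1
          · exact ⟨b, rfl⟩
        obtain ⟨a0, _⟩ : ∃ a, t k2 = Sum.inl a := by
          rcases ht : t k2 with a | b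
          · exact ⟨a, rfl⟩
          · exact absurd ⟨b, ht⟩ hk2
        obtain ⟨D, hD⟩ : ∃ D : Set (Fin n), D = {k | ∃ a, t k = Sum.inl a} := ⟨_, rfl⟩
        have key := hINS N (Fin n) (Fin n) (fun x y => Structure.RelMap R (Mix D x y)) (by
          intro f x y
          have e : (Mix D (fun i => f • x i) (fun i => f • y i) : Fin n → N) =
              fun k => f • Mix D x y k := by
            funext k
            show (if k ∈ D then f • x k else f • y k) = f • (if k ∈ D then x k else y k)
            split_ifs <;> rfl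
          show Structure.RelMap R (Mix D (fun i => f • x i) (fun i => f • y i)) ↔ _
          rw [e]
          exact hSys.rel f n R (Mix D x y)) (fun a b => hStab n R D a b)
          (fun k => X (Sum.elim (fun a => a) (fun _ => a0) (t k)))
          (fun k => Y (Sum.elim (fun _ => b0) (fun b => b) (t k))) K K' (fun k => sX _)
          (fun k => sY _) g c1 c2
        have e1 : (fun k => Sum.elim (fun i => g • X i) Y (t k)) =
            Mix D (fun k => g • X (Sum.elim (fun a => a) (fun _ => a0) (t k)))
              (fun k => Y (Sum.elim (fun _ => b0) (fun b => b) (t k))) := by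
          funext k
          show _ = if k ∈ D then g • X (Sum.elim (fun a => a) (fun _ => a0) (t k)) else
            Y (Sum.elim (fun _ => b0) (fun b => b) (t k))
          rcases ht : t k with a | b
          · rw [if_pos (by rw [hD]; exact ⟨a, ht⟩)]
            rfl
          · rw [if_neg (by
              rw [hD]
              rintro ⟨a, ha⟩
              rw [ht] at ha
              exact Sum.inr_ne_inl ha)]
            rfl
        have e2 : (fun k => Sum.elim X Y (t k)) =
            Mix D (fun k => X (Sum.elim (fun a => a) (fun _ => a0) (t k)))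
              (fun k => Y (Sum.elim (fun _ => b0) (fun b => b) (t k))) := by
          funext k
          show _ = if k ∈ D then X (Sum.elim (fun a => a) (fun _ => a0) (t k)) else
            Y (Sum.elim (fun _ => b0) (fun b => b) (t k))
          rcases ht : t k with a | b
          · rw [if_pos (by rw [hD]; exact ⟨a, ht⟩)]
            rfl
          · rw [if_neg (by
              rw [hD]
              rintro ⟨a, ha⟩
              rw [ht] at ha
              exact Sum.inr_ne_inl ha)]
            rfl
        rw [e1, e2]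
        exact key

end EAU
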