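import Pool.Agent.EAU.StA

/-!
# EAU: insertion (moving supports past each other)
-/

set_option autoImplicit false
set_option linter.unusedVariables false

namespace EAU

open Set FirstOrder.Language

private theorem INS_agr {N : Type} [MulAction AQ N] {K : Finset ℚ} {x : N} (hx : Spt K x)
    {a b : AQ} (h : ∀ q ∈ K, a q = b q) : a • x = b • x := by
  have h1 : (b⁻¹ * a) • x = x := by
    refine hx _ fun q hq => ?_
    rw [RelIso.mul_apply, h q hq]
    exact RelIso.inv_apply_self b q
  calc a • x = b • ((b⁻¹ * a) • x) := by rw [← mul_smul, mul_inv_cancel_left]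
    _ = b • x := by rw [h1]

private theorem INS_lo (Z : Finset ℚ) (a : ℚ) : ∃ c, c < a ∧ ∀ z ∈ Z, z < a → z ≤ c := by
  classical
  induction Z using Finset.induction_on with
  | empty => exact ⟨a - 1, by linarith, fun z hz => by simp at hz⟩
  | insert z Z hz ih =>
      obtain ⟨c, hc, h⟩ := ih
      by_cases hza : z < a
      · refine ⟨max c z, max_lt hc hza, fun w hw hwa => ?_⟩
        rcases Finset.mem_insert.1 hw with rfl | hw
        · exact le_max_right _ _
        · exact (h w hw hwa).trans (le_max_left _ _)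
      · refine ⟨c, hc, fun w hw hwa => ?_⟩
        rcases Finset.mem_insert.1 hw with rfl | hw
        · exact absurd hwa hza
        · exact h w hw hwa

private theorem INS_hi (Z : Finset ℚ) (a : ℚ) : ∃ d, a < d ∧ ∀ z ∈ Z, a < z → d ≤ z := by
  classical
  induction Z using Finset.induction_on with
  | empty => exact ⟨a + 1, by linarith, fun z hz => by simp at hz⟩
  | insert z Z hz ih =>
      obtain ⟨c, hc, h⟩ := ih
      by_cases hza : a < z
      · refine ⟨min c z, lt_min hc hza, fun w hw hwa => ?_⟩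
        rcases Finset.mem_insert.1 hw with rfl | hw
        · exact min_le_right _ _
        · exact (min_le_left _ _).trans (h w hw hwa)
      · refine ⟨c, hc, fun w hw hwa => ?_⟩
        rcases Finset.mem_insert.1 hw with rfl | hw
        · exact absurd hwa hza
        · exact h w hw hwa

/-- admissible automorphisms -/
private def INS_Ad (K K' : Finset ℚ) (h : AQ) : Prop :=
  (∀ q ∈ K, q ∈ K' → h q = q) ∧ ∀ q ∈ K, h q ∈ K' → q ∈ K'

/-- discrepancies -/
private noncomputable def INS_D (K K' : Finset ℚ) (h h' : AQ) : Finset (ℚ × ℚ) :=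
  (K ×ˢ K').filter fun p => ¬ (h p.1 < p.2 ↔ h' p.1 < p.2)

private theorem INS_base (hHOM : St_HOM) {N : Type} [MulAction AQ N] {α β : Type}
    {φ : (α → N) → (β → N) → Prop}
    (hφ : ∀ (g : AQ) X Y, φ (fun i => g • X i) (fun i => g • Y i) ↔ φ X Y)
    {X : α → N} {Y : β → N} {K K' : Finset ℚ} (hX : ∀ i, Spt K (X i)) (hY : ∀ i, Spt K' (Y i))
    {h h' : AQ} (ha : INS_Ad K K' h) (ha' : INS_Ad K K' h')
    (hd : ∀ k ∈ K, ∀ y ∈ K', (h k < y ↔ h' k < y)) :
    φ (fun i => h • X i) Y ↔ φ (fun i => h' • X i) Y := by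
  classical
  have hfix : ∀ k ∈ K, ∀ y ∈ K', h k = y → h' k = y := by
    intro k hk y hy e
    have h1 : k ∈ K' := ha.2 k hk (by rw [e]; exact hy)
    rw [ha'.1 k hk h1, ← ha.1 k hk h1, e]
  have hfix' : ∀ k ∈ K, ∀ y ∈ K', h' k = y → h k = y := by
    intro k hk y hy e
    have h1 : k ∈ K' := ha'.2 k hk (by rw [e]; exact hy)
    rw [ha.1 k hk h1, ← ha'.1 k hk h1, e]
  obtain ⟨e, he⟩ := hHOM.2.1 (K.image h ∪ K')
    (fun q => if h⁻¹ q ∈ K then h' (h⁻¹ q) else q) (by
      intro x hx y hy hxy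
      simp only [Finset.coe_union, Finset.coe_image, Set.mem_union, Set.mem_image,
        Finset.mem_coe] at hx hy
      have hinv : ∀ z, h (h⁻¹ z) = z := fun z => RelIso.apply_inv_self h z
      show (if h⁻¹ x ∈ K then h' (h⁻¹ x) else x) < (if h⁻¹ y ∈ K then h' (h⁻¹ y) else y)
      by_cases h1 : h⁻¹ x ∈ K
      · by_cases h2 : h⁻¹ y ∈ K
        · rw [if_pos h1, if_pos h2]
          exact h'.lt_iff_lt.2 ((h⁻¹).lt_iff_lt.2 hxy)
        · rw [if_pos h1, if_neg h2]
          have hy' : y ∈ K' := by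
            rcases hy with ⟨k, hk, rfl⟩ | hy
            · exact absurd (by rw [RelIso.inv_apply_self]; exact hk) h2
            · exact hy
          refine (hd _ h1 y hy').1 ?_
          rw [hinv]
          exact hxy
      · have hx' : x ∈ K' := by
          rcases hx with ⟨k, hk, rfl⟩ | hx
          · exact absurd (by rw [RelIso.inv_apply_self]; exact hk) h1
          · exact hx
        by_cases h2 : h⁻¹ y ∈ K
        · rw [if_neg h1, if_pos h2]
          have h3 : ¬ h' (h⁻¹ y) < x := by
            rw [← hd _ h2 x hx', hinv]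
            exact not_lt.2 hxy.le
          refine lt_of_le_of_ne (not_lt.1 h3) fun h4 => ?_
          have h5 := hfix' _ h2 x hx' h4.symm
          rw [hinv] at h5
          exact absurd h5 hxy.ne'
        · rw [if_neg h1, if_neg h2]
          exact hxy)
  have e1 : ∀ k ∈ K, e (h k) = h' k := by
    intro k hk
    rw [he (h k) (Finset.mem_union_left _ (Finset.mem_image_of_mem _ hk))]
    show (if h⁻¹ (h k) ∈ K then h' (h⁻¹ (h k)) else h k) = h' k
    rw [RelIso.inv_apply_self, if_pos hk]
  have e2 : ∀ y ∈ K', e y = y := by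
    intro y hy
    rw [he y (Finset.mem_union_right _ hy)]
    show (if h⁻¹ y ∈ K then h' (h⁻¹ y) else y) = y
    by_cases h1 : h⁻¹ y ∈ K
    · rw [if_pos h1]
      exact hfix _ h1 y hy (RelIso.apply_inv_self h y)
    · rw [if_neg h1]
  have f1 : (fun i => h' • X i) = fun i => e • h • X i := funext fun i => by
    rw [← mul_smul]
    exact (INS_agr (hX i) fun q hq => by rw [RelIso.mul_apply]; exact e1 q hq).symm
  have f2 : Y = fun i => e • Y i := funext fun i => ((hY i) e e2).symm
  rw [f1]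
  conv_rhs => rw [f2]
  exact (hφ e _ _).symm

private theorem INS_step (hHOM : St_HOM) {N : Type} [MulAction AQ N] {α β : Type}
    {φ : (α → N) → (β → N) → Prop}
    (hφ : ∀ (g : AQ) X Y, φ (fun i => g • X i) (fun i => g • Y i) ↔ φ X Y)
    (hL : ∀ (a : ℕ → α → N) (b : ℕ → β → N), ¬ ∀ i j, φ (a i) (b j) ↔ i < j)
    {X : α → N} {Y : β → N} {K K' : Finset ℚ} (hX : ∀ i, Spt K (X i)) (hY : ∀ i, Spt K' (Y i))
    {h h' : AQ} (ha : INS_Ad K K' h) (ha' : INS_Ad K K' h')
    (hex : ∃ k ∈ K, ∃ y ∈ K', h k < y ∧ y < h' k) :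
    ∃ h₁ : AQ, INS_Ad K K' h₁ ∧ (φ (fun i => h • X i) Y ↔ φ (fun i => h₁ • X i) Y) ∧
      (INS_D K K' h₁ h').card < (INS_D K K' h h').card := by
  classical
  -- the extremal pair
  obtain ⟨k₀, hk₀, y₀, hy₀, h1, h2, hmax, hmin⟩ : ∃ k₀ ∈ K, ∃ y₀ ∈ K', h k₀ < y₀ ∧ y₀ < h' k₀ ∧
      (∀ k ∈ K, ∀ y ∈ K', h k < y → y < h' k → h k ≤ h k₀) ∧
      ∀ y ∈ K', h k₀ < y → y < h' k₀ → y₀ ≤ y := by
    set S : Finset (ℚ × ℚ) := (K ×ˢ K').filter fun p => h p.1 < p.2 ∧ p.2 < h' p.1 with hS
    have hmem : ∀ k y, (k, y) ∈ S ↔ (k ∈ K ∧ y ∈ K') ∧ h k < y ∧ y < h' k := by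
      intro k y
      rw [hS, Finset.mem_filter, Finset.mem_product]
    obtain ⟨k, hk, y, hy, h1, h2⟩ := hex
    obtain ⟨p, hp, hpm⟩ := Finset.exists_max_image S (fun p => h p.1) ⟨(k, y), (hmem k y).2 ⟨⟨hk, hy⟩, h1, h2⟩⟩
    obtain ⟨q, hq, hqm⟩ := Finset.exists_min_image (S.filter fun r => r.1 = p.1) (fun r => r.2)
      ⟨p, Finset.mem_filter.2 ⟨hp, rfl⟩⟩
    rw [Finset.mem_filter] at hq
    have hq' := (hmem q.1 q.2).1 hq.1
    refine ⟨q.1, hq'.1.1, q.2, hq'.1.2, hq'.2.1, hq'.2.2, fun k hk y hy a b => ?_, fun y hy a b => ?_⟩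
    · rw [hq.2]
      exact hpm (k, y) ((hmem k y).2 ⟨⟨hk, hy⟩, a, b⟩)
    · exact hqm (q.1, y) (Finset.mem_filter.2 ⟨(hmem _ _).2 ⟨⟨hq'.1.1, hy⟩, a, b⟩, hq.2⟩)
  -- the interval
  set Z : Finset ℚ := K.image h ∪ K' with hZ
  obtain ⟨c, hc, hcZ⟩ := INS_lo Z (h k₀)
  obtain ⟨d, hd, hdZ⟩ := INS_hi Z y₀
  have hcd : c < d := hc.trans (h1.trans hd)
  have nK : ∀ k ∈ K, k ≠ k₀ → h k ∉ Ioo c d := by
    intro k hk hne hcd
    have hzZ : h k ∈ Z := Finset.mem_union_left _ (Finset.mem_image_of_mem _ hk)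
    rcases lt_trichotomy (h k) (h k₀) with a | a | a
    · exact absurd hcd.1 (not_lt.2 (hcZ _ hzZ a))
    · exact hne (h.injective a)
    · rcases lt_trichotomy (h k) y₀ with b | b | b
      · have hkk : k₀ < k := h.lt_iff_lt.1 a
        exact absurd (hmax k hk y₀ hy₀ b (h2.trans (h'.lt_iff_lt.2 hkk))) (not_le.2 a)
      · have h3 : k ∈ K' := ha.2 k hk (by rw [b]; exact hy₀)
        have h4 : h' k = y₀ := by rw [ha'.1 k hk h3, ← ha.1 k hk h3, b]
        have h5 : k < k₀ := h'.lt_iff_lt.1 (by rw [h4]; exact h2)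
        exact absurd (h.lt_iff_lt.2 h5) (not_lt.2 a.le)
      · exact absurd hcd.2 (not_lt.2 (hdZ _ hzZ b))
  have nK' : ∀ y ∈ K', y ≠ y₀ → y ∉ Ioo c d := by
    intro y hy hne hcd
    have hzZ : y ∈ Z := Finset.mem_union_right _ hy
    rcases lt_trichotomy y (h k₀) with a | a | a
    · exact absurd hcd.1 (not_lt.2 (hcZ _ hzZ a))
    · have h3 : k₀ ∈ K' := ha.2 k₀ hk₀ (by rw [← a]; exact hy)
      have h4 : h k₀ = h' k₀ := by rw [ha.1 k₀ hk₀ h3, ha'.1 k₀ hk₀ h3]
      exact absurd (h1.trans h2) (by rw [h4]; exact lt_irrefl _)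
    · rcases lt_trichotomy y y₀ with b | b | b
      · exact absurd (hmin y hy a (b.trans h2)) (not_le.2 b)
      · exact hne b
      · exact absurd hcd.2 (not_lt.2 (hdZ _ hzZ b))
  -- the translates
  have hE : ∀ u : ℚ, ∃ e : AQ, u ∈ Ioo c d → e (h k₀) = u ∧ Off (Ioo c d) e := by
    intro u
    by_cases hu : u ∈ Ioo c d
    · obtain ⟨e, he⟩ := hHOM.1 (h k₀) u c d hc (h1.trans hd) hu.1 hu.2
      exact ⟨e, fun _ => he⟩
    · exact ⟨1, fun h => absurd h hu⟩
  have hE' : ∀ v : ℚ, ∃ e : AQ, v ∈ Ioo c d → e y₀ = v ∧ Off (Ioo c d) e := by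
    intro u
    by_cases hu : u ∈ Ioo c d
    · obtain ⟨e, he⟩ := hHOM.1 y₀ u c d (hc.trans h1) hd hu.1 hu.2
      exact ⟨e, fun _ => he⟩
    · exact ⟨1, fun h => absurd h hu⟩
  choose e he using hE
  choose e' he' using hE'
  -- independence of the places
  have key : ∀ u v u' v' : ℚ, u ∈ Ioo c d → v ∈ Ioo c d → u' ∈ Ioo c d → v' ∈ Ioo c d → u ≠ v →
      u' ≠ v' → (u < v ↔ u' < v') →
      (φ (fun i => e u • h • X i) (fun i => e' v • Y i) ↔
        φ (fun i => e u' • h • X i) (fun i => e' v' • Y i)) := by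
    intro u v u' v' hu hv hu' hv' hne hne' hiff
    obtain ⟨G, hG⟩ := hHOM.2.1 (Z.filter (fun z => z ∉ Ioo c d) ∪ {u, v})
      (fun z => if z = u then u' else if z = v then v' else z) (by
        have hval : ∀ z, z ∉ Ioo c d → (if z = u then u' else if z = v then v' else z) = z := by
          intro z hz
          have n1 : z ≠ u := fun h4 => hz (by rw [h4]; exact hu)
          have n2 : z ≠ v := fun h4 => hz (by rw [h4]; exact hv)
          rw [if_neg n1, if_neg n2]
        have hvu : (if u = u then u' else if u = v then v' else u) = u' := if_pos rfl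
        have hvv : (if v = u then u' else if v = v then v' else v) = v' := by
          rw [if_neg hne.symm, if_pos rfl]
        have hcase : ∀ z ∈ (↑(Z.filter (fun z => z ∉ Ioo c d) ∪ {u, v}) : Set ℚ),
            z = u ∨ z = v ∨ z ∉ Ioo c d := by
          intro z hz
          simp only [Finset.coe_union, Finset.coe_filter, Finset.coe_insert, Finset.coe_singleton,
            Set.mem_union, Set.mem_ofPred_eq, Set.mem_insert_iff, Set.mem_singleton_iff] at hz
          rcases hz with ⟨-, hz⟩ | hz | hz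
          · exact Or.inr (Or.inr hz)
          · exact Or.inl hz
          · exact Or.inr (Or.inl hz)
        have hout : ∀ z w w', z ∉ Ioo c d → w ∈ Ioo c d → w' ∈ Ioo c d → z < w → z < w' := by
          intro z w w' hz hw hw' hlt
          have : z ≤ c := not_lt.1 fun h => hz ⟨h, hlt.trans hw.2⟩
          exact lt_of_le_of_lt this hw'.1
        have hout' : ∀ z w w', z ∉ Ioo c d → w ∈ Ioo c d → w' ∈ Ioo c d → w < z → w' < z := by
          intro z w w' hz hw hw' hlt
          have : d ≤ z := not_lt.1 fun h => hz ⟨hw.1.trans hlt, h⟩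
          exact lt_of_lt_of_le hw'.2 this
        intro x hx y hy hxy
        show (if x = u then u' else if x = v then v' else x) <
          (if y = u then u' else if y = v then v' else y)
        rcases hcase x hx with ex | ex | hx3 <;> rcases hcase y hy with ey | ey | hy3
        · rw [ex, ey] at hxy
          exact absurd hxy (lt_irrefl _)
        · rw [ex, ey] at hxy
          rw [ex, ey, hvu, hvv]
          exact hiff.1 hxy
        · rw [ex] at hxy
          rw [ex, hvu, hval y hy3]
          exact hout' y _ _ hy3 hu hu' hxy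
        · rw [ex, ey] at hxy
          rw [ex, ey, hvu, hvv]
          exact lt_of_le_of_ne (not_lt.1 fun h4 => absurd (hiff.2 h4) (not_lt.2 hxy.le)) hne'.symm
        · rw [ex, ey] at hxy
          exact absurd hxy (lt_irrefl _)
        · rw [ex] at hxy
          rw [ex, hvv, hval y hy3]
          exact hout' y _ _ hy3 hv hv' hxy
        · rw [ey] at hxy
          rw [ey, hvu, hval x hx3]
          exact hout x _ _ hx3 hu hu' hxy
        · rw [ey] at hxy
          rw [ey, hvv, hval x hx3]
          exact hout x _ _ hx3 hv hv' hxy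
        · rw [hval x hx3, hval y hy3]
          exact hxy)
    have hGu : G u = u' := by
      rw [hG u (Finset.mem_union_right _ (Finset.mem_insert_self _ _))]
      exact if_pos rfl
    have hGv : G v = v' := by
      rw [hG v (Finset.mem_union_right _ (Finset.mem_insert_of_mem (Finset.mem_singleton_self _)))]
      show (if v = u then u' else if v = v then v' else v) = v'
      rw [if_neg hne.symm, if_pos rfl]
    have hGz : ∀ z ∈ Z, z ∉ Ioo c d → G z = z := by
      intro z hz hz'
      rw [hG z (Finset.mem_union_left _ (Finset.mem_filter.2 ⟨hz, hz'⟩))]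
      show (if z = u then u' else if z = v then v' else z) = z
      have n1 : z ≠ u := fun h4 => hz' (by rw [h4]; exact hu)
      have n2 : z ≠ v := fun h4 => hz' (by rw [h4]; exact hv)
      rw [if_neg n1, if_neg n2]
    have f1 : (fun i => e u' • h • X i) = fun i => G • e u • h • X i := funext fun i => by
      rw [← mul_smul, ← mul_smul, ← mul_smul]
      refine (INS_agr (hX i) fun q hq => ?_).symm
      rw [RelIso.mul_apply, RelIso.mul_apply, RelIso.mul_apply]
      by_cases hqk : q = k₀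
      · rw [hqk, (he u hu).1, hGu, (he u' hu').1]
      · have h3 := nK q hq hqk
        rw [(he u hu).2 _ h3, (he u' hu').2 _ h3]
        exact hGz _ (Finset.mem_union_left _ (Finset.mem_image_of_mem _ hq)) h3
    have f2 : (fun i => e' v' • Y i) = fun i => G • e' v • Y i := funext fun i => by
      rw [← mul_smul]
      refine (INS_agr (hY i) fun q hq => ?_).symm
      rw [RelIso.mul_apply]
      by_cases hqk : q = y₀
      · rw [hqk, (he' v hv).1, hGv, (he' v' hv').1]
      · have h3 := nK' q hq hqk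
        rw [(he' v hv).2 _ h3, (he' v' hv').2 _ h3]
        exact hGz _ (Finset.mem_union_right _ hq) h3
    rw [f1, f2]
    exact (hφ G _ _).symm
  -- the new automorphism
  have hk₀' : k₀ ∉ K' := fun h3 => by
    have h4 : h k₀ = h' k₀ := by rw [ha.1 k₀ hk₀ h3, ha'.1 k₀ hk₀ h3]
    exact absurd (h1.trans h2) (by rw [h4]; exact lt_irrefl _)
  obtain ⟨p, hyp, hpd⟩ := exists_between hd
  have hp : p ∈ Ioo c d := ⟨hc.trans (h1.trans hyp), hpd⟩
  have hu₀ : h k₀ ∈ Ioo c d := ⟨hc, h1.trans hd⟩
  have hv₀ : y₀ ∈ Ioo c d := ⟨hc.trans h1, hd⟩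
  have hval : ∀ k ∈ K, k ≠ k₀ → (e p * h) k = h k := by
    intro k hk hne
    rw [RelIso.mul_apply]
    exact (he p hp).2 _ (nK k hk hne)
  have hval₀ : (e p * h) k₀ = p := by
    rw [RelIso.mul_apply]
    exact (he p hp).1
  refine ⟨e p * h, ⟨fun q hq hq' => ?_, fun q hq hq' => ?_⟩, ?_, ?_⟩
  · rw [hval q hq fun h => hk₀' (h ▸ hq')]
    exact ha.1 q hq hq'
  · by_cases hqk : q = k₀
    · rw [hqk, hval₀] at hq'
      exact absurd hp (nK' p hq' hyp.ne')
    · rw [hval q hq hqk] at hq'
      exact ha.2 q hq hq'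
  · -- no ladder
    have g1 : (fun i => e (h k₀) • h • X i) = fun i => h • X i := funext fun i => by
      rw [← mul_smul]
      refine INS_agr (hX i) fun q hq => ?_
      rw [RelIso.mul_apply]
      by_cases hqk : q = k₀
      · rw [hqk]
        exact (he _ hu₀).1
      · exact (he _ hu₀).2 _ (nK q hq hqk)
    have g2 : (fun i => e' y₀ • Y i) = Y := funext fun i => by
      refine (hY i) _ fun q hq => ?_
      by_cases hqk : q = y₀
      · rw [hqk]
        exact (he' _ hv₀).1
      · exact (he' _ hv₀).2 _ (nK' q hq hqk)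
    have g3 : (fun i => (e p * h) • X i) = fun i => e p • h • X i := funext fun i => mul_smul _ _ _
    have A : ∀ u v, u ∈ Ioo c d → v ∈ Ioo c d → u < v →
        (φ (fun i => e u • h • X i) (fun i => e' v • Y i) ↔ φ (fun i => h • X i) Y) := by
      intro u v hu hv huv
      have := key u v (h k₀) y₀ hu hv hu₀ hv₀ huv.ne h1.ne ⟨fun _ => h1, fun _ => huv⟩
      rw [g1, g2] at this
      exact this
    have B : ∀ u v, u ∈ Ioo c d → v ∈ Ioo c d → v < u →
        (φ (fun i => e u • h • X i) (fun i => e' v • Y i) ↔ φ (fun i => (e p * h) • X i) Y) := by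
      intro u v hu hv huv
      have := key u v p y₀ hu hv hp hv₀ huv.ne' hyp.ne'
        ⟨fun h => absurd h (not_lt.2 huv.le), fun h => absurd h (not_lt.2 hyp.le)⟩
      rw [g2, ← g3] at this
      exact this
    have hpos : 0 < d - c := by linarith
    have hfr : ∀ n : ℕ, 0 < (d - c) / ((n : ℚ) + 2) ∧ (d - c) / ((n : ℚ) + 2) < d - c := by
      intro n
      have hn : (0 : ℚ) ≤ n := Nat.cast_nonneg n
      refine ⟨div_pos hpos (by linarith), ?_⟩
      rw [div_lt_iff₀ (by linarith)]
      nlinarith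
    have hanti : ∀ m n : ℕ, m < n → (d - c) / ((n : ℚ) + 2) < (d - c) / ((m : ℚ) + 2) := by
      intro m n hmn
      have hm : (0 : ℚ) ≤ m := Nat.cast_nonneg m
      have hmn' : (m : ℚ) < n := Nat.cast_lt.2 hmn
      exact div_lt_div_of_pos_left hpos (by linarith) (by linarith)
    by_contra hne
    rcases Classical.em (φ (fun i => h • X i) Y) with hP | hP
    · have hR : ¬ φ (fun i => (e p * h) • X i) Y := fun hR => hne ⟨fun _ => hR, fun _ => hP⟩
      set t : ℕ → ℚ := fun n => d - (d - c) / ((n : ℚ) + 2) with ht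
      have htm : ∀ n, t n ∈ Ioo c d := fun n =>
        ⟨by have := hfr n; show c < d - _; linarith, by have := hfr n; show d - _ < d; linarith⟩
      have htl : ∀ m n, m < n → t m < t n := fun m n hmn => by
        have := hanti m n hmn
        show d - _ < d - _
        linarith
      refine hL (fun i => fun k => e (t (2 * i + 1)) • h • X k) (fun j => fun k => e' (t (2 * j)) • Y k)
        fun i j => ?_
      by_cases hij : i < j
      · exact ⟨fun _ => hij, fun _ => (A _ _ (htm _) (htm _) (htl _ _ (by omega))).2 hP⟩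
      · exact ⟨fun h4 => absurd ((B _ _ (htm _) (htm _) (htl _ _ (by omega))).1 h4) hR,
          fun h4 => absurd h4 hij⟩
    · have hR : φ (fun i => (e p * h) • X i) Y := by
        by_contra hR
        exact hne ⟨fun h4 => absurd h4 hP, fun h4 => absurd h4 hR⟩
      set t : ℕ → ℚ := fun n => c + (d - c) / ((n : ℚ) + 2) with ht
      have htm : ∀ n, t n ∈ Ioo c d := fun n =>
        ⟨by have := hfr n; show c < c + _; linarith, by have := hfr n; show c + _ < d; linarith⟩
      have htl : ∀ m n, m < n → t n < t m := fun m n hmn => by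
        have := hanti m n hmn
        show c + _ < c + _
        linarith
      refine hL (fun i => fun k => e (t (2 * i + 1)) • h • X k) (fun j => fun k => e' (t (2 * j)) • Y k)
        fun i j => ?_
      by_cases hij : i < j
      · exact ⟨fun _ => hij, fun _ => (B _ _ (htm _) (htm _) (htl _ _ (by omega))).2 hR⟩
      · exact ⟨fun h4 => absurd ((A _ _ (htm _) (htm _) (htl _ _ (by omega))).1 h4) hP,
          fun h4 => absurd h4 hij⟩
  · -- one discrepancy less
    refine Finset.card_lt_card ⟨fun r hr => ?_, fun hsub => ?_⟩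
    · unfold INS_D at hr ⊢
      rw [Finset.mem_filter, Finset.mem_product] at hr ⊢
      refine ⟨hr.1, ?_⟩
      have h3 := hr.2
      by_cases hrk : r.1 = k₀
      · by_cases hry : r.2 = y₀
        · exfalso
          apply h3
          rw [hrk, hry, hval₀]
          exact ⟨fun h4 => absurd h4 (not_lt.2 hyp.le), fun h4 => absurd h4 (not_lt.2 h2.le)⟩
        · have h4 := nK' r.2 hr.1.2 hry
          rw [hrk, hval₀] at h3
          rw [hrk]
          have h5 : (h k₀ < r.2 ↔ p < r.2) := by
            rcases lt_or_ge r.2 d with h6 | h6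
            · have h7 : r.2 ≤ c := not_lt.1 fun h => h4 ⟨h, h6⟩
              exact ⟨fun h8 => absurd (h8.trans_le h7) (not_lt.2 hc.le),
                fun h8 => absurd (h8.trans_le h7) (not_lt.2 hp.1.le)⟩
            · exact ⟨fun _ => hpd.trans_le h6, fun _ => hu₀.2.trans_le h6⟩
          rw [h5]
          exact h3
      · rw [hval r.1 hr.1.1 hrk] at h3
        exact h3
    · have h3 : (k₀, y₀) ∈ INS_D K K' (e p * h) h' := hsub (by
        unfold INS_D
        rw [Finset.mem_filter, Finset.mem_product]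
        exact ⟨⟨hk₀, hy₀⟩, fun h4 => absurd (h4.1 h1) (not_lt.2 h2.le)⟩)
      unfold INS_D at h3
      rw [Finset.mem_filter] at h3
      apply h3.2
      show ((e p * h) k₀ < y₀ ↔ h' k₀ < y₀)
      rw [hval₀]
      exact ⟨fun h4 => absurd h4 (not_lt.2 hyp.le), fun h4 => absurd h4 (not_lt.2 h2.le)⟩

private theorem INS_main (hHOM : St_HOM) {N : Type} [MulAction AQ N] {α β : Type}
    {φ : (α → N) → (β → N) → Prop}
    (hφ : ∀ (g : AQ) X Y, φ (fun i => g • X i) (fun i => g • Y i) ↔ φ X Y)
    (hL : ∀ (a : ℕ → α → N) (b : ℕ → β → N), ¬ ∀ i j, φ (a i) (b j) ↔ i < j)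
    {X : α → N} {Y : β → N} {K K' : Finset ℚ} (hX : ∀ i, Spt K (X i)) (hY : ∀ i, Spt K' (Y i)) :
    ∀ (n : ℕ) (h h' : AQ), INS_Ad K K' h → INS_Ad K K' h' → (INS_D K K' h h').card = n →
      (φ (fun i => h • X i) Y ↔ φ (fun i => h' • X i) Y) := by
  intro n
  induction n using Nat.strong_induction_on with
  | _ n ih =>
      intro h h' ha ha' hn
      have hsym : INS_D K K' h' h = INS_D K K' h h' := by
        unfold INS_D
        refine Finset.filter_congr fun p _ => not_congr ?_
        exact ⟨fun h => h.symm, fun h => h.symm⟩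
      have hne : ∀ (a b : AQ), INS_Ad K K' a → INS_Ad K K' b → ∀ k ∈ K, ∀ y ∈ K', a k < y →
          ¬ b k < y → y < b k := by
        intro a b hA hB k hk y hy h1 h2
        refine lt_of_le_of_ne (not_lt.1 h2) fun h3 => ?_
        have h4 : k ∈ K' := hB.2 k hk (by rw [← h3]; exact hy)
        rw [hA.1 k hk h4, h3, hB.1 k hk h4] at h1
        exact lt_irrefl _ h1
      by_cases hd : ∀ k ∈ K, ∀ y ∈ K', (h k < y ↔ h' k < y)
      · exact INS_base hHOM hφ hX hY ha ha' hd
      · push Not at hd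
        obtain ⟨k, hk, y, hy, hd | hd⟩ := hd
        · obtain ⟨h₁, b1, b2, b3⟩ := INS_step hHOM hφ hL hX hY ha ha'
            ⟨k, hk, y, hy, hd.1, hne h h' ha ha' k hk y hy hd.1 (not_lt.2 hd.2)⟩
          exact b2.trans (ih _ (hn ▸ b3) h₁ h' b1 ha' rfl)
        · obtain ⟨h₁, b1, b2, b3⟩ := INS_step hHOM hφ hL hX hY ha' ha
            ⟨k, hk, y, hy, hd.2, hne h' h ha' ha k hk y hy hd.2 (not_lt.2 hd.1)⟩
          rw [hsym, hn] at b3
          exact (b2.trans (ih _ b3 h₁ h b1 ha rfl)).symm

theorem thm_INS (hHOM : St_HOM) : St_INS := by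
  intro N _ α β _ _ φ hφ hL X Y K K' hX hY g hg1 hg2
  have h1 := INS_main hHOM hφ hL hX hY _ g 1 ⟨hg1, hg2⟩ ⟨fun q _ _ => rfl, fun q _ h => h⟩ rfl
  have h2 : (fun i => (1 : AQ) • X i) = X := funext fun i => one_smul _ _
  rw [h2] at h1
  exact h1

end EAU
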