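import Pool.Agent.EAU.StA

/-!
# EAU, part A: the link
-/

set_option autoImplicit false
set_option linter.unusedVariables false

namespace EAU

open Set FirstOrder.Language Filter

section

variable {L : FirstOrder.Language.{0, 0}} {N : Type} [L.Structure N] [MulAction AQ N] {U : Set ℚ}

/-- compactness -/
private theorem LNK_compact
    (h2 : ∀ A B A' B' : Set N, IndS L U A B → A' ⊆ A ∪ MU U → B' ⊆ B ∪ MU U → IndS L U A' B')
    (h5 : ∀ A B : Set N, (∀ A' ⊆ A, ∀ B' ⊆ B, A'.Finite → B'.Finite → IndS L U A' B') →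
      IndS L U A B)
    {u v : N} (hu : u ∉ MU U) (hv : v ∉ MU U)
    (H : ∀ Z : Finset N, (∀ z ∈ Z, z ∉ MU U) → u ∈ Z → v ∈ Z →
      ∃ Z₁ : Set N, Z₁ ⊆ Z ∧ u ∈ Z₁ ∧ v ∉ Z₁ ∧ IndS L U Z₁ (Z \ Z₁)) :
    ∃ A ∈ Fre L (N := N) U, u ∈ A ∧ v ∉ A := by
  classical
  have key : ∀ F : Finset {x : N // x ∉ MU U}, ∃ Z : Finset N, ∃ Z₁ : Set N,
      (∀ z ∈ Z, z ∉ MU U) ∧ (∀ x ∈ F, (x : N) ∈ Z) ∧ Z₁ ⊆ Z ∧ u ∈ Z₁ ∧ v ∉ Z₁ ∧
      IndS L U Z₁ (Z \ Z₁) := by
    intro F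
    have hZ : ∀ z ∈ insert u (insert v (F.image Subtype.val)), z ∉ MU U := by
      intro z hz
      rw [Finset.mem_insert, Finset.mem_insert, Finset.mem_image] at hz
      rcases hz with rfl | rfl | ⟨x, _, rfl⟩
      · exact hu
      · exact hv
      · exact x.2
    obtain ⟨Z₁, a1, a2, a3, a4⟩ := H (insert u (insert v (F.image Subtype.val))) hZ
      (Finset.mem_insert_self _ _) (Finset.mem_insert_of_mem (Finset.mem_insert_self _ _))
    exact ⟨_, Z₁, hZ, fun x hx => Finset.mem_insert_of_mem (Finset.mem_insert_of_mem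
      (Finset.mem_image_of_mem _ hx)), a1, a2, a3, a4⟩
  choose Z Z₁ k1 k2 k3 k4 k5 k6 using key
  let 𝒰 : Ultrafilter (Finset {x : N // x ∉ MU U}) := Ultrafilter.of atTop
  have hle : (𝒰 : Filter (Finset {x : N // x ∉ MU U})) ≤ atTop := Ultrafilter.of_le _
  have hmem : ∀ x : {x : N // x ∉ MU U}, ∀ᶠ F in (𝒰 : Filter (Finset {x : N // x ∉ MU U})), x ∈ F := by
    intro x
    have : ∀ᶠ F : Finset {x : N // x ∉ MU U} in atTop, x ∈ F := by
      filter_upwards [eventually_ge_atTop ({x} : Finset {x : N // x ∉ MU U})] with F hF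
      exact hF (Finset.mem_singleton_self x)
    exact this.filter_mono hle
  refine ⟨{x | ∀ᶠ F in (𝒰 : Filter (Finset {x : N // x ∉ MU U})), x ∈ Z₁ F}, ⟨?_, ?_⟩, ?_, ?_⟩
  · intro x hx
    obtain ⟨F, hF⟩ := Filter.Eventually.exists hx
    exact k1 F x (k3 F hF)
  · refine h5 _ _ fun A' hA' B' hB' fA fB => ?_
    have e1 : ∀ᶠ F in (𝒰 : Filter (Finset {x : N // x ∉ MU U})), ∀ a ∈ A', a ∈ Z₁ F :=
      (Filter.eventually_all_finite fA).2 fun a ha => hA' ha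
    have e2 : ∀ᶠ F in (𝒰 : Filter (Finset {x : N // x ∉ MU U})), ∀ b ∈ B', b ∈ Z F ∧ b ∉ Z₁ F := by
      refine (Filter.eventually_all_finite fB).2 fun b hb => ?_
      have hb1 : b ∉ MU U := (hB' hb).1
      have hb2 : ∀ᶠ F in (𝒰 : Filter (Finset {x : N // x ∉ MU U})), b ∉ Z₁ F :=
        Ultrafilter.eventually_not.2 (hB' hb).2
      filter_upwards [hmem ⟨b, hb1⟩, hb2] with F hF hF'
      exact ⟨k2 F _ hF, hF'⟩
    obtain ⟨F, hF1, hF2⟩ := (e1.and e2).exists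
    exact h2 _ _ A' B' (k6 F) (fun a ha => Or.inl (hF1 a ha))
      (fun b hb => Or.inl ⟨(hF2 b hb).1, (hF2 b hb).2⟩)
  · exact Filter.Eventually.of_forall fun F => k4 F
  · intro h
    obtain ⟨F, hF⟩ := Filter.Eventually.exists h
    exact k5 F hF

end

/-- the link -/
theorem thm_LNK (hHOM : St_HOM) (hLSP : St_LSP) (hSET : St_SET) (hFLD : St_FLD)
    (hSWP : St_SWP) : St_LNK := by
  classical
  intro L N _ _ hS hT P hP k ψ hψ c hc hcψ U hU i hi j hj hij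
  by_contra hcon
  obtain ⟨l1, l2, l3, l4, l5, l6⟩ := hLSP L N hS
  obtain ⟨s1, s2, s3, s4, s5, s6, s7⟩ := hSET L N hS hT U hU
  obtain ⟨f1, f2, f3⟩ := hFLD L N hS hT U hU
  obtain ⟨h, hh, hhi⟩ := hHOM.2.2.1 U hU {i} (fun _ => j)
    (by intro a ha b hb hab
        rw [Finset.coe_singleton, mem_singleton_iff] at ha hb
        rw [ha, hb] at hab
        exact absurd hab (lt_irrefl _))
    (by intro q hq hqU
        rw [Finset.mem_singleton] at hq
        exact absurd (hq ▸ hi) hqU)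
    (fun q hq hqU => hj)
  have hij' : h i = j := hhi i (Finset.mem_singleton_self i)
  have hci : ∀ m, h • c i m = c j m := fun m => by rw [hc, hij']
  have hsp : ∀ q m, c q m ∉ MU U → sp (c q m) = {q} := by
    intro q m hm
    have hsub : sp (c q m) ⊆ {q} := by
      refine l2 _ _ fun g hg => ?_
      rw [hc, hg q (Finset.mem_singleton_self q)]
    rcases Finset.subset_singleton_iff.1 hsub with h0 | h0
    · refine absurd ?_ hm
      intro q' hq'
      rw [h0] at hq'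
      exact absurd hq' (Finset.notMem_empty _)
    · exact h0
  have hiff : ∀ m, c j m ∈ MU U ↔ c i m ∈ MU U := fun m => by rw [← hci m, l5 U h _ hh]
  -- the separating free sets
  have hsep : ∀ m m', c i m ∉ MU U → c j m' ∉ MU U →
      ∃ A ∈ Fre L (N := N) U, c i m ∈ A ∧ c j m' ∉ A := by
    intro m m' hm hm'
    refine LNK_compact s2 s5 hm hm' fun Z hZ hu hv => ?_
    by_contra hno
    refine hcon ⟨Z, c i m, c j m', hZ, hu, hv, hsp i m hm, hsp j m' hm', ?_⟩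
    intro Z₁ z1 z2 z3 z4
    exact hno ⟨Z₁, z1, z2, z3, z4⟩
  -- the least free set
  let 𝒜 : Set (Set N) := {A | A ∈ Fre L (N := N) U ∧ ∀ m, c i m ∉ MU U → c i m ∈ A}
  have hA1 : (MU U)ᶜ ∩ ⋂₀ 𝒜 ∈ Fre L (N := N) U := f2 𝒜 fun A hA => hA.1
  generalize hA1def : (MU U)ᶜ ∩ ⋂₀ 𝒜 = A₁ at hA1
  have hAi : ∀ m, c i m ∉ MU U → c i m ∈ A₁ := by
    intro m hm
    rw [← hA1def]
    exact ⟨hm, fun A hA => hA.2 m hm⟩
  have hleast : ∀ A ∈ Fre L (N := N) U, (∀ m, c i m ∉ MU U → c i m ∈ A) → A₁ ⊆ A := by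
    intro A hA hA'
    rw [← hA1def]
    exact fun x hx => hx.2 A ⟨hA, hA'⟩
  have hA1M : ∀ x ∈ A₁, x ∉ MU U := fun x hx => hA1.1 hx
  have hAj : ∀ m', c j m' ∉ MU U → c j m' ∉ A₁ := by
    intro m' hm'
    have hex : ∀ m, ∃ A, (c i m ∉ MU U → A ∈ Fre L (N := N) U ∧ c i m ∈ A ∧ c j m' ∉ A) := by
      intro m
      by_cases hm : c i m ∈ MU U
      · exact ⟨∅, fun hm' => absurd hm hm'⟩
      · obtain ⟨A, a1, a2, a3⟩ := hsep m m' hm hm'
        exact ⟨A, fun _ => ⟨a1, a2, a3⟩⟩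
    choose A hA using hex
    let 𝒞 : Set (Set N) := {C | ∃ m, c i m ∉ MU U ∧ C = (MU U)ᶜ \ A m}
    have hC : (MU U)ᶜ ∩ ⋂₀ 𝒞 ∈ Fre L (N := N) U := by
      refine f2 𝒞 ?_
      rintro C ⟨m, hm, rfl⟩
      exact f1 _ (hA m hm).1
    have hD := f1 _ hC
    have hsub := hleast _ hD (by
      intro m hm
      refine ⟨hm, fun hx => ?_⟩
      have := hx.2 _ ⟨m, hm, rfl⟩
      exact this.2 (hA m hm).2.1)
    intro hmem
    refine (hsub hmem).2 ⟨hm', ?_⟩
    rintro C ⟨m, hm, rfl⟩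
    exact ⟨hm', (hA m hm).2.2⟩
  -- disjointness
  have hBfre : (MU U)ᶜ \ A₁ ∈ Fre L (N := N) U := f1 _ hA1
  have hinv : Off U h⁻¹ := by
    intro q hq
    have h1 := hh q hq
    calc h⁻¹ q = h⁻¹ (h q) := by rw [h1]
      _ = q := by
        change h.symm (h q) = q
        exact h.symm_apply_apply q
  have hdisj : Disjoint A₁ ((fun x => h • x) '' A₁) := by
    have hB' := f3 _ hBfre h⁻¹ hinv
    have hsub := hleast _ hB' (by
      intro m hm
      refine ⟨c j m, ⟨fun hx => hm ((hiff m).1 hx), hAj m fun hx => hm ((hiff m).1 hx)⟩, ?_⟩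
      change h⁻¹ • c j m = c i m
      rw [← hci m, inv_smul_smul])
    rw [Set.disjoint_left]
    rintro x hx ⟨y, hy, rfl⟩
    obtain ⟨z, hz, hzy⟩ := hsub hy
    have : z = h • y := by
      change h⁻¹ • z = y at hzy
      rw [← hzy, smul_inv_smul]
    rw [this] at hz
    exact hz.2 hx
  obtain ⟨σ, hσ, σ1, σ2, σ3⟩ := hSWP L N hS hT U hU A₁ h hh hA1 hdisj
  have hσP : ∀ x, σ x ∈ P ↔ x ∈ P := by
    intro x
    by_cases hx : x ∈ A₁
    · rw [σ1 x hx, hP]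
    · by_cases hx' : x ∈ (fun x => h • x) '' A₁
      · obtain ⟨y, hy, rfl⟩ := hx'
        change σ (h • y) ∈ P ↔ h • y ∈ P
        rw [σ2 y hy, hP]
      · rw [σ3 x hx hx']
  have hfix : ∀ x ∈ MU U, σ x = x := by
    intro x hx
    refine σ3 x (fun h' => hA1M x h' hx) ?_
    rintro ⟨y, hy, rfl⟩
    exact hA1M y hy ((l5 U h y hh).1 hx)
  have hbase : ∀ m, c i m ∈ MU U → c j m = c i m := by
    intro m hm
    rw [← hci m, l6 U h _ hh hm]
  have e1 : (fun m => σ (c i m)) = c j := by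
    funext m
    by_cases hm : c i m ∈ MU U
    · rw [hfix _ hm, hbase m hm]
    · rw [σ1 _ (hAi m hm), hci]
  have e2 : (fun m => σ (c j m)) = c i := by
    funext m
    by_cases hm : c i m ∈ MU U
    · rw [hbase m hm, hfix _ hm]
    · rw [← hci m, σ2 _ (hAi m hm)]
  have hfin := hψ σ hσ hσP (c i) (c j)
  rw [e1, e2] at hfin
  have p1 : ψ (c i) (c j) := (hcψ i j hij.ne).2 hij
  have p2 : ψ (c j) (c i) := hfin.2 p1
  exact absurd ((hcψ j i hij.ne').1 p2) (not_lt.2 hij.le)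

end EAU
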