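import Pool.Agent.EAU.StD

/-!
# EAU, part D: locality of the visible sets (LOC)
-/

set_option autoImplicit false

noncomputable section

namespace EAU

open Set FirstOrder.Language
open scoped Classical

section abs

variable {N ι : Type} {s : N → Set ι} {D : Finset N → Finset N → Prop}

private theorem LOC_Bl_succ (A : Set N) (u : N) (r : ℕ) : Bl s A u r ⊆ Bl s A u (r + 1) := by
  intro x hx
  exact Or.inl hx

private theorem LOC_Bl_mono (A : Set N) (u : N) {r r' : ℕ} (h : r ≤ r') :
    Bl s A u r ⊆ Bl s A u r' := by
  induction r' with
  | zero =>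
    have : r = 0 := by omega
    subst this
    exact fun x hx => hx
  | succ n ih =>
    rcases Nat.lt_or_ge r (n + 1) with h' | h'
    · exact fun x hx => LOC_Bl_succ A u n (ih (by omega) hx)
    · have : r = n + 1 := by omega
      subst this
      exact fun x hx => hx

private theorem LOC_vis_mono (l : ℕ) {A A' : Set N} (h : A ⊆ A') (X : Finset N) :
    vis D l A X ⊆ vis D l A' X := by
  rintro y ⟨hy, B, hB, hc, h1, h2⟩
  exact ⟨h hy, B, hB.trans h, hc, h1, h2⟩

theorem thm_LOC (hCHN : St_CHN) : St_LOC := by
  intro N ι s D hD l A u hu r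
  have h1 : ∀ r : ℕ, Rr D l A u r ⊆ A := by
    intro r
    induction r with
    | zero =>
      rintro x hx
      rw [show x = u from hx]
      exact hu
    | succ n ih =>
      rintro x (hx | ⟨X, hX, hc, hv⟩)
      · exact ih hx
      · exact hv.1
  have h2 : ∀ (A : Set N) (r : ℕ), Rr D l A u r ⊆ Bl s A u ((l + 1) * r) := by
    intro A r
    induction r with
    | zero =>
      intro x hx
      exact hx
    | succ n ih =>
      rintro x (hx | ⟨X, hX, hc, hv⟩)
      · exact LOC_Bl_mono A u (by rw [Nat.mul_succ]; omega) (ih hx)
      · obtain ⟨hxA, B, hBA, hBc, hd, hnd⟩ := hv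
        obtain ⟨B₁, hB₁, h3, h4, h5⟩ := hCHN N ι s D hD l X B x hBc hd hnd
        have := h5 A u ((l + 1) * n) (hX.trans ih) (by
          intro z hz
          rcases Finset.mem_insert.1 hz with rfl | hz
          · exact hxA
          · exact hBA hz) x (Finset.mem_insert_self _ _)
        rw [Nat.mul_succ]
        exact this
  refine ⟨h1 r, h2 A r, ?_, ?_⟩
  · intro hus
    induction r with
    | zero =>
      intro y hy
      rw [show y = u from hy]
      exact hus
    | succ n ih =>
      rintro y (hy | ⟨X, hX, hc, hv⟩)
      · exact ih y hy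
      · obtain ⟨hyA, B, hBA, hBc, hd, hnd⟩ := hv
        by_contra hne
        rw [Set.not_nonempty_iff_eq_empty] at hne
        apply hnd
        have h6 : D (X ∪ B) {y} := by
          apply hD.dis
          intro x _ b hb
          rw [Finset.mem_singleton.1 hb, hne]
          exact Set.disjoint_empty _
        have h7 := hD.tr X B {y} hd h6
        have h8 : insert y B = B ∪ {y} := by
          ext z
          simp only [Finset.mem_insert, Finset.mem_union, Finset.mem_singleton]
          tauto
        rw [h8]
        exact h7
  · intro A' hA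
    refine ⟨?_, ?_⟩
    · induction r with
      | zero => exact fun x hx => hx
      | succ n ih =>
        rintro y (hy | ⟨X, hX, hc, hv⟩)
        · exact Or.inl (ih hy)
        · exact Or.inr ⟨X, hX.trans ih, hc, LOC_vis_mono l hA X hv⟩
    · induction r with
      | zero => exact fun _ => rfl
      | succ n ih =>
        intro hB
        have hB' : Bl s A' u ((l + 1) * n) ⊆ A :=
          (LOC_Bl_mono A' u (by rw [Nat.mul_succ]; omega)).trans hB
        have ih' := ih hB'
        apply Set.Subset.antisymm
        · rintro y (hy | ⟨X, hX, hc, hv⟩)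
          · exact Or.inl (ih' ▸ hy)
          · refine Or.inr ⟨X, ih' ▸ hX, hc, ?_⟩
            obtain ⟨hyA, B, hBA, hBc, hd, hnd⟩ := hv
            obtain ⟨B₁, hB₁, h3, h4, h5⟩ := hCHN N ι s D hD l X B y hBc hd hnd
            have h6 := h5 A' u ((l + 1) * n) (hX.trans (h2 A' n)) (by
              intro z hz
              rcases Finset.mem_insert.1 hz with rfl | hz
              · exact hyA
              · exact hBA hz)
            rw [← Nat.mul_succ] at h6
            refine ⟨hB (h6 y (Finset.mem_insert_self _ _)), B₁, ?_,
              (Finset.card_le_card hB₁).trans hBc, h3, h4⟩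
            intro z hz
            exact hB (h6 z (Finset.mem_insert_of_mem hz))
        · rintro y (hy | ⟨X, hX, hc, hv⟩)
          · exact Or.inl (ih'.symm ▸ hy)
          · exact Or.inr ⟨X, ih'.symm ▸ hX, hc, LOC_vis_mono l hA X hv⟩

end abs

end EAU
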