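import Pool.Agent.EAU.StA

/-!
# EAU [LSP]: least supports
-/

set_option autoImplicit false
set_option linter.unusedVariables false

namespace EAU

open Set FirstOrder.Language

/-- a finite set of positive rationals below `d` avoiding a finite set -/
private theorem LSP_eps (d : ℚ) (hd : 0 < d) (F : Finset ℚ) : ∃ e : ℚ, 0 < e ∧ e < d ∧ e ∉ F := by
  have h := (Set.Ioo_infinite hd).sdiff F.finite_toSet
  obtain ⟨e, he, hF⟩ := h.nonempty
  exact ⟨e, he.1, he.2, by simpa using hF⟩

private theorem LSP_gap (K : Finset ℚ) : ∃ d : ℚ, 0 < d ∧ ∀ p ∈ K, ∀ q ∈ K, p < q → d ≤ q - p := by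
  classical
  let D : Finset ℚ := ((K ×ˢ K).image (fun x => x.2 - x.1)).filter (fun y => 0 < y)
  by_cases hD : D.Nonempty
  · refine ⟨D.min' hD, ?_, ?_⟩
    · exact (Finset.mem_filter.1 (D.min'_mem hD)).2
    · intro p hp q hq hpq
      refine D.min'_le _ (Finset.mem_filter.2 ⟨Finset.mem_image.2 ⟨(p, q), ?_, rfl⟩, by linarith⟩)
      exact Finset.mem_product.2 ⟨hp, hq⟩
  · refine ⟨1, one_pos, ?_⟩
    intro p hp q hq hpq
    exfalso
    apply hD
    exact ⟨q - p, Finset.mem_filter.2 ⟨Finset.mem_image.2 ⟨(p, q),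
      Finset.mem_product.2 ⟨hp, hq⟩, rfl⟩, by linarith⟩⟩

private theorem LSP_move (hHOM : St_HOM) (K₁ K₂ F : Finset ℚ) :
    ∃ h : AQ, (∀ q ∈ K₁, q ∈ K₂ → h q = q) ∧ ∀ q ∈ K₁, q ∉ K₂ → h q ∉ F := by
  classical
  obtain ⟨d, hd, hgap⟩ := LSP_gap K₁
  obtain ⟨e, he0, hed, heF⟩ := LSP_eps d hd ((F ×ˢ K₁).image (fun x => x.1 - x.2))
  let f : ℚ → ℚ := fun q => if q ∈ K₂ then q else q + e
  have hf1 : ∀ q, q ≤ f q := by
    intro q
    simp only [f]
    split_ifs <;> linarith
  have hf2 : ∀ q, f q ≤ q + e := by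
    intro q
    simp only [f]
    split_ifs <;> linarith
  have hmono : StrictMonoOn f K₁ := by
    intro p hp q hq hpq
    have h1 := hgap p (by simpa using hp) q (by simpa using hq) hpq
    have h2 := hf2 p
    have h3 := hf1 q
    linarith
  obtain ⟨h, hh⟩ := hHOM.2.1 K₁ f hmono
  refine ⟨h, ?_, ?_⟩
  · intro q hq hq2
    rw [hh q hq]
    simp only [f, if_pos hq2]
  · intro q hq hq2 hF
    rw [hh q hq] at hF
    simp only [f, if_neg hq2] at hF
    apply heF
    exact Finset.mem_image.2 ⟨(q + e, q), Finset.mem_product.2 ⟨hF, hq⟩, by simp⟩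

private theorem LSP_fix (hINS : St_INS) {N : Type} [MulAction AQ N] (x : N) (K K' : Finset ℚ)
    (hK : Spt K x) (hK' : Spt K' x) (g : AQ) (h1 : ∀ q ∈ K, q ∈ K' → g q = q)
    (h2 : ∀ q ∈ K, g q ∈ K' → q ∈ K') : g • x = x := by
  have h := hINS N Unit Unit (fun X Y => X () = Y ())
    (fun g X Y => (MulAction.injective g).eq_iff)
    (by
      intro a b hab
      have e1 := (hab 0 1).2 (by norm_num)
      have e2' := (hab 0 2).2 (by norm_num)
      have e3 := (hab 1 2).2 (by norm_num)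
      have e4 := (hab 1 1).1 (by rw [e3, ← e2', e1])
      exact absurd e4 (lt_irrefl 1))
    (fun _ => x) (fun _ => x) K K' (fun _ => hK) (fun _ => hK') g h1 h2
  exact h.2 rfl

private theorem LSP_inter (hHOM : St_HOM) (hINS : St_INS) {N : Type} [MulAction AQ N] (x : N)
    (K₁ K₂ : Finset ℚ) (h1 : Spt K₁ x) (h2 : Spt K₂ x) : Spt (K₁ ∩ K₂) x := by
  classical
  intro g hg
  obtain ⟨h, hfix, hav⟩ := LSP_move hHOM K₁ K₂ (K₂ ∪ K₂.image (fun q => g.symm q))
  have e1 : h • x = x := by
    refine LSP_fix hINS x K₁ K₂ h1 h2 h hfix ?_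
    intro q hq hq2
    by_contra hcon
    exact hav q hq hcon (Finset.mem_union_left _ hq2)
  have e2' : (g * h) • x = x := by
    refine LSP_fix hINS x K₁ K₂ h1 h2 (g * h) ?_ ?_
    · intro q hq hq2
      show g (h q) = q
      rw [hfix q hq hq2]
      exact hg q (Finset.mem_inter.2 ⟨hq, hq2⟩)
    · intro q hq hq2
      by_contra hcon
      refine hav q hq hcon (Finset.mem_union_right _ (Finset.mem_image.2 ⟨g (h q), hq2, ?_⟩))
      exact g.symm_apply_apply (h q)
  rw [mul_smul, e1] at e2'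
  exact e2'

theorem thm_LSP (hHOM : St_HOM) (hINS : St_INS) : St_LSP := by
  classical
  intro L N _ _ hS
  have hex : ∀ x : N, ∃ K : Finset ℚ, Spt K x ∧ ∀ K', Spt K' x → K ⊆ K' := by
    intro x
    obtain ⟨K, hK, hmin⟩ : ∃ K : Finset ℚ, Spt K x ∧ ∀ K', Spt K' x → K.card ≤ K'.card := by
      obtain ⟨K0, hK0⟩ := hS.sup x
      have hne : ({n | ∃ K : Finset ℚ, Spt K x ∧ K.card = n} : Set ℕ).Nonempty :=
        ⟨K0.card, K0, hK0, rfl⟩
      obtain ⟨K, hK, hKc⟩ := Nat.sInf_mem hne
      refine ⟨K, hK, fun K' hK' => ?_⟩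
      rw [hKc]
      exact Nat.sInf_le ⟨K', hK', rfl⟩
    refine ⟨K, hK, fun K' hK' => ?_⟩
    have h1 := hmin _ (LSP_inter hHOM hINS x K K' hK hK')
    have h2 : K ∩ K' = K := Finset.eq_of_subset_of_card_le Finset.inter_subset_left h1
    rw [← h2]
    exact Finset.inter_subset_right
  have hsp : ∀ x : N, Spt (sp x) x ∧ ∀ K', Spt K' x → sp x ⊆ K' := by
    intro x
    unfold sp
    rw [dif_pos (hex x)]
    exact (hex x).choose_spec
  have hA : ∀ x : N, Spt (sp x) x := fun x => (hsp x).1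
  have hB : ∀ (x : N) (K : Finset ℚ), Spt K x → sp x ⊆ K := fun x => (hsp x).2
  -- translation of supports
  have htr : ∀ (g : AQ) (x : N) (K : Finset ℚ), Spt K x → Spt (K.image (fun q => g q)) (g • x) := by
    intro g x K hK a ha
    have h1 : (g⁻¹ * a * g) • x = x := by
      refine hK _ ?_
      intro q hq
      show g⁻¹ (a (g q)) = q
      rw [ha (g q) (Finset.mem_image.2 ⟨q, hq, rfl⟩)]
      exact g.symm_apply_apply q
    calc a • g • x = g • (g⁻¹ * a * g) • x := by
          rw [← mul_smul, ← mul_smul]; congr 1; group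
      _ = g • x := by rw [h1]
  have hC' : ∀ (g : AQ) (x : N) (q : ℚ), q ∈ sp x → g q ∈ sp (g • x) := by
    intro g x q hq
    have h1 := htr g⁻¹ (g • x) _ (hA (g • x))
    rw [inv_smul_smul] at h1
    obtain ⟨p, hp, hpq⟩ := Finset.mem_image.1 (hB x _ h1 hq)
    have h2 : p = g q := by
      rw [← hpq]
      exact (g.apply_symm_apply p).symm
    rw [← h2]
    exact hp
  have hC : ∀ (g : AQ) (x : N) (q : ℚ), g q ∈ sp (g • x) ↔ q ∈ sp x := by
    intro g x q
    constructor
    · intro h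
      have h1 := hC' g⁻¹ (g • x) (g q) h
      rw [inv_smul_smul] at h1
      have h2 : g⁻¹ (g q) = q := g.symm_apply_apply q
      rwa [h2] at h1
    · exact hC' g x q
  have hD : ∀ (g h : AQ) (x : N), (∀ q ∈ sp x, g q = h q) → g • x = h • x := by
    intro g h x hgh
    have h1 : (h⁻¹ * g) • x = x := by
      refine hA x _ ?_
      intro q hq
      show h⁻¹ (g q) = q
      rw [hgh q hq]
      exact h.symm_apply_apply q
    calc g • x = h • (h⁻¹ * g) • x := by
          rw [← mul_smul]; congr 1; group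
      _ = h • x := by rw [h1]
  have hU : ∀ (U : Set ℚ) (g : AQ), Off U g → ∀ q, g q ∈ U ↔ q ∈ U := by
    intro U g hg q
    constructor
    · intro h
      by_contra hq
      rw [hg q hq] at h
      exact hq h
    · intro h
      by_contra hq
      have h1 := hg (g q) hq
      have h2 : g q = q := g.injective h1
      rw [h2] at hq
      exact hq h
  refine ⟨hA, hB, hC, hD, ?_, ?_⟩
  · intro U g x hg
    constructor
    · intro h q hq
      have h1 := h (g q) ((hC g x q).2 hq)
      rwa [hU U g hg q] at h1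
    · intro h q hq
      have h1 : g (g.symm q) = q := g.apply_symm_apply q
      have h2 : g.symm q ∈ sp x := by
        rw [← hC g x, h1]
        exact hq
      have h3 := h _ h2
      rw [← hU U g hg, h1] at h3
      exact h3
  · intro U g x hg hx
    refine hA x g ?_
    intro q hq
    exact hg q (hx q hq)

end EAU
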