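import Pool.Agent.EAU.StD

/-!
# EAU, part D: the value for an independent tuple is the majority of the values for translates
-/

set_option autoImplicit false
set_option linter.unusedVariables false

noncomputable section

namespace EAU

open Set FirstOrder.Language
open scoped Classical

section

variable {L : FirstOrder.Language.{0, 0}} {N : Type} [L.Structure N]

private theorem MAJ_left {n a b : ℕ} {R : L.Relations n} {p : Fin n → Fin a ⊕ Fin b}
    {X X' : Fin a → N} {Y : Fin b → N} (h : QE L (Sum.elim X Y) (Sum.elim X' Y)) :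
    val R p X Y ↔ val R p X' Y := h.2 n R p

private theorem MAJ_right {n a b : ℕ} {R : L.Relations n} {p : Fin n → Fin a ⊕ Fin b}
    {X : Fin a → N} {Y Y' : Fin b → N} (h : QE L (Sum.elim Y X) (Sum.elim Y' X)) :
    val R p X Y ↔ val R p X Y' := by
  have h1 : ∀ (Z : Fin b → N) (k : Fin n), Sum.elim Z X (Sum.swap (p k)) = Sum.elim X Z (p k) := by
    intro Z k
    rcases p k with c | c <;> rfl
  have h2 := h.2 n R fun k => Sum.swap (p k)
  simp only [h1] at h2
  exact h2

private theorem MAJ_mix {n a b : ℕ} (p : Fin n → Fin a ⊕ Fin b) (X X' : Fin a → N)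
    (Y Y' : Fin b → N) :
    Mix {k | (p k).isLeft = true} (fun k => Sum.elim X Y' (p k)) (fun k => Sum.elim X' Y (p k)) =
      fun k => Sum.elim X Y (p k) := by
  funext k
  unfold Mix
  rcases hk : p k with c | c
  · simp [hk]
  · simp [hk]

end

section

variable {L : FirstOrder.Language.{0, 0}} {N : Type} [L.Structure N] [MulAction AQ N]

private theorem MAJ_inv (hS : Sys L N) {n a b : ℕ} {R : L.Relations n}
    {p : Fin n → Fin a ⊕ Fin b} {X : Fin a → N} {Y : Fin b → N} (g : AQ) :
    val R p (fun i => g • X i) (fun i => g • Y i) ↔ val R p X Y := by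
  have h1 : (fun k => Sum.elim (fun i => g • X i) (fun i => g • Y i) (p k)) =
      fun k => g • Sum.elim X Y (p k) := by
    funext k
    rcases p k with c | c <;> rfl
  unfold val
  rw [h1]
  exact hS.rel g n R _

/-- a finite set of supports -/
private def MAJ_sf {a : ℕ} (X : Fin a → N) : Finset ℚ := Finset.univ.biUnion fun i => sp (X i)

omit [L.Structure N] in
private theorem MAJ_mem {a : ℕ} {X : Fin a → N} {q : ℚ} : q ∈ MAJ_sf X ↔ q ∈ spt X := by
  simp [MAJ_sf, spt]

end

theorem thm_MAJ (hHOM : St_HOM) (hLSP : St_LSP) (hINQ : St_INQ) (hBLK : St_BLK) : St_MAJ := by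
  intro L N _ _ hS hT U hU a τ
  obtain ⟨-, -, -, h4, h5⟩ := hHOM
  obtain ⟨-, -, l3, l4, -, l6⟩ := hLSP L N hS
  have hinq := hINQ L N hS hT
  -- supports of translates
  have hmv : ∀ {c : ℕ} (g : AQ) (X : Fin c → N) (q : ℚ),
      q ∈ spt (fun i => g • X i) → ∃ q' ∈ spt X, q = g q' := by
    intro c g X q hq
    simp only [spt, mem_iUnion, Finset.mem_coe] at hq ⊢
    obtain ⟨i, hi⟩ := hq
    refine ⟨g.symm q, ⟨i, ?_⟩, by simp⟩
    rw [← l3 g (X i)]
    simpa using hi
  have hmv' : ∀ {c : ℕ} (g : AQ) (X : Fin c → N) (q : ℚ), q ∈ spt X →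
      g q ∈ spt (fun i => g • X i) := by
    intro c g X q hq
    simp only [spt, mem_iUnion, Finset.mem_coe] at hq ⊢
    obtain ⟨i, hi⟩ := hq
    exact ⟨i, (l3 g (X i) q).2 hi⟩
  -- automorphisms with `Off U` preserve `U`
  have hoff : ∀ g : AQ, Off U g → ∀ q, g q ∈ U → q ∈ U := by
    intro g hg q hq
    by_contra hn
    rw [hg q hn] at hq
    exact hn hq
  set D : Finset ℚ := (MAJ_sf τ).filter fun q => q ∈ U with hD
  set F : Finset ℚ := (MAJ_sf τ).filter fun q => q ∉ U with hF
  have hDm : ∀ q, q ∈ D ↔ q ∈ spt τ ∧ q ∈ U := by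
    intro q
    rw [hD, Finset.mem_filter, MAJ_mem]
  have hFm : ∀ q, q ∈ F ↔ q ∈ spt τ ∧ q ∉ U := by
    intro q
    rw [hF, Finset.mem_filter, MAJ_mem]
  obtain ⟨γ, g1, g2, g3, g4⟩ := hBLK U hU D F (fun q hq => ((hDm q).1 hq).2)
    fun q hq => ((hFm q).1 hq).2
  -- translates are in the base
  have hbase : ∀ l q, q ∈ spt (fun i => γ l • τ i) → q ∉ U := by
    intro l q hq
    obtain ⟨q', hq', rfl⟩ := hmv (γ l) τ q hq
    by_cases hU' : q' ∈ U
    · exact g2 l q' ((hDm q').2 ⟨hq', hU'⟩)
    · rw [g1 l q' ((hFm q').2 ⟨hq', hU'⟩)]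
      exact hU'
  refine ⟨γ, fun l i q hq => hbase l q (mem_iUnion.2 ⟨i, hq⟩), ?_⟩
  intro K n b R p hNL X Y hXτ hX
  -- (A)
  have hA : ∃ l₀, ∀ l ≥ l₀, (val R p (fun i => γ l • τ i) Y ↔ val R p X Y) := by
    obtain ⟨g, gO, gK⟩ := h4 U hU (MAJ_sf X) (MAJ_sf Y)
    have gK' : ∀ q ∈ spt X, q ∈ U → g q ∉ spt Y := fun q hq hqU h =>
      gK q (MAJ_mem.2 hq) hqU (MAJ_mem.2 h)
    obtain ⟨δ, d1, d2, d3⟩ := h5 U hU (MAJ_sf Y)
      (MAJ_sf (fun i => g • X i) ∪ MAJ_sf τ)
    have d1' : ∀ q ∈ spt Y, δ q ∉ U := fun q hq => d1 q (MAJ_mem.2 hq)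
    have d2' : ∀ q ∈ spt Y, q ∉ U → δ q = q := fun q hq => d2 q (MAJ_mem.2 hq)
    have d3' : ∀ q ∈ spt Y, q ∈ U → δ q ∉ spt (fun i => g • X i) ∧ δ q ∉ spt τ := by
      intro q hq hqU
      have h6 := d3 q (MAJ_mem.2 hq) hqU
      rw [Finset.mem_union, MAJ_mem, MAJ_mem] at h6
      exact ⟨fun h => h6 (Or.inl h), fun h => h6 (Or.inr h)⟩
    have hδb : ∀ q ∈ spt (fun i => δ • Y i), q ∉ U := by
      intro q hq
      obtain ⟨q', hq', rfl⟩ := hmv δ Y q hq
      exact d1' q' hq'
    have hδm : ∀ i, δ • Y i ∈ MU U := fun i q hq => hδb q (mem_iUnion.2 ⟨i, hq⟩)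
    -- steps
    have s1 := hX g gO gK'
    have s2 : val R p (fun i => g • X i) (fun i => δ • Y i) ↔ val R p (fun i => g • X i) Y := by
      refine MAJ_right (hinq (Fin b) (Fin a) Y (fun i => g • X i) δ ?_ ?_)
      · intro q hq hq'
        by_cases hqU : q ∈ U
        · obtain ⟨q', hq'', rfl⟩ := hmv g X q hq'
          exact absurd hq (gK' q' hq'' (hoff g gO q' hqU))
        · exact d2' q hq hqU
      · intro q hq hq'
        by_cases hqU : q ∈ U
        · exact absurd hq' (d3' q hq hqU).1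
        · rwa [d2' q hq hqU] at hq'
    have s3 : val R p (fun i => g • X i) (fun i => δ • Y i) ↔ val R p X (fun i => δ • Y i) := by
      have h6 : (fun i => g • (δ • Y i)) = fun i => δ • Y i := by
        funext i
        exact l6 U g _ gO (hδm i)
      have h7 := MAJ_inv (R := R) (p := p) (X := X) (Y := fun i => δ • Y i) hS g
      rw [h6] at h7
      exact h7
    have s4 : val R p X (fun i => δ • Y i) ↔ val R p τ (fun i => δ • Y i) :=
      MAJ_left (hXτ b (fun i => δ • Y i) hδm)
    -- the blocks miss the support of `δ Y` from some point on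
    have hmiss : ∃ l₀, ∀ l ≥ l₀, ∀ q ∈ D, γ l q ∉ spt (fun i => δ • Y i) := by
      have hfin : {l : ℕ | ∃ q ∈ D, γ l q ∈ MAJ_sf (fun i => δ • Y i)}.Finite := by
        by_contra hinf
        have hinf' : {l : ℕ | ∃ q ∈ D, γ l q ∈ MAJ_sf (fun i => δ • Y i)}.Infinite := hinf
        choose! w hw1 hw2 using fun (l : ℕ)
          (hl : l ∈ {l : ℕ | ∃ q ∈ D, γ l q ∈ MAJ_sf (fun i => δ • Y i)}) => hl
        have hinj : InjOn (fun l => γ l (w l))
            {l : ℕ | ∃ q ∈ D, γ l q ∈ MAJ_sf (fun i => δ • Y i)} := by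
          intro l hl l' hl' hll
          rcases lt_trichotomy l l' with h | h | h
          · exact absurd hll (g3 l l' h _ (hw1 l hl) _ (hw1 l' hl')).ne
          · exact h
          · exact absurd hll.symm (g3 l' l h _ (hw1 l' hl') _ (hw1 l hl)).ne
        refine (hinf'.image hinj) ((Finset.finite_toSet (MAJ_sf (fun i => δ • Y i))).subset ?_)
        rintro _ ⟨l, hl, rfl⟩
        exact hw2 l hl
      obtain ⟨l₀, hl₀⟩ := hfin.bddAbove
      refine ⟨l₀ + 1, fun l hl q hq hq' => ?_⟩
      have := hl₀ ⟨q, hq, MAJ_mem.2 hq'⟩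
      omega
    obtain ⟨l₀, hl₀⟩ := hmiss
    refine ⟨l₀, fun l hl => ?_⟩
    have s5 : val R p (fun i => γ l • τ i) (fun i => δ • Y i) ↔ val R p τ (fun i => δ • Y i) := by
      refine MAJ_left (hinq (Fin a) (Fin b) τ (fun i => δ • Y i) (γ l) ?_ ?_)
      · intro q hq hq'
        exact g1 l q ((hFm q).2 ⟨hq, hδb q hq'⟩)
      · intro q hq hq'
        by_cases hqU : q ∈ U
        · exact absurd hq' (hl₀ l hl q ((hDm q).2 ⟨hq, hqU⟩))
        · rwa [g1 l q ((hFm q).2 ⟨hq, hqU⟩)] at hq'
    have s6 : val R p (fun i => γ l • τ i) (fun i => δ • Y i) ↔ val R p (fun i => γ l • τ i) Y := by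
      refine MAJ_right (hinq (Fin b) (Fin a) Y (fun i => γ l • τ i) δ ?_ ?_)
      · intro q hq hq'
        exact d2' q hq (hbase l q hq')
      · intro q hq hq'
        by_cases hqU : q ∈ U
        · exfalso
          obtain ⟨q', hq'', h6⟩ := hmv (γ l) τ _ hq'
          by_cases hqU' : q' ∈ U
          · refine hl₀ l hl q' ((hDm q').2 ⟨hq'', hqU'⟩) ?_
            rw [← h6]
            exact hmv' δ Y q hq
          · rw [g1 l q' ((hFm q').2 ⟨hq'', hqU'⟩)] at h6
            exact (d3' q hq hqU).2 (h6 ▸ hq'')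
        · rwa [d2' q hq hqU] at hq'
    rw [← s6, s5, ← s4, ← s3, s2, s1]
  obtain ⟨l₀, hl₀⟩ := hA
  -- (B)
  -- values after renumbering
  have hval : ∀ (k : ℕ) (s : Fin k → ℕ), StrictMono s → ∃ g : AQ, ∀ i : Fin k,
      (val R p (fun c => γ i • τ c) (fun c => g • Y c) ↔ val R p (fun c => γ (s i) • τ c) Y) := by
    intro k s hs
    obtain ⟨g, e1, e2⟩ := g4 k s hs
    refine ⟨g, fun i => ?_⟩
    have h6 : (fun c => g • (γ (s i) • τ c)) = fun c => γ i • τ c := by
      funext c
      rw [← mul_smul]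
      refine l4 _ _ _ fun q hq => ?_
      have hq' : q ∈ spt τ := mem_iUnion.2 ⟨c, hq⟩
      show g (γ (s i) q) = γ i q
      by_cases hqU : q ∈ U
      · exact e2 i q ((hDm q).2 ⟨hq', hqU⟩)
      · have hqF := (hFm q).2 ⟨hq', hqU⟩
        rw [g1 _ q hqF, g1 _ q hqF, e1 q hqF]
    have h7 := MAJ_inv (R := R) (p := p) (X := fun c => γ (s i) • τ c) (Y := Y) hS g
    rw [h6] at h7
    exact h7
  -- few wrong values
  have hW : ((Finset.range (2 * K + 1)).filter fun l =>
      ¬ (val R p (fun i => γ l • τ i) Y ↔ val R p X Y)).card ≤ K := by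
    by_contra hcard
    have hcard' : K + 1 ≤ ((Finset.range (2 * K + 1)).filter fun l =>
      ¬ (val R p (fun i => γ l • τ i) Y ↔ val R p X Y)).card := by omega
    obtain ⟨W, hW1, hW2⟩ := Finset.exists_subset_card_eq hcard'
    let e := W.orderEmbOfFin hW2
    have he : ∀ i, e i < 2 * K + 1 ∧ ¬ (val R p (fun c => γ (e i) • τ c) Y ↔ val R p X Y) := by
      intro i
      have := hW1 (W.orderEmbOfFin_mem hW2 i)
      rw [Finset.mem_filter, Finset.mem_range] at this
      exact this
    let M := max l₀ (2 * K + 1)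
    let s : ℕ → Fin (K + 1) → ℕ := fun j i => if i.1 < j then e i else M + i.1
    have hs : ∀ j, StrictMono (s j) := by
      intro j i i' hii
      have hii' : i.1 < i'.1 := hii
      have h6 := (he i).1
      have h7 : 2 * K + 1 ≤ M := le_max_right _ _
      simp only [s]
      by_cases h8 : i'.1 < j
      · rw [if_pos (hii'.trans h8), if_pos h8]
        exact e.strictMono hii
      · rw [if_neg h8]
        by_cases h9 : i.1 < j
        · rw [if_pos h9]
          omega
        · rw [if_neg h9]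
          omega
    choose g hg using fun j => hval (K + 1) (s j) (hs j)
    have hlad : ∀ (j : ℕ) (i : Fin (K + 1)), (val R p (fun c => γ i • τ c) (fun c => g j • Y c) ↔
        (val R p X Y ↔ ¬ i.1 < j)) := by
      intro j i
      rw [hg j i]
      by_cases h6 : i.1 < j
      · have h7 : s j i = e i := if_pos h6
        rw [h7]
        have h8 := (he i).2
        tauto
      · have h7 : s j i = M + i.1 := if_neg h6
        rw [h7]
        have h8 := hl₀ (M + i.1) ((le_max_left _ _).trans (Nat.le_add_right _ _))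
        tauto
    by_cases hρ : val R p X Y
    · refine hNL (fun k c => Sum.elim (fun d => γ (K - 1 - k.1) • τ d) Y (p c))
        (fun l c => Sum.elim τ (fun d => g (K - l.1) • Y d) (p c)) ?_
      intro k l
      rw [MAJ_mix]
      have h6 := hlad (K - l.1) ⟨K - 1 - k.1, by omega⟩
      simp only at h6
      have h7 : K - 1 - k.1 < K - l.1 ↔ ¬ k < l := by
        have hk := k.2
        have hl := l.2
        rw [Fin.lt_def]
        omega
      rw [h7, not_not] at h6
      exact h6.trans ⟨fun h => h.1 hρ, fun h => ⟨fun _ => h, fun _ => hρ⟩⟩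
    · refine hNL (fun k c => Sum.elim (fun d => γ k.1 • τ d) Y (p c))
        (fun l c => Sum.elim τ (fun d => g l.1 • Y d) (p c)) ?_
      intro k l
      rw [MAJ_mix]
      have h6 := hlad l.1 ⟨k.1, by omega⟩
      simp only at h6
      rw [Fin.lt_def]
      exact h6.trans (by tauto)
  -- count
  have hset : {l : ℕ | l < 2 * K + 1 ∧ val R p (fun i => γ l • τ i) Y} =
      ((Finset.range (2 * K + 1)).filter fun l => val R p (fun i => γ l • τ i) Y : Finset ℕ) := by
    ext l
    simp
  rw [hset, Set.ncard_coe_finset]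
  by_cases hρ : val R p X Y
  · have h6 : ((Finset.range (2 * K + 1)).filter fun l =>
        ¬ (val R p (fun i => γ l • τ i) Y ↔ val R p X Y)) =
        (Finset.range (2 * K + 1)).filter fun l => ¬ val R p (fun i => γ l • τ i) Y := by
      refine Finset.filter_congr fun l _ => ?_
      tauto
    rw [h6] at hW
    have h7 := Finset.card_filter_add_card_filter_not (s := Finset.range (2 * K + 1))
      (fun l => val R p (fun i => γ l • τ i) Y)
    rw [Finset.card_range] at h7
    refine ⟨fun _ => by omega, fun _ => hρ⟩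
  · have h6 : ((Finset.range (2 * K + 1)).filter fun l =>
        ¬ (val R p (fun i => γ l • τ i) Y ↔ val R p X Y)) =
        (Finset.range (2 * K + 1)).filter fun l => val R p (fun i => γ l • τ i) Y := by
      refine Finset.filter_congr fun l _ => ?_
      tauto
    rw [h6] at hW
    refine ⟨fun h => absurd h hρ, fun h => ?_⟩
    omega

end EAU
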