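import Pool.Agent.EAU.StD

/-!
# EAU, part D: [ORB] finitely many orbits of tuples of translates
-/

set_option autoImplicit false
set_option linter.unusedVariables false

noncomputable section

namespace EAU

open Set FirstOrder.Language
open scoped Classical

private theorem ORB_off {U : Set ℚ} {g : AQ} (hg : Off U g) {q : ℚ} (hq : q ∈ U) : g q ∈ U := by
  by_contra h
  have h1 : g (g q) = g q := hg _ h
  have h2 : g q = q := g.injective h1
  rw [h2] at h
  exact h hq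

/-- the number of elements of `S` below `a` -/
private def rk (S : Finset ℚ) (a : ℚ) : ℕ := (S.filter (· < a)).card

private theorem ORB_rk_mono (S : Finset ℚ) {a b : ℚ} (h : b ≤ a) : rk S b ≤ rk S a := by
  refine Finset.card_le_card fun x hx => ?_
  simp only [Finset.mem_filter] at hx ⊢
  exact ⟨hx.1, lt_of_lt_of_le hx.2 h⟩

private theorem ORB_rk_lt (S : Finset ℚ) {a b : ℚ} (ha : a ∈ S) (h : a < b) : rk S a < rk S b := by
  refine Finset.card_lt_card ⟨fun x hx => ?_, fun hsub => ?_⟩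
  · simp only [Finset.mem_filter] at hx ⊢
    exact ⟨hx.1, lt_trans hx.2 h⟩
  · have h1 : a ∈ S.filter (· < b) := Finset.mem_filter.2 ⟨ha, h⟩
    have h2 := hsub h1
    simp at h2

private theorem ORB_rk_card (S : Finset ℚ) {a : ℚ} (ha : a ∈ S) : rk S a < S.card := by
  refine Finset.card_lt_card ⟨Finset.filter_subset _ _, fun hsub => ?_⟩
  have h2 := hsub ha
  simp at h2

private theorem ORB_lt_of_rk (S : Finset ℚ) {a b : ℚ} (h : rk S a < rk S b) : a < b := by
  by_contra hab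
  exact absurd (ORB_rk_mono S (not_lt.1 hab)) (not_le.2 h)

private theorem ORB_eq_of_rk (S : Finset ℚ) {a b : ℚ} (ha : a ∈ S) (hb : b ∈ S)
    (h : rk S a = rk S b) : a = b := by
  rcases lt_trichotomy a b with h1 | h1 | h1
  · exact absurd (ORB_rk_lt S ha h1) (by omega)
  · exact h1
  · exact absurd (ORB_rk_lt S hb h1) (by omega)

/-- all the values of the `h k` on `K` -/
private def vs {t : ℕ} (K : Finset ℚ) (h : Fin t → AQ) : Finset ℚ :=
  Finset.univ.biUnion fun k => K.image (h k)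

private theorem ORB_mem {t : ℕ} (K : Finset ℚ) (h : Fin t → AQ) (k : Fin t) {q : ℚ} (hq : q ∈ K) :
    h k q ∈ vs K h := by
  simp only [vs, Finset.mem_biUnion, Finset.mem_univ, true_and, Finset.mem_image]
  exact ⟨k, q, hq, rfl⟩

private theorem ORB_card {t : ℕ} (K : Finset ℚ) (h : Fin t → AQ) : (vs K h).card ≤ t * K.card := by
  unfold vs
  refine Finset.card_biUnion_le.trans ?_
  calc ∑ k : Fin t, (K.image (h k)).card ≤ ∑ _k : Fin t, K.card :=
        Finset.sum_le_sum fun k _ => Finset.card_image_le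
    _ = t * K.card := by simp

/-- automorphisms with the same ranks are conjugate -/
private theorem ORB_conj (hHOM : St_HOM) {U : Set ℚ} (hU : Cut U) {t : ℕ} (K : Finset ℚ)
    (hK : ∀ q ∈ K, q ∈ U) (h h' : Fin t → AQ) (ho : ∀ k, Off U (h k)) (ho' : ∀ k, Off U (h' k))
    (hr : ∀ k, ∀ q ∈ K, rk (vs K h) (h k q) = rk (vs K h') (h' k q)) :
    ∃ g : AQ, Off U g ∧ ∀ k, ∀ q ∈ K, g (h' k q) = h k q := by
  have hex : ∀ s : ℚ, s ∈ vs K h' → ∃ p : Fin t × ℚ, p.2 ∈ K ∧ h' p.1 p.2 = s := by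
    intro s hs
    simp only [vs, Finset.mem_biUnion, Finset.mem_univ, true_and, Finset.mem_image] at hs
    obtain ⟨k, q, hq, rfl⟩ := hs
    exact ⟨(k, q), hq, rfl⟩
  let f : ℚ → ℚ := fun s => if hs : s ∈ vs K h' then h (hex s hs).choose.1 (hex s hs).choose.2 else s
  have hf : ∀ s (hs : s ∈ vs K h'), ∃ p : Fin t × ℚ, p.2 ∈ K ∧ h' p.1 p.2 = s ∧ f s = h p.1 p.2 := by
    intro s hs
    refine ⟨(hex s hs).choose, (hex s hs).choose_spec.1, (hex s hs).choose_spec.2, ?_⟩
    simp only [f, dif_pos hs]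
  have hfr : ∀ s ∈ vs K h', rk (vs K h) (f s) = rk (vs K h') s ∧ f s ∈ vs K h ∧ f s ∈ U := by
    intro s hs
    obtain ⟨p, hp, hps, hfs⟩ := hf s hs
    refine ⟨?_, ?_, ?_⟩
    · rw [hfs, hr p.1 p.2 hp, hps]
    · rw [hfs]
      exact ORB_mem K h p.1 hp
    · rw [hfs]
      exact ORB_off (ho p.1) (hK _ hp)
  have hmono : StrictMonoOn f (vs K h' : Finset ℚ) := by
    intro a ha b hb hab
    have ha' : a ∈ vs K h' := by simpa using ha
    have hb' : b ∈ vs K h' := by simpa using hb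
    refine ORB_lt_of_rk (vs K h) ?_
    rw [(hfr a ha').1, (hfr b hb').1]
    exact ORB_rk_lt _ ha' hab
  have hsU : ∀ s ∈ vs K h', s ∈ U := by
    intro s hs
    obtain ⟨p, hp, hps⟩ := hex s hs
    rw [← hps]
    exact ORB_off (ho' p.1) (hK _ hp)
  obtain ⟨g, hg, hgf⟩ := hHOM.2.2.1 U hU (vs K h') f hmono (fun q hq hqU => absurd (hsU q hq) hqU)
    (fun q hq _ => (hfr q hq).2.2)
  refine ⟨g, hg, fun k q hq => ?_⟩
  have hm := ORB_mem K h' k hq
  rw [hgf _ hm]
  refine ORB_eq_of_rk (vs K h) (hfr _ hm).2.1 (ORB_mem K h k hq) ?_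
  rw [(hfr _ hm).1, hr k q hq]

theorem thm_ORB (hHOM : St_HOM) (hLSP : St_LSP) : St_ORB := by
  intro L N _ _ hS U hU Z t
  obtain ⟨-, -, -, hagree, -, -⟩ := hLSP L N hS
  let K : Finset ℚ := Z.biUnion fun z => (sp z).filter (· ∈ U)
  have hKU : ∀ q ∈ K, q ∈ U := by
    intro q hq
    simp only [K, Finset.mem_biUnion, Finset.mem_filter] at hq
    obtain ⟨z, -, -, h⟩ := hq
    exact h
  have hKz : ∀ z ∈ Z, ∀ q ∈ sp z, q ∈ U → q ∈ K := by
    intro z hz q hq hqU
    simp only [K, Finset.mem_biUnion, Finset.mem_filter]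
    exact ⟨z, hz, hq, hqU⟩
  let C : Type := (Fin t → Z) × (Fin t → K → Fin (t * K.card))
  let Has : C → (Fin t → N) → Prop := fun c x => ∃ h : Fin t → AQ, (∀ k, Off U (h k)) ∧
    (∀ k, x k = h k • (c.1 k : N)) ∧ ∀ k (q : K), (c.2 k q : ℕ) = rk (vs K h) (h k q)
  let T : Set (Fin t → N) := ⋃ c : C, {τ | ∃ hc : ∃ x, Has c x, τ = hc.choose}
  refine ⟨T, ?_, fun x hx => ?_⟩
  · refine Set.finite_iUnion fun c => Set.Subsingleton.finite ?_
    rintro τ ⟨hc, rfl⟩ τ' ⟨hc', rfl⟩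
    rfl
  · choose h ho z hz hxz using hx
    let c : C := (fun k => ⟨z k, hz k⟩, fun k q => ⟨rk (vs K h) (h k q),
      lt_of_lt_of_le (ORB_rk_card _ (ORB_mem K h k q.2)) (ORB_card K h)⟩)
    have hcx : Has c x := ⟨h, ho, hxz, fun k q => rfl⟩
    have hc : ∃ x, Has c x := ⟨x, hcx⟩
    obtain ⟨h', ho', hxz', hr'⟩ := hc.choose_spec
    refine ⟨hc.choose, ?_, ?_, ?_⟩
    · simp only [T, mem_iUnion]
      exact ⟨c, hc, rfl⟩
    · intro k
      exact ⟨h' k, ho' k, _, (c.1 k).2, hxz' k⟩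
    · obtain ⟨g, hg, hgh⟩ := ORB_conj hHOM hU K hKU h h' ho ho'
        (fun k q hq => hr' k ⟨q, hq⟩)
      refine ⟨g, hg, fun k => ?_⟩
      rw [hxz k, hxz' k, smul_smul]
      refine hagree _ _ _ fun q hq => ?_
      by_cases hqU : q ∈ U
      · exact (hgh k q (hKz (z k) (hz k) q hq hqU)).symm
      · have h1 : h k q = q := ho k q hqU
        have h2 : h' k q = q := ho' k q hqU
        have h3 : g q = q := hg q hqU
        change h k q = g (h' k q)
        rw [h1, h2, h3]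

end EAU
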