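import Pool.Agent.EAU.StA

/-!
# EAU, part A: [PSH] pushing into the base
-/

set_option autoImplicit false
set_option linter.unusedVariables false

namespace EAU

open Set FirstOrder.Language

theorem thm_PSH (hHOM : St_HOM) (hLSP : St_LSP) (hINQ : St_INQ) : St_PSH := by
  classical
  intro L N _ _ hS hSt U hU α _ X F hXF
  have := Fintype.ofFinite α
  obtain ⟨-, -, -, -, h5⟩ := hHOM
  obtain ⟨g, hg1, hg2, hg3⟩ := h5 U hU (Finset.univ.biUnion (fun i => sp (X i))) F
  have hK : ∀ q, q ∈ spt X ↔ q ∈ Finset.univ.biUnion (fun i => sp (X i)) := by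
    intro q
    simp [spt]
  refine ⟨g, ?_, ?_⟩
  · intro i q hq
    have h3 := (hLSP L N hS).2.2.1 g (X i) (g.symm q)
    rw [OrderIso.apply_symm_apply] at h3
    have h4 : g.symm q ∈ sp (X i) := h3.1 hq
    have h5 := hg1 (g.symm q) (Finset.mem_biUnion.2 ⟨i, Finset.mem_univ i, h4⟩)
    rwa [OrderIso.apply_symm_apply] at h5
  · intro β _ Y hY
    refine hINQ L N hS hSt α β X Y g ?_ ?_
    · intro q hq hq'
      refine hg2 q ((hK q).1 hq) ?_
      intro hqU
      exact hXF q hq hqU (Finset.mem_coe.1 (hY hq'))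
    · intro q hq hgq
      have hnU : q ∉ U := by
        intro hqU
        exact hg3 q ((hK q).1 hq) hqU (Finset.mem_coe.1 (hY hgq))
      have h6 := hg2 q ((hK q).1 hq) hnU
      rwa [h6] at hgq

end EAU
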