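import Pool.Agent.EAU.StA

/-!
# EAU, module QEB: the calculus of atomic types
-/

set_option autoImplicit false

namespace EAU

open Set FirstOrder.Language

private theorem q_comp (L : FirstOrder.Language.{0, 0}) {N : Type} [L.Structure N] {ι κ : Type}
    (f : κ → ι) {v w : ι → N} (h : QE L v w) : QE L (v ∘ f) (w ∘ f) :=
  ⟨fun i j => h.1 (f i) (f j), fun n R t => h.2 n R (fun k => f (t k))⟩

private theorem q_loc (L : FirstOrder.Language.{0, 0}) {N : Type} [L.Structure N] {ι : Type}
    {v w : ι → N} (h : ∀ (n : ℕ) (f : Fin n → ι), QE L (v ∘ f) (w ∘ f)) : QE L v w := by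
  refine ⟨fun i j => ?_, fun n R t => ?_⟩
  · have h1 := (h 2 ![i, j]).1 0 1
    simpa using h1
  · exact (h n t).2 n R id

private theorem q_act (L : FirstOrder.Language.{0, 0}) {N : Type} [L.Structure N]
    [MulAction AQ N] (hS : Sys L N) {ι : Type} (g : AQ) (v : ι → N) :
    QE L (fun i => g • v i) v :=
  ⟨fun _ _ => smul_left_cancel_iff g, fun n R t => hS.rel g n R (fun k => v (t k))⟩

private theorem q_base (L : FirstOrder.Language.{0, 0}) {N : Type} [L.Structure N]
    [MulAction AQ N] {U : Set ℚ} {α β : Type} {X Y : α → N} {m : β → N}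
    (hm : ∀ i, m i ∈ MU U) (h : TpM L U X Y) : QE L (Sum.elim X m) (Sum.elim Y m) := by
  refine q_loc L fun n f => ?_
  rcases isEmpty_or_nonempty β with hβ | ⟨⟨b0⟩⟩
  · have h1 := q_comp L (fun k => Sum.elim Sum.inl (fun b => isEmptyElim b) (f k))
      (h 0 (fun i => i.elim0) (fun i => i.elim0))
    have h2 : ∀ Z : α → N, (Sum.elim Z m) ∘ f = (Sum.elim Z (fun i : Fin 0 => i.elim0)) ∘
        (fun k => Sum.elim Sum.inl (fun b => isEmptyElim b) (f k)) := by
      intro Z
      funext k
      simp only [Function.comp_apply]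
      rcases f k with a | b
      · rfl
      · exact isEmptyElim b
    rw [h2, h2]
    exact h1
  · have h1 := q_comp L (fun k => Sum.elim Sum.inl (fun _ => Sum.inr k) (f k))
      (h n (fun k => Sum.elim (fun _ => m b0) m (f k)) (fun k => by
        rcases f k with a | b
        · exact hm b0
        · exact hm b))
    have h2 : ∀ Z : α → N, (Sum.elim Z m) ∘ f =
        (Sum.elim Z (fun k : Fin n => Sum.elim (fun _ => m b0) m (f k))) ∘
        (fun k => Sum.elim Sum.inl (fun _ => Sum.inr k) (f k)) := by
      intro Z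
      funext k
      simp only [Function.comp_apply]
      rcases hk : f k with a | b
      · rfl
      · simp only [Sum.elim_inr, hk]
    rw [h2, h2]
    exact h1

/-- [QEB] calculus of `QE`, `TpM` -/
theorem thm_QEB (hLSP : St_LSP) : St_QEB := by
  intro L N _ _ hS
  obtain ⟨-, -, -, -, -, hfix⟩ := hLSP L N hS
  refine ⟨fun ι v => ⟨fun _ _ => Iff.rfl, fun _ _ _ => Iff.rfl⟩,
    fun ι v w h => ⟨fun i j => (h.1 i j).symm, fun n R t => (h.2 n R t).symm⟩,
    fun ι u v w h h' => ⟨fun i j => (h.1 i j).trans (h'.1 i j),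
      fun n R t => (h.2 n R t).trans (h'.2 n R t)⟩,
    fun ι κ f v w h => q_comp L f h, fun ι g v => q_act L hS g v, fun ι v w h => q_loc L h,
    ?_, ?_, ?_⟩
  · intro U α β f X Y h n m hm
    have h1 := q_comp L (Sum.map f id) (h n m hm)
    rwa [Sum.elim_comp_map, Sum.elim_comp_map] at h1
  · intro U α β X Y m hm h
    refine ⟨q_base L hm h, fun n m' hm' => ?_⟩
    have h1 : QE L (Sum.elim X (Sum.elim m m')) (Sum.elim Y (Sum.elim m m')) :=
      q_base L (fun i => by
        rcases i with i | i
        · exact hm i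
        · exact hm' i) h
    have h2 := q_comp L (Equiv.sumAssoc α β (Fin n)) h1
    have h3 : ∀ Z : α → N, Sum.elim (Sum.elim Z m) m' =
        (Sum.elim Z (Sum.elim m m')) ∘ (Equiv.sumAssoc α β (Fin n)) := by
      intro Z
      funext x
      rcases x with (x | x) | x <;> rfl
    rw [h3, h3]
    exact h2
  · intro U α X g hg n m hm
    have h1 : Sum.elim (fun i => g • X i) m = fun i => g • (Sum.elim X m) i := by
      funext x
      rcases x with x | x
      · rfl
      · exact (hfix U g (m x) hg (hm x)).symm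
    rw [h1]
    exact q_act L hS g _

end EAU
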