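import Pool.Agent.EAU.StD

/-!
# EAU, part D: RIN

Isomorphisms which respect the independence preserve the visible sets.
-/

set_option autoImplicit false
set_option linter.unusedVariables false

noncomputable section

namespace EAU

open Set FirstOrder.Language
open scoped Classical

private theorem RIN_img {N : Type} {A' : Set N} {f f' : N → N} (h : ∀ y ∈ A', f (f' y) = y)
    (X : Finset N) (hX : (X : Set N) ⊆ A') : (X.image f').image f = X := by
  rw [Finset.image_image]
  have h1 : X.image (f ∘ f') = X.image id :=
    Finset.image_congr fun x hx => h x (hX hx)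
  rw [h1, Finset.image_id]

/-- [RIN] -/
theorem thm_RIN (hLOC : St_LOC) : St_RIN := by
  intro N ι s D hax l A A' f f' u hu hs hfu hA hA' hff hff' hD r
  have hu' : u ∈ A' := by
    have h1 := hA u hu
    rwa [hfu] at h1
  induction r with
  | zero =>
    show f '' {u} = {u}
    rw [image_singleton, hfu]
  | succ r ih =>
    have hL := hLOC N ι s D hax l A u hu r
    have hL' := hLOC N ι s D hax l A' u hu' r
    have hRs := hL.2.2.1 hs
    have hRs' := hL'.2.2.1 hs
    have hfR : ∀ x ∈ Rr D l A u r, f x ∈ Rr D l A' u r := fun x hx => ih ▸ mem_image_of_mem f hx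
    have key : ∀ X : Finset N, (X : Set N) ⊆ Rr D l A u r → X.card ≤ l →
        ∀ B : Finset N, (B : Set N) ⊆ A → B.card ≤ l + 1 →
          (D X B ↔ D (X.image f) (B.image f)) := fun X hX hc B hB hBc =>
      hD X B (hX.trans hL.1) (fun x hx => ⟨hRs x (hX hx), hRs' _ (hfR x (hX hx))⟩) hc hB hBc
    apply Subset.antisymm
    · rintro _ ⟨y, hy, rfl⟩
      rcases hy with hy | ⟨X, hX, hc, hyA, B, hBA, hBc, h1, h2⟩
      · exact Or.inl (hfR y hy)
      · refine Or.inr ⟨X.image f, ?_, Finset.card_image_le.trans hc, hA y hyA, B.image f, ?_,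
          Finset.card_image_le.trans hBc, (key X hX hc B hBA (hBc.trans (Nat.le_succ l))).1 h1,
          fun h => h2 ((key X hX hc (insert y B) ?_ ?_).2 ?_)⟩
        · intro z hz
          obtain ⟨x, hx, rfl⟩ := Finset.mem_image.1 (Finset.mem_coe.1 hz)
          exact hfR x (hX hx)
        · intro z hz
          obtain ⟨x, hx, rfl⟩ := Finset.mem_image.1 (Finset.mem_coe.1 hz)
          exact hA x (hBA hx)
        · intro z hz
          rcases Finset.mem_insert.1 (Finset.mem_coe.1 hz) with rfl | hz
          · exact hyA
          · exact hBA hz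
        · exact (Finset.card_insert_le _ _).trans (Nat.succ_le_succ hBc)
        · rw [Finset.image_insert]
          exact h
    · intro y' hy'
      rcases hy' with hy' | ⟨X', hX', hc, hyA, B', hBA, hBc, h1, h2⟩
      · rw [← ih] at hy'
        obtain ⟨x, hx, rfl⟩ := hy'
        exact ⟨x, Or.inl hx, rfl⟩
      · have hX'A : (X' : Set N) ⊆ A' := hX'.trans hL'.1
        have e1 := RIN_img hff' X' hX'A
        have e2 := RIN_img hff' B' hBA
        have hXR : ((X'.image f' : Finset N) : Set N) ⊆ Rr D l A u r := by
          intro z hz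
          obtain ⟨x', hx', rfl⟩ := Finset.mem_image.1 (Finset.mem_coe.1 hz)
          have h3 : x' ∈ Rr D l A' u r := hX' hx'
          rw [← ih] at h3
          obtain ⟨x, hx, rfl⟩ := h3
          rw [hff x (hL.1 hx)]
          exact hx
        have hBR : ((B'.image f' : Finset N) : Set N) ⊆ A := by
          intro z hz
          obtain ⟨x', hx', rfl⟩ := Finset.mem_image.1 (Finset.mem_coe.1 hz)
          exact hA' x' (hBA hx')
        have hcX : (X'.image f').card ≤ l := Finset.card_image_le.trans hc
        have hcB : (B'.image f').card ≤ l := Finset.card_image_le.trans hBc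
        have k1 := key (X'.image f') hXR hcX (B'.image f') hBR (hcB.trans (Nat.le_succ l))
        rw [e1, e2] at k1
        have hBR2 : ((insert (f' y') (B'.image f') : Finset N) : Set N) ⊆ A := by
          intro z hz
          rcases Finset.mem_insert.1 (Finset.mem_coe.1 hz) with rfl | hz
          · exact hA' y' hyA
          · exact hBR hz
        have k2 := key (X'.image f') hXR hcX (insert (f' y') (B'.image f')) hBR2
          ((Finset.card_insert_le _ _).trans (Nat.succ_le_succ hcB))
        rw [Finset.image_insert, e1, e2, hff' y' hyA] at k2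
        exact ⟨f' y', Or.inr ⟨X'.image f', hXR, hcX, hA' y' hyA, B'.image f', hBR, hcB,
          k1.2 h1, fun h => h2 (k2.1 h)⟩, hff' y' hyA⟩

end EAU
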