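import Pool.Agent.EAU.StA

/-!
# EAU, module SET: the calculus of independence for sets
-/

set_option autoImplicit false
set_option linter.unusedVariables false

namespace EAU

open Set FirstOrder.Language

theorem thm_SET (hIND : St_IND) (hTRN : St_TRN) : St_SET := by
  classical
  intro L N _ _ hS hSt U hU
  obtain ⟨h1, h2, h3, h4, h5⟩ := hIND L N hS hSt U hU
  have hT := hTRN L N hS hSt U hU
  -- reindexing
  have re : ∀ (α β γ δ : Type) [Finite α] [Finite β] [Finite γ] [Finite δ] (X : α → N) (Y : β → N)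
      (X' : γ → N) (Y' : δ → N), Ind L U X Y → range X' ⊆ range X → range Y' ⊆ range Y →
      Ind L U X' Y' := fun α β γ δ _ _ _ _ X Y X' Y' h hX hY =>
    h4 α β γ δ X Y X' Y' h (fun i => Or.inl (hX (mem_range_self i)))
      (fun i => Or.inl (hY (mem_range_self i)))
  -- independence for arbitrary finite index types
  have key : ∀ (A B : Set N), IndS L U A B → ∀ (α β : Type) [Finite α] [Finite β] (X : α → N)
      (Y : β → N), (∀ i, X i ∈ A) → (∀ i, Y i ∈ B) → Ind L U X Y := by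
    intro A B h α β _ _ X Y hX hY
    obtain ⟨m, ⟨e⟩⟩ := Finite.exists_equiv_fin α
    obtain ⟨n, ⟨f⟩⟩ := Finite.exists_equiv_fin β
    refine re _ _ _ _ (X ∘ e.symm) (Y ∘ f.symm) X Y (h m n _ _ (fun i => hX _) (fun i => hY _)) ?_ ?_
    · rintro _ ⟨i, rfl⟩
      exact ⟨e i, by simp⟩
    · rintro _ ⟨i, rfl⟩
      exact ⟨f i, by simp⟩
  have hmono : ∀ A B A' B' : Set N, IndS L U A B → A' ⊆ A ∪ MU U → B' ⊆ B ∪ MU U →
      IndS L U A' B' := by
    intro A B A' B' h hA hB m n X Y hX hY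
    refine h4 {i : Fin m // X i ∈ A} {i : Fin n // Y i ∈ B} (Fin m) (Fin n) (fun i => X i.1)
      (fun i => Y i.1) X Y (key A B h _ _ _ _ (fun i => i.2) (fun i => i.2)) (fun i => ?_)
      (fun i => ?_)
    · rcases hA (hX i) with h6 | h6
      · exact Or.inl ⟨⟨i, h6⟩, rfl⟩
      · exact Or.inr h6
    · rcases hB (hY i) with h6 | h6
      · exact Or.inl ⟨⟨i, h6⟩, rfl⟩
      · exact Or.inr h6
  refine ⟨?_, hmono, ?_, ?_, ?_, ?_, ?_⟩
  · intro A B h m n X Y hX hY
    exact h2 _ _ _ _ (h n m Y X hY hX)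
  · intro A B C hAB hABC m n X Y hX hY
    have hI1 : Ind L U X (fun i : {i : Fin n // Y i ∈ B} => Y i.1) :=
      key A B hAB _ _ _ _ hX (fun i => i.2)
    have hI2 : Ind L U (Sum.elim X (fun i : {i : Fin n // Y i ∈ B} => Y i.1))
        (fun i : {i : Fin n // Y i ∈ C} => Y i.1) := by
      refine key (A ∪ B) C hABC _ _ _ _ (fun i => ?_) (fun i => i.2)
      rcases i with i | i
      · exact Or.inl (hX i)
      · exact Or.inr i.2
    have hI3 := hT _ _ _ _ _ _ hI1 hI2
    refine re _ _ _ _ _ _ X Y hI3 (fun x hx => hx) ?_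
    rintro _ ⟨i, rfl⟩
    rcases hY i with h6 | h6
    · exact ⟨Sum.inl ⟨i, h6⟩, rfl⟩
    · exact ⟨Sum.inr ⟨i, h6⟩, rfl⟩
  · intro A B h m n X Y hX hY
    refine h3 _ _ X Y fun q hq hqU hq' => ?_
    obtain ⟨i, hi⟩ := mem_iUnion.1 hq
    obtain ⟨j, hj⟩ := mem_iUnion.1 hq'
    exact h _ (hX i) _ (hY j) q hi hqU hj
  · intro A B h m n X Y hX hY
    refine h (range X) ?_ (range Y) ?_ (finite_range X) (finite_range Y) m n X Y
      (fun i => mem_range_self i) (fun i => mem_range_self i)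
    · rintro _ ⟨i, rfl⟩
      exact hX i
    · rintro _ ⟨i, rfl⟩
      exact hY i
  · intro A B h hh hAB m n X Y hX hY
    choose X0 hX0 eX using hX
    choose Y0 hY0 eY using hY
    have e1 : X = fun i => h • X0 i := funext fun i => (eX i).symm
    have e2 : Y = fun i => h • Y0 i := funext fun i => (eY i).symm
    rw [e1, e2]
    exact h5 _ _ X0 Y0 h hh (hAB m n X0 Y0 hX0 hY0)
  · intro α β _ _ X Y
    constructor
    · intro h m n X' Y' hX hY
      refine re _ _ _ _ X Y X' Y' h ?_ ?_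
      · rintro _ ⟨i, rfl⟩
        exact hX i
      · rintro _ ⟨i, rfl⟩
        exact hY i
    · intro h
      exact key _ _ h _ _ X Y (fun i => mem_range_self i) (fun i => mem_range_self i)

end EAU
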