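import Pool.Agent.EAU.StD

/-!
# EAU: [STP], fresh copies of a finite set with one given point
-/

set_option autoImplicit false

namespace EAU

open Set

private theorem STP_small (T : Finset ℚ) (hT : ∀ t ∈ T, 0 < t) : ∃ δ : ℚ, 0 < δ ∧ ∀ t ∈ T, δ < t := by
  classical
  induction T using Finset.induction_on with
  | empty => exact ⟨1, one_pos, by simp⟩
  | insert a T _ ih =>
    obtain ⟨δ, h0, h1⟩ := ih fun t ht => hT t (Finset.mem_insert_of_mem ht)
    have ha := hT a (Finset.mem_insert_self _ _)
    refine ⟨min δ (a / 2), lt_min h0 (by positivity), fun t ht => ?_⟩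
    rcases Finset.mem_insert.1 ht with rfl | ht
    · exact (min_le_right _ _).trans_lt (by linarith)
    · exact (min_le_left _ _).trans_lt (h1 t ht)

/-- [STP] -/
theorem thm_STP (hHOM : St_HOM) : St_STP := by
  classical
  intro U hU K hK q₀ hq₀ p hp E
  obtain ⟨-, -, H, -, -⟩ := hHOM
  obtain ⟨g₁, ho, h1⟩ := H U hU {q₀} (fun _ => p)
    (by
      intro x hx y hy hxy
      simp only [Finset.coe_singleton, mem_singleton_iff] at hx hy
      subst hx hy
      exact absurd hxy (lt_irrefl _))
    (by
      intro q hq hqU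
      rw [Finset.mem_singleton] at hq
      subst hq
      exact absurd (hK _ hq₀) hqU)
    (fun q _ _ => hp)
  have hg0 : g₁ q₀ = p := h1 q₀ (Finset.mem_singleton_self _)
  have hgU : ∀ q ∈ K, g₁ q ∈ U := by
    intro q hq
    by_contra hc
    have : g₁ q = q := g₁.injective (ho _ hc)
    rw [this] at hc
    exact hc (hK q hq)
  have hup : ∀ q : ℚ, ∃ d : ℚ, 0 < d ∧ (q ∈ K → g₁ q + d ∈ U) := by
    intro q
    by_cases hq : q ∈ K
    · obtain ⟨y, hy, hlt⟩ := hU.up _ (hgU q hq)
      exact ⟨y - g₁ q, by linarith, fun _ => by simpa using hy⟩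
    · exact ⟨1, one_pos, fun h => absurd h hq⟩
  choose d hd0 hd using hup
  let S : Finset ℚ := E ∪ K.image g₁
  let T : Finset ℚ := ((S ×ˢ S).image fun z => z.2 - z.1).filter (fun t => 0 < t) ∪ K.image d
  obtain ⟨δ, h0, hδ⟩ := STP_small T (by
    intro t ht
    rcases Finset.mem_union.1 ht with ht | ht
    · exact (Finset.mem_filter.1 ht).2
    · obtain ⟨q, -, rfl⟩ := Finset.mem_image.1 ht
      exact hd0 q)
  have hS : ∀ x ∈ S, ∀ y ∈ S, x < y → δ < y - x := by
    intro x hx y hy hxy
    refine hδ _ (Finset.mem_union_left _ (Finset.mem_filter.2 ⟨Finset.mem_image.2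
      ⟨(x, y), Finset.mem_product.2 ⟨hx, hy⟩, rfl⟩, by linarith⟩))
  have hKS : ∀ q ∈ K, g₁ q ∈ S := fun q hq =>
    Finset.mem_union_right _ (Finset.mem_image_of_mem _ hq)
  have hdU : ∀ q ∈ K, g₁ q + δ ∈ U := by
    intro q hq
    have : δ < d q := hδ _ (Finset.mem_union_right _ (Finset.mem_image_of_mem _ hq))
    exact hU.cv _ (hgU q hq) _ (hd q hq) _ (by linarith) (by linarith)
  obtain ⟨g, hg, hgf⟩ := H U hU K (fun q => if q = q₀ then p else g₁ q + δ)
    (by
      intro x hx y hy hxy
      have hx' : x ∈ K := hx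
      have hy' : y ∈ K := hy
      have hlt : g₁ x < g₁ y := g₁.strictMono hxy
      have hgap := hS _ (hKS x hx') _ (hKS y hy') hlt
      by_cases ex : x = q₀
      · have ey : y ≠ q₀ := fun h => by rw [ex, h] at hxy; exact lt_irrefl _ hxy
        simp only [ex, ey, if_true, if_false]
        rw [← hg0, ← ex]
        linarith
      · by_cases ey : y = q₀
        · simp only [ex, ey, if_true, if_false]
          rw [← hg0, ← ey]
          linarith
        · simp only [ex, ey, if_false]
          linarith)
    (fun q hq hqU => absurd (hK q hq) hqU)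
    (by
      intro q hq _
      by_cases e : q = q₀
      · simp only [e, if_true]
        exact hp
      · simp only [e, if_false]
        exact hdU q hq)
  refine ⟨g, hg, ?_, ?_⟩
  · rw [hgf q₀ hq₀]
    simp
  · intro q hq hne hE
    rw [hgf q hq] at hE
    simp only [hne, if_false] at hE
    have := hS (g₁ q) (hKS q hq) (g₁ q + δ) (Finset.mem_union_left _ hE) (by linarith)
    linarith

end EAU
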