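import Pool.Agent.EAU.StA

/-!
# EAU: the swap automorphism
-/

set_option autoImplicit false
set_option linter.unusedVariables false

namespace EAU

open Set FirstOrder.Language

theorem thm_SWP (hLSP : St_LSP) (hQEB : St_QEB) (hFRE : St_FRE) (hSET : St_SET)
    (hFLD : St_FLD) : St_SWP := by
  classical
  intro L N _ _ hS hSt U hU A h hh hA hd
  obtain ⟨-, -, -, -, hMU, -⟩ := hLSP L N hS
  obtain ⟨qrefl, qsymm, -, qre, -, -, -, qbase, tact⟩ := hQEB L N hS
  obtain ⟨-, smono, -, -, -, -, siff⟩ := hSET L N hS hSt U hU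
  obtain ⟨-, -, finv⟩ := hFLD L N hS hSt U hU
  have hFREU := hFRE L N hS hSt U hU
  set B : Set N := (fun x => h • x) '' A with hB
  have hBF : B ∈ Fre L (N := N) U := finv A hA h hh
  have hh' : Off U h⁻¹ := by
    intro q hq
    have h1 := hh q hq
    have h2 : h⁻¹ (h q) = q := by
      rw [← RelIso.mul_apply, inv_mul_cancel, RelIso.one_apply]
    rw [h1] at h2
    exact h2
  have hdj : ∀ x, x ∈ A → x ∉ B := fun x hx hx' => Set.disjoint_left.mp hd hx hx'
  have hAB : ∀ x, x ∈ A → h • x ∈ B := fun x hx => ⟨x, hx, rfl⟩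
  have hBA : ∀ x, x ∈ B → h⁻¹ • x ∈ A := by
    rintro _ ⟨a, ha, rfl⟩
    rwa [inv_smul_smul]
  have ind : ∀ (C : Set N), C ∈ Fre L (N := N) U → ∀ (α β : Type) [Finite α] [Finite β]
      (X : α → N) (Y : β → N), (∀ i, X i ∈ C) → (∀ i, Y i ∉ MU U ∧ Y i ∉ C) → Ind L U X Y := by
    intro C hC α β _ _ X Y hX hY
    refine (siff α β X Y).mpr (smono C _ _ _ hC.2 ?_ ?_)
    · rintro _ ⟨i, rfl⟩
      exact Or.inl (hX i)
    · rintro _ ⟨i, rfl⟩
      exact Or.inl (hY i)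
  let s : N → N := fun x => if x ∈ A then h • x else if x ∈ B then h⁻¹ • x else x
  have sA : ∀ x ∈ A, s x = h • x := fun x hx => if_pos hx
  have sB : ∀ x ∈ B, s x = h⁻¹ • x := fun x hx => by
    have : x ∉ A := fun hx' => hdj x hx' hx
    simp only [s, this, hx, if_false, if_true]
  have sC : ∀ x, x ∉ A → x ∉ B → s x = x := fun x h1 h2 => by
    simp only [s, h1, h2, if_false]
  have ss : ∀ x, s (s x) = x := by
    intro x
    by_cases h1 : x ∈ A
    · rw [sA x h1, sB _ (hAB x h1), inv_smul_smul]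
    · by_cases h2 : x ∈ B
      · rw [sB x h2, sA _ (hBA x h2), smul_inv_smul]
      · rw [sC x h1 h2, sC x h1 h2]
  refine ⟨⟨s, s, ss, ss⟩, ?_, sA, fun x hx => ?_, sC⟩
  swap
  · change s (h • x) = x
    rw [sB _ (hAB x hx), inv_smul_smul]
  intro n R t
  change Structure.RelMap R (fun k => s (t k)) ↔ Structure.RelMap R t
  -- the parts
  let IA := {k : Fin n // t k ∈ A}
  let IB := {k : Fin n // t k ∈ B}
  let IC := {k : Fin n // t k ∉ A ∧ t k ∉ B ∧ t k ∉ MU U}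
  let IM := {k : Fin n // t k ∈ MU U}
  let XA : IA → N := fun k => t k.1
  let XB : IB → N := fun k => t k.1
  let XC : IC → N := fun k => t k.1
  let XM : IM → N := fun k => t k.1
  have hAc : ∀ x ∈ A, x ∉ MU U := fun x hx => hA.1 hx
  have hBc : ∀ x ∈ B, x ∉ MU U := fun x hx => hBF.1 hx
  have t1 : TpM L U (Sum.elim (fun i => h⁻¹ • XB i) XC) (Sum.elim XB XC) := by
    refine hFREU IB IC _ _ _ _ (ind A hA _ _ _ _ (fun i => hBA _ i.2) (fun i => ⟨i.2.2.2, i.2.1⟩))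
      (ind B hBF _ _ _ _ (fun i => i.2) (fun i => ⟨i.2.2.2, i.2.2.1⟩)) (tact U IB XB h⁻¹ hh') ?_
    exact fun n m _ => qrefl _ _
  have t2 : TpM L U (Sum.elim (fun i => h • XA i) (Sum.elim (fun i => h⁻¹ • XB i) XC))
      (Sum.elim XA (Sum.elim XB XC)) := by
    refine hFREU IA (IB ⊕ IC) _ _ _ _ (ind B hBF _ _ _ _ (fun i => hAB _ i.2) ?_)
      (ind A hA _ _ _ _ (fun i => i.2) ?_) (tact U IA XA h hh) t1
    · rintro (i | i)
      · exact ⟨hAc _ (hBA _ i.2), hdj _ (hBA _ i.2)⟩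
      · exact ⟨i.2.2.2, i.2.2.1⟩
    · rintro (i | i)
      · exact ⟨hBc _ i.2, fun hx => hdj _ hx i.2⟩
      · exact ⟨i.2.2.2, i.2.1⟩
  have t3 := (qbase U _ IM _ _ XM (fun i => i.2) t2).1
  let f : Fin n → (IA ⊕ (IB ⊕ IC)) ⊕ IM := fun k =>
    if h1 : t k ∈ A then Sum.inl (Sum.inl ⟨k, h1⟩)
    else if h2 : t k ∈ B then Sum.inl (Sum.inr (Sum.inl ⟨k, h2⟩))
    else if h3 : t k ∈ MU U then Sum.inr ⟨k, h3⟩
    else Sum.inl (Sum.inr (Sum.inr ⟨k, h1, h2, h3⟩))
  have t4 := (qre _ (Fin n) f _ _ t3).2 n R id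
  have e1 : ∀ k, (Sum.elim (Sum.elim (fun i => h • XA i) (Sum.elim (fun i => h⁻¹ • XB i) XC)) XM ∘ f)
      (id k) = s (t k) := by
    intro k
    simp only [Function.comp_apply, id, f]
    by_cases h1 : t k ∈ A
    · rw [dif_pos h1, sA _ h1]; rfl
    · by_cases h2 : t k ∈ B
      · rw [dif_neg h1, dif_pos h2, sB _ h2]; rfl
      · by_cases h3 : t k ∈ MU U
        · rw [dif_neg h1, dif_neg h2, dif_pos h3, sC _ h1 h2]; rfl
        · rw [dif_neg h1, dif_neg h2, dif_neg h3, sC _ h1 h2]; rfl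
  have e2 : ∀ k, (Sum.elim (Sum.elim XA (Sum.elim XB XC)) XM ∘ f) (id k) = t k := by
    intro k
    simp only [Function.comp_apply, id, f]
    by_cases h1 : t k ∈ A
    · rw [dif_pos h1]; rfl
    · by_cases h2 : t k ∈ B
      · rw [dif_neg h1, dif_pos h2]; rfl
      · by_cases h3 : t k ∈ MU U
        · rw [dif_neg h1, dif_neg h2, dif_pos h3]; rfl
        · rw [dif_neg h1, dif_neg h2, dif_neg h3]; rfl
  rw [funext e1, funext e2] at t4
  exact t4

end EAU
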