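import Pool.Agent.EAU.StA

/-!
# EAU: transitivity of independence (module TRN)
-/

set_option autoImplicit false
set_option linter.unusedVariables false

namespace EAU

open Set FirstOrder.Language

private theorem TRN_off {U : Set ℚ} {g : AQ} (hg : Off U g) {q : ℚ} (h : g q ∈ U) : q ∈ U := by
  by_contra h'
  rw [hg q h'] at h
  exact h' h

private theorem TRN_fin {N : Type} [MulAction AQ N] {α : Type} [Finite α] (X : α → N) :
    (spt X).Finite :=
  Set.finite_iUnion fun i => (sp (X i)).finite_toSet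

private theorem TRN_elim {N : Type} [MulAction AQ N] {α β : Type} (X : α → N) (Y : β → N) :
    spt (Sum.elim X Y) = spt X ∪ spt Y := by
  ext q
  constructor
  · intro hq
    obtain ⟨i, hi⟩ := Set.mem_iUnion.1 hq
    rcases i with i | i
    · exact Or.inl (Set.mem_iUnion.2 ⟨i, hi⟩)
    · exact Or.inr (Set.mem_iUnion.2 ⟨i, hi⟩)
  · rintro (hq | hq)
    · obtain ⟨i, hi⟩ := Set.mem_iUnion.1 hq
      exact Set.mem_iUnion.2 ⟨Sum.inl i, hi⟩
    · obtain ⟨i, hi⟩ := Set.mem_iUnion.1 hq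
      exact Set.mem_iUnion.2 ⟨Sum.inr i, hi⟩

theorem thm_TRN (hHOM : St_HOM) (hLSP : St_LSP) (hQEB : St_QEB) (hPSH : St_PSH)
    (hIND : St_IND) : St_TRN := by
  intro L N _ _ hS hSt U hU α β γ _ _ _ X Y Z hXY hXYZ
  obtain ⟨-, -, l3, -, -, -⟩ := hLSP L N hS
  obtain ⟨-, q2, q3, q4, -, -, -, q8, -⟩ := hQEB L N hS
  obtain ⟨-, -, -, H4, -⟩ := hHOM
  obtain ⟨i1, i2, -, i4, -⟩ := hIND L N hS hSt U hU
  have hZXY : Ind L U Z (Sum.elim X Y) := i2 _ _ _ _ hXYZ
  have hZY : Ind L U Z Y := i4 γ (α ⊕ β) γ β Z (Sum.elim X Y) Z Y hZXY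
    (fun i => Or.inl ⟨i, rfl⟩) (fun i => Or.inl ⟨Sum.inr i, rfl⟩)
  -- the first move
  have hfin : (spt X ∪ spt Y ∪ spt Z).Finite :=
    ((TRN_fin X).union (TRN_fin Y)).union (TRN_fin Z)
  obtain ⟨S, hSe⟩ : ∃ S : Finset ℚ, (S : Set ℚ) = spt X ∪ spt Y ∪ spt Z :=
    ⟨hfin.toFinset, hfin.coe_toFinset⟩
  have hmem : ∀ q : ℚ, q ∈ spt X ∪ spt Y ∪ spt Z → q ∈ S := fun q hq => by
    rw [← hSe] at hq
    exact hq
  have sX : ∀ q ∈ spt X, q ∈ S := fun q hq => hmem q (Or.inl (Or.inl hq))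
  have sY : ∀ q ∈ spt Y, q ∈ S := fun q hq => hmem q (Or.inl (Or.inr hq))
  have sZ : ∀ q ∈ spt Z, q ∈ S := fun q hq => hmem q (Or.inr hq)
  obtain ⟨g, hg, hgS⟩ := H4 U hU S S
  -- the second move
  have hfin2 : (spt X ∪ spt Y ∪ spt Z ∪ spt (fun i => g • X i)).Finite :=
    hfin.union (TRN_fin _)
  obtain ⟨S2, hSe2⟩ : ∃ S2 : Finset ℚ,
      (S2 : Set ℚ) = spt X ∪ spt Y ∪ spt Z ∪ spt (fun i => g • X i) :=
    ⟨hfin2.toFinset, hfin2.coe_toFinset⟩
  have hmem2 : ∀ q : ℚ, q ∈ spt X ∪ spt Y ∪ spt Z ∪ spt (fun i => g • X i) → q ∈ S2 :=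
    fun q hq => by
      rw [← hSe2] at hq
      exact hq
  obtain ⟨h, hh, hhS⟩ := H4 U hU S2 S2
  -- supports of translates
  have hmv : ∀ {δ : Type} (k : AQ) (W : δ → N) (F : Finset ℚ), Off U k →
      (∀ q ∈ F, q ∈ U → k q ∉ F) → (∀ q ∈ spt W, q ∈ F) →
      ∀ q ∈ spt (fun i => k • W i), q ∈ U → q ∉ F := by
    intro δ k W F hk hkF hW q hq hqU
    obtain ⟨i, hi⟩ := Set.mem_iUnion.1 hq
    have e : k (k.symm q) = q := k.apply_symm_apply q
    have h1 : k.symm q ∈ sp (W i) := by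
      refine (l3 k (W i) (k.symm q)).1 ?_
      rw [e]
      exact hi
    have h2 : k.symm q ∈ U := TRN_off hk (by rw [e]; exact hqU)
    have h3 := hkF (k.symm q) (hW _ (Set.mem_iUnion.2 ⟨i, h1⟩)) h2
    rw [e] at h3
    exact h3
  have gX : ∀ q ∈ spt (fun i => g • X i), q ∈ U → q ∉ S := hmv g X S hg hgS sX
  have hZ2 : ∀ q ∈ spt (fun i => h • Z i), q ∈ U → q ∉ S2 :=
    hmv h Z S2 hh hhS (fun q hq => hmem2 q (Or.inl (Or.inr hq)))
  refine i1 α (β ⊕ γ) X (Sum.elim Y Z) g hg ?_ ?_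
  · intro q hq hqU hq'
    rw [TRN_elim] at hq'
    refine hgS q (sX q hq) hqU ?_
    rcases hq' with hq' | hq'
    · exact sY _ hq'
    · exact sZ _ hq'
  · intro n m hm
    have mU : ∀ q ∈ spt m, q ∉ U := by
      intro q hq
      obtain ⟨i, hi⟩ := Set.mem_iUnion.1 hq
      exact hm i q hi
    have conv : ∀ (ι : Type) (f : (α ⊕ (β ⊕ γ)) ⊕ Fin n → ι) (v w : ι → N)
        (v' w' : (α ⊕ (β ⊕ γ)) ⊕ Fin n → N), QE L v w →
        (∀ x, v (f x) = v' x) → (∀ x, w (f x) = w' x) → QE L v' w' := by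
      intro ι f v w v' w' hvw hv hw
      have h1 := q4 ι _ f v w hvw
      have e1 : v ∘ f = v' := funext hv
      have e2 : w ∘ f = w' := funext hw
      rw [e1, e2] at h1
      exact h1
    -- push `h Z` into the base
    have hfT : ((S2 : Set ℚ) ∪ spt m).Finite := S2.finite_toSet.union (TRN_fin m)
    obtain ⟨T, hTe⟩ : ∃ T : Finset ℚ, (T : Set ℚ) = (S2 : Set ℚ) ∪ spt m :=
      ⟨hfT.toFinset, hfT.coe_toFinset⟩
    obtain ⟨k, hZ', hZQ⟩ := hPSH L N hS hSt U hU γ (fun i => h • Z i) T (by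
      intro q hq hqU hqT
      have h1 : q ∈ (T : Set ℚ) := hqT
      rw [hTe] at h1
      rcases h1 with h1 | h1
      · exact hZ2 q hq hqU h1
      · exact mU q h1 hqU)
    -- push `g X` into the base
    have hfR : ((S : Set ℚ) ∪ spt (fun i => h • Z i) ∪ spt m).Finite :=
      (S.finite_toSet.union (TRN_fin _)).union (TRN_fin m)
    obtain ⟨R, hRe⟩ : ∃ R : Finset ℚ,
        (R : Set ℚ) = (S : Set ℚ) ∪ spt (fun i => h • Z i) ∪ spt m :=
      ⟨hfR.toFinset, hfR.coe_toFinset⟩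
    obtain ⟨l, hX', hXQ⟩ := hPSH L N hS hSt U hU α (fun i => g • X i) R (by
      intro q hq hqU hqR
      have h1 : q ∈ (R : Set ℚ) := hqR
      rw [hRe] at h1
      rcases h1 with (h1 | h1) | h1
      · exact gX q hq hqU h1
      · exact hZ2 q h1 hqU (hmem2 q (Or.inr hq))
      · exact mU q h1 hqU)
    have tT : ∀ (A : α → N), (∀ q ∈ spt A, q ∈ S2) →
        spt (Sum.elim (Sum.elim A Y) m) ⊆ (T : Set ℚ) := by
      intro A hA q hq
      rw [TRN_elim, TRN_elim] at hq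
      rw [hTe]
      rcases hq with (hq | hq) | hq
      · exact Or.inl (hA q hq)
      · exact Or.inl (hmem2 q (Or.inl (Or.inl (Or.inr hq))))
      · exact Or.inr hq
    have tR : ∀ (C : γ → N), (∀ q ∈ spt C, q ∈ (S : Set ℚ) ∪ spt (fun i => h • Z i)) →
        spt (Sum.elim (Sum.elim Y C) m) ⊆ (R : Set ℚ) := by
      intro C hC q hq
      rw [TRN_elim, TRN_elim] at hq
      rw [hRe]
      rcases hq with (hq | hq) | hq
      · exact Or.inl (Or.inl (sY q hq))
      · exact Or.inl (hC q hq)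
      · exact Or.inr hq
    -- the chain
    have c1 : QE L (Sum.elim (Sum.elim X (Sum.elim Y (fun i => h • Z i))) m)
        (Sum.elim (Sum.elim X (Sum.elim Y Z)) m) := by
      refine conv _ (Sum.elim (Sum.elim (fun a => Sum.inl (Sum.inr (Sum.inl a)))
        (Sum.elim (fun b => Sum.inl (Sum.inr (Sum.inr b))) (fun c => Sum.inl (Sum.inl c))))
        (fun d => Sum.inr d)) _ _ _ _
        (hZXY h hh (fun q hq hqU hq' => hhS q (hmem2 q (Or.inl (Or.inr hq))) hqU ?_) n m hm)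
        ?_ ?_
      · rw [TRN_elim] at hq'
        rcases hq' with hq' | hq'
        · exact hmem2 _ (Or.inl (Or.inl (Or.inl hq')))
        · exact hmem2 _ (Or.inl (Or.inl (Or.inr hq')))
      · rintro ((x | x | x) | x) <;> rfl
      · rintro ((x | x | x) | x) <;> rfl
    have c2 : ∀ (A : α → N), (∀ q ∈ spt A, q ∈ S2) →
        QE L (Sum.elim (Sum.elim A (Sum.elim Y (fun i => k • h • Z i))) m)
        (Sum.elim (Sum.elim A (Sum.elim Y (fun i => h • Z i))) m) := by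
      intro A hA
      refine conv _ (Sum.elim (Sum.elim (fun a => Sum.inr (Sum.inl (Sum.inl a)))
        (Sum.elim (fun b => Sum.inr (Sum.inl (Sum.inr b))) (fun c => Sum.inl c)))
        (fun d => Sum.inr (Sum.inr d))) _ _ _ _
        (hZQ ((α ⊕ β) ⊕ Fin n) (Sum.elim (Sum.elim A Y) m) (tT A hA)) ?_ ?_
      · rintro ((x | x | x) | x) <;> rfl
      · rintro ((x | x | x) | x) <;> rfl
    have c3 : QE L (Sum.elim (Sum.elim (fun i => g • X i) (Sum.elim Y (fun i => k • h • Z i))) m)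
        (Sum.elim (Sum.elim X (Sum.elim Y (fun i => k • h • Z i))) m) := by
      have hb : ∀ i, Sum.elim (fun i => k • h • Z i) m i ∈ MU U := by
        rintro (i | i)
        · exact hZ' i
        · exact hm i
      refine conv _ (Sum.elim (Sum.elim (fun a => Sum.inl (Sum.inl a))
        (Sum.elim (fun b => Sum.inl (Sum.inr b)) (fun c => Sum.inr (Sum.inl c))))
        (fun d => Sum.inr (Sum.inr d))) _ _ _ _
        (q8 U (α ⊕ β) (γ ⊕ Fin n) _ _ (Sum.elim (fun i => k • h • Z i) m) hb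
          (hXY g hg (fun q hq hqU hq' => hgS q (sX q hq) hqU (sY _ hq')))).1 ?_ ?_
      · rintro ((x | x | x) | x) <;> rfl
      · rintro ((x | x | x) | x) <;> rfl
    have c4 : ∀ (C : γ → N), (∀ q ∈ spt C, q ∈ (S : Set ℚ) ∪ spt (fun i => h • Z i)) →
        QE L (Sum.elim (Sum.elim (fun i => l • g • X i) (Sum.elim Y C)) m)
        (Sum.elim (Sum.elim (fun i => g • X i) (Sum.elim Y C)) m) := by
      intro C hC
      refine conv _ (Sum.elim (Sum.elim (fun a => Sum.inl a)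
        (Sum.elim (fun b => Sum.inr (Sum.inl (Sum.inl b)))
          (fun c => Sum.inr (Sum.inl (Sum.inr c)))))
        (fun d => Sum.inr (Sum.inr d))) _ _ _ _
        (hXQ ((β ⊕ γ) ⊕ Fin n) (Sum.elim (Sum.elim Y C) m) (tR C hC)) ?_ ?_
      · rintro ((x | x | x) | x) <;> rfl
      · rintro ((x | x | x) | x) <;> rfl
    have c5 : QE L (Sum.elim (Sum.elim (fun i => l • g • X i)
          (Sum.elim Y (fun i => h • Z i))) m)
        (Sum.elim (Sum.elim (fun i => l • g • X i) (Sum.elim Y Z)) m) := by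
      have hb : ∀ i, Sum.elim (fun i => l • g • X i) m i ∈ MU U := by
        rintro (i | i)
        · exact hX' i
        · exact hm i
      refine conv _ (Sum.elim (Sum.elim (fun a => Sum.inr (Sum.inl a))
        (Sum.elim (fun b => Sum.inl (Sum.inr b)) (fun c => Sum.inl (Sum.inl c))))
        (fun d => Sum.inr (Sum.inr d))) _ _ _ _
        (q8 U (γ ⊕ β) (α ⊕ Fin n) _ _ (Sum.elim (fun i => l • g • X i) m) hb
          (hZY h hh (fun q hq hqU hq' => hhS q (hmem2 q (Or.inl (Or.inr hq))) hqU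
            (hmem2 _ (Or.inl (Or.inl (Or.inr hq'))))))).1 ?_ ?_
      · rintro ((x | x | x) | x) <;> rfl
      · rintro ((x | x | x) | x) <;> rfl
    have c2X := c2 X (fun q hq => hmem2 q (Or.inl (Or.inl (Or.inl hq))))
    have c2g := c2 (fun i => g • X i) (fun q hq => hmem2 q (Or.inr hq))
    have c4h := c4 (fun i => h • Z i) (fun q hq => Or.inr hq)
    have c4Z := c4 Z (fun q hq => Or.inl (sZ q hq))
    -- `gX Y Z ∼ X' Y Z ∼ X' Y hZ ∼ gX Y hZ ∼ gX Y Z' ∼ X Y Z' ∼ X Y hZ ∼ X Y Z`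
    exact q3 _ _ _ _ (q2 _ _ _ c4Z) (q3 _ _ _ _ (q2 _ _ _ c5) (q3 _ _ _ _ c4h
      (q3 _ _ _ _ (q2 _ _ _ c2g) (q3 _ _ _ _ c3 (q3 _ _ _ _ c2X c1)))))

end EAU
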