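import Pool.Agent.EAU.StD

/-!
# EAU, part D: violations of independence are witnessed in a finite set of the base
-/

set_option autoImplicit false
set_option linter.unusedVariables false

noncomputable section

namespace EAU

open Set FirstOrder.Language
open scoped Classical

/-- collecting finitely many bounds and finite sets -/
private theorem VIO_agg {N α : Type} (B : Set N) (Q : α → Finset N → ℕ → Prop)
    (mono : ∀ a e e' K, e ⊆ e' → Q a e K → Q a e' K) (S : Set α) (hS : S.Finite) :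
    (∀ a ∈ S, ∃ K₀ : ℕ, ∀ K, K₀ ≤ K → ∃ e : Finset N, (e : Set N) ⊆ B ∧ Q a e K) →
      ∃ K₀ : ℕ, ∀ K, K₀ ≤ K → ∃ e : Finset N, (e : Set N) ⊆ B ∧ ∀ a ∈ S, Q a e K := by
  induction S, hS using Set.Finite.induction_on with
  | empty =>
    intro _
    exact ⟨0, fun K _ => ⟨∅, by simp, fun a ha => absurd ha (Set.notMem_empty a)⟩⟩
  | insert ha hs ih =>
    rename_i a S
    intro h
    obtain ⟨K₁, h₁⟩ := h a (Set.mem_insert a S)
    obtain ⟨K₂, h₂⟩ := ih fun b hb => h b (Set.mem_insert_of_mem a hb)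
    refine ⟨max K₁ K₂, fun K hK => ?_⟩
    obtain ⟨e₁, he₁, hq₁⟩ := h₁ K (le_trans (le_max_left _ _) hK)
    obtain ⟨e₂, he₂, hq₂⟩ := h₂ K (le_trans (le_max_right _ _) hK)
    refine ⟨e₁ ∪ e₂, ?_, fun b hb => ?_⟩
    · rw [Finset.coe_union]
      exact Set.union_subset he₁ he₂
    · rcases Set.mem_insert_iff.1 hb with hb | hb
      · rw [hb]
        exact mono a _ _ K Finset.subset_union_left hq₁
      · exact mono b _ _ K Finset.subset_union_right (hq₂ b hb)

section

variable (L : FirstOrder.Language.{0, 0}) {N : Type} [L.Structure N] [MulAction AQ N]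

/-- the conclusion of VIO for one pair of tuples -/
private def VIO_Q (U : Set ℚ) (e : Finset N) (K : ℕ) {t s : ℕ} (x : Fin t → N) (y : Fin s → N) :
    Prop :=
  ∃ (n c : ℕ) (R : L.Relations n) (p : Fin n → Fin t ⊕ Fin (s + c)) (m : Fin c → N)
    (z : Fin t → ℕ → N), (∀ i, m i ∈ e) ∧ (∀ i j, j < 2 * K + 1 → z i j ∈ e) ∧
    ¬ (val R p x (Fin.append y m) ↔
      K < {j : ℕ | j < 2 * K + 1 ∧ val R p (fun i => z i j) (Fin.append y m)}.ncard) ∧
    ∀ (x' : Fin t → N) (y' : Fin s → N), TpM L U x' x →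
      (∀ g : AQ, Off U g → (∀ q ∈ spt x', q ∈ U → g q ∉ spt y') →
        (val R p x' (Fin.append y' m) ↔ val R p (fun i => g • x' i) (Fin.append y' m))) →
      (val R p x' (Fin.append y' m) ↔
        K < {j : ℕ | j < 2 * K + 1 ∧ val R p (fun i => z i j) (Fin.append y' m)}.ncard)

variable {L}

private theorem VIO_mono (U : Set ℚ) (e e' : Finset N) (K : ℕ) {t s : ℕ} (x : Fin t → N)
    (y : Fin s → N) (h : e ⊆ e') (hq : VIO_Q L U e K x y) : VIO_Q L U e' K x y := by
  obtain ⟨n, c, R, p, m, z, h1, h2, h3, h4⟩ := hq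
  exact ⟨n, c, R, p, m, z, fun i => h (h1 i), fun i j hj => h (h2 i j hj), h3, h4⟩

private theorem VIO_NL {K K' n : ℕ} (R : L.Relations n) (D : Set (Fin n)) (h : NL L N K R D)
    (hK : K ≤ K') : NL L N K' R D := by
  intro a b hab
  refine h (fun k => a (Fin.castLE hK k)) (fun l => b (Fin.castLE hK l)) fun k l => ?_
  rw [hab (Fin.castLE hK k) (Fin.castLE hK l)]
  exact Iff.rfl

/-- places of the triple -/
private def VIO_cv (t s c : ℕ) : (Fin t ⊕ Fin s) ⊕ Fin c → Fin t ⊕ Fin (s + c)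
  | .inl (.inl i) => .inl i
  | .inl (.inr j) => .inr (Fin.castAdd c j)
  | .inr k => .inr (Fin.natAdd s k)

private theorem VIO_cv_eq {t s c : ℕ} (X : Fin t → N) (Y : Fin s → N) (m : Fin c → N)
    (a : (Fin t ⊕ Fin s) ⊕ Fin c) :
    Sum.elim X (Fin.append Y m) (VIO_cv t s c a) = Sum.elim (Sum.elim X Y) m a := by
  rcases a with (i | j) | k
  · rfl
  · exact Fin.append_left Y m j
  · exact Fin.append_right Y m k

end

/-- [VIO] -/
theorem thm_VIO (hLSP : St_LSP) (hQEB : St_QEB) (hINQ : St_INQ) (hIND : St_IND) (hMAJ : St_MAJ)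
    (hORB : St_ORB) : St_VIO := by
  intro L N _ _ hS hSt hLB U hU Z hZ l
  obtain ⟨hL1, hL2, hL3, hL4, hL5, hL6⟩ := hLSP L N hS
  obtain ⟨hQ1, hQ2, hQ3, hQ4, hQ5, hQ6, hQ7, hQ8, hQ9⟩ := hQEB L N hS
  obtain ⟨hI1, hI2, hI3, hI4, hI5⟩ := hIND L N hS hSt U hU
  have hsub : ∀ {α : Type} (X : α → N) (i : α), (sp (X i) : Set ℚ) ⊆ spt X := fun X i =>
    Set.subset_iUnion (fun i => (sp (X i) : Set ℚ)) i
  -- the local statement
  have loc : ∀ (t s : ℕ) (τ₁ : Fin t → N) (τ₂ : Fin s → N), (∀ i, τ₁ i ∉ MU U) →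
      (∀ i j, τ₁ i ≠ τ₂ j) → ¬ Ind L U τ₁ τ₂ →
      ∃ K₀ : ℕ, ∀ K, K₀ ≤ K → ∃ e : Finset N, (e : Set N) ⊆ MU U ∧
        ∀ h : AQ, Off U h → VIO_Q L U e K (fun i => h • τ₁ i) (fun i => h • τ₂ i) := by
    intro t s τ₁ τ₂ hb hne hni
    unfold Ind at hni
    push Not at hni
    obtain ⟨g₀, hg₀, hsep, hnt⟩ := hni
    unfold TpM at hnt
    push Not at hnt
    obtain ⟨c, m, hm, hnq⟩ := hnt
    -- equalities agree
    have heq : ∀ a b, Sum.elim (Sum.elim (fun i => g₀ • τ₁ i) τ₂) m a =
        Sum.elim (Sum.elim (fun i => g₀ • τ₁ i) τ₂) m b ↔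
        Sum.elim (Sum.elim τ₁ τ₂) m a = Sum.elim (Sum.elim τ₁ τ₂) m b := by
      have k1 : ∀ i j, g₀ • τ₁ i ≠ τ₂ j := by
        intro i j hij
        have h1 := hb i
        unfold MU at h1
        simp only [Set.mem_ofPred_eq] at h1
        push Not at h1
        obtain ⟨q, hq, hqU⟩ := h1
        have h2 : g₀ q ∈ sp (g₀ • τ₁ i) := (hL3 g₀ (τ₁ i) q).2 hq
        rw [hij] at h2
        exact hsep q (hsub τ₁ i hq) hqU (hsub τ₂ j h2)
      have k2 : ∀ i k, g₀ • τ₁ i ≠ m k := by
        intro i k hik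
        have h1 : g₀ • τ₁ i ∈ MU U := hik ▸ hm k
        exact hb i ((hL5 U g₀ (τ₁ i) hg₀).1 h1)
      have k3 : ∀ i k, τ₁ i ≠ m k := by
        intro i k hik
        exact hb i (hik ▸ hm k)
      rintro ((i | j) | k) ((i' | j') | k')
      · simp only [Sum.elim_inl]
        exact ⟨fun h => MulAction.injective g₀ h, fun h => by rw [h]⟩
      · simp only [Sum.elim_inl, Sum.elim_inr]
        exact ⟨fun h => absurd h (k1 i j'), fun h => absurd h (hne i j')⟩
      · simp only [Sum.elim_inl, Sum.elim_inr]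
        exact ⟨fun h => absurd h (k2 i k'), fun h => absurd h (k3 i k')⟩
      · simp only [Sum.elim_inl, Sum.elim_inr]
        exact ⟨fun h => absurd h.symm (k1 i' j), fun h => absurd h.symm (hne i' j)⟩
      · exact Iff.rfl
      · exact Iff.rfl
      · simp only [Sum.elim_inl, Sum.elim_inr]
        exact ⟨fun h => absurd h.symm (k2 i' k), fun h => absurd h.symm (k3 i' k)⟩
      · exact Iff.rfl
      · exact Iff.rfl
    have hrel : ∃ (n : ℕ) (R : L.Relations n) (w : Fin n → (Fin t ⊕ Fin s) ⊕ Fin c),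
        ¬ (Structure.RelMap R (fun k => Sum.elim (Sum.elim (fun i => g₀ • τ₁ i) τ₂) m (w k)) ↔
          Structure.RelMap R (fun k => Sum.elim (Sum.elim τ₁ τ₂) m (w k))) := by
      by_contra hcon
      push Not at hcon
      exact hnq ⟨heq, fun n R w => by simpa using hcon n R w⟩
    obtain ⟨n, R, w, hw⟩ := hrel
    obtain ⟨γ, hγ, hmaj⟩ := hMAJ L N hS hSt U hU t τ₁
    set p : Fin n → Fin t ⊕ Fin (s + c) := fun k => VIO_cv t s c (w k) with hp
    have hval : ∀ (X : Fin t → N) (Y : Fin s → N),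
        val R p X (Fin.append Y m) ↔
          Structure.RelMap R (fun k => Sum.elim (Sum.elim X Y) m (w k)) := by
      intro X Y
      unfold val
      have h1 : (fun k => Sum.elim X (Fin.append Y m) (p k)) =
          fun k => Sum.elim (Sum.elim X Y) m (w k) := funext fun k => VIO_cv_eq X Y m (w k)
      rw [h1]
    obtain ⟨K₀, hK₀⟩ := hLB n R {k | (p k).isLeft = true}
    refine ⟨K₀, fun K hK => ?_⟩
    have hNL : NL L N K R {k | (p k).isLeft = true} := VIO_NL R _ hK₀ hK
    refine ⟨Finset.univ.image m ∪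
      (Finset.univ ×ˢ Finset.range (2 * K + 1)).image (fun a : Fin t × ℕ => γ a.2 • τ₁ a.1),
      ?_, ?_⟩
    · intro a ha
      rw [Finset.coe_union, Finset.coe_image, Finset.coe_image] at ha
      rcases ha with ⟨k, _, rfl⟩ | ⟨k, _, rfl⟩
      · exact hm k
      · exact hγ _ _
    intro h hh
    have hTp : TpM L U (fun i => h • τ₁ i) τ₁ := hQ9 U (Fin t) τ₁ h hh
    -- translation of values by `h`
    have htr : ∀ (X : Fin t → N), val R p (fun i => h • X i) (Fin.append (fun i => h • τ₂ i) m) ↔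
        val R p X (Fin.append τ₂ m) := by
      intro X
      rw [hval, hval, ← hS.rel h n R (fun k => Sum.elim (Sum.elim X τ₂) m (w k))]
      have h1 : (fun k => Sum.elim (Sum.elim (fun i => h • X i) fun i => h • τ₂ i) m (w k)) =
          fun k => h • Sum.elim (Sum.elim X τ₂) m (w k) := by
        funext k
        rcases w k with (i | j) | k'
        · rfl
        · rfl
        · exact (hL6 U h (m k') hh (hm k')).symm
      rw [h1]
    refine ⟨n, c, R, p, m, fun i j => γ j • τ₁ i, ?_, ?_, ?_, ?_⟩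
    · intro i
      exact Finset.mem_union_left _ (Finset.mem_image_of_mem _ (Finset.mem_univ i))
    · intro i j hj
      refine Finset.mem_union_right _ (Finset.mem_image.2 ⟨(i, j), ?_, rfl⟩)
      exact Finset.mem_product.2 ⟨Finset.mem_univ i, Finset.mem_range.2 hj⟩
    · -- the violation
      have hX : TpM L U (fun i => h • (g₀ • τ₁ i)) τ₁ := by
        have h1 : TpM L U (fun i => h • (g₀ • τ₁ i)) (fun i => g₀ • τ₁ i) :=
          hQ9 U (Fin t) (fun i => g₀ • τ₁ i) h hh
        have h2 : TpM L U (fun i => g₀ • τ₁ i) τ₁ := hQ9 U (Fin t) τ₁ g₀ hg₀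
        intro k m' hm'
        exact hQ3 _ _ _ _ (h1 k m' hm') (h2 k m' hm')
      have h3 := hmaj K n (s + c) R p hNL (fun i => h • (g₀ • τ₁ i))
        (Fin.append (fun i => h • τ₂ i) m) hX (by
          intro g hg hgs
          have h4 : QE L (Sum.elim (fun i => g • (h • (g₀ • τ₁ i)))
              (Fin.append (fun i => h • τ₂ i) m))
              (Sum.elim (fun i => h • (g₀ • τ₁ i)) (Fin.append (fun i => h • τ₂ i) m)) := by
            have hno : ∀ q ∈ spt (fun i => h • (g₀ • τ₁ i)), q ∈ U →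
                q ∉ spt (Fin.append (fun i => h • τ₂ i) m) := by
              intro q hq hqU hq2
              obtain ⟨i, hi⟩ := Set.mem_iUnion.1 hq
              obtain ⟨q₁, rfl⟩ := h.surjective q
              obtain ⟨q₀, rfl⟩ := g₀.surjective q₁
              have h5 : q₀ ∈ sp (τ₁ i) := by
                have h6 : h (g₀ q₀) ∈ sp (h • (g₀ • τ₁ i)) := hi
                rw [hL3, hL3] at h6
                exact h6
              -- `q₀ ∈ U`
              have h7 : g₀ q₀ ∈ U := by
                by_contra h8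
                rw [hh _ h8] at hqU
                exact h8 hqU
              have h9 : q₀ ∈ U := by
                by_contra h8
                rw [hg₀ _ h8] at h7
                exact h8 h7
              obtain ⟨j, hj⟩ := Set.mem_iUnion.1 hq2
              revert hj
              refine Fin.addCases (fun j' => ?_) (fun k' => ?_) j
              · rw [Fin.append_left]
                intro hj
                have h10 : g₀ q₀ ∈ sp (τ₂ j') := (hL3 h (τ₂ j') (g₀ q₀)).1 hj
                exact hsep q₀ (hsub τ₁ i h5) h9 (hsub τ₂ j' h10)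
              · rw [Fin.append_right]
                intro hj
                exact hm k' _ hj hqU
            refine hINQ L N hS hSt (Fin t) (Fin (s + c)) _ _ g ?_ ?_
            · intro q hq hq2
              by_cases hqU : q ∈ U
              · exact absurd hq2 (hno q hq hqU)
              · exact hg q hqU
            · intro q hq hq2
              by_cases hqU : q ∈ U
              · exact absurd hq2 (hgs q hq hqU)
              · rw [hg q hqU] at hq2
                exact hq2
          exact (h4.2 n R p).symm)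
      intro h4
      have h5 : val R p (fun i => h • τ₁ i) (Fin.append (fun i => h • τ₂ i) m) ↔
          val R p (fun i => h • (g₀ • τ₁ i)) (Fin.append (fun i => h • τ₂ i) m) := h4.trans h3.symm
      rw [htr, htr, hval, hval] at h5
      exact hw h5.symm
    · intro x' y' hx' hgy
      refine hmaj K n (s + c) R p hNL x' (Fin.append y' m) ?_ ?_
      · intro k m' hm'
        exact hQ3 _ _ _ _ (hx' k m' hm') (hTp k m' hm')
      · intro g hg hgs
        refine hgy g hg fun q hq hqU hq2 => hgs q hq hqU ?_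
        obtain ⟨j, hj⟩ := Set.mem_iUnion.1 hq2
        refine Set.mem_iUnion.2 ⟨Fin.castAdd c j, ?_⟩
        rw [Fin.append_left]
        exact hj
  -- for one pair of lengths
  have fix : ∀ t s : ℕ, ∃ K₀ : ℕ, ∀ K, K₀ ≤ K → ∃ e : Finset N, (e : Set N) ⊆ MU U ∧
      ∀ (x : Fin t → N) (y : Fin s → N), (∀ i, x i ∈ Wd U Z) → (∀ i, y i ∈ Wd U Z) →
        (∀ i j, x i ≠ y j) → ¬ Ind L U x y → VIO_Q L U e K x y := by
    intro t s
    obtain ⟨T, hT, hTx⟩ := hORB L N hS U hU Z (t + s)
    obtain ⟨K₀, hK₀⟩ := VIO_agg (MU U)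
      (fun (τ : Fin (t + s) → N) (e : Finset N) (K : ℕ) => (∀ k, τ k ∈ Wd U Z) →
        (∀ i j, τ (Fin.castAdd s i) ≠ τ (Fin.natAdd t j)) →
        ¬ Ind L U (fun i => τ (Fin.castAdd s i)) (fun j => τ (Fin.natAdd t j)) →
        ∀ h : AQ, Off U h → VIO_Q L U e K (fun i => h • τ (Fin.castAdd s i))
          (fun j => h • τ (Fin.natAdd t j)))
      (fun τ e e' K he hq h1 h2 h3 h hh => VIO_mono U e e' K _ _ he (hq h1 h2 h3 h hh)) T hT
      (by
        intro τ hτ
        by_cases hc : (∀ k, τ k ∈ Wd U Z) ∧ (∀ i j, τ (Fin.castAdd s i) ≠ τ (Fin.natAdd t j)) ∧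
          ¬ Ind L U (fun i => τ (Fin.castAdd s i)) (fun j => τ (Fin.natAdd t j))
        · obtain ⟨hc1, hc2, hc3⟩ := hc
          obtain ⟨K₀, hK₀⟩ := loc t s (fun i => τ (Fin.castAdd s i)) (fun j => τ (Fin.natAdd t j))
            (by
              intro i hi
              obtain ⟨h', hh', z, hz, hzx⟩ := hc1 (Fin.castAdd s i)
              have h1 : h' • z ∈ MU U := hzx ▸ hi
              exact hZ z hz ((hL5 U h' z hh').1 h1)) hc2 hc3
          refine ⟨K₀, fun K hK => ?_⟩
          obtain ⟨e, he, hq⟩ := hK₀ K hK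
          exact ⟨e, he, fun _ _ _ h hh => hq h hh⟩
        · refine ⟨0, fun K _ => ⟨∅, by simp, fun h1 h2 h3 => absurd ⟨h1, h2, h3⟩ hc⟩⟩)
    refine ⟨K₀, fun K hK => ?_⟩
    obtain ⟨e, he, hq⟩ := hK₀ K hK
    refine ⟨e, he, fun x y hx hy hxy hni => ?_⟩
    obtain ⟨τ, hτ, hτW, h, hh, hxτ⟩ := hTx (Fin.append x y) (by
      intro k
      refine Fin.addCases (fun i => ?_) (fun j => ?_) k
      · rw [Fin.append_left]
        exact hx i
      · rw [Fin.append_right]
        exact hy j)
    have h1 : x = fun i => h • τ (Fin.castAdd s i) := by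
      funext i
      rw [← hxτ, Fin.append_left]
    have h2 : y = fun j => h • τ (Fin.natAdd t j) := by
      funext j
      rw [← hxτ, Fin.append_right]
    rw [h1, h2]
    refine hq τ hτ hτW ?_ ?_ h hh
    · intro i j hij
      refine hxy i j ?_
      rw [h1, h2]
      exact congrArg (fun a => h • a) hij
    · intro hind
      refine hni ?_
      rw [h1, h2]
      exact hI5 (Fin t) (Fin s) _ _ h hh hind
  obtain ⟨K₀, hK₀⟩ := VIO_agg (MU U)
    (fun (a : ℕ × ℕ) (e : Finset N) (K : ℕ) =>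
      ∀ (x : Fin a.1 → N) (y : Fin a.2 → N), (∀ i, x i ∈ Wd U Z) → (∀ i, y i ∈ Wd U Z) →
        (∀ i j, x i ≠ y j) → ¬ Ind L U x y → VIO_Q L U e K x y)
    (fun a e e' K he hq x y h1 h2 h3 h4 => VIO_mono U e e' K x y he (hq x y h1 h2 h3 h4))
    (Set.Iic l ×ˢ Set.Iic (l + 1)) ((Set.finite_Iic l).prod (Set.finite_Iic (l + 1)))
    (fun a _ => fix a.1 a.2)
  obtain ⟨e, he, hq⟩ := hK₀ K₀ le_rfl
  refine ⟨e, K₀, he, fun t s ht hs x y hx hy hxy hni => ?_⟩
  exact hq (t, s) ⟨ht, hs⟩ x y hx hy hxy hni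

end EAU
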