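import Pool.Agent.EAU.HOM
import Pool.Agent.EAU.CUT
import Pool.Agent.EAU.INS
import Pool.Agent.EAU.LSP
import Pool.Agent.EAU.QEB
import Pool.Agent.EAU.INQ
import Pool.Agent.EAU.PSH
import Pool.Agent.EAU.IND
import Pool.Agent.EAU.TRN
import Pool.Agent.EAU.FRE
import Pool.Agent.EAU.SET
import Pool.Agent.EAU.FLD
import Pool.Agent.EAU.SWP
import Pool.Agent.EAU.LNK
import Pool.Agent.EAU.BLK
import Pool.Agent.EAU.MAJ
import Pool.Agent.EAU.ORB
import Pool.Agent.EAU.VIO
import Pool.Agent.EAU.SEP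
import Pool.Agent.EAU.FIE
import Pool.Agent.EAU.STP
import Pool.Agent.EAU.EMB
import Pool.Agent.EAU.CTT
import Pool.Agent.EAU.CHN
import Pool.Agent.EAU.LOC
import Pool.Agent.EAU.GRO
import Pool.Agent.EAU.BAL
import Pool.Agent.EAU.CNT
import Pool.Agent.EAU.RIN
import Pool.Agent.EAU.DCD

/-!
# EAU: parts A and D assembled (helper22)

`all_X : St_X` without hypotheses, for all statements of `StA.lean` and `StD.lean`; and `linkOut`: the
output from the hypotheses of the link (`St_LNK`) and the lower bounds `LB`.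
-/

set_option autoImplicit false
set_option linter.unusedVariables false

namespace EAU

open Set FirstOrder.Language

theorem all_HOM : St_HOM := thm_HOM
theorem all_CUT : St_CUT := thm_CUT
theorem all_INS : St_INS := thm_INS all_HOM
theorem all_LSP : St_LSP := thm_LSP all_HOM all_INS
theorem all_QEB : St_QEB := thm_QEB all_LSP
theorem all_INQ : St_INQ := thm_INQ all_INS all_LSP
theorem all_PSH : St_PSH := thm_PSH all_HOM all_LSP all_INQ
theorem all_IND : St_IND := thm_IND all_HOM all_LSP all_QEB all_INQ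
theorem all_TRN : St_TRN := thm_TRN all_HOM all_LSP all_QEB all_PSH all_IND
theorem all_FRE : St_FRE := thm_FRE all_HOM all_LSP all_QEB all_PSH all_IND
theorem all_SET : St_SET := thm_SET all_IND all_TRN
theorem all_FLD : St_FLD := thm_FLD all_LSP all_SET
theorem all_SWP : St_SWP := thm_SWP all_LSP all_QEB all_FRE all_SET all_FLD
theorem all_LNK : St_LNK := thm_LNK all_HOM all_LSP all_SET all_FLD all_SWP

theorem all_BLK : St_BLK := thm_BLK all_HOM
theorem all_MAJ : St_MAJ := thm_MAJ all_HOM all_LSP all_INQ all_BLK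
theorem all_ORB : St_ORB := thm_ORB all_HOM all_LSP
theorem all_VIO : St_VIO := thm_VIO all_LSP all_QEB all_INQ all_IND all_MAJ all_ORB
theorem all_SEP : St_SEP := thm_SEP all_QEB all_ORB
theorem all_FIE : St_FIE := thm_FIE all_HOM all_LSP all_SET all_SEP all_VIO
theorem all_STP : St_STP := thm_STP all_HOM
theorem all_EMB : St_EMB := thm_EMB all_STP
theorem all_CTT : St_CTT := thm_CTT all_LSP all_SET all_EMB
theorem all_CHN : St_CHN := thm_CHN
theorem all_LOC : St_LOC := thm_LOC all_CHN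
theorem all_GRO : St_GRO := thm_GRO
theorem all_BAL : St_BAL := thm_BAL
theorem all_CNT : St_CNT := thm_CNT all_LOC all_GRO all_BAL
theorem all_RIN : St_RIN := thm_RIN all_LOC
theorem all_DCD : St_DCD := thm_DCD all_SET all_CNT all_RIN all_FIE all_CTT all_LOC

/-- The output from an invariant ladder (`St_LNK`) and the lower bounds: no module hypotheses. -/
theorem linkOut (L : FirstOrder.Language.{0, 0}) (N : Type) [L.Structure N] [MulAction AQ N]
    (hS : Sys L N) (hT : Stab L N) (hB : LB L N) (P : Set N) (hP : ∀ (g : AQ) x, g • x ∈ P ↔ x ∈ P)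
    (k : ℕ) (ψ : (Fin k → N) → (Fin k → N) → Prop)
    (hψ : ∀ σ : N ≃ N, Aut L σ → (∀ x, σ x ∈ P ↔ x ∈ P) →
      ∀ c d, ψ (fun i => σ (c i)) (fun i => σ (d i)) ↔ ψ c d)
    (c : ℚ → Fin k → N) (hc : ∀ (g : AQ) q i, g • c q i = c (g q) i)
    (hl : ∀ p q, p ≠ q → (ψ (c p) (c q) ↔ p < q)) (U : Set ℚ) (hU : Cut U) :
    Out L N (MU U) := by
  obtain ⟨i, hi⟩ := hU.ne
  obtain ⟨j, hj, hij⟩ := hU.up i hi
  obtain ⟨Z, u, v, hZ, hu, hv, hsu, hsv, hcon⟩ :=
    all_LNK L N hS hT P hP k ψ hψ c hc hl U hU i hi j hj hij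
  exact all_DCD L N hS hT hB U Z i j u v ⟨hU, hZ, hi, hj, hij, hu, hv, hsu, hsv, hcon⟩

end EAU
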