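import Pool.Agent.EAU.ALL

/-!
# EAU: the theorem for analytic classes

The parts of the proof of `EAU.St_ECT` in which the class is Borel, for analytic classes.
-/

set_option autoImplicit false
set_option linter.unusedVariables false
set_option linter.unusedSectionVars false

section

namespace Pool.Agent.Helper6.Str

open Set Pool.Agent.Helper5.DU

variable {L : FirstOrder.Language.{0, 0}}

theorem exists_cantor_of_reals_ana {X Y J : Type*} [t : TopologicalSpace X]
    [MeasurableSpace X] [BorelSpace X] [TopologicalSpace Y] [T2Space Y]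
    [SecondCountableTopology Y] [MeasurableSpace Y] [OpensMeasurableSpace Y] [Countable J]
    {Z : J → X → Y} (hZ : ∀ j, Measurable (Z j)) {B : Set X}
    (hB : MeasureTheory.AnalyticSet B) (E : X → X → Prop)
    (hE : ∀ j : J, ∀ x ∈ B, ∀ y ∈ B, E x y → ∃ k', Z j x = Z k' y)
    (h : ¬ (⋃ j, Z j '' B).Countable) :
    ∃ g : (ℕ → Bool) → X, Continuous g ∧ (∀ x, g x ∈ B) ∧
      ∀ x y, x ≠ y → ¬ E (g x) (g y) := by
  rw [MeasureTheory.AnalyticSet] at hB
  rcases hB with hB | ⟨f, hf, hfB⟩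
  · exact absurd (by simp [hB]) h
  · have hm : ∀ x, f x ∈ B := fun x => hfB ▸ mem_range_self x
    obtain ⟨j, g, hg, -, hgE⟩ := exists_cantor_of_reals (X := ℕ → ℕ) (Z := fun j x => Z j (f x))
      (fun j => (hZ j).comp hf.measurable) (B := fun _ => univ) (fun _ => MeasurableSet.univ)
      (fun x y => E (f x) (f y)) (fun j k x _ y _ hxy => hE j _ (hm x) _ (hm y) hxy) (by
        intro hc
        refine h (hc.mono ?_)
        refine iUnion_mono fun j => ?_
        rintro _ ⟨b, hb, rfl⟩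
        rw [← hfB] at hb
        obtain ⟨x, rfl⟩ := hb
        exact ⟨x, mem_univ _, rfl⟩)
    exact ⟨fun x => f (g x), hf.comp hg, fun x => hm _, hgE⟩

theorem perfK_of_reals_ana [∀ n, IsEmpty (L.Functions n)] [∀ n, Countable (L.Relations n)]
    {K : Set (L.Structure ℕ)} {J : Type*} [Countable J]
    (hK : MeasureTheory.AnalyticSet {c : Code L | toStr c ∈ K})
    {Y : Type*} [TopologicalSpace Y] [T2Space Y] [SecondCountableTopology Y] [MeasurableSpace Y]
    [OpensMeasurableSpace Y] {Z : J → Code L → Y} (hZ : ∀ j, Measurable (Z j))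
    (hinv : ∀ j : J, ∀ c, toStr c ∈ K → ∀ d, toStr d ∈ K → Iso (toStr c) (toStr d) →
      ∃ k', Z j c = Z k' d)
    (hunc : ¬ (⋃ j, Z j '' {c : Code L | toStr c ∈ K}).Countable) : PerfK K := by
  obtain ⟨g, hg, hgB, hgE⟩ := exists_cantor_of_reals_ana hZ hK
    (fun c d => Iso (toStr c) (toStr d)) hinv hunc
  refine ⟨fun x => toStr (g x), fun x => hgB x, fun x y hxy => ?_, fun n R a => ?_⟩
  · by_contra hne
    exact hgE x y hne hxy
  · exact (isClopen_relMap R a).preimage hg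

end Pool.Agent.Helper6.Str

end

section

namespace Pool.Agent.Helper5.DU

open Set Pool.Agent.Helper6.Str

variable {L : FirstOrder.Language.{0, 0}} {M N P : Type}
variable [∀ n, IsEmpty (L.Functions n)] [∀ n, Countable (L.Relations n)]

/-- Countably many invariant Borel properties take countably many values. -/
theorem ctbl_of_props_ana {K : Set (L.Structure ℕ)} (hK : MeasureTheory.AnalyticSet {c : Code L | toStr c ∈ K})
    (hP : ¬ PerfK K) {n : ℕ} {ι : Type} [Countable ι]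
    (A : ι → L.Structure ℕ → (Fin n → ℕ) → Prop)
    (hA : ∀ k v, MeasurableSet {c : Code L | A k (toStr c) v})
    (hinv : ∀ k (S S' : L.Structure ℕ) (e : ℕ ≃ ℕ) (v : Fin n → ℕ), RelIso S S' e → A k S v →
      A k S' (e ∘ v)) :
    ∃ ρ : ℕ → L.Structure ℕ × (Fin n → ℕ), ∀ S ∈ K, ∀ v, ∃ m, (ρ m).1 ∈ K ∧ ∀ k,
      (A k S v ↔ A k (ρ m).1 (ρ m).2) := by
  classical
  let z : L.Structure ℕ → (Fin n → ℕ) → ι → Bool := fun S v k => decide (A k S v)
  have hzmeas : ∀ v, Measurable fun c : Code L => z (toStr c) v := by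
    intro v
    rw [measurable_pi_iff]
    intro k
    refine measurable_to_bool ?_
    have : (fun c : Code L => z (toStr c) v k) ⁻¹' {true} = {c : Code L | A k (toStr c) v} := by
      ext c
      simp only [z, mem_preimage, mem_singleton_iff, decide_eq_true_eq, mem_ofPred_eq]
    rw [this]
    exact hA k v
  have hc : {y : ι → Bool | ∃ S ∈ K, ∃ v, z S v = y}.Countable := by
    by_contra hcon
    apply hP
    refine perfK_of_reals_ana (J := Fin n → ℕ) hK (Z := fun v c => z (toStr c) v) hzmeas ?_ ?_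
    · rintro v c _ d _ ⟨e, he⟩
      refine ⟨e ∘ v, ?_⟩
      funext k
      rw [Bool.eq_iff_iff]
      simp only [z, decide_eq_true_eq]
      constructor
      · exact hinv k _ _ e v he
      · intro h
        have := hinv k _ _ e.symm _ he.symm h
        have h2 : e.symm ∘ (e ∘ v) = v := by ext i; simp
        rwa [h2] at this
    · intro hcc
      apply hcon
      refine hcc.mono ?_
      rintro y ⟨S, hS, v, rfl⟩
      rw [mem_iUnion]
      refine ⟨v, ofStr S, ?_, ?_⟩
      · show toStr (ofStr S) ∈ K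
        rwa [toStr_ofStr]
      · show z (toStr (ofStr S)) v = _
        rw [toStr_ofStr]
  rcases K.eq_empty_or_nonempty with rfl | ⟨S₁, hS₁⟩
  · exact ⟨fun _ => (toStr fun _ => false, fun _ => 0), fun S hS => absurd hS (notMem_empty S)⟩
  · obtain ⟨f, hf⟩ := hc.exists_eq_range ⟨_, S₁, hS₁, fun _ => 0, rfl⟩
    have h1 : ∀ m, ∃ S : L.Structure ℕ, ∃ v, S ∈ K ∧ z S v = f m := by
      intro m
      have : f m ∈ {y : ι → Bool | ∃ S ∈ K, ∃ v, z S v = y} := by
        rw [hf]; exact mem_range_self m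
      obtain ⟨S, hS, v, h⟩ := this
      exact ⟨S, v, hS, h⟩
    choose S v hSK hSv using h1
    refine ⟨fun m => (S m, v m), fun S' hS' v' => ?_⟩
    have : z S' v' ∈ {y : ι → Bool | ∃ S ∈ K, ∃ v, z S v = y} := ⟨S', hS', v', rfl⟩
    rw [hf] at this
    obtain ⟨m, hm⟩ := this
    refine ⟨m, hSK m, fun k => ?_⟩
    have h3 : z S' v' = z (S m) (v m) := by rw [hSv, hm]
    have h4 := congrFun h3 k
    simp only [z, decide_eq_decide] at h4
    exact h4

end Pool.Agent.Helper5.DU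

end

section

namespace Pool.Agent.Helper79.VC

open Set Pool.Agent.Helper5.DU Pool.Agent.Helper6.Str

variable {L : FirstOrder.Language.{0, 0}} [∀ n, IsEmpty (L.Functions n)]
  [∀ n, Countable (L.Relations n)]

theorem scat_of_not_perf_ana {K : Set (L.Structure ℕ)}
    (hK : MeasureTheory.AnalyticSet {c : Code L | toStr c ∈ K}) (hP : ¬ PerfK K) : Scat K := by
  intro γ hγ
  induction γ using WellFoundedLT.induction with
  | _ γ ih =>
    intro n
    have hch : ∀ β, ∃ ρ : ℕ → L.Structure ℕ × (Fin (n + 1) → ℕ), β < γ → ∀ S ∈ K,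
        ∀ v : Fin (n + 1) → ℕ, ∃ m, (ρ m).1 ∈ K ∧ BFR S (ρ m).1 univ univ β (pr v (ρ m).2) := by
      intro β
      by_cases hβ : β < γ
      · obtain ⟨ρ, hρ⟩ := ih β hβ (hβ.trans hγ) (n + 1)
        exact ⟨ρ, fun _ => hρ⟩
      · exact ⟨fun _ => (toStr fun _ => false, fun _ => 0), fun h => absurd h hβ⟩
    choose ρ hρ using hch
    obtain ⟨e, he⟩ : ∃ e : ℕ → Ordinal.{0}, ∀ β < γ, ∃ k, e k = β := by
      rcases (Iio γ).eq_empty_or_nonempty with h0 | h0
      · exact ⟨fun _ => 0, fun β hβ => absurd (mem_Iio.mpr hβ) (by rw [h0]; exact notMem_empty β)⟩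
      · obtain ⟨e, he⟩ := (countable_Iio hγ).exists_eq_range h0
        refine ⟨e, fun β hβ => ?_⟩
        have : β ∈ range e := he ▸ mem_Iio.mpr hβ
        exact this
    have hctF : Countable ((k : ℕ) × (L.Relations k × (Fin k → Fin n))) := inferInstance
    obtain ⟨σ, hσ⟩ := ctbl_of_props_ana hK hP (n := n)
      (ι := ((Fin n × Fin n) ⊕ ((k : ℕ) × (L.Relations k × (Fin k → Fin n)))) ⊕ (ℕ × ℕ))
      (fun k S v => match k with
        | .inl (.inl p) => v p.1 = v p.2
        | .inl (.inr q) => S.RelMap q.2.1 (fun i => v (q.2.2 i))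
        | .inr p => e p.1 < γ ∧ ∃ a, BFR S (ρ (e p.1) p.2).1 univ univ (e p.1)
            (pr (Fin.snoc v a : Fin (n + 1) → ℕ) (ρ (e p.1) p.2).2))
      (by
        rintro ((p | q) | p) v
        · exact MeasurableSet.const _
        · exact measurableSet_relMap _ _
        · show MeasurableSet {c : Code L | e p.1 < γ ∧ ∃ a, BFR (toStr c) (ρ (e p.1) p.2).1 univ
              univ (e p.1) (pr (Fin.snoc v a : Fin (n + 1) → ℕ) (ρ (e p.1) p.2).2)}
          by_cases h : e p.1 < γ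
          · have : {c : Code L | e p.1 < γ ∧ ∃ a, BFR (toStr c) (ρ (e p.1) p.2).1 univ
                univ (e p.1) (pr (Fin.snoc v a : Fin (n + 1) → ℕ) (ρ (e p.1) p.2).2)} =
                ⋃ a, {c : Code L | BFR (toStr c) (ρ (e p.1) p.2).1 univ
                univ (e p.1) (pr (Fin.snoc v a : Fin (n + 1) → ℕ) (ρ (e p.1) p.2).2)} := by
              ext c; simp only [h, true_and, mem_ofPred_eq, mem_iUnion]
            rw [this]
            exact MeasurableSet.iUnion fun a => measurableSet_BFR _ (h.trans hγ) _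
          · simp only [h, false_and]
            exact MeasurableSet.const _)
      (by
        rintro ((p | q) | p) S S' f v hf h
        · exact congrArg f h
        · exact (hf _ q.2.1 _).mp h
        · obtain ⟨h0, a, ha⟩ := h
          refine ⟨h0, f a, ?_⟩
          have := BFR_iso hf ha
          have h2 : f ∘ (Fin.snoc v a : Fin (n + 1) → ℕ) = Fin.snoc (f ∘ v) (f a) := by
            funext i
            refine Fin.lastCases ?_ (fun i => ?_) i
            · simp
            · simp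
          rwa [h2] at this)
    refine ⟨σ, fun S hS v => ?_⟩
    obtain ⟨m, hmK, hm⟩ := hσ S hS v
    refine ⟨m, hmK, ?_⟩
    rw [BFR.def]
    refine ⟨⟨?_, fun k R u hu => ?_⟩, fun β hβ => ⟨fun a _ => ?_, fun b _ => ?_⟩⟩
    · rintro _ ⟨i, rfl⟩ _ ⟨j, rfl⟩
      exact hm (.inl (.inl (i, j)))
    · choose w hw using hu
      have h1 := hm (.inl (.inr ⟨k, (R, w)⟩))
      simp only at h1
      have e1 : (fun i => (u i).1) = fun i => v (w i) := by
        funext i; rw [← hw i]
      have e2 : (fun i => (u i).2) = fun i => (σ m).2 (w i) := by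
        funext i; rw [← hw i]
      rw [e1, e2]
      exact h1
    · obtain ⟨l, rfl⟩ := he β hβ
      obtain ⟨k, hkK, hk⟩ := hρ (e l) hβ S hS (Fin.snoc v a)
      obtain ⟨-, b, hb⟩ := (hm (.inr (l, k))).mp ⟨hβ, a, hk⟩
      refine ⟨b, mem_univ _, ?_⟩
      rw [← range_snoc]
      refine BFR.trans hk (hb.symm (q := pr (ρ (e l) k).2 (Fin.snoc (σ m).2 b)) ?_) ?_
      · rintro _ ⟨i, rfl⟩
        exact ⟨i, rfl⟩
      · rintro _ ⟨i, rfl⟩
        exact ⟨_, ⟨i, rfl⟩, ⟨i, rfl⟩⟩
    · obtain ⟨l, rfl⟩ := he β hβ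
      obtain ⟨k, hkK, hk⟩ := hρ (e l) hβ (σ m).1 hmK (Fin.snoc (σ m).2 b)
      obtain ⟨-, a, ha⟩ := (hm (.inr (l, k))).mpr ⟨hβ, b, hk⟩
      refine ⟨a, mem_univ _, ?_⟩
      rw [← range_snoc]
      refine BFR.trans ha (hk.symm (q := pr (ρ (e l) k).2 (Fin.snoc (σ m).2 b)) ?_) ?_
      · rintro _ ⟨i, rfl⟩
        exact ⟨i, rfl⟩
      · rintro _ ⟨i, rfl⟩
        exact ⟨_, ⟨i, rfl⟩, ⟨i, rfl⟩⟩

end Pool.Agent.Helper79.VC

end

section

namespace EAU

open Set FirstOrder.Language
open scoped FirstOrder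
open Pool.Agent.Helper6.Str (PerfK CtblK Iso RelIso Code toStr ofStr measurableSet_relMap
  countable_relations)
open Pool.Agent.WOM (tp Mon IsEl IsoM Fam ThS Small SatF)
open Pool.Agent.MST (Stb MSt CM At NTr mul App Tau Cx UN FM emb_real comp_elim)

/-- `St_TYK` for analytic classes -/
def St_TYKa : Prop :=
  ∀ (L : FirstOrder.Language.{0, 0}) [∀ n, IsEmpty (L.Functions n)] [∀ n, Countable (L.Relations n)]
    (K : Set (L.Structure ℕ)), MeasureTheory.AnalyticSet {c : Code L | toStr c ∈ K} → ¬ PerfK K → ∀ n : ℕ,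
    ∃ σ : ℕ → L.Structure ℕ × (Fin n → ℕ), ∀ S ∈ K, ∀ v : Fin n → ℕ,
      ∃ m, (σ m).1 ∈ K ∧ @tp L ℕ S n v = @tp L ℕ (σ m).1 n (σ m).2

/-- `St_SMK` for analytic classes -/
def St_SMKa : Prop :=
  ∀ (L : FirstOrder.Language.{0, 0}) [∀ n, IsEmpty (L.Functions n)] [∀ n, Countable (L.Relations n)]
    (K : Set (L.Structure ℕ)), MeasureTheory.AnalyticSet {c : Code L | toStr c ∈ K} → ¬ PerfK K → ElC K →
    (∀ S ∈ K, Small L (ThS L S)) ∧
    ∃ τ : ℕ → L.Structure ℕ, ∀ S ∈ K, ∃ m, τ m ∈ K ∧ ThS L S = ThS L (τ m)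

/-- `St_ONK` for analytic classes -/
def St_ONKa : Prop :=
  ∀ (L : FirstOrder.Language.{0, 0}) [∀ n, IsEmpty (L.Functions n)] [∀ n, Countable (L.Relations n)]
    (K : Set (L.Structure ℕ)), MeasureTheory.AnalyticSet {c : Code L | toStr c ∈ K} → ¬ PerfK K → ElC K →
    (∀ S ∈ K, @MSt L ℕ S) → ∀ S ∈ K,
      CtblK {S' | S' ∈ K ∧ @FirstOrder.Language.Theory.Model L ℕ S' (ThS L S)}

/-- `St_MSK` for analytic classes -/
def St_MSKa : Prop :=
  ∀ (L : FirstOrder.Language.{0, 0}) [∀ n, IsEmpty (L.Functions n)] [∀ n, Countable (L.Relations n)]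
    (K : Set (L.Structure ℕ)), MeasureTheory.AnalyticSet {c : Code L | toStr c ∈ K} → ECc K →
    (∀ S ∈ K, @MSt L ℕ S) → CtblK K ∨ PerfK K

/-- `St_NMS` for analytic classes -/
def St_NMSa : Prop :=
  ∀ (L : FirstOrder.Language.{0, 0}) [∀ n, IsEmpty (L.Functions n)] [∀ n, Countable (L.Relations n)]
    (K : Set (L.Structure ℕ)), MeasureTheory.AnalyticSet {c : Code L | toStr c ∈ K} → ECc K → ¬ PerfK K →
    ∀ S ∈ K, @MSt L ℕ S

/-- `St_ECT` for analytic classes -/
def St_ECTa : Prop :=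
  ∀ (L : FirstOrder.Language.{0, 0}) [∀ n, IsEmpty (L.Functions n)] [∀ n, Countable (L.Relations n)]
    (K : Set (L.Structure ℕ)), MeasureTheory.AnalyticSet {c : Code L | toStr c ∈ K} → ECc K → CtblK K ∨ PerfK K

section

variable {L : FirstOrder.Language.{0, 0}} [∀ n, IsEmpty (L.Functions n)]

private theorem TYKa_term {α : Type} (t : L.Term α) :
    ∃ a : α, ∀ (S : L.Structure ℕ) (v : α → ℕ), @FirstOrder.Language.Term.realize L ℕ S α v t = v a := by
  cases t with
  | var a => exact ⟨a, fun S v => rfl⟩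
  | func f ts => exact isEmptyElim f

private theorem TYKa_meas [∀ n, Countable (L.Relations n)] {α : Type} {n : ℕ}
    (φ : L.BoundedFormula α n) (v : α → ℕ) (xs : Fin n → ℕ) : MeasurableSet {c : Code L |
      @FirstOrder.Language.BoundedFormula.Realize L ℕ (toStr c) α n φ v xs} := by
  induction φ with
  | falsum => exact MeasurableSet.const _
  | @equal n t₁ t₂ =>
    obtain ⟨a₁, h₁⟩ := TYKa_term t₁
    obtain ⟨a₂, h₂⟩ := TYKa_term t₂
    have h : {c : Code L | @FirstOrder.Language.BoundedFormula.Realize L ℕ (toStr c) α _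
        (FirstOrder.Language.BoundedFormula.equal t₁ t₂) v xs} =
        {c : Code L | Sum.elim v xs a₁ = Sum.elim v xs a₂} := by
      ext c
      change @FirstOrder.Language.Term.realize L ℕ (toStr c) _ (Sum.elim v xs) t₁ =
        @FirstOrder.Language.Term.realize L ℕ (toStr c) _ (Sum.elim v xs) t₂ ↔ _
      rw [h₁ (toStr c), h₂ (toStr c)]
      rfl
    rw [h]
    exact MeasurableSet.const _
  | @rel n l R ts =>
    choose a ha using fun i => TYKa_term (ts i)
    have h : {c : Code L | @FirstOrder.Language.BoundedFormula.Realize L ℕ (toStr c) α _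
        (FirstOrder.Language.BoundedFormula.rel R ts) v xs} =
        {c : Code L | (toStr c).RelMap R (fun i => Sum.elim v xs (a i))} := by
      ext c
      change (toStr c).RelMap R (fun i =>
        @FirstOrder.Language.Term.realize L ℕ (toStr c) _ (Sum.elim v xs) (ts i)) ↔ _
      have h2 : (fun i => @FirstOrder.Language.Term.realize L ℕ (toStr c) _
          (Sum.elim v xs) (ts i)) = fun i => Sum.elim v xs (a i) := funext fun i => ha i _ _
      rw [h2]
      rfl
    rw [h]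
    exact measurableSet_relMap R _
  | imp f₁ f₂ ih₁ ih₂ =>
    have h1 := ih₁ xs
    have h2 := ih₂ xs
    have h3 : {c : Code L | @FirstOrder.Language.BoundedFormula.Realize L ℕ (toStr c) α _
        (f₁.imp f₂) v xs} =
        {c : Code L | @FirstOrder.Language.BoundedFormula.Realize L ℕ (toStr c) α _ f₁ v xs}ᶜ ∪
        {c : Code L | @FirstOrder.Language.BoundedFormula.Realize L ℕ (toStr c) α _ f₂ v xs} := by
      ext c
      simp only [mem_ofPred_eq, mem_union, mem_compl_iff,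
        FirstOrder.Language.BoundedFormula.realize_imp]
      tauto
    rw [h3]
    exact h1.compl.union h2
  | all f ih =>
    have h1 : {c : Code L | @FirstOrder.Language.BoundedFormula.Realize L ℕ (toStr c) α _
        f.all v xs} = ⋂ a : ℕ, {c : Code L |
        @FirstOrder.Language.BoundedFormula.Realize L ℕ (toStr c) α _ f v (Fin.snoc xs a)} := by
      ext c
      simp only [mem_ofPred_eq, mem_iInter, FirstOrder.Language.BoundedFormula.realize_all]
    rw [h1]
    exact MeasurableSet.iInter fun a => ih _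

private theorem TYKa_meas' [∀ n, Countable (L.Relations n)] {n : ℕ} (φ : L.Formula (Fin n))
    (v : Fin n → ℕ) : MeasurableSet {c : Code L |
      @FirstOrder.Language.Formula.Realize L ℕ (toStr c) (Fin n) φ v} := by
  unfold FirstOrder.Language.Formula.Realize
  exact TYKa_meas φ v _

private theorem TYKa_inv {n : ℕ} (φ : L.Formula (Fin n)) (S S' : L.Structure ℕ) (e : ℕ ≃ ℕ)
    (v : Fin n → ℕ) (he : RelIso S S' e) :
    @FirstOrder.Language.Formula.Realize L ℕ S (Fin n) φ v →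
      @FirstOrder.Language.Formula.Realize L ℕ S' (Fin n) φ (e ∘ v) := by
  intro h
  let E : @FirstOrder.Language.Equiv L ℕ ℕ S S' :=
    @FirstOrder.Language.Equiv.mk L ℕ ℕ S S' e (fun f => isEmptyElim f)
      fun R v => (he _ R v).symm
  exact (@FirstOrder.Language.StrongHomClass.realize_formula L ℕ ℕ S S' (Fin n) _ _ _ E φ v).2 h

end


theorem thm_TYKa : St_TYKa := by
  intro L _ _ K hK hP n
  have hcF : Countable (L.Formula (Fin n)) := inferInstance
  obtain ⟨ρ, hρ⟩ := Pool.Agent.Helper5.DU.ctbl_of_props_ana hK hP (n := n)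
    (ι := L.Formula (Fin n))
    (fun φ S v => @FirstOrder.Language.Formula.Realize L ℕ S (Fin n) φ v)
    (fun φ v => TYKa_meas' φ v)
    (fun φ S S' e v he => TYKa_inv φ S S' e v he)
  refine ⟨ρ, fun S hS v => ?_⟩
  obtain ⟨m, hm, h⟩ := hρ S hS v
  refine ⟨m, hm, ?_⟩
  ext φ
  exact h φ

section

variable {L : FirstOrder.Language.{0, 0}}

private theorem SMKa_sym [∀ n, IsEmpty (L.Functions n)] [∀ n, Countable (L.Relations n)] :
    Countable L.Symbols := by
  have h3 : Countable ((n : ℕ) × L.Relations n) := inferInstance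
  have h4 : Countable ((n : ℕ) × L.Functions n) := by
    have : IsEmpty ((n : ℕ) × L.Functions n) := ⟨fun x => isEmptyElim x.2⟩
    infer_instance
  exact inferInstanceAs (Countable (((n : ℕ) × L.Functions n) ⊕ ((n : ℕ) × L.Relations n)))

private theorem SMKa_real (S : L.Structure ℕ) (φ : L.Sentence) (v : Fin 0 → ℕ) :
    φ ∈ ThS L S ↔ (BoundedFormula.relabel (fun x : Empty => (x.elim : Fin 0 ⊕ Fin 0)) φ :
      L.Formula (Fin 0)) ∈ @tp L ℕ S 0 v := by
  let _ := S
  show (ℕ ⊨ φ) ↔ Formula.Realize (BoundedFormula.relabel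
    (fun x : Empty => (x.elim : Fin 0 ⊕ Fin 0)) φ : L.Formula (Fin 0)) v
  unfold Sentence.Realize Formula.Realize
  rw [BoundedFormula.realize_relabel]
  apply iff_of_eq
  congr 1
  exact Subsingleton.elim _ _

/-- [SMK] -/
theorem thm_SMKa (hTYK : St_TYKa) (hAMA : St_AMA) : St_SMKa := by
  intro L _ _ K hK hP hE
  have hTY := hTYK L K hK hP
  choose σ hσ using hTY
  refine ⟨fun S hS => ?_, ?_⟩
  · unfold Pool.Agent.WOM.Small
    refine (countable_range fun p : ℕ × ℕ =>
      (⟨p.1, @tp L ℕ (σ p.1 p.2).1 p.1 (σ p.1 p.2).2⟩ :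
        (n : ℕ) × Set (L.Formula (Fin n)))).mono ?_
    rintro ⟨n, p⟩ ⟨S', hS', a, ha⟩
    obtain ⟨S'', f, f', hf, hf'⟩ := hAMA L SMKa_sym S S' hS'
    obtain ⟨m, -, hm⟩ := hσ n S'' (hE S S'' f hf hS) (f' ∘ a)
    refine ⟨(n, m), ?_⟩
    have h1 : p = @tp L ℕ (σ n m).1 n (σ n m).2 := by
      have h2 : p = @tp L ℕ S' n a := ha
      rw [h2, hf' n a, hm]
    rw [h1]
  · refine ⟨fun m => (σ 0 m).1, fun S hS => ?_⟩
    obtain ⟨m, hm1, hm2⟩ := hσ 0 S hS default
    refine ⟨m, hm1, ?_⟩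
    ext φ
    rw [SMKa_real S φ default, SMKa_real (σ 0 m).1 φ (σ 0 m).2, hm2]

end

section

variable {L : FirstOrder.Language.{0, 0}}

private theorem ONKa_cth {U V : Type} [L.Structure U] [L.Structure V] (j : U ↪ₑ[L] V) :
    L.completeTheory V = L.completeTheory U := by
  ext φ
  exact (j.map_sentence φ).symm

private theorem ONKa_ths (S : L.Structure ℕ) {U : Type} [L.Structure U]
    (h : U ⊨ ThS L S) : L.completeTheory U = ThS L S := by
  ext φ
  constructor
  · intro h1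
    by_contra h2
    have h3 : φ.not ∈ ThS L S := h2
    exact (h.realize_of_mem _ h3) h1
  · intro h1
    exact h.realize_of_mem _ h1

private theorem ONKa_stb {U V : Type} [L.Structure U] [L.Structure V] (j : U ↪ₑ[L] V)
    (h : Stb L V) : Stb L U := by
  intro m n φ a b hab
  refine h m n φ (fun i => j ∘ a i) (fun i => j ∘ b i) fun i k => ?_
  rw [← comp_elim, emb_real]
  exact hab i k

end

theorem thm_ONKa (hMSS : St_MSS) (hAMA : St_AMA) (hSMK : St_SMKa) (hKVU : St_KVU)
    (hCNTK : St_CNTK) (hMATK : St_MATK) (hULT : Pool.Agent.WOM.St_ULT)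
    (hSUBM : Pool.Agent.WOM.St_SUBM) (hHOMG : Pool.Agent.WOM.St_HOMG)
    (hSAW : Pool.Agent.MST.St_SAW) (hUNM : Pool.Agent.MST.St_UNM)
    (hHYP : Pool.Agent.MST.St_HYP) : St_ONKa := by
  intro L hF hR K hK hP hEl hM S hS
  have hL : Countable L.Symbols :=
    inferInstanceAs (Countable ((Σ n, L.Functions n) ⊕ Σ n, L.Relations n))
  have hsm : Small L (ThS L S) := (hSMK L K hK hP hEl).1 S hS
  obtain ⟨V0, _, _, hV0, hsV0⟩ := hULT L hL S
  obtain ⟨U, _, hc, hi, hU, hsU⟩ := hSUBM L hL S hsm V0 hV0 hsV0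
  have hMon : Mon L U := hHOMG L U hc hi hsU
  obtain ⟨V, _, hW, ⟨j⟩⟩ := hSAW L hL U inferInstance
  have hiV : Infinite V := Infinite.of_injective j j.injective
  have hth : L.completeTheory V = ThS L S := (ONKa_cth j).trans (ONKa_ths S hU)
  have hmod : ∀ S' : L.Structure ℕ,
      @FirstOrder.Language.Theory.Model L ℕ S' (L.completeTheory V) → @MSt L ℕ S' := by
    intro S' hS'
    rw [hth] at hS'
    obtain ⟨S'', f, f', h1, h2⟩ := hAMA L hL S S' hS'
    exact (hMSS L).2 S' S'' f' h2 (hM S'' (hEl S S'' f h1 hS))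
  obtain ⟨hY1, hY2, -⟩ := hHYP L hL V hiV
  obtain ⟨hMS1, hMS2⟩ := hMSS L
  have hsV : Stb L V := hY1 fun S' hS' => @hMS1 ℕ S' (hmod S' hS')
  have hX : Cx L U V := ⟨⟨hL, hMon, ONKa_stb j hsV⟩, hsV, hW⟩
  have hUN : UN j := hUNM L U V j hX (hY2 hmod)
  rcases hCNTK L U V j hX hUN (KV K V) (hKVU L K hEl V).1 with h | h
  · exact (hMATK L K hEl U V j).1 hMon S hU h
  · exact absurd ((hMATK L K hEl U V j).2 h) hP

/-- [MSK] -/
theorem thm_MSKa (hECE : St_ECE) (hSMK : St_SMKa) (hONK : St_ONKa) : St_MSKa := by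
  intro L _ _ K hK hE hM
  by_cases hP : PerfK K
  · exact Or.inr hP
  refine Or.inl ?_
  have hEl : ElC K := hECE L K hE
  obtain ⟨-, τ, hτ⟩ := hSMK L K hK hP hEl
  have hO := hONK L K hK hP hEl hM
  have h1 : ∀ m, ∃ g : ℕ → L.Structure ℕ, τ m ∈ K → ∀ S', S' ∈ K →
      @FirstOrder.Language.Theory.Model L ℕ S' (ThS L (τ m)) → ∃ n, Iso S' (g n) := by
    intro m
    by_cases hm : τ m ∈ K
    · obtain ⟨g, hg⟩ := hO (τ m) hm
      exact ⟨g, fun _ S' h1 h2 => hg S' ⟨h1, h2⟩⟩
    · exact ⟨fun _ => τ 0, fun h => absurd h hm⟩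
  choose g hg using h1
  refine ⟨fun p => g (Nat.unpair p).1 (Nat.unpair p).2, fun S hS => ?_⟩
  obtain ⟨m, hm1, hm2⟩ := hτ S hS
  have h2 : @FirstOrder.Language.Theory.Model L ℕ S (ThS L (τ m)) := by
    rw [← hm2]
    let _ := S
    exact (Theory.model_iff (M := ℕ) _).2 fun φ hφ => hφ
  obtain ⟨n, hn⟩ := hg m hm1 S hS h2
  refine ⟨Nat.pair m n, ?_⟩
  simp only [Nat.unpair_pair]
  exact hn

end EAU

end

section

namespace EAU

open Set FirstOrder.Language ORD EAP
open Pool.Agent.Helper6.Str (PerfK CtblK Iso RelIso Code toStr ofStr)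
open Pool.Agent.Helper79.VC (pl Scat scat_of_not_perf_ana)
open Pool.Agent.MST (MSt)

/-- [NMS] -/
theorem thm_NMSa (hSKO : St_SKO) (hGAM : St_GAM) (hCLO : St_CLO) (hSLB : St_SLB) (hCUT : St_CUT)
    (hLSP : St_LSP) (hLNK : St_LNK) (hDCD : St_DCD) : St_NMSa := by
  intro L _ _ K hKm hE hP S hS
  by_contra hM
  have hK : Scat K := scat_of_not_perf_ana hKm hP
  obtain ⟨N, iN, iA, hsys, ⟨i, hi, hrel, hfix, hEC⟩, P, hPinv, k, ψ, hψ, c, hc, hlad⟩ := hSKO L S hM
  have hmd : Mdl (Gam S) iN i := hGAM L S N iN i hi hrel hEC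
  obtain ⟨hst, hlb⟩ := hSLB L K hK hE S hS N iN i hmd
  obtain ⟨U, hU⟩ := hCUT
  obtain ⟨x, hx⟩ := hU.ne
  obtain ⟨y, hy, hxy⟩ := hU.up x hx
  obtain ⟨Z, u, v, hZ, huZ, hvZ, hsu, hsv, hcon⟩ :=
    hLNK L N hsys hst P hPinv k ψ hψ c hc hlad U hU x hx y hy hxy
  have harr : Arr L U Z x y u v := ⟨hU, hZ, hx, hy, hxy, huZ, hvZ, hsu, hsv, hcon⟩
  obtain ⟨m, p, X, hX0, hXp, hXc, hXi⟩ := hDCD L N hsys hst hlb U Z x y u v harr
  have hcN : Countable N := hsys.ct
  have hbase : ∀ n, i n ∈ (MU U : Set N) := by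
    intro n q hq
    have h1 := (hLSP L N hsys).2.1 (i n) ∅ (fun g _ => hfix g n) hq
    simp at h1
  have hinf : ∀ f, (X f).Infinite := fun f =>
    (infinite_range_of_injective hi).mono fun z hz => by
      obtain ⟨n, rfl⟩ := hz
      exact hX0 f (hbase n)
  obtain ⟨f, f', hne, g, hg1, hg2⟩ := UNE.dec2 (S := iN) hK hXc hinf (G := range p) (finite_range p)
    (fun f => by rintro _ ⟨j, rfl⟩; exact hXp f j) (fun f e he hr => by
      refine hCLO L K hE S hS N iN i hmd e he ?_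
      rw [hr]
      rintro _ ⟨n, rfl⟩
      exact hX0 f (hbase n))
  exact hne (hXi f f' ⟨g, fun j hj => hg1 _ ⟨j, rfl⟩, fun n R t => hg2 n R t⟩)

/-- [ECT] -/
theorem thm_ECTa (hNMS : St_NMSa) (hMSK : St_MSKa) : St_ECTa := by
  intro L _ _ K hK hE
  by_cases hP : PerfK K
  · exact Or.inr hP
  · exact hMSK L K hK hE (hNMS L K hK hE hP)

open Pool.Agent.Helper6.Str (toStr_ofStr relMap_toStr)

variable {L' : FirstOrder.Language.{0, 0}}

theorem all_TYKa : St_TYKa := thm_TYKa
theorem all_SMKa : St_SMKa := thm_SMKa all_TYKa all_AMA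
theorem all_ONKa : St_ONKa :=
  thm_ONKa all_MSS all_AMA all_SMKa all_KVU all_CNTK all_MATK
    (Pool.Agent.WOM.thm_ULT (Pool.Agent.WOM.thm_DEF1 Pool.Agent.WOM.thm_DEFF))
    (Pool.Agent.WOM.thm_SUBM (Pool.Agent.WOM.thm_DEF1 Pool.Agent.WOM.thm_DEFF))
    (Pool.Agent.WOM.thm_HOMG (Pool.Agent.WOM.thm_DEF1 Pool.Agent.WOM.thm_DEFF))
    Pool.Agent.MST.all_SAW Pool.Agent.MST.all_UNM Pool.Agent.MST.all_HYP
theorem all_MSKa : St_MSKa := thm_MSKa all_ECE all_SMKa all_ONKa
theorem all_NMSa : St_NMSa :=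
  thm_NMSa all_SKO all_GAM all_CLO all_SLB all_CUT all_LSP all_LNK all_DCD

theorem ofStr_toStr [∀ n, IsEmpty (L'.Functions n)] (c : Code L') : ofStr (toStr c) = c := by
  funext x
  obtain ⟨n, R, a⟩ := x
  rw [Bool.eq_iff_iff]
  simp [ofStr, relMap_toStr]

theorem continuous_ofStr : @Continuous (L'.Structure ℕ) (Code L') (lTop L') _ ofStr := by
  let _ := lTop L'
  refine continuous_pi fun x => ?_
  obtain ⟨n, R, a⟩ := x
  have h : ∀ b : Bool, IsOpen ((fun S : L'.Structure ℕ => ofStr S ⟨n, (R, a)⟩) ⁻¹' {b}) := by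
    intro b
    cases b
    · refine TopologicalSpace.isOpen_generateFrom_of_mem ⟨n, R, a, Or.inr ?_⟩
      ext S
      simp [ofStr]
    · refine TopologicalSpace.isOpen_generateFrom_of_mem ⟨n, R, a, Or.inl ?_⟩
      ext S
      simp [ofStr]
  refine continuous_def.2 fun U _ => ?_
  have h2 : ((fun S : L'.Structure ℕ => ofStr S ⟨n, (R, a)⟩) ⁻¹' U) =
      ⋃ b ∈ U, ((fun S : L'.Structure ℕ => ofStr S ⟨n, (R, a)⟩) ⁻¹' {b}) := by
    ext S
    simp
  rw [h2]
  exact isOpen_biUnion fun b _ => h b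

theorem ana_of_ana [∀ n, IsEmpty (L'.Functions n)] [∀ n, Countable (L'.Relations n)]
    {K : Set (L'.Structure ℕ)} (hK : @MeasureTheory.AnalyticSet _ (lTop L') K) :
    MeasureTheory.AnalyticSet {c : Code L' | toStr c ∈ K} := by
  let _ := lTop L'
  have h : {c : Code L' | toStr c ∈ K} = ofStr '' K := by
    ext c
    constructor
    · intro h
      exact ⟨toStr c, h, ofStr_toStr c⟩
    · rintro ⟨S, hS, rfl⟩
      show toStr (ofStr S) ∈ K
      rwa [toStr_ofStr]
  rw [h]
  exact hK.image_of_continuous continuous_ofStr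

/-- The theorem for analytic classes -/
theorem all_ECTa : St_ECTa := thm_ECTa all_NMSa all_MSKa

end EAU

end
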