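import Pool.Agent.EAU.StE

/-!
EAU, module CNBK: almost all multiplicities are infinite, for an upward closed family.
-/

set_option autoImplicit false

namespace EAU

open FirstOrder.Language Set
open scoped FirstOrder
open Pool.Agent.WOM (tp Mon IsEl IsoM Fam CtT PerfT ThS)
open Pool.Agent.MST (CM At NTr mul App Tau Cx UN Idc St_APQ St_ADJ St_ADK St_MLA)

private theorem CNBK_mul (hA : St_APQ) {L : FirstOrder.Language.{0, 0}} {U V : Type}
    [L.Structure U] [L.Structure V] (j : U ↪ₑ[L] V) (hC : Cx L U V) (M : Set V) {K K' : Set V}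
    (h : App L K K') : mul j M K = mul j M K' := by
  obtain ⟨-, hs, ht, -⟩ := hA L U V j hC
  unfold mul
  congr 1
  ext X
  simp only [mem_ofPred_eq]
  exact ⟨fun h1 => ⟨h1.1, ht _ _ _ (hs _ _ h) h1.2⟩, fun h1 => ⟨h1.1, ht _ _ _ h h1.2⟩⟩

/-- [CNBK] -/
theorem thm_CNBK (hA : St_APQ) (hJ : St_ADJ) (hK : St_ADK) (hM : St_MLA) : St_CNBK := by
  intro L U V _ _ j hC hU F hF hyp M hMF
  have hCM := hF.cm M hMF
  rintro ⟨K, hK1, hK2⟩
  obtain ⟨hr, hs, ht, hp⟩ := hA L U V j hC
  -- the two cases
  have key : ∀ e : ℕ → ℕ, Function.Injective e →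
      ((∀ n, mul j M (K (e n)) ≠ 0) ∨ ∀ n, mul j M (K (e n)) = 0) → False := by
    rintro e he (h0 | h0)
    · have h1 : ∀ n, ∃ K'' ∈ At j M, App L (K (e n)) K'' := by
        intro n
        have h2 := h0 n
        unfold mul at h2
        rw [encard_ne_zero] at h2
        obtain ⟨K'', h3, h4⟩ := h2
        exact ⟨K'', h3, h4⟩
      choose K'' h2 h3 using h1
      refine hyp M hMF ⟨K'', fun n => ⟨h2 n, ?_, ?_⟩, fun m n hmn h4 => ?_⟩
      · obtain ⟨⟨N, -, -, h4⟩, -⟩ := hK1 (e n)
        exact (hp _ _ (h3 n)).2.1 h4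
      · rw [← CNBK_mul hA j hC M (h3 n)]
        exact (hK1 (e n)).2
      · exact hK2 (e m) (e n) (fun h5 => hmn (he h5))
          (ht _ _ _ (ht _ _ _ (h3 m) h4) (hs _ _ (h3 n)))
    · obtain ⟨K', g1, g2, g3⟩ := hJ L U V j hC hU M hCM (fun n => K (e n)) fun n => (hK1 (e n)).1
      have g4 : ∀ n, Idc j (K' n) := by
        intro n
        obtain ⟨⟨N, -, h4, -⟩, -⟩ := hK1 (e n)
        exact (hp _ _ (g1 n)).1 h4.2.2
      have g5 : ∀ n, NTr j (K' n) := by
        intro n
        obtain ⟨⟨N, -, -, h4⟩, -⟩ := hK1 (e n)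
        exact (hp _ _ (g1 n)).2.1 h4
      obtain ⟨-, -, g6⟩ := hK L U V j hC M K' g2 g4 g5
      have g7 : ∀ m n, App L (K (e n)) (K' m) → n = m := by
        intro m n h4
        by_contra hne
        exact hK2 (e n) (e m) (fun h5 => hne (he h5)) (ht _ _ _ h4 (hs _ _ (g1 m)))
      refine hyp _ (hF.up M hMF _ (g3 Set.univ) subset_union_left) ⟨K', fun n => ⟨?_, g5 n, ?_⟩, fun m n hmn h4 => ?_⟩
      · rw [g6 Set.univ]
        exact Or.inr ⟨n, mem_univ n, rfl⟩
      · rw [← CNBK_mul hA j hC _ (g1 n), hM L U V j hC M K' g2 g4 g5 Set.univ, h0 n, zero_add]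
        have g8 : {m ∈ (Set.univ : Set ℕ) | App L (K (e n)) (K' m)} = {n} := by
          ext m
          simp only [mem_ofPred_eq, mem_univ, true_and, mem_singleton_iff]
          constructor
          · intro h5
            exact (g7 m n h5).symm
          · rintro rfl
            exact g1 m
        rw [g8, encard_singleton]
        exact ENat.one_ne_top
      · exact hmn (g7 n m (ht _ _ _ (g1 m) h4))
  by_cases hS : {n | mul j M (K n) ≠ 0}.Infinite
  · have := hS.to_subtype
    exact key (fun n => (Infinite.natEmbedding {n | mul j M (K n) ≠ 0} n : ℕ))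
      (Subtype.val_injective.comp (Infinite.natEmbedding _).injective)
      (Or.inl fun n => (Infinite.natEmbedding {n | mul j M (K n) ≠ 0} n).2)
  · rw [not_infinite] at hS
    have hS' : {n | mul j M (K n) = 0}.Infinite := by
      have h1 := hS.infinite_compl
      have h2 : {n | mul j M (K n) ≠ 0}ᶜ = {n | mul j M (K n) = 0} := by
        ext n
        simp
      rwa [h2] at h1
    have := hS'.to_subtype
    exact key (fun n => (Infinite.natEmbedding {n | mul j M (K n) = 0} n : ℕ))
      (Subtype.val_injective.comp (Infinite.natEmbedding _).injective)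
      (Or.inr fun n => (Infinite.natEmbedding {n | mul j M (K n) = 0} n).2)

end EAU
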