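import Mathlib

/-!
# EAU: Vaught's conjecture for classes closed under existentially closed extensions. Definitions

Systems: a countable structure `N` on which the group of automorphisms of the order `ℚ` acts by
automorphisms, with finite supports. `U` is a cut (a convex piece of `ℚ` with irrational end
points), `MU U` the set of elements whose support avoids `U` (the base).
-/

set_option autoImplicit false
set_option linter.unusedVariables false

namespace EAU

open Set FirstOrder.Language

/-- automorphisms of the order `ℚ` -/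
abbrev AQ : Type := ℚ ≃o ℚ

/-- `g` is the identity off `U` -/
def Off (U : Set ℚ) (g : AQ) : Prop := ∀ q ∉ U, g q = q

/-- convex bounded pieces of `ℚ` with irrational end points -/
structure Cut (U : Set ℚ) : Prop where
  ne : U.Nonempty
  cv : ∀ x ∈ U, ∀ z ∈ U, ∀ y, x ≤ y → y ≤ z → y ∈ U
  up : ∀ x ∈ U, ∃ y ∈ U, x < y
  dn : ∀ x ∈ U, ∃ y ∈ U, y < x
  bd : ∃ q, ∀ u ∈ U, u < q
  ab : ∀ q, (∀ u ∈ U, u < q) → ∃ r, r < q ∧ ∀ u ∈ U, u < r
  be : ∀ q, (∀ u ∈ U, q < u) → ∃ r, q < r ∧ ∀ u ∈ U, r < u

section one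

variable (L : FirstOrder.Language.{0, 0}) {N : Type} [L.Structure N]

/-- same atomic type (relational language) -/
def QE {ι : Type} (v w : ι → N) : Prop :=
  (∀ i j, v i = v j ↔ w i = w j) ∧
    ∀ (n : ℕ) (R : L.Relations n) (t : Fin n → ι),
      Structure.RelMap R (fun k => v (t k)) ↔ Structure.RelMap R (fun k => w (t k))

open Classical in
/-- the entries in `D` from `x`, the others from `y` -/
noncomputable def Mix {n : ℕ} (D : Set (Fin n)) (x y : Fin n → N) : Fin n → N := fun k => if k ∈ D then x k else y k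

variable (N) in
/-- no relation has a ladder (with any partition of its places; constant places are parameters) -/
def Stab : Prop :=
  ∀ (n : ℕ) (R : L.Relations n) (D : Set (Fin n)) (a b : ℕ → Fin n → N),
    ¬ ∀ i j, Structure.RelMap R (Mix D (a i) (b j)) ↔ i < j

/-- `A ⊆ B` and `A` is existentially closed in `B`: every finite part of the atomic type of a finite
tuple of `B` over a finite tuple of `A` is realised in `A` -/
def EC (A B : Set N) : Prop :=
  A ⊆ B ∧ ∀ (m n : ℕ) (a : Fin m → N) (b : Fin n → N), (∀ i, a i ∈ A) → (∀ i, b i ∈ B) →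
    ∀ F : Set ((k : ℕ) × L.Relations k × (Fin k → Fin m ⊕ Fin n)), F.Finite →
      ∃ b' : Fin n → N, (∀ i, b' i ∈ A) ∧
        (∀ i j, Sum.elim a b i = Sum.elim a b j ↔ Sum.elim a b' i = Sum.elim a b' j) ∧
        ∀ r ∈ F, (Structure.RelMap r.2.1 (fun k => Sum.elim a b (r.2.2 k)) ↔
          Structure.RelMap r.2.1 (fun k => Sum.elim a b' (r.2.2 k)))

/-- automorphisms (relational language) -/
def Aut (σ : N ≃ N) : Prop :=
  ∀ (n : ℕ) (R : L.Relations n) (t : Fin n → N),
    Structure.RelMap R (fun k => σ (t k)) ↔ Structure.RelMap R t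

/-- `A` and `B` (as induced structures) are isomorphic over the tuple `p` -/
def IsoP {κ : Type} (p : κ → N) (A B : Set N) : Prop :=
  ∃ h : A ≃ B, (∀ (i : κ) (hi : p i ∈ A), (h ⟨p i, hi⟩ : N) = p i) ∧
    ∀ (n : ℕ) (R : L.Relations n) (t : Fin n → A),
      Structure.RelMap R (fun k => (t k : N)) ↔ Structure.RelMap R (fun k => (h (t k) : N))

variable (N) in
/-- OUTPUT: a clopen family of sets containing `M0` and a finite tuple `p`, pairwise non-isomorphic
over `p` -/
def Out (M0 : Set N) : Prop :=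
  ∃ (k : ℕ) (p : Fin k → N) (X : (ℕ → Bool) → Set N), (∀ f, M0 ⊆ X f) ∧ (∀ f i, p i ∈ X f) ∧
    (∀ x, IsClopen {f | x ∈ X f}) ∧ ∀ f f', IsoP L p (X f) (X f') → f = f'

end one

section two

variable (L : FirstOrder.Language.{0, 0}) (N : Type) [L.Structure N] [MulAction AQ N]

/-- systems -/
structure Sys : Prop where
  ct : Countable N
  rel : ∀ (g : AQ) (n : ℕ) (R : L.Relations n) (t : Fin n → N),
    Structure.RelMap R (fun i => g • t i) ↔ Structure.RelMap R t
  sup : ∀ x : N, ∃ K : Finset ℚ, ∀ g : AQ, (∀ q ∈ K, g q = q) → g • x = x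

variable {N}

/-- `K` supports `x` -/
def Spt (K : Finset ℚ) (x : N) : Prop := ∀ g : AQ, (∀ q ∈ K, g q = q) → g • x = x

open Classical in
/-- the least support -/
noncomputable def sp (x : N) : Finset ℚ :=
  if h : ∃ K : Finset ℚ, Spt K x ∧ ∀ K', Spt K' x → K ⊆ K' then h.choose else ∅

/-- the union of the supports of the entries of a tuple -/
def spt {α : Type} (X : α → N) : Set ℚ := ⋃ i, (sp (X i) : Set ℚ)

/-- the base -/
def MU (U : Set ℚ) : Set N := {x | ∀ q ∈ sp x, q ∉ U}

/-- same atomic type over the base -/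
def TpM (U : Set ℚ) {α : Type} (X Y : α → N) : Prop :=
  ∀ (n : ℕ) (m : Fin n → N), (∀ i, m i ∈ MU U) → QE L (Sum.elim X m) (Sum.elim Y m)

/-- independence over the base: the atomic type of `X Y` over the base does not change if `X` is
moved away from `Y` -/
def Ind (U : Set ℚ) {α β : Type} (X : α → N) (Y : β → N) : Prop :=
  ∀ g : AQ, Off U g → (∀ q ∈ spt X, q ∈ U → g q ∉ spt Y) →
    TpM L U (Sum.elim (fun i => g • X i) Y) (Sum.elim X Y)

/-- independence of sets -/
def IndS (U : Set ℚ) (A B : Set N) : Prop :=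
  ∀ (m n : ℕ) (X : Fin m → N) (Y : Fin n → N), (∀ i, X i ∈ A) → (∀ i, Y i ∈ B) → Ind L U X Y

/-- free parts of `N ∖ MU U` -/
def Fre (U : Set ℚ) : Set (Set N) := {A | A ⊆ (MU U)ᶜ ∧ IndS L U A ((MU U)ᶜ \ A)}

end two

end EAU
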