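import Pool.Agent.EAU.Defs

/-!
# EAU, part D: definitions (decoding without naming the base; helper22)

Paper: GC_VP_helper97.md par. 4. The input is the conclusion of `St_LNK`: a finite set `Z` outside
the base with two elements `u`, `v`, of support `{i}`, `{j}`, which are connected inside `Z`. The
output is `Out L N (MU U)`.
-/

set_option autoImplicit false
set_option linter.unusedVariables false

noncomputable section

namespace EAU

open Set FirstOrder.Language
open scoped Classical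

/-! ### The abstract part -/

section abs

variable {N ι : Type}

/-- an independence relation of finite sets; `s x` is the support of `x` -/
structure IAx (s : N → Set ι) (D : Finset N → Finset N → Prop) : Prop where
  tr : ∀ X B C : Finset N, D X B → D (X ∪ B) C → D X (B ∪ C)
  mono : ∀ X B B' : Finset N, D X B → B' ⊆ B → D X B'
  dis : ∀ X B : Finset N, (∀ x ∈ X, ∀ b ∈ B, Disjoint (s x) (s b)) → D X B

/-- the elements of `A` which become dependent on `X` after adding a small set -/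
def vis (D : Finset N → Finset N → Prop) (l : ℕ) (A : Set N) (X : Finset N) : Set N :=
  {y | y ∈ A ∧ ∃ B : Finset N, (B : Set N) ⊆ A ∧ B.card ≤ l ∧ D X B ∧ ¬ D X (insert y B)}

/-- the elements of `A` which are visible from `u` in `r` steps -/
def Rr (D : Finset N → Finset N → Prop) (l : ℕ) (A : Set N) (u : N) : ℕ → Set N
  | 0 => {u}
  | r + 1 => Rr D l A u r ∪
      {y | ∃ X : Finset N, (X : Set N) ⊆ Rr D l A u r ∧ X.card ≤ l ∧ y ∈ vis D l A X}

/-- the elements of `A` at distance at most `r` from `u`: neighbours have a common index -/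
def Bl (s : N → Set ι) (A : Set N) (u : N) : ℕ → Set N
  | 0 => {u}
  | r + 1 => Bl s A u r ∪ {y | y ∈ A ∧ ∃ x ∈ Bl s A u r, (s x ∩ s y).Nonempty}

/-- a path `P 0, P 1, ...` of connected sets with vertices `vt n`, and sets `Q m` attached to the
vertices `vt (2 * m)` with end points `pe m` -/
structure Cat (s : N → Set ι) (D : Finset N → Finset N → Prop) (l : ℕ) (P Q : ℕ → Finset N)
    (vt pe : ℕ → N) : Prop where
  cP : ∀ n, (P n).card ≤ l
  cQ : ∀ n, (Q n).card ≤ l
  nP : ∀ n, ∀ x ∈ P n, (s x).Nonempty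
  nQ : ∀ n, ∀ x ∈ Q n, (s x).Nonempty
  pp : ∀ n m, ∀ x ∈ P n, ∀ y ∈ P m, (s x ∩ s y).Nonempty → n ≤ m + 1
  pq : ∀ n m, ∀ x ∈ P n, ∀ y ∈ Q m, (s x ∩ s y).Nonempty → n ≤ 2 * m ∧ 2 * m ≤ n + 1
  qq : ∀ n m, ∀ x ∈ Q n, ∀ y ∈ Q m, (s x ∩ s y).Nonempty → n = m
  va : ∀ n, vt n ∈ P n ∧ vt (n + 1) ∈ P n
  vb : ∀ n, ∀ X ⊆ P n, vt n ∈ X → vt (n + 1) ∉ X → ¬ D X (P n \ X)
  wa : ∀ m, vt (2 * m) ∈ Q m ∧ pe m ∈ Q m
  wb : ∀ m, ∀ X ⊆ Q m, vt (2 * m) ∈ X → pe m ∉ X → ¬ D X (Q m \ X)
  wn : ∀ m n, pe m ∉ P n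

/-- base, path, and the sets `Q (b k)` with `z k = true` -/
def Az (s : N → Set ι) (P Q : ℕ → Finset N) (b : ℕ → ℕ) (z : ℕ → Bool) : Set N :=
  {x | s x = ∅} ∪ (⋃ n, (P n : Set N)) ∪ {x | ∃ k, z k = true ∧ x ∈ Q (b k)}

end abs

/-! ### Ladders, supports, translates -/

section one

variable (L : FirstOrder.Language.{0, 0}) (N : Type) [L.Structure N]

/-- no ladder of length `K` of the relation `R`, the places in `D` against the others -/
def NL (K : ℕ) {n : ℕ} (R : L.Relations n) (D : Set (Fin n)) : Prop :=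
  ∀ a b : Fin K → Fin n → N, ¬ ∀ k l : Fin K, Structure.RelMap R (Mix D (a k) (b l)) ↔ k < l

/-- the ladders of every relation are bounded -/
def LB : Prop := ∀ (n : ℕ) (R : L.Relations n) (D : Set (Fin n)), ∃ K, NL L N K R D

variable {L N}

/-- the relation `R` with the places filled from the tuples `X` and `Y` -/
def val {n a b : ℕ} (R : L.Relations n) (p : Fin n → Fin a ⊕ Fin b) (X : Fin a → N)
    (Y : Fin b → N) : Prop :=
  Structure.RelMap R (fun k => Sum.elim X Y (p k))

/-- `f : A → A'` and `f' : A' → A` are inverse isomorphisms -/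
structure IsoF (L : FirstOrder.Language.{0, 0}) {N : Type} [L.Structure N] (A A' : Set N)
    (f f' : N → N) : Prop where
  m : ∀ x ∈ A, f x ∈ A'
  m' : ∀ y ∈ A', f' y ∈ A
  i : ∀ x ∈ A, f' (f x) = x
  i' : ∀ y ∈ A', f (f' y) = y
  r : ∀ (n : ℕ) (R : L.Relations n) (w : Fin n → N), (∀ i, w i ∈ A) →
    (Structure.RelMap R w ↔ Structure.RelMap R (fun i => f (w i)))

end one

section two

variable {N : Type} [MulAction AQ N]

/-- the support inside `U` -/
def us (U : Set ℚ) (x : N) : Set ℚ := {q | q ∈ sp x ∧ q ∈ U}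

/-- the translates of the elements of `Z` by automorphisms which are the identity off `U` -/
def Wd (U : Set ℚ) (Z : Finset N) : Set N := {x | ∃ h : AQ, Off U h ∧ ∃ z ∈ Z, x = h • z}

/-- `A` contains the base, and otherwise only translates of elements of `Z` -/
def Sb (U : Set ℚ) (Z : Finset N) (A : Set N) : Prop :=
  MU U ⊆ A ∧ ∀ x ∈ A, x ∉ MU U → x ∈ Wd U Z

variable (L : FirstOrder.Language.{0, 0}) [L.Structure N]

/-- same atomic type over the set `E` -/
def TpE (E : Set N) {α : Type} (X Y : α → N) : Prop :=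
  ∀ (n : ℕ) (m : Fin n → N), (∀ i, m i ∈ E) → QE L (Sum.elim X m) (Sum.elim Y m)

/-- independence over the base, for finite sets -/
def IndF (U : Set ℚ) (X Y : Finset N) : Prop := IndS L U (X : Set N) (Y : Set N)

/-- the conclusion of `St_LNK` -/
structure Arr (U : Set ℚ) (Z : Finset N) (i j : ℚ) (u v : N) : Prop where
  cut : Cut U
  zm : ∀ z ∈ Z, z ∉ MU U
  iu : i ∈ U
  ju : j ∈ U
  ij : i < j
  uz : u ∈ Z
  vz : v ∈ Z
  su : sp u = {i}
  sv : sp v = {j}
  con : ∀ Z₁ : Set N, Z₁ ⊆ Z → u ∈ Z₁ → v ∉ Z₁ → ¬ IndS L U Z₁ (Z \ Z₁)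

end two

end EAU
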