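import Pool.Agent.EAU.StA

/-!
# EAU, block HOM: homogeneity of `ℚ`
-/

set_option autoImplicit false

namespace EAU

open Set

/-- the piecewise linear map -/
private def HOM_pl (c a b d q : ℚ) : ℚ :=
  if q ≤ c then q else if q ≤ a then c + (q - c) * ((b - c) / (a - c))
  else if q < d then d - (d - q) * ((d - b) / (d - a)) else q

private theorem HOM_pl_cases (c a b d q : ℚ) (hca : c < a) (had : a < d) (hcb : c < b) (hbd : b < d) :
    (q ≤ c ∧ HOM_pl c a b d q = q) ∨
    (c < q ∧ q ≤ a ∧ HOM_pl c a b d q = c + (q - c) * ((b - c) / (a - c)) ∧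
      c < HOM_pl c a b d q ∧ HOM_pl c a b d q ≤ b) ∨
    (a < q ∧ q < d ∧ HOM_pl c a b d q = d - (d - q) * ((d - b) / (d - a)) ∧
      b < HOM_pl c a b d q ∧ HOM_pl c a b d q < d) ∨
    (d ≤ q ∧ HOM_pl c a b d q = q) := by
  have h1 : 0 < a - c := sub_pos.2 hca
  have h2 : 0 < d - a := sub_pos.2 had
  have h3 : 0 < b - c := sub_pos.2 hcb
  have h4 : 0 < d - b := sub_pos.2 hbd
  have h5 : 0 < (b - c) / (a - c) := div_pos h3 h1
  have h6 : 0 < (d - b) / (d - a) := div_pos h4 h2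
  rcases le_or_gt q c with h | h
  · exact Or.inl ⟨h, by simp [HOM_pl, h]⟩
  rcases le_or_gt q a with h' | h'
  · right; left
    have e : HOM_pl c a b d q = c + (q - c) * ((b - c) / (a - c)) := by
      simp [HOM_pl, not_le.2 h, h']
    refine ⟨h, h', e, ?_, ?_⟩
    · rw [e]
      have := mul_pos (sub_pos.2 h) h5
      linarith
    · rw [e]
      have k1 : (q - c) * ((b - c) / (a - c)) ≤ (a - c) * ((b - c) / (a - c)) :=
        mul_le_mul_of_nonneg_right (by linarith) h5.le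
      have k2 : (a - c) * ((b - c) / (a - c)) = b - c := by field_simp
      linarith
  rcases lt_or_ge q d with h'' | h''
  · right; right; left
    have e : HOM_pl c a b d q = d - (d - q) * ((d - b) / (d - a)) := by
      simp [HOM_pl, not_le.2 h, not_le.2 h', h'']
    refine ⟨h', h'', e, ?_, ?_⟩
    · rw [e]
      have k1 : (d - q) * ((d - b) / (d - a)) < (d - a) * ((d - b) / (d - a)) :=
        mul_lt_mul_of_pos_right (by linarith) h6
      have k2 : (d - a) * ((d - b) / (d - a)) = d - b := by field_simp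
      linarith
    · rw [e]
      have := mul_pos (sub_pos.2 h'') h6
      linarith
  · right; right; right
    exact ⟨h'', by simp [HOM_pl, not_le.2 h, not_le.2 h', not_lt.2 h'']⟩

private theorem HOM_pl_mono (c a b d : ℚ) (hca : c < a) (had : a < d) (hcb : c < b) (hbd : b < d) :
    StrictMono (HOM_pl c a b d) := by
  intro x y hxy
  have h1 : 0 < a - c := sub_pos.2 hca
  have h2 : 0 < d - a := sub_pos.2 had
  have h3 : 0 < b - c := sub_pos.2 hcb
  have h4 : 0 < d - b := sub_pos.2 hbd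
  have h5 : 0 < (b - c) / (a - c) := div_pos h3 h1
  have h6 : 0 < (d - b) / (d - a) := div_pos h4 h2
  rcases HOM_pl_cases c a b d x hca had hcb hbd with ⟨p1, p2⟩ | ⟨p1, p2, p3, p4, p5⟩ |
    ⟨p1, p2, p3, p4, p5⟩ | ⟨p1, p2⟩ <;>
  rcases HOM_pl_cases c a b d y hca had hcb hbd with ⟨q1, q2⟩ | ⟨q1, q2, q3, q4, q5⟩ |
    ⟨q1, q2, q3, q4, q5⟩ | ⟨q1, q2⟩ <;> try linarith
  · rw [p3, q3]
    have := mul_lt_mul_of_pos_right (show x - c < y - c by linarith) h5
    linarith
  · rw [p3, q3]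
    have := mul_lt_mul_of_pos_right (show d - y < d - x by linarith) h6
    linarith

private theorem HOM_pl_inv (c a b d : ℚ) (hca : c < a) (had : a < d) (hcb : c < b) (hbd : b < d)
    (q : ℚ) : HOM_pl c a b d (HOM_pl c b a d q) = q := by
  have h1 : a - c ≠ 0 := (sub_pos.2 hca).ne'
  have h2 : d - a ≠ 0 := (sub_pos.2 had).ne'
  have h3 : b - c ≠ 0 := (sub_pos.2 hcb).ne'
  have h4 : d - b ≠ 0 := (sub_pos.2 hbd).ne'
  rcases HOM_pl_cases c b a d q hcb hbd hca had with ⟨p1, p2⟩ | ⟨p1, p2, p3, p4, p5⟩ |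
    ⟨p1, p2, p3, p4, p5⟩ | ⟨p1, p2⟩ <;>
  rcases HOM_pl_cases c a b d (HOM_pl c b a d q) hca had hcb hbd with ⟨q1, q2⟩ | ⟨q1, q2, q3, q4, q5⟩ |
    ⟨q1, q2, q3, q4, q5⟩ | ⟨q1, q2⟩ <;> try linarith
  · rw [q3, p3]
    field_simp
    ring
  · rw [q3, p3]
    field_simp
    ring

private theorem HOM_one (a b c d : ℚ) (hca : c < a) (had : a < d) (hcb : c < b) (hbd : b < d) :
    ∃ g : AQ, g a = b ∧ Off (Ioo c d) g := by
  have hs : Function.Surjective (HOM_pl c a b d) := fun q => ⟨_, HOM_pl_inv c a b d hca had hcb hbd q⟩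
  refine ⟨StrictMono.orderIsoOfSurjective _ (HOM_pl_mono c a b d hca had hcb hbd) hs, ?_, ?_⟩
  · show HOM_pl c a b d a = b
    rcases HOM_pl_cases c a b d a hca had hcb hbd with ⟨p1, p2⟩ | ⟨p1, p2, p3, p4, p5⟩ |
      ⟨p1, p2, p3, p4, p5⟩ | ⟨p1, p2⟩ <;> try linarith
    rw [p3]
    have : a - c ≠ 0 := (sub_pos.2 hca).ne'
    field_simp
    ring
  · intro q hq
    show HOM_pl c a b d q = q
    rw [mem_Ioo, not_and_or, not_lt, not_lt] at hq
    rcases HOM_pl_cases c a b d q hca had hcb hbd with ⟨p1, p2⟩ | ⟨p1, p2, p3, p4, p5⟩ |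
      ⟨p1, p2, p3, p4, p5⟩ | ⟨p1, p2⟩
    · exact p2
    · rcases hq with h | h <;> linarith
    · rcases hq with h | h <;> linarith
    · exact p2

private theorem HOM_off_mem (W : Set ℚ) (g : AQ) (hg : Off W g) (q : ℚ) (hq : q ∈ W) : g q ∈ W := by
  by_contra h
  have h1 := hg _ h
  have h2 := g.injective h1
  rw [h2] at h
  exact h hq

private theorem HOM_gen (W : Set ℚ) (cv : ∀ x ∈ W, ∀ z ∈ W, ∀ y, x ≤ y → y ≤ z → y ∈ W)
    (up : ∀ x ∈ W, ∃ y ∈ W, x < y) (dn : ∀ x ∈ W, ∃ y ∈ W, y < x) (K : Finset ℚ) (f : ℚ → ℚ)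
    (hK : ∀ q ∈ K, q ∈ W) (hf : StrictMonoOn f K) (hfW : ∀ q ∈ K, f q ∈ W) :
    ∃ g : AQ, Off W g ∧ ∀ q ∈ K, g q = f q := by
  classical
  induction K using Finset.induction_on_max with
  | empty => exact ⟨OrderIso.refl ℚ, fun q _ => rfl, fun q hq => absurd hq (Finset.notMem_empty q)⟩
  | insert m K hm ih =>
    obtain ⟨g, hg1, hg2⟩ := ih (fun q hq => hK q (Finset.mem_insert_of_mem hq))
      (hf.mono (by intro x hx; exact Finset.mem_coe.2 (Finset.mem_insert_of_mem (Finset.mem_coe.1 hx))))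
      (fun q hq => hfW q (Finset.mem_insert_of_mem hq))
    have hmW := hK m (Finset.mem_insert_self m K)
    have hfm := hfW m (Finset.mem_insert_self m K)
    have hgm : g m ∈ W := HOM_off_mem W g hg1 m hmW
    have hfK : ∀ q ∈ K, f q < f m := fun q hq =>
      hf (Finset.mem_coe.2 (Finset.mem_insert_of_mem hq)) (Finset.mem_coe.2 (Finset.mem_insert_self m K))
        (hm q hq)
    have hgK : ∀ q ∈ K, f q < g m := fun q hq => by
      rw [← hg2 q hq]
      exact g.strictMono (hm q hq)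
    obtain ⟨c, hcW, hc1, hc2, hc3⟩ : ∃ c ∈ W, c < g m ∧ c < f m ∧ ∀ q ∈ K, f q ≤ c := by
      rcases K.eq_empty_or_nonempty with h | h
      · have h1 : min (g m) (f m) ∈ W := by
          rcases min_choice (g m) (f m) with e | e <;> rw [e] <;> assumption
        obtain ⟨c, hc, hc'⟩ := dn _ h1
        exact ⟨c, hc, lt_of_lt_of_le hc' (min_le_left _ _), lt_of_lt_of_le hc' (min_le_right _ _), by
          rw [h]; intro q hq; exact absurd hq (Finset.notMem_empty q)⟩
      · obtain ⟨q0, hq0, hq0'⟩ := Finset.exists_max_image K f h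
        exact ⟨f q0, hfW q0 (Finset.mem_insert_of_mem hq0), hgK q0 hq0, hfK q0 hq0, hq0'⟩
    obtain ⟨d, hdW, hd1, hd2⟩ : ∃ d ∈ W, g m < d ∧ f m < d := by
      have h1 : max (g m) (f m) ∈ W := by
        rcases max_choice (g m) (f m) with e | e <;> rw [e] <;> assumption
      obtain ⟨d, hd, hd'⟩ := up _ h1
      exact ⟨d, hd, lt_of_le_of_lt (le_max_left _ _) hd', lt_of_le_of_lt (le_max_right _ _) hd'⟩
    obtain ⟨h, hh1, hh2⟩ := HOM_one (g m) (f m) c d hc1 hd1 hc2 hd2
    refine ⟨g.trans h, ?_, ?_⟩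
    · intro q hq
      show h (g q) = q
      rw [hg1 q hq]
      refine hh2 q fun h3 => hq ?_
      exact cv c hcW d hdW q h3.1.le h3.2.le
    · intro q hq
      show h (g q) = f q
      rcases Finset.mem_insert.1 hq with e | e
      · rw [e, hh1]
      · rw [hg2 q e]
        refine hh2 _ fun h3 => ?_
        exact absurd (hc3 q e) (not_le.2 h3.1)

private theorem HOM_avoid (W : Set ℚ) (up : ∀ x ∈ W, ∃ y ∈ W, x < y) (ne : W.Nonempty)
    (K F : Finset ℚ) : ∃ f : ℚ → ℚ, StrictMonoOn f K ∧ (∀ q ∈ K, f q ∈ W) ∧ ∀ q ∈ K, f q ∉ F := by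
  classical
  have key : ∀ x ∈ W, ∃ y ∈ W, x < y ∧ y ∉ F := by
    intro x hx
    by_contra hcon
    push Not at hcon
    -- the set of elements of `F ∩ W` above `x` has a maximum
    have h1 : ((F.filter fun y => y ∈ W ∧ x < y)).Nonempty := by
      obtain ⟨y, hy, hxy⟩ := up x hx
      exact ⟨y, Finset.mem_filter.2 ⟨hcon y hy hxy, hy, hxy⟩⟩
    obtain ⟨z, hz, hzmax⟩ := Finset.exists_max_image _ (fun y : ℚ => y) h1
    rw [Finset.mem_filter] at hz
    obtain ⟨y, hy, hzy⟩ := up z hz.2.1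
    have h2 := hcon y hy (hz.2.2.trans hzy)
    have h3 := hzmax y (Finset.mem_filter.2 ⟨h2, hy, hz.2.2.trans hzy⟩)
    exact absurd h3 (not_le.2 hzy)
  induction K using Finset.induction_on_max with
  | empty => exact ⟨id, by intro x hx; simp at hx, by simp, by simp⟩
  | insert m K hm ih =>
    obtain ⟨f, hf1, hf2, hf3⟩ := ih
    obtain ⟨c, hcW, hc⟩ : ∃ c ∈ W, ∀ q ∈ K, f q ≤ c := by
      rcases K.eq_empty_or_nonempty with h | h
      · obtain ⟨c, hc⟩ := ne
        exact ⟨c, hc, by rw [h]; intro q hq; exact absurd hq (Finset.notMem_empty q)⟩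
      · obtain ⟨q0, hq0, hq0'⟩ := Finset.exists_max_image K f h
        exact ⟨f q0, hf2 q0 hq0, hq0'⟩
    obtain ⟨y, hyW, hcy, hyF⟩ := key c hcW
    have hne : ∀ q ∈ K, q ≠ m := fun q hq => (hm q hq).ne
    refine ⟨Function.update f m y, ?_, ?_, ?_⟩
    · intro p hp q hq hpq
      rw [Finset.mem_coe, Finset.mem_insert] at hp hq
      rcases hp with rfl | hp
      · rcases hq with rfl | hq
        · exact absurd hpq (lt_irrefl _)
        · exact absurd (hm q hq) (not_lt.2 hpq.le)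
      · rcases hq with rfl | hq
        · rw [Function.update_self, Function.update_of_ne (hne p hp)]
          exact lt_of_le_of_lt (hc p hp) hcy
        · rw [Function.update_of_ne (hne p hp), Function.update_of_ne (hne q hq)]
          exact hf1 (Finset.mem_coe.2 hp) (Finset.mem_coe.2 hq) hpq
    · intro q hq
      rcases Finset.mem_insert.1 hq with rfl | hq
      · rw [Function.update_self]; exact hyW
      · rw [Function.update_of_ne (hne q hq)]; exact hf2 q hq
    · intro q hq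
      rcases Finset.mem_insert.1 hq with rfl | hq
      · rw [Function.update_self]; exact hyF
      · rw [Function.update_of_ne (hne q hq)]; exact hf3 q hq

theorem thm_HOM : St_HOM := by
  classical
  refine ⟨fun a b c d h1 h2 h3 h4 => HOM_one a b c d h1 h2 h3 h4, ?_, ?_, ?_, ?_⟩
  · intro K f hf
    obtain ⟨g, _, hg⟩ := HOM_gen univ (fun _ _ _ _ _ _ _ => mem_univ _)
      (fun x _ => ⟨x + 1, mem_univ _, by linarith⟩) (fun x _ => ⟨x - 1, mem_univ _, by linarith⟩)
      K f (fun _ _ => mem_univ _) hf (fun _ _ => mem_univ _)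
    exact ⟨g, hg⟩
  · intro U hU K f hf h1 h2
    obtain ⟨g, hg1, hg2⟩ := HOM_gen U hU.cv hU.up hU.dn (K.filter fun q => q ∈ U) f
      (fun q hq => (Finset.mem_filter.1 hq).2)
      (hf.mono (by intro x hx; exact Finset.mem_coe.2 (Finset.mem_filter.1 (Finset.mem_coe.1 hx)).1))
      (fun q hq => h2 q (Finset.mem_filter.1 hq).1 (Finset.mem_filter.1 hq).2)
    refine ⟨g, hg1, fun q hq => ?_⟩
    by_cases hqU : q ∈ U
    · exact hg2 q (Finset.mem_filter.2 ⟨hq, hqU⟩)
    · rw [hg1 q hqU, h1 q hq hqU]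
  · intro U hU K F
    obtain ⟨f, hf1, hf2, hf3⟩ := HOM_avoid U hU.up hU.ne (K.filter fun q => q ∈ U) F
    obtain ⟨g, hg1, hg2⟩ := HOM_gen U hU.cv hU.up hU.dn (K.filter fun q => q ∈ U) f
      (fun q hq => (Finset.mem_filter.1 hq).2) hf1 hf2
    refine ⟨g, hg1, fun q hq hqU => ?_⟩
    rw [hg2 q (Finset.mem_filter.2 ⟨hq, hqU⟩)]
    exact hf3 q (Finset.mem_filter.2 ⟨hq, hqU⟩)
  · intro U hU K F
    obtain ⟨q0, hq0⟩ := hU.bd
    let A : Finset ℚ := insert q0 (K.filter fun q => ∀ u ∈ U, u < q)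
    have hA : A.Nonempty := ⟨q0, Finset.mem_insert_self _ _⟩
    obtain ⟨q1, hq1, hq1min⟩ := Finset.exists_min_image A (fun q : ℚ => q) hA
    have hq1U : ∀ u ∈ U, u < q1 := by
      rcases Finset.mem_insert.1 hq1 with rfl | h
      · exact hq0
      · exact (Finset.mem_filter.1 h).2
    obtain ⟨r, hr1, hr2⟩ := hU.ab q1 hq1U
    obtain ⟨f, hf1, hf2, hf3⟩ := HOM_avoid (Ioo r q1)
      (fun x hx => ⟨(x + q1) / 2, ⟨by linarith [hx.1, hx.2], by linarith [hx.2]⟩, by linarith [hx.2]⟩)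
      ⟨(r + q1) / 2, by linarith, by linarith⟩ (K.filter fun q => q ∈ U) F
    have hKU : ∀ q ∈ K, q ∈ U → q ∈ K.filter fun q => q ∈ U := fun q hq h => Finset.mem_filter.2 ⟨hq, h⟩
    let f' : ℚ → ℚ := fun q => if q ∈ U then f q else q
    have hf'U : ∀ q, q ∈ U → f' q = f q := fun q h => if_pos h
    have hf'N : ∀ q, q ∉ U → f' q = q := fun q h => if_neg h
    have hmono : StrictMonoOn f' K := by
      intro p hp q hq hpq
      rw [Finset.mem_coe] at hp hq
      by_cases hpU : p ∈ U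
      · by_cases hqU : q ∈ U
        · rw [hf'U p hpU, hf'U q hqU]
          exact hf1 (Finset.mem_coe.2 (hKU p hp hpU)) (Finset.mem_coe.2 (hKU q hq hqU)) hpq
        · rw [hf'U p hpU, hf'N q hqU]
          have h1 : ∀ u ∈ U, u < q := by
            intro u hu
            by_contra hcon
            exact hqU (hU.cv p hpU u hu q hpq.le (not_lt.1 hcon))
          have h2 : q1 ≤ q := hq1min q (Finset.mem_insert_of_mem (Finset.mem_filter.2 ⟨hq, h1⟩))
          exact lt_of_lt_of_le (hf2 p (hKU p hp hpU)).2 h2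
      · by_cases hqU : q ∈ U
        · rw [hf'N p hpU, hf'U q hqU]
          exact (hpq.trans (hr2 q hqU)).trans (hf2 q (hKU q hq hqU)).1
        · rw [hf'N p hpU, hf'N q hqU]
          exact hpq
    obtain ⟨g, _, hg⟩ := HOM_gen univ (fun _ _ _ _ _ _ _ => mem_univ _)
      (fun x _ => ⟨x + 1, mem_univ _, by linarith⟩) (fun x _ => ⟨x - 1, mem_univ _, by linarith⟩)
      K f' (fun _ _ => mem_univ _) hmono (fun _ _ => mem_univ _)
    refine ⟨g, ?_, ?_, ?_⟩
    · intro q hq
      rw [hg q hq]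
      by_cases hqU : q ∈ U
      · rw [hf'U q hqU]
        intro h1
        exact absurd (hr2 _ h1) (not_lt.2 (hf2 q (hKU q hq hqU)).1.le)
      · rw [hf'N q hqU]; exact hqU
    · intro q hq hqU
      rw [hg q hq, hf'N q hqU]
    · intro q hq hqU
      rw [hg q hq, hf'U q hqU]
      exact hf3 q (hKU q hq hqU)

end EAU
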