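import Pool.Agent.EAU.StD

/-!
# EAU, part D: [SEP] finitely many elements of the base separate the types over the base
-/

set_option autoImplicit false
set_option linter.unusedVariables false

namespace EAU

open Set FirstOrder.Language
open scoped Classical

/-- a finite part of the base which separates two tuples of different type over the base -/
private lemma SEP_pair (L : FirstOrder.Language.{0, 0}) {N : Type} [L.Structure N]
    [MulAction AQ N] (U : Set ℚ) {t : ℕ} (x y : Fin t → N) :
    ∃ e : Finset N, (e : Set N) ⊆ MU U ∧ (TpE L (e : Set N) x y → TpM L U x y) := by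
  by_cases h : TpM L U x y
  · exact ⟨∅, by simp, fun _ => h⟩
  · unfold TpM at h
    push Not at h
    obtain ⟨n, m, hm, hne⟩ := h
    refine ⟨Finset.univ.image m, ?_, fun hE => absurd (hE n m fun i => ?_) hne⟩
    · intro z hz
      simp only [Finset.coe_image, Finset.coe_univ, image_univ, mem_range] at hz
      obtain ⟨i, rfl⟩ := hz
      exact hm i
    · simp

theorem thm_SEP (hQEB : St_QEB) (hORB : St_ORB) : St_SEP := by
  intro L N _ _ hS U hU Z t
  obtain ⟨-, hsymm, htrans, -, -, -, -, -, hinv⟩ := hQEB L N hS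
  obtain ⟨T, hT, hx⟩ := hORB L N hS U hU Z t
  choose e he1 he2 using fun p : (Fin t → N) × (Fin t → N) => SEP_pair L U p.1 p.2
  refine ⟨(hT.toFinset ×ˢ hT.toFinset).biUnion e, ?_, ?_⟩
  · intro z hz
    simp only [Finset.coe_biUnion, mem_iUnion] at hz
    obtain ⟨p, -, hz⟩ := hz
    exact he1 p hz
  · intro x y hxW hyW hE
    obtain ⟨τ, hτ, -, h, hh, hxτ⟩ := hx x hxW
    obtain ⟨τ', hτ', -, h', hh', hyτ⟩ := hx y hyW
    have h1 : TpM L U x τ := by
      have : x = fun i => h • τ i := funext hxτ
      rw [this]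
      exact hinv U (Fin t) τ h hh
    have h2 : TpM L U y τ' := by
      have : y = fun i => h' • τ' i := funext hyτ
      rw [this]
      exact hinv U (Fin t) τ' h' hh'
    have h3 : TpM L U τ τ' := by
      refine he2 (τ, τ') fun n m hm => ?_
      have hmE : ∀ i, m i ∈ (((hT.toFinset ×ˢ hT.toFinset).biUnion e : Finset N) : Set N) := by
        intro i
        simp only [Finset.coe_biUnion, mem_iUnion]
        refine ⟨(τ, τ'), ?_, hm i⟩
        simp [hτ, hτ']
      have hmU : ∀ i, m i ∈ MU (N := N) U := fun i => he1 _ (hm i)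
      exact htrans _ _ _ _ (hsymm _ _ _ (h1 n m hmU))
        (htrans _ _ _ _ (hE n m hmE) (h2 n m hmU))
    intro n m hm
    exact htrans _ _ _ _ (h1 n m hm) (htrans _ _ _ _ (h3 n m hm) (hsymm _ _ _ (h2 n m hm)))

end EAU
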