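import Pool.Agent.EAU.Defs

/-!
# EAU, part A: statements (automorphisms of `ℚ`, supports, independence, the link)

Paper: /team-store/GC_VP_helper97.md and helper34's mail (one hull, automorphisms of `ℚ`).
-/

set_option autoImplicit false
set_option linter.unusedVariables false

namespace EAU

open Set FirstOrder.Language

/-- [HOM] (2h) Homogeneity of `ℚ`.
PROOF. (1) piecewise linear: `q ↦ q` off `(c, d)`, the affine maps `[c, a] → [c, b]`, `[a, d] → [b, d]`.
(2) induction on `#K` (largest element of `K`: first arrange the others, then move the last one with (1) in an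
interval above the others). (3) the same inside `U`: `K ∩ U` and its image lie in some `(c, d)` with `c, d ∈ U`
(`up`, `dn`), all moves are the identity off `U`; use (1). (4) from (3): choose for the elements of
`K ∩ U`, in increasing order, new values between the neighbouring ones off `F` (`F` finite, density). (5) the
elements of `K ∩ U` go (increasingly) to points above `U`, below all elements of `K` above `U`, off `F`:
`bd`, `ab` and density; then (2) with the identity on `K ∖ U`. -/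
def St_HOM : Prop :=
  (∀ a b c d : ℚ, c < a → a < d → c < b → b < d → ∃ g : AQ, g a = b ∧ Off (Ioo c d) g) ∧
  (∀ (K : Finset ℚ) (f : ℚ → ℚ), StrictMonoOn f K → ∃ g : AQ, ∀ q ∈ K, g q = f q) ∧
  (∀ U : Set ℚ, Cut U → ∀ (K : Finset ℚ) (f : ℚ → ℚ), StrictMonoOn f K → (∀ q ∈ K, q ∉ U → f q = q) →
    (∀ q ∈ K, q ∈ U → f q ∈ U) → ∃ g : AQ, Off U g ∧ ∀ q ∈ K, g q = f q) ∧
  (∀ U : Set ℚ, Cut U → ∀ K F : Finset ℚ, ∃ g : AQ, Off U g ∧ ∀ q ∈ K, q ∈ U → g q ∉ F) ∧
  (∀ U : Set ℚ, Cut U → ∀ K F : Finset ℚ, ∃ g : AQ, (∀ q ∈ K, g q ∉ U) ∧ (∀ q ∈ K, q ∉ U → g q = q) ∧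
    ∀ q ∈ K, q ∈ U → g q ∉ F)

/-- [CUT] (0.5h) There is a cut, e.g. `{q | √2 < q < √3}` (or `2 < q^2 < 3`, `0 < q`). -/
def St_CUT : Prop := ∃ U : Set ℚ, Cut U

/-- [INS] (2h) Insertion: an invariant relation without ladder between tuples with finite supports does not
change if the support of `X` is moved past the support of `Y` (common points fixed).
PROOF. Write `f` for a strictly increasing map `K → ℚ` with `f = id` on `K ∩ K'` and `f(K) ∩ K' = K ∩ K'`, and
`V f` for the truth value of `φ (h • X) Y`, `h` an automorphism extending `f` (HOM 2; independent of `h` by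
`Spt`). If no pair `(k, y)`, `k ∈ K ∖ K'`, `y ∈ K' ∖ K` has `(f k < y) ≠ (f' k < y)` then `V f = V f'` (there is one
automorphism which is `f' f⁻¹` on `f K` and the identity on `K'`; invariance of `φ`). Otherwise induction
on the number of such pairs: say `f k < y < f' k` for some (or exchange `f`, `f'`), choose `(k, y)` with `f k`
maximal, then `y` minimal: no point of `f K ∪ K'` lies between `f k` and `y`. Let `(c, d)` contain only `f k` and `y`
of `f K ∪ K'`, `y < p < d`, `f₁ = f` except `f₁ k = p`. `V f = V f₁`: for `u, v ∈ (c, d)`, `u ≠ v` let `X_u` (`Y_v`) be the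
translate of `f X` (of `Y`) by an automorphism which is the identity off `(c, d)` and moves `f k` to `u` (`y` to
`v`): `φ (X_u) (Y_v)` depends only on `u < v`; if it really depended there would be a ladder (increasing or
decreasing sequences `u_i = t_(2i+1)`, `v_j = t_(2j)` in `(c, d)`). -/
def St_INS : Prop :=
  ∀ (N : Type) [MulAction AQ N] (α β : Type) [Finite α] [Finite β] (φ : (α → N) → (β → N) → Prop),
    (∀ (g : AQ) X Y, φ (fun i => g • X i) (fun i => g • Y i) ↔ φ X Y) →
    (∀ (a : ℕ → α → N) (b : ℕ → β → N), ¬ ∀ i j, φ (a i) (b j) ↔ i < j) →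
    ∀ (X : α → N) (Y : β → N) (K K' : Finset ℚ), (∀ i, Spt K (X i)) → (∀ i, Spt K' (Y i)) →
      ∀ g : AQ, (∀ q ∈ K, q ∈ K' → g q = q) → (∀ q ∈ K, g q ∈ K' → q ∈ K') →
        (φ (fun i => g • X i) Y ↔ φ X Y)

/-- [LSP] (1.5h; INS, HOM) Least supports.
PROOF. `K₁`, `K₂` supports of `x` ⇒ `K₁ ∩ K₂` is one: let `g` fix `K₁ ∩ K₂` pointwise. Choose `h` fixing `K₁ ∩ K₂` such
that `h K₁` and `g h K₁` meet `K₂` only in `K₁ ∩ K₂` (HOM 2: `h` moves the points of `K₁ ∖ K₂` a little, avoiding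
`K₂` and `g⁻¹ K₂`). INS for the relation `X = Y` (no ladder: `a 0 = b 1 = a 1`... impossible) gives `h • x = x` and
`g • h • x = x`. So `g • x = x`. The intersection of finitely many suffices: least support. `sp (g • x)`: `K` supports
`x` iff `g K` supports `g • x`. Last part: `sp x ⊆ {i}`. -/
def St_LSP : Prop :=
  ∀ (L : FirstOrder.Language.{0, 0}) (N : Type) [L.Structure N] [MulAction AQ N], Sys L N →
    (∀ x : N, Spt (sp x) x) ∧ (∀ (x : N) (K : Finset ℚ), Spt K x → sp x ⊆ K) ∧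
    (∀ (g : AQ) (x : N) (q : ℚ), g q ∈ sp (g • x) ↔ q ∈ sp x) ∧
    (∀ (g h : AQ) (x : N), (∀ q ∈ sp x, g q = h q) → g • x = h • x) ∧
    (∀ (U : Set ℚ) (g : AQ) (x : N), Off U g → (g • x ∈ MU U ↔ x ∈ MU U)) ∧
    ∀ (U : Set ℚ) (g : AQ) (x : N), Off U g → x ∈ MU U → g • x = x

/-- [QEB] (1h) Calculus of `QE`, `TpM`: reflexive, symmetric, transitive, reindexing (for `QE`: `v ∘ f`, `w ∘ f`;
for `TpM` the same and adding elements of the base); invariance under the action. -/
def St_QEB : Prop :=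
  ∀ (L : FirstOrder.Language.{0, 0}) (N : Type) [L.Structure N] [MulAction AQ N], Sys L N →
    (∀ (ι : Type) (v : ι → N), QE L v v) ∧ (∀ (ι : Type) (v w : ι → N), QE L v w → QE L w v) ∧
    (∀ (ι : Type) (u v w : ι → N), QE L u v → QE L v w → QE L u w) ∧
    (∀ (ι κ : Type) (f : κ → ι) (v w : ι → N), QE L v w → QE L (v ∘ f) (w ∘ f)) ∧
    (∀ (ι : Type) (g : AQ) (v : ι → N), QE L (fun i => g • v i) v) ∧
    (∀ (ι : Type) (v w : ι → N), (∀ (n : ℕ) (f : Fin n → ι), QE L (v ∘ f) (w ∘ f)) → QE L v w) ∧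
    (∀ (U : Set ℚ) (α β : Type) (f : β → α) (X Y : α → N), TpM L U X Y → TpM L U (X ∘ f) (Y ∘ f)) ∧
    (∀ (U : Set ℚ) (α β : Type) (X Y : α → N) (m : β → N), (∀ i, m i ∈ MU U) → TpM L U X Y →
      QE L (Sum.elim X m) (Sum.elim Y m) ∧ TpM L U (Sum.elim X m) (Sum.elim Y m)) ∧
    ∀ (U : Set ℚ) (α : Type) (X : α → N) (g : AQ), Off U g → TpM L U (fun i => g • X i) X

/-- [INQ] (1.5h; INS, LSP, QEB) Insertion for atomic types.
PROOF. If the atomic types differ, one equation between an entry of `X` and one of `Y`, or one relation,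
differs. Relation `R` with places filled by entries of `X` (set `D` of places) and of `Y`: INS with
`α = β = Fin n` for `φ x y = R (Mix D x y)` and the tuples `X (t k)`, `Y (t k)` (at the other places any entry, or the
same element; the case that `X` or `Y` is empty is trivial). Equation: INS for `x i = y j` (no ladder). Equations
and relations inside `X` or inside `Y`: invariance. -/
def St_INQ : Prop :=
  ∀ (L : FirstOrder.Language.{0, 0}) (N : Type) [L.Structure N] [MulAction AQ N], Sys L N → Stab L N →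
    ∀ (α β : Type) [Finite α] [Finite β] (X : α → N) (Y : β → N) (g : AQ),
      (∀ q ∈ spt X, q ∈ spt Y → g q = q) → (∀ q ∈ spt X, g q ∈ spt Y → q ∈ spt Y) →
        QE L (Sum.elim (fun i => g • X i) Y) (Sum.elim X Y)

/-- [PSH] (1h; INQ, HOM 5) Pushing into the base: if the supports of `X` and `Y` are disjoint inside `U` then
`X` can be replaced by a tuple of the base. One `g` for all tuples `Y` with support in a given finite set `F`.
PROOF. HOM 5 with `K` = support of `X` and `F`; INQ. -/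
def St_PSH : Prop :=
  ∀ (L : FirstOrder.Language.{0, 0}) (N : Type) [L.Structure N] [MulAction AQ N], Sys L N → Stab L N →
    ∀ (U : Set ℚ), Cut U → ∀ (α : Type) [Finite α] (X : α → N) (F : Finset ℚ),
      (∀ q ∈ spt X, q ∈ U → q ∉ F) →
      ∃ g : AQ, (∀ i, g • X i ∈ MU U) ∧ ∀ (β : Type) [Finite β] (Y : β → N), spt Y ⊆ F →
        QE L (Sum.elim (fun i => g • X i) Y) (Sum.elim X Y)

/-- [IND] (1.5h; INQ, HOM) Independence: one `g` is enough; symmetry; disjoint supports; reindexing; base.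
PROOF. (1) `g`, `g'` both admissible, `m` in the base: the entries `g • X` and `g' • X` have supports disjoint from
`spt Y` inside `U`; `g' g⁻¹` and INQ (for the pair `g X`, `(Y, m)`; if `g' g⁻¹` is not admissible for INQ use a third one, HOM 4).
(2) symmetric: apply `g⁻¹`. (3) INQ. (4), (5) restrict; elements of the base can be added to both sides
(`m` is part of the definition; `g • m = m`). (6) invariance: conjugate `g`. -/
def St_IND : Prop :=
  ∀ (L : FirstOrder.Language.{0, 0}) (N : Type) [L.Structure N] [MulAction AQ N], Sys L N → Stab L N →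
    ∀ (U : Set ℚ), Cut U →
    (∀ (α β : Type) [Finite α] [Finite β] (X : α → N) (Y : β → N) (g : AQ), Off U g →
      (∀ q ∈ spt X, q ∈ U → g q ∉ spt Y) → TpM L U (Sum.elim (fun i => g • X i) Y) (Sum.elim X Y) →
      Ind L U X Y) ∧
    (∀ (α β : Type) [Finite α] [Finite β] (X : α → N) (Y : β → N), Ind L U X Y → Ind L U Y X) ∧
    (∀ (α β : Type) [Finite α] [Finite β] (X : α → N) (Y : β → N),
      (∀ q ∈ spt X, q ∈ U → q ∉ spt Y) → Ind L U X Y) ∧
    (∀ (α β γ δ : Type) [Finite α] [Finite β] [Finite γ] [Finite δ] (X : α → N) (Y : β → N)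
      (X' : γ → N) (Y' : δ → N), Ind L U X Y → (∀ i, X' i ∈ range X ∪ MU U) → (∀ i, Y' i ∈ range Y ∪ MU U) →
      Ind L U X' Y') ∧
    ∀ (α β : Type) [Finite α] [Finite β] (X : α → N) (Y : β → N) (h : AQ), Off U h → Ind L U X Y →
      Ind L U (fun i => h • X i) (fun i => h • Y i)

/-- [TRN] (2h; IND, PSH) Transitivity.
PROOF. `X | Y`, `XY | Z`. Let `g`, `h` be the identity off `U`, `g` moves the support of `X` away from that of `Y`, `Z`; `h`
moves the support of `Z` away from those of `X`, `Y`, `g X` (inside `U`). Over the base (∼ = same type over it):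
`(X, Y, Z) ∼ (X, Y, hZ)` [`Z | XY`]; with `Z'` in the base, a push of `hZ` (PSH, `F` = supports of `X`, `Y`, `gX`, `m`): `(X, Y, hZ, m) ∼ (X, Y, Z', m)
∼ (gX, Y, Z', m)` [`X | Y`] `∼ (gX, Y, hZ, m)`; with `X'` in the base, a push of `gX` (`F` = supports of `Y`, `Z`, `hZ`, `m`):
`(gX, Y, hZ, m) ∼ (X', Y, hZ, m) ∼ (X', Y, Z, m)` [`Z | Y`] `∼ (gX, Y, Z, m)`. So `X | YZ` (IND 1). -/
def St_TRN : Prop :=
  ∀ (L : FirstOrder.Language.{0, 0}) (N : Type) [L.Structure N] [MulAction AQ N], Sys L N → Stab L N →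
    ∀ (U : Set ℚ), Cut U → ∀ (α β γ : Type) [Finite α] [Finite β] [Finite γ]
      (X : α → N) (Y : β → N) (Z : γ → N), Ind L U X Y → Ind L U (Sum.elim X Y) Z → Ind L U X (Sum.elim Y Z)

/-- [FRE] (1h; IND, PSH) Independent unions are determined by the types of the parts.
PROOF. Move `X` and `X'` by `g` off all supports (`Y`, `Y'`, IND, HOM 4); push `g X` into the base (`F` = supports of `Y`,
`Y'`, `m`): `W`. `(X, Y, m) ∼ (gX, Y, m) ∼ (W, Y, m) ∼ (W, Y', m)`, and `(X', Y', m) ∼ (g'X', Y', m)`, push `g'X'` to `W'`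
(`F` large): `(W', Y', m)`; it remains `(W, Y', m) ∼ (W', Y', m)`: push `Y'` (moved off the supports) to `V` in the base:
`X` and `X'` have the same type over `V`, `m`. -/
def St_FRE : Prop :=
  ∀ (L : FirstOrder.Language.{0, 0}) (N : Type) [L.Structure N] [MulAction AQ N], Sys L N → Stab L N →
    ∀ (U : Set ℚ), Cut U → ∀ (α β : Type) [Finite α] [Finite β]
      (X X' : α → N) (Y Y' : β → N), Ind L U X Y → Ind L U X' Y' → TpM L U X X' → TpM L U Y Y' →
        TpM L U (Sum.elim X Y) (Sum.elim X' Y')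

/-- [SET] (1.5h; IND, TRN) The calculus for sets. -/
def St_SET : Prop :=
  ∀ (L : FirstOrder.Language.{0, 0}) (N : Type) [L.Structure N] [MulAction AQ N], Sys L N → Stab L N →
    ∀ (U : Set ℚ), Cut U →
    (∀ A B : Set N, IndS L U A B → IndS L U B A) ∧
    (∀ A B A' B' : Set N, IndS L U A B → A' ⊆ A ∪ MU U → B' ⊆ B ∪ MU U → IndS L U A' B') ∧
    (∀ A B C : Set N, IndS L U A B → IndS L U (A ∪ B) C → IndS L U A (B ∪ C)) ∧
    (∀ A B : Set N, (∀ a ∈ A, ∀ b ∈ B, ∀ q ∈ sp a, q ∈ U → q ∉ sp b) → IndS L U A B) ∧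
    (∀ A B : Set N, (∀ A' ⊆ A, ∀ B' ⊆ B, A'.Finite → B'.Finite → IndS L U A' B') → IndS L U A B) ∧
    (∀ (A B : Set N) (h : AQ), Off U h → IndS L U A B →
      IndS L U ((fun x => h • x) '' A) ((fun x => h • x) '' B)) ∧
    ∀ (α β : Type) [Finite α] [Finite β] (X : α → N) (Y : β → N), Ind L U X Y ↔ IndS L U (range X) (range Y)

/-- [FLD] (1.5h; SET) The free parts form a complete field of subsets of `(MU U)ᶜ`, invariant under the
automorphisms which are the identity off `U`.
PROOF. Complements: symmetry. `A, B ∈ Fre`: `A ∩ B`: put `P = A ∩ B`, `Q = A ∖ B`, `R = (MU U)ᶜ ∖ A`: `P | Q` (`B` is free), `PQ | R`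
(`A` is free): `P | QR`. Arbitrary intersections: a finite tuple outside `⋂ A_i` is outside of a finite
intersection. -/
def St_FLD : Prop :=
  ∀ (L : FirstOrder.Language.{0, 0}) (N : Type) [L.Structure N] [MulAction AQ N], Sys L N → Stab L N →
    ∀ (U : Set ℚ), Cut U →
    (∀ A ∈ Fre L (N := N) U, (MU U)ᶜ \ A ∈ Fre L (N := N) U) ∧
    (∀ 𝒜 ⊆ Fre L (N := N) U, (MU U)ᶜ ∩ ⋂₀ 𝒜 ∈ Fre L (N := N) U) ∧
    ∀ A ∈ Fre L (N := N) U, ∀ h : AQ, Off U h → (fun x => h • x) '' A ∈ Fre L (N := N) U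

/-- [SWP] (2h; FLD, FRE) The swap: `A ∈ Fre`, `h` the identity off `U`, `B = h A` disjoint from `A`. The map `h` on `A`,
`h⁻¹` on `B`, the identity elsewhere is an automorphism.
PROOF. Bijection: clear. Atomic types: a finite tuple is split into its parts in `A`, `B`, the rest of
`(MU U)ᶜ` and the base; `A | (MU U)ᶜ ∖ A`, and `B | (MU U)ᶜ ∖ B` (so the three parts are independent, also their
images: `h` maps `A` to `B` and `h⁻¹` maps `B` to `A`); the types over the base of the parts do not change (QEB); FRE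
twice. -/
def St_SWP : Prop :=
  ∀ (L : FirstOrder.Language.{0, 0}) (N : Type) [L.Structure N] [MulAction AQ N], Sys L N → Stab L N →
    ∀ (U : Set ℚ), Cut U → ∀ (A : Set N) (h : AQ), Off U h → A ∈ Fre L (N := N) U →
      Disjoint A ((fun x => h • x) '' A) → ∃ σ : N ≃ N, Aut L σ ∧ (∀ x ∈ A, σ x = h • x) ∧
        (∀ x ∈ A, σ (h • x) = x) ∧ ∀ x, x ∉ A → x ∉ (fun x => h • x) '' A → σ x = x

/-- [LNK] (2h; SWP, FLD, SET, LSP) The link.
PROOF. Suppose not. `Ai`, `Aj` = the sets of entries of `c i`, `c j` not in the base; an entry in the base is fixed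
by all `g` off `U`, so `c i k = c j k` for it; an entry of `c i` not in the base has support `{i}`.
(a) For every finite `Z ⊆ (MU U)ᶜ` with `Ai, Aj ⊆ Z` there is `Z₁ ⊆ Z` with `Ai ⊆ Z₁`, `Z₁ ∩ Aj = ∅`, `Z₁ | Z ∖ Z₁`: otherwise,
for `u ∈ Ai` let `At u` be the intersection of all `Z₁ ⊆ Z` with `u ∈ Z₁`, `Z₁ | Z ∖ Z₁` (again such a set, as in FLD);
the union of the `At u` is free in `Z`; if it misses `Aj` we are done, otherwise `v ∈ At u` for some `v ∈ Aj`,
which is the conclusion. (b) Compactness (`N` countable; e.g. Tychonoff for `N → Bool`, or an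
ultrafilter on the finite subsets): `A ∈ Fre` with `Ai ⊆ A`, `A ∩ Aj = ∅`. (c) `A₁` = the intersection of all such `A`
(free sets containing `Ai`); `h` off `U` with `h i = j`; `h A₁` is the least free set containing `Aj`, it is contained
in `(MU U)ᶜ ∖ A₁`. SWP: `σ` preserves `P` (`P` is invariant) and exchanges `c i` and `c j`: contradiction to
`ψ (c i) (c j)`, `¬ ψ (c j) (c i)`. -/
def St_LNK : Prop :=
  ∀ (L : FirstOrder.Language.{0, 0}) (N : Type) [L.Structure N] [MulAction AQ N], Sys L N → Stab L N →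
    ∀ (P : Set N), (∀ (g : AQ) x, g • x ∈ P ↔ x ∈ P) →
    ∀ (k : ℕ) (ψ : (Fin k → N) → (Fin k → N) → Prop),
      (∀ σ : N ≃ N, Aut L σ → (∀ x, σ x ∈ P ↔ x ∈ P) → ∀ c d, ψ (fun i => σ (c i)) (fun i => σ (d i)) ↔ ψ c d) →
    ∀ c : ℚ → Fin k → N, (∀ (g : AQ) q i, g • c q i = c (g q) i) → (∀ p q, p ≠ q → (ψ (c p) (c q) ↔ p < q)) →
    ∀ (U : Set ℚ), Cut U → ∀ i ∈ U, ∀ j ∈ U, i < j →
      ∃ (Z : Finset N) (u v : N), (∀ z ∈ Z, z ∉ MU U) ∧ u ∈ Z ∧ v ∈ Z ∧ sp u = {i} ∧ sp v = {j} ∧
        ∀ Z₁ : Set N, Z₁ ⊆ Z → u ∈ Z₁ → v ∉ Z₁ → ¬ IndS L U Z₁ (Z \ Z₁)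

end EAU
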