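import Pool.Agent.EAU.StA
import Pool.Agent.EAU.DefsD

/-!
# EAU, part D: statements (helper22), with proofs in the docstrings

`St_HOM`, `St_LSP`, `St_QEB`, `St_INQ`, `St_PSH`, `St_SET` are statements of part A.
-/

set_option autoImplicit false
set_option linter.unusedVariables false

noncomputable section

namespace EAU

open Set FirstOrder.Language
open scoped Classical

/-! ### Order automorphisms of the rationals -/

/-- [BLK] (2 h; HOM) Translates outside `U` in consecutive blocks.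
PROOF.  A point not in `U` is below all of `U` or above all of `U` (`cv`).  Let `q'` be the least element of
`F` above `U`, or (if there is none) any rational above `U` (`bd`); `ab`: `r < q'` with `r` above `U`.
So `(r, q')` is above `U` and contains no element of `F`.  Choose `M` with `-M < q < M` for `q ∈ D`.
`f l` = the increasing affine map of `[-M, M]` onto `[r + (q' - r) l / (l + 1), r + (q' - r) (l + 1) / (l + 2)]`
(a little inside of `(r, q')` for `l = 0`: use `(l + 1) / (l + 2)`, `(l + 2) / (l + 3)`).  `γ l` = the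
automorphism of HOM (2) for `K = D ∪ F` and `f l` on `D`, the identity on `F` (strictly monotone:
elements of `F` below `U` are smaller than `D` and than `r`, elements of `F` above `U` are `≥ q'`).  If `l < l'`
then `f l q < f l' q'`.  Last part: HOM (2) for `K = (⋃ i, γ (s i) '' D) ∪ F`, and the map `γ (s i) q ↦ γ i q`
(`q ∈ D`), the identity on `F` (well defined and strictly monotone by the third property, as `s` is
strictly monotone; define it at `x` as `γ i ((γ (s i)).symm x)` for the `i` with `x ∈ γ (s i) '' D`). -/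
def St_BLK : Prop :=
  ∀ U : Set ℚ, Cut U → ∀ D F : Finset ℚ, (∀ q ∈ D, q ∈ U) → (∀ q ∈ F, q ∉ U) →
    ∃ γ : ℕ → AQ, (∀ l, ∀ q ∈ F, γ l q = q) ∧ (∀ l, ∀ q ∈ D, γ l q ∉ U) ∧
      (∀ l l', l < l' → ∀ q ∈ D, ∀ q' ∈ D, γ l q < γ l' q') ∧
      ∀ (k : ℕ) (s : Fin k → ℕ), StrictMono s →
        ∃ g : AQ, (∀ q ∈ F, g q = q) ∧ ∀ (i : Fin k), ∀ q ∈ D, g (γ (s i) q) = γ i q

/-- [STP] (1.2 h; HOM) Fresh copies of a finite set with one given point.
PROOF.  HOM (3) for `{q₀}` gives `g₁`, `Off U g₁`, `g₁ q₀ = p`.  Let `δ > 0` be a rational number which is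
smaller than all positive differences of elements of `E ∪ g₁ '' K` and such that `g₁ q + δ ∈ U` for
`q ∈ K` (`up`, `cv`).  `f q = g₁ q + δ` for `q ∈ K`, `q ≠ q₀`, `f q₀ = p`.  `f` is strictly monotone on `K` (the gaps
of `g₁ '' K` are larger than `δ`), `f q ∉ E` for `q ≠ q₀` (an element of `E` at distance `δ` from `g₁ q` is
impossible).  HOM (3) for `K`, `f`. -/
def St_STP : Prop :=
  ∀ U : Set ℚ, Cut U → ∀ K : Finset ℚ, (∀ q ∈ K, q ∈ U) → ∀ q₀ ∈ K, ∀ p ∈ U, ∀ E : Finset ℚ,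
    ∃ g : AQ, Off U g ∧ g q₀ = p ∧ ∀ q ∈ K, q ≠ q₀ → g q ∉ E

/-- [EMB] (2.5 h; STP) The embeddings for the path and the pendants.
PROOF.  Recursion on `m` for triples `(h (2m), g m, h (2m+1))`: `h 0 = 1`; `g m` from STP with `q₀ = i`,
`p = h (2m) i`, `E` = the finite set of all values `h n q`, `g n q` (`q ∈ K`) chosen before;
`h (2m+1)` from STP with `q₀ = j`, `p = h (2m) j`, `E` = all values before; `h (2m+2)` with `q₀ = i`,
`p = h (2m+1) i`, `E` = all values before.  (Recursion on the triple together with the finite set of all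
values chosen so far; the values `g n q`, `h n q` of one stage are put into the set for the next one.)
Sharing: a value `h n q` is fresh at its stage if `q ≠ j` (`n` odd), `q ≠ i` (`n > 0` even), and
`h (2m+1) j = h (2m) j`, `h (2m+2) i = h (2m+1) i`; `g m q`, `q ≠ i`, is fresh, `g m i = h (2m) i`.  So a
value `h n q` is fresh at stage `n`, or it is `h (n-1) c` with `c = j` (`n` odd) or `c = i` (`n` even), and there
it is fresh, or `n - 1 = 0` (`c` is not the shared index at `n - 1`).  Hence `h n q = h m q'` implies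
`n ≤ m + 1`.  `h n q = g m q'`: if `q' ≠ i`, `g m q'` is fresh and never used again (a younger `h n q` is fresh or
equal to a value of `h` which is not `g m q'`); if `q' = i` the value is `h (2m) i`, fresh at `2m - 1` (or `m = 0`), and
it occurs in `h n` only for `n = 2m - 1`, `2m`.  `g n q = g m q'` with `n < m`: `g m q'` is fresh or `h (2m) i`, fresh at
`2m - 1`, later than `g n`.  Last: `g m j` is fresh, and the later `h n q` are fresh or older values of `h`. -/
def St_EMB : Prop :=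
  ∀ U : Set ℚ, Cut U → ∀ K : Finset ℚ, (∀ q ∈ K, q ∈ U) → ∀ i ∈ K, ∀ j ∈ K, i ≠ j →
    ∃ h g : ℕ → AQ, (∀ n, Off U (h n)) ∧ (∀ n, Off U (g n)) ∧
      (∀ n, Even n → h (n + 1) j = h n j) ∧ (∀ n, ¬ Even n → h (n + 1) i = h n i) ∧
      (∀ m, g m i = h (2 * m) i) ∧
      (∀ n m, ∀ q ∈ K, ∀ q' ∈ K, h n q = h m q' → n ≤ m + 1) ∧
      (∀ n m, ∀ q ∈ K, ∀ q' ∈ K, h n q = g m q' → n ≤ 2 * m ∧ 2 * m ≤ n + 1) ∧
      (∀ n m, ∀ q ∈ K, ∀ q' ∈ K, g n q = g m q' → n = m) ∧
      (∀ n m, ∀ q ∈ K, g m j ≠ h n q)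

/-! ### The abstract part -/

/-- [CHN] (1.5 h; no other module) Chains.
PROOF.  `S = insert y B`, `card ≤ l + 1`.  `C 0 = X`, `C (k+1) = C k ∪ {z ∈ S | ∃ x ∈ C k, (s x ∩ s z).Nonempty}`
(finite sets).  `C k ∩ S` increases and has at most `l + 1` elements; if
`C k ∩ S = C (k+1) ∩ S` then `C k = C (k+1) = ...`; so `C (l+1)` is closed: `x ∈ C (l+1)`, `z ∈ S`, `s x ∩ s z` not
empty implies `z ∈ C (l+1)`.  Let `C = C (l+1)`, `B₁ = B ∩ C`.  `y ∈ C`: otherwise let
`B₂ = insert y (B \ C)`; the supports of the elements of `X ∪ B₁` are disjoint from those of `B₂`, so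
`D (X ∪ B₁) B₂` (`dis`), `D X B₁` (`mono`), `D X (B₁ ∪ B₂)` (`tr`), which is `D X (insert y B)`.
`¬ D X (insert y B₁)`: otherwise with `B₂ = B \ C`: `D (X ∪ insert y B₁) B₂` (`dis`), so
`D X (insert y B₁ ∪ B₂) = D X (insert y B)`.  Last statement: by induction `C k ⊆ Bl s A u (m + k)`, and
`insert y B₁ ⊆ C (l + 1)`. -/
def St_CHN : Prop :=
  ∀ (N ι : Type) (s : N → Set ι) (D : Finset N → Finset N → Prop), IAx s D →
    ∀ (l : ℕ) (X B : Finset N) (y : N), B.card ≤ l → D X B → ¬ D X (insert y B) →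
    ∃ B₁ ⊆ B, D X B₁ ∧ ¬ D X (insert y B₁) ∧
      ∀ (A : Set N) (u : N) (m : ℕ), (X : Set N) ⊆ Bl s A u m → (∀ z ∈ insert y B, z ∈ A) →
        ∀ z ∈ insert y B₁, z ∈ Bl s A u (m + (l + 1))

/-- [LOC] (1.5 h; CHN) Locality.
PROOF.  (1) `Rr ⊆ A`: induction (`vis ⊆ A`).  (2) `Rr r ⊆ Bl ((l+1) * r)`: `y ∈ vis A X`, `X ⊆ Rr r ⊆ Bl ((l+1) * r)`,
CHN: `y ∈ Bl ((l+1) * r + (l+1))`; `Bl` is increasing in the radius.  (3) supports are not empty: if `s y = ∅`,
`D X B` then `D (X ∪ B) {y}` (`dis`), so `D X (B ∪ {y})` (`tr`): `y` is not in `vis`.  (4) monotone in `A`: `vis D l A X ⊆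
vis D l A' X`.  (5) Induction on `r`: `Bl s A' u ((l+1) * r) ⊆ A` too.  Let `y ∈ vis A' X`, `X ⊆ Rr A' r = Rr A r`, witness
`B`; CHN gives `B₁`, with `insert y B₁ ⊆ Bl s A' u ((l+1) * r + (l+1)) ⊆ A` (`X ⊆ Bl s A' u ((l+1) * r)` by (2)), and
`B₁.card ≤ l`: so `y ∈ vis A X`. -/
def St_LOC : Prop :=
  ∀ (N ι : Type) (s : N → Set ι) (D : Finset N → Finset N → Prop), IAx s D →
    ∀ (l : ℕ) (A : Set N) (u : N), u ∈ A → ∀ r : ℕ,
      Rr D l A u r ⊆ A ∧ Rr D l A u r ⊆ Bl s A u ((l + 1) * r) ∧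
      ((s u).Nonempty → ∀ y ∈ Rr D l A u r, (s y).Nonempty) ∧
      ∀ A' : Set N, A ⊆ A' → Rr D l A u r ⊆ Rr D l A' u r ∧
        (Bl s A' u ((l + 1) * r) ⊆ A → Rr D l A' u r = Rr D l A u r)

/-- [GRO] (1.2 h; no other module) Growth.
PROOF.  Claim: for `k ≤ l`: `b ∈ Rr (r + k)` or `F ∩ Rr (r + k)` has at least `k + 1` elements.  `k = 0`:
`a ∈ F ∩ Rr r`.  Step: if `b ∉ Rr (r + k)` let `X = F ∩ Rr (r + k)` (filter), `Y = F \ X`; `a ∈ X`, `b ∉ X`, so
`¬ D X Y`.  `D X ∅` (`dis`).  Let `B ⊆ Y` be minimal with `¬ D X B` (`Finset` strong induction on the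
cardinality); `B` is not empty, `y ∈ B`, `D X (B.erase y)`, `(B.erase y).card ≤ l`, `⊆ A`, so `y ∈ vis A X`
(`insert y (B.erase y) = B`), `y ∈ Rr (r + k + 1)`, `y ∉ X`.  For `k = l`: `F` has at most `l` elements, so
`b ∈ Rr (r + l)`.  (`Rr` is increasing in `r`.) -/
def St_GRO : Prop :=
  ∀ (N ι : Type) (s : N → Set ι) (D : Finset N → Finset N → Prop), IAx s D →
    ∀ (l : ℕ) (A : Set N) (u : N) (F : Finset N) (a b : N), (F : Set N) ⊆ A → F.card ≤ l →
      a ∈ F → b ∈ F → (∀ X ⊆ F, a ∈ X → b ∉ X → ¬ D X (F \ X)) →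
      ∀ r, a ∈ Rr D l A u r → b ∈ Rr D l A u (r + l)

/-- [BAL] (1.2 h; no other module) Balls in the path with pendants.
PROOF.  Induction on `r`.  `r = 0`: `vt 0 ∈ P 0`.  Step: `y ∈ Az`, `x ∈ Bl r`, `s x ∩ s y` not empty; so
`s y ≠ ∅` and `y ∈ P m` or `y ∈ Q (b k)`, `z k`.  `x ∈ P n`, `n ≤ r`: in the first case `m ≤ n + 1` (`pp` with the
roles exchanged), in the second `2 * b k ≤ n + 1` (`pq`).  `x ∈ Q (b k')`, `2 * b k' ≤ r`: `m ≤ 2 * b k'` (`pq`),
or `b k = b k'` (`qq`).  Second statement: a set of this form is contained in a finite union of finite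
sets (`b` strictly monotone: `k ≤ b k ≤ r`). -/
def St_BAL : Prop :=
  ∀ (N ι : Type) (s : N → Set ι) (D : Finset N → Finset N → Prop) (l : ℕ) (P Q : ℕ → Finset N)
    (vt pe : ℕ → N), Cat s D l P Q vt pe → ∀ (b : ℕ → ℕ), StrictMono b →
    ∀ (z : ℕ → Bool) (r : ℕ),
      (∀ x ∈ Bl s (Az s P Q b z) (vt 0) r,
        (∃ n ≤ r, x ∈ P n) ∨ ∃ k, z k = true ∧ 2 * b k ≤ r ∧ x ∈ Q (b k)) ∧
      (Bl s (Az s P Q b z) (vt 0) r).Finite

/-- [CNT] (2.5 h; LOC, GRO, BAL) The numbers of visible elements determine `z`.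
PROOF.  `b` by recursion with `b 0 = 1` and `2 * b (k+1) > (l + 1) * (l * (2 * b k + 1)) + 2 * b k`; strictly
monotone.  Let `A z = Az s P Q b z`, `u = vt 0`.  (a) GRO with `F = P n ⊆ A z`: `vt n ∈ Rr (l * n)` for all `n`;
with `F = Q (b k)` if `z k = true`: `pe (b k) ∈ Rr (A z) (r k)`, `r k = l * (2 * b k + 1)`.  (b) Let `z ≠ z'`, `k` the least
index with `z k ≠ z' k`; by symmetry `z k = true`, `z' k = false`.  `z₁ j = z j` for `j ≤ k`, `false` for `j > k`;
`z₀ j = z j` for `j < k`, `false` otherwise.  `A z₁ ⊆ A z`, and `Bl s (A z) u ((l+1) * r k) ⊆ A z₁` by BAL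
(`2 * b j ≤ (l+1) * r k` implies `j ≤ k`), so `Rr (A z) (r k) = Rr (A z₁) (r k)` (LOC); the same for
`z'`, `z₀` (`2 * b j ≤ (l+1) * r k` implies `j ≤ k`, and `j ≠ k` as `z' k = false`).
`Rr (A z₀) (r k) ⊆ Rr (A z₁) (r k)` (LOC), `pe (b k)` is in the right side and not in the left one, which is
contained in `A z₀`: `pe (b k) ∉ P n` (`wn`), `s (pe (b k)) ≠ ∅` (`nQ`), `pe (b k) ∈ Q (b j)` implies
`b j = b k` (`qq`), `j = k`.  Both are finite (LOC, BAL): `Set.ncard_lt_ncard`.
(c) clopen: `x` with `s x = ∅` or `x ∈ P n` for some `n`: all of `z`; otherwise `x ∈ Az z` iff `z k = true` for some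
`k` with `x ∈ Q (b k)`, and there is at most one such `k` (`qq`, `nQ`, `b` injective). -/
def St_CNT : Prop :=
  ∀ (N ι : Type) (s : N → Set ι) (D : Finset N → Finset N → Prop) (l : ℕ) (P Q : ℕ → Finset N)
    (vt pe : ℕ → N), IAx s D → Cat s D l P Q vt pe → ∃ b : ℕ → ℕ, StrictMono b ∧
      (∀ x, IsClopen {z | x ∈ Az s P Q b z}) ∧
      ∀ z z' : ℕ → Bool, z ≠ z' → ∃ r, (Rr D l (Az s P Q b z) (vt 0) r).Finite ∧
        (Rr D l (Az s P Q b z') (vt 0) r).Finite ∧
        (Rr D l (Az s P Q b z) (vt 0) r).ncard ≠ (Rr D l (Az s P Q b z') (vt 0) r).ncard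

/-- [RIN] (1.5 h; LOC) Isomorphisms which respect the independence preserve the visible sets.
PROOF.  Induction on `r`; `r = 0`: `f u = u`.  Step.  (⊆) `y ∈ vis A X`, `X ⊆ Rr A r`, `card ≤ l`, witness `B`.
`X.image f ⊆ Rr A' r` by induction, `(s x).Nonempty` for `x ∈ X` and for `x ∈ X.image f` by LOC
(`u ∈ A'`, `f u = u`).  `D X B ↔ D (X.image f) (B.image f)`, `D X (insert y B) ↔ D (X.image f) (insert (f y) (B.image f))`
(`Finset.image_insert`; `card ≤ l + 1`), so `f y ∈ vis A' (X.image f)`.  (⊇) `y' ∈ vis A' X'`, `X' ⊆ Rr A' r = f '' Rr A r`,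
`B'`.  `X = X'.image f'`, `B = B'.image f'`, `y = f' y'`: `X.image f = X'` etc. (`f (f' z) = z` on `A'`), `X ⊆ Rr A r` (an
element of `X` is `f' (f x) = x`, `x ∈ Rr A r`); the same equivalences in the other direction. -/
def St_RIN : Prop :=
  ∀ (N ι : Type) (s : N → Set ι) (D : Finset N → Finset N → Prop), IAx s D →
    ∀ (l : ℕ) (A A' : Set N) (f f' : N → N) (u : N), u ∈ A → (s u).Nonempty → f u = u →
      (∀ x ∈ A, f x ∈ A') → (∀ y ∈ A', f' y ∈ A) → (∀ x ∈ A, f' (f x) = x) →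
      (∀ y ∈ A', f (f' y) = y) →
      (∀ X B : Finset N, (X : Set N) ⊆ A → (∀ x ∈ X, (s x).Nonempty ∧ (s (f x)).Nonempty) →
        X.card ≤ l → (B : Set N) ⊆ A → B.card ≤ l + 1 →
        (D X B ↔ D (X.image f) (B.image f))) →
      ∀ r, f '' Rr D l A u r = Rr D l A' u r

/-! ### Systems -/

/-- [MAJ] (3 h; BLK, HOM, LSP, QEB, INQ) The value for an independent tuple is the majority of the
values for translates in the base.
PROOF.  `D = ⋃ i, us (τ i)`, `F = ⋃ i, sp (τ i) \ U`, `γ` from BLK; `γ l • τ i ∈ MU U` (LSP 3).  Let `X`, `Y`, `p` be as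
in the statement, `V(X, Y) = val R p X Y`, `ρ = V(X, Y)`.
(A) For all but finitely many `l`: `V(γ l • τ, Y) ↔ V(X, Y)`.  Choose `g` (HOM 4), `Off U g`, `g (us X) ∩ spt Y = ∅`:
`V(X, Y) ↔ V(gX, Y)` (hypothesis).  Choose `δ` (HOM 5, `K = spt Y`, `F = spt X ∪ spt gX ∪ spt τ`): `δY` in the base, `δ` is the
identity on `spt Y \ U`, and `δ q ∉ spt X, spt gX, spt τ` for `q ∈ us Y`.  `V(gX, Y) ↔ V(gX, δY)` by INQ (moved indices of
`Y` are in `us Y`, not in `spt gX`).  `V(gX, δY) ↔ V(X, δY)` (apply `g⁻¹`, `Off U`: it fixes `δY`) `↔ V(τ, δY)` (`TpM`)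
`↔ V(γ l τ, δY)` by INQ with `γ l` (the moved indices of `τ` are in `D ⊆ U`, not in `spt δY`; `γ l D ∩ spt δY = ∅` for all but
finitely many `l`: the blocks are disjoint) `↔ V(γ l τ, Y)` by INQ with `δ⁻¹` on `δY` (moved indices: `δ (us Y)`, not in `F`,
and not in `γ l D` for almost all `l`; their images are in `us Y ⊆ U`, not in `F ∪ γ l D`).
(B) Let `NL K R {k | (p k).isLeft}`.  If `> K` of the `l < 2K+1` have the value `≠ ρ`, let `l_0 < ... < l_K` be such, and
`q_0 < ... < q_K` larger, with value `ρ` (A).  For `j ≤ K + 1` the sequence `l_0, .., l_(j-1), q_j, .., q_K` is strictly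
increasing; `g_j` from the last part of BLK; `b_j = g_j Y`, `a_i = γ i • τ` (`i ≤ K`; `(g_j * γ (s i)) • τ k = γ i • τ k`: they
agree on `sp (τ k)`, LSP 4): `V(a_i, b_j)` is the value of `V(γ (s i) τ, Y)`: `≠ ρ` iff `i < j`.  If `ρ` is false this is a ladder
of length `K` (`i, j < K`; fill the places with `Mix`); if `ρ` is true then `V(a_i, b_j)` iff `j ≤ i`, and
`k ↦ a_(K-1-k)`, `l ↦ b_(K-l)` is a ladder.  So fewer than `K + 1` of the `2K + 1` values are wrong: `ρ` true gives `> K` true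
ones, `ρ` false at most `K`. -/
def St_MAJ : Prop :=
  ∀ (L : FirstOrder.Language.{0, 0}) (N : Type) [L.Structure N] [MulAction AQ N], Sys L N → Stab L N →
    ∀ (U : Set ℚ), Cut U → ∀ (a : ℕ) (τ : Fin a → N),
    ∃ γ : ℕ → AQ, (∀ l i, γ l • τ i ∈ MU U) ∧
      ∀ (K n b : ℕ) (R : L.Relations n) (p : Fin n → Fin a ⊕ Fin b),
        NL L N K R {k | (p k).isLeft = true} → ∀ (X : Fin a → N) (Y : Fin b → N), TpM L U X τ →
        (∀ g : AQ, Off U g → (∀ q ∈ spt X, q ∈ U → g q ∉ spt Y) →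
          (val R p X Y ↔ val R p (fun i => g • X i) Y)) →
        (val R p X Y ↔
          K < {l : ℕ | l < 2 * K + 1 ∧ val R p (fun i => γ l • τ i) Y}.ncard)

/-- [ORB] (2 h; HOM, LSP) Finitely many orbits of tuples of translates.
PROOF.  `K₀ = ⋃ z ∈ Z, us z` (finite), `d = t * K₀.card`.  Fix an increasing sequence of `d` points of `U`, the set
`P`.  Let `x k = h k • z k`.  The finite set `S = ⋃ k, h k '' us (z k)` has at most `d` elements and is contained in `U`; HOM
(3) gives `g`, `Off U g`, which maps `S` (in increasing order) into `P`.  `g • x k = (g * h k) • z k` is determined by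
`z k` and the restriction of `g * h k` to `us (z k)` (LSP 4: two automorphisms with `Off U` which agree on `us z` give
the same element), a map to `P`: finitely many possibilities (the set `T` of all tuples `k ↦ f k • z k`
where `z : Fin t → Z` and `f k` is, for each function `K₀ → P`, a chosen automorphism `Off U` extending it on `us (z k)` if
there is one).  `x = g⁻¹ •` of an element of `T`, with entries in `Wd`. -/
def St_ORB : Prop :=
  ∀ (L : FirstOrder.Language.{0, 0}) (N : Type) [L.Structure N] [MulAction AQ N], Sys L N →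
    ∀ (U : Set ℚ), Cut U → ∀ (Z : Finset N) (t : ℕ),
    ∃ T : Set (Fin t → N), T.Finite ∧ ∀ x : Fin t → N, (∀ k, x k ∈ Wd U Z) →
      ∃ τ ∈ T, (∀ k, τ k ∈ Wd U Z) ∧ ∃ h : AQ, Off U h ∧ ∀ k, x k = h • τ k

/-- [SEP] (1.5 h; ORB, QEB, LSP) Finitely many elements of the base separate the types over the base
of tuples of translates.
PROOF.  `T` from ORB.  `TpM U (h • x) x` for `Off U h` (QEB, last item).  For every pair `(τ, τ') ∈ T × T` with
`¬ TpM U τ τ'` choose `m : Fin n → N` in the base with `¬ QE (τ, m) (τ', m)`; `e` = the set of all entries of these `m`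
(finitely many pairs).  Let `TpE e x y`, `x = h • τ`, `y = h' • τ'`.  Then `TpE e τ τ'`: `(τ, m) ~ (h τ, h m) = (x, m)` for `m` in
`e ⊆ MU U`, `~ (y, m) ~ (τ', m)`.  So `TpM U τ τ'` by the choice of `e`, so `TpM U x y`. -/
def St_SEP : Prop :=
  ∀ (L : FirstOrder.Language.{0, 0}) (N : Type) [L.Structure N] [MulAction AQ N], Sys L N →
    ∀ (U : Set ℚ), Cut U → ∀ (Z : Finset N) (t : ℕ),
    ∃ e : Finset N, (e : Set N) ⊆ MU U ∧ ∀ x y : Fin t → N, (∀ k, x k ∈ Wd U Z) →
      (∀ k, y k ∈ Wd U Z) → TpE L (e : Set N) x y → TpM L U x y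

/-- [VIO] (2.5 h; IND, SET, LSP, QEB, INQ, MAJ, ORB) Violations.  For tuples of lengths `t ≤ l`, `s ≤ l + 1` of
translates which are dependent, a relation with parameters in a finite set `e` of the base differs
from the majority for translates in `e`; `K` is the same for all.
PROOF.  For `t ≤ l`, `s ≤ l + 1` let `T` be from ORB for `t + s`; for every `τ = (τ₁, τ₂) ∈ T` (`Fin.append` / `Fin.castAdd`, `Fin.natAdd`)
with entries in `Wd`, `¬ Ind τ₁ τ₂` and `range τ₁`, `range τ₂` disjoint: by the definition of `Ind` there are `g₀`, `Off U g₀`, `g₀ (us τ₁) ∩ spt τ₂ = ∅`, and `m : Fin c → N` in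
the base with `¬ QE ((g₀ τ₁, τ₂), m) ((τ₁, τ₂), m)`.  Equalities agree: between entries of `τ₁`, or of `τ₂`, `m`: clear; between `τ₁`
and `τ₂`: none on the right by hypothesis, none on the left because an entry of `g₀ τ₁` is outside the base (its
support meets `U`, in a point not in `spt τ₂`); between `τ₁` and `m`: none.  So a relation `R` with places `π : Fin n → (Fin t ⊕
Fin s) ⊕ Fin c` differs.  Let `p : Fin n → Fin t ⊕ Fin (s + c)` be the same places, `Y₀ = (τ₂, m)`.  `γ` from MAJ for `τ₁`.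
`K` = the maximum over the finitely many `τ` of the bounds `K_τ` of `LB` for `R`, `{k | (p k).isLeft}`
(`NL K → NL K'` for `K ≤ K'`: restrict with `Fin.castLE`).  `e` = all entries of the `m`, all `γ l' • τ₁ i`, `l' < 2 K + 1`.
Now let `x`, `y` be as in the statement, `(x, y) = h • (τ₁, τ₂)`.  `¬ Ind τ₁ τ₂` (IND, invariance), so the data above exist.
`val R p x (y, m)` and `val R p (h g₀ τ₁) (y, m)` differ (apply `h`, `h m = m`).  MAJ for `τ₁` and the tuple `x'' = h g₀ τ₁`, `(y, m)`: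
`TpM x'' τ₁` (QEB); the hypothesis on `g`: INQ (the support of `x''` inside `U` is `h g₀ (us τ₁)`, disjoint from that of `y = h τ₂`
and `m`).  So `val R p x (y, m)` differs from the majority.  The output data are those of `τ₁`: `z i j`, `j < 2K+1`, the
translates `γ j • τ₁ i`; the last clause (for ANY tuples `x'`, `y'` with `x'` of the type of `x` and `x'` moved freely
past `y'`) is MAJ again. -/
def St_VIO : Prop :=
  ∀ (L : FirstOrder.Language.{0, 0}) (N : Type) [L.Structure N] [MulAction AQ N], Sys L N → Stab L N →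
    LB L N → ∀ (U : Set ℚ), Cut U → ∀ (Z : Finset N), (∀ z ∈ Z, z ∉ MU U) → ∀ l : ℕ,
    ∃ (e : Finset N) (K : ℕ), (e : Set N) ⊆ MU U ∧ ∀ (t s : ℕ), t ≤ l → s ≤ l + 1 →
      ∀ (x : Fin t → N) (y : Fin s → N), (∀ i, x i ∈ Wd U Z) → (∀ i, y i ∈ Wd U Z) →
      (∀ i j, x i ≠ y j) → ¬ Ind L U x y →
      ∃ (n c : ℕ) (R : L.Relations n) (p : Fin n → Fin t ⊕ Fin (s + c)) (m : Fin c → N)
        (z : Fin t → ℕ → N), (∀ i, m i ∈ e) ∧ (∀ i j, j < 2 * K + 1 → z i j ∈ e) ∧
        ¬ (val R p x (Fin.append y m) ↔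
          K < {j : ℕ | j < 2 * K + 1 ∧ val R p (fun i => z i j) (Fin.append y m)}.ncard) ∧
        ∀ (x' : Fin t → N) (y' : Fin s → N), TpM L U x' x →
          (∀ g : AQ, Off U g → (∀ q ∈ spt x', q ∈ U → g q ∉ spt y') →
            (val R p x' (Fin.append y' m) ↔ val R p (fun i => g • x' i) (Fin.append y' m))) →
          (val R p x' (Fin.append y' m) ↔
            K < {j : ℕ | j < 2 * K + 1 ∧ val R p (fun i => z i j) (Fin.append y' m)}.ncard)

/-- [FIE] (2.5 h; IND, SET, QEB, SEP, VIO) A finite set in the base decides independence.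
PROOF.  `e` = the set of VIO and the sets of SEP for `t ≤ l`.  Let `X`, `B`, `f` be as in the statement and
`¬ IndF (f X) (f B)`; `B₀ = {y ∈ B | f y ∉ MU U}`.  `¬ IndF (f X) (f B₀)` (SET (2): `f B ⊆ f B₀ ∪ MU U`).  Let `x : Fin t → N`, `b : Fin s → N`
be injective enumerations of `X`, `B₀` (`t ≤ l`, `s ≤ l + 1`).  The entries of `f x`, `f b` are in `A'`, not in the base, so in `Wd`
(`Sb`).  `¬ Ind (f x) (f b)` (SET (7)).  If `f x i = f b j` then `x i = b j` (injectivity), not in the base; then `¬ IndF X B`: `IndF X B`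
would give `Ind x b`, and with `g`, `Off U g`, `g (us x) ∩ spt b = ∅` (HOM 4 in IND; or IND for `x i`, `b j`): `(g x, b) ~ (x, b)`
over the base, so `g • x i = b j = x i`, but the supports are different.  Otherwise VIO for `f x`, `f b`: `R`, `p`, `m`, `z`:
`val R p (f x) (f b, m)` differs from the majority of the `val R p (z · j) (f b, m)`.  All arguments are in `A'`, `f` fixes `m`, `z i j`
(in `e`): apply `IsoF.r` (from `A` to `A'`): `val R p x (b, m)` differs from the majority of the `val R p (z · j) (b, m)`.  Suppose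
`IndF X B`, so `Ind x b` (SET).  Last clause of VIO for `x' = x`, `y' = b`: `TpM x (f x)`: `x`, `f x` are in `Wd` (`x i ∈ A`, not in the
base), `TpE e x (f x)` because `f` is an isomorphism and fixes `e` (equalities by injectivity), SEP.  The hypothesis on `g`:
definition of `Ind x b` (with the base elements `m`).  So `val R p x (b, m)` is the majority: contradiction. -/
def St_FIE : Prop :=
  ∀ (L : FirstOrder.Language.{0, 0}) (N : Type) [L.Structure N] [MulAction AQ N], Sys L N → Stab L N →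
    LB L N → ∀ (U : Set ℚ), Cut U → ∀ (Z : Finset N), (∀ z ∈ Z, z ∉ MU U) → ∀ l : ℕ,
    ∃ e : Finset N, (e : Set N) ⊆ MU U ∧
      ∀ (A A' : Set N) (f f' : N → N), Sb U Z A → Sb U Z A' → IsoF L A A' f f' →
        (∀ x ∈ e, f x = x) → ∀ X B : Finset N, (X : Set N) ⊆ A →
        (∀ x ∈ X, x ∉ MU U ∧ f x ∉ MU U) → X.card ≤ l → (B : Set N) ⊆ A → B.card ≤ l + 1 →
        IndF L U X B → IndF L U (X.image f) (B.image f)

/-- [CTT] (2 h; SET, LSP, EMB) The path with pendants.
PROOF.  `K = ⋃ z ∈ Z, us z` as a `Finset` (`i, j ∈ K`), `h`, `g` from EMB, `P n = Z.image (h n • ·)`, `Q m = Z.image (g m • ·)`,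
`vt n = h n • u` for even `n`, `h n • v` for odd `n`, `pe m = g m • v`.  `us (h • z) = h '' us z` for `Off U h` (LSP), so
the sharing conditions `pp`, `pq`, `qq` are those of EMB.  `vt (n+1) ∈ P n`: `n` even: `h (n+1) • v = h n • v`, because `h (n+1)`,
`h n` agree on `sp v = {j}` (LSP 4); `n` odd: the same for `u`, `i`.  `vb`: `X ⊆ P n`; `X = Z₁.image (h n • ·)`, `Z₁ = {z ∈ Z | h n • z ∈ X}`;
`P n \ X = (Z \ Z₁).image ..` (injective); invariance (SET (6) for `(h n)⁻¹`) and `con`; for odd `n` `v ∈ Z₁`, `u ∉ Z₁`: use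
symmetry (SET (1)) and `con` for `Z \ Z₁`.  `wa`: `vt (2m) = h (2m) • u = g m • u` (`g m i = h (2m) i`).  `wn`: `g m • v = h n • z` would
give `g m j ∈ h n '' us z`.  `nP`, `nQ`: `z ∉ MU U`, so `us z` is not empty. -/
def St_CTT : Prop :=
  ∀ (L : FirstOrder.Language.{0, 0}) (N : Type) [L.Structure N] [MulAction AQ N], Sys L N → Stab L N →
    ∀ (U : Set ℚ) (Z : Finset N) (i j : ℚ) (u v : N), Arr L U Z i j u v →
    ∃ (P Q : ℕ → Finset N) (vt pe : ℕ → N),
      Cat (us U) (IndF L U) Z.card P Q vt pe ∧ (∀ n, ∀ x ∈ P n, x ∈ Wd U Z) ∧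
      (∀ n, ∀ x ∈ Q n, x ∈ Wd U Z)

/-- [DCD] (2 h; SET, CNT, RIN, FIE, CTT, LOC) The output of part D.
PROOF.  `IAx (us U) (IndF L U)`: SET (3), (2), (4).  CTT; CNT: `b`; FIE with `l = Z.card`: `e`.  `X z = Az (us U) P Q b z`, `p` = an
enumeration of `e` together with `vt 0` (`Fin k → N`).  `MU U ⊆ X z` (`us x = ∅` iff `x ∈ MU U`); `p i ∈ X z`; clopen by CNT.
Let `IsoP L p (X z) (X z')` by `h`; `f x = h x` on `X z`, `x` elsewhere, `f'` from `h.symm`: `IsoF`; `Sb` for both sets.  FIE for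
`(f, f')` and for `(f', f)` (with `X.image f`, `B.image f`; `(X.image f).image f' = X`) gives the equivalence which is the
hypothesis of RIN (`(us x).Nonempty` iff `x ∉ MU U`).  So `f '' Rr (X z) (vt 0) r = Rr (X z') (vt 0) r` for all `r`, and `f` is
injective on `Rr .. ⊆ X z` (LOC (1)): the `ncard`s agree, so `z = z'` by CNT. -/
def St_DCD : Prop :=
  ∀ (L : FirstOrder.Language.{0, 0}) (N : Type) [L.Structure N] [MulAction AQ N], Sys L N → Stab L N →
    LB L N → ∀ (U : Set ℚ) (Z : Finset N) (i j : ℚ) (u v : N), Arr L U Z i j u v →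
    Out L N (MU U)

end EAU
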