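import Pool.Agent.EAU.WUF

/-!
# EAU, part B: [TKM] the term model (helper34)

Terms in Skolem functions over the variables `(q, i)`, `q ∈ ℚ`, evaluated at `x : ℚ → ℕ` in a structure on
`ℕ`; two terms are identified if their values agree for almost all `x` (invariant ultrafilter, WUF). The
automorphisms of `ℚ` act by renaming the variables. Łoś' theorem.
-/

set_option autoImplicit false
set_option linter.unusedVariables false

namespace EAU

open Set FirstOrder FirstOrder.Language
open scoped FirstOrder

/-- function symbols for Skolem functions, one more function and constants -/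
def LK (L : FirstOrder.Language.{0, 0}) : FirstOrder.Language.{0, 0} :=
  ⟨fun n => L.BoundedFormula Empty (n + 1) ⊕ Option ℕ, fun _ => Empty⟩

/-- the data -/
structure Dk (L : FirstOrder.Language.{0, 0}) where
  κ : ℕ
  S : L.Structure ℕ
  C : ℕ → Fin κ → ℕ
  Wf : (n : ℕ) → (Fin n → ℕ) → ℕ
  W : Ultrafilter (ℚ → ℕ)
  lt : ∀ p q : ℚ, p < q → {x : ℚ → ℕ | x p < x q} ∈ W
  inv : ∀ (K : Finset ℚ) (A : Set (ℚ → ℕ)), Dep K A → ∀ g : AQ,
    ({x : ℚ → ℕ | (fun q => x (g q)) ∈ A} ∈ W ↔ A ∈ W)

namespace Dk

variable {L : FirstOrder.Language.{0, 0}} (D : Dk L)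

/-- the terms -/
abbrev Tm : Type := (LK L).Term (ℚ × Fin D.κ)

open Classical in
/-- the functions -/
noncomputable def op {n : ℕ} (f : L.BoundedFormula Empty (n + 1) ⊕ Option ℕ) (w : Fin n → ℕ) : ℕ :=
  match f with
  | Sum.inl θ =>
    if h : ∃ a : ℕ, @BoundedFormula.Realize L ℕ D.S Empty (n + 1) θ default (Fin.snoc w a) then h.choose else 0
  | Sum.inr none => D.Wf n w
  | Sum.inr (some s) => s

/-- the value of a term -/
noncomputable def ev : D.Tm → (ℚ → ℕ) → ℕ
  | .var v, x => D.C (x v.1) v.2
  | .func f ts, x => D.op f (fun i => ev (ts i) x)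

/-- renaming -/
def rn (g : AQ) (t : D.Tm) : D.Tm := t.relabel (Prod.map g id)

theorem ev_rn (g : AQ) (t : D.Tm) (x : ℚ → ℕ) : D.ev (D.rn g t) x = D.ev t (fun q => x (g q)) := by
  induction t with
  | var v => rfl
  | func f ts ih =>
    show D.op f (fun i => D.ev (D.rn g (ts i)) x) = D.op f (fun i => D.ev (ts i) _)
    congr 1
    funext i
    exact ih i

theorem fin_sup (t : D.Tm) : ∃ K : Finset ℚ, (∀ g : AQ, (∀ q ∈ K, g q = q) → D.rn g t = t) ∧
    ∀ x y : ℚ → ℕ, (∀ q ∈ K, x q = y q) → D.ev t x = D.ev t y := by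
  classical
  induction t with
  | var v =>
    refine ⟨{v.1}, fun g hg => ?_, fun x y h => ?_⟩
    · show Term.var (Prod.map g id v) = Term.var v
      congr 1
      exact Prod.ext (hg v.1 (by simp)) rfl
    · show D.C (x v.1) v.2 = D.C (y v.1) v.2
      rw [h v.1 (by simp)]
  | func f ts ih =>
    choose K h1 h2 using ih
    refine ⟨Finset.univ.biUnion K, fun g hg => ?_, fun x y h => ?_⟩
    · show Term.func f (fun i => D.rn g (ts i)) = Term.func f ts
      congr 1
      funext i
      exact h1 i g fun q hq => hg q (Finset.mem_biUnion.2 ⟨i, Finset.mem_univ i, hq⟩)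
    · show D.op f (fun i => D.ev (ts i) x) = D.op f (fun i => D.ev (ts i) y)
      congr 1
      funext i
      exact h2 i x y fun q hq => h q (Finset.mem_biUnion.2 ⟨i, Finset.mem_univ i, hq⟩)

theorem dep_of {n : ℕ} (t : Fin n → D.Tm) (P : (Fin n → ℕ) → Prop) :
    ∃ K : Finset ℚ, Dep K {x | P fun i => D.ev (t i) x} := by
  classical
  choose K h1 h2 using fun i => D.fin_sup (t i)
  refine ⟨Finset.univ.biUnion K, fun x y h => ?_⟩
  have : (fun i => D.ev (t i) x) = fun i => D.ev (t i) y := by
    funext i
    exact h2 i x y fun q hq => h q (Finset.mem_biUnion.2 ⟨i, Finset.mem_univ i, hq⟩)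
  rw [mem_setOf_eq, mem_setOf_eq, this]

theorem rn_mem {n : ℕ} (t : Fin n → D.Tm) (P : (Fin n → ℕ) → Prop) (g : AQ) :
    {x | P fun i => D.ev (D.rn g (t i)) x} ∈ D.W ↔ {x | P fun i => D.ev (t i) x} ∈ D.W := by
  obtain ⟨K, hK⟩ := D.dep_of t P
  rw [← D.inv K _ hK g]
  have : {x | P fun i => D.ev (D.rn g (t i)) x} =
      {x : ℚ → ℕ | (fun q => x (g q)) ∈ {x | P fun i => D.ev (t i) x}} := by
    ext x
    have : (fun i => D.ev (D.rn g (t i)) x) = fun i => D.ev (t i) (fun q => x (g q)) :=
      funext fun i => D.ev_rn g (t i) x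
    rw [mem_setOf_eq, mem_setOf_eq, mem_setOf_eq, this]
  rw [this]

/-- equality almost everywhere -/
def sd : Setoid D.Tm where
  r t s := {x | D.ev t x = D.ev s x} ∈ D.W
  iseqv :=
    { refl := fun t => Filter.univ_mem' fun x => rfl
      symm := fun {t s} h => by
        filter_upwards [h] with x hx using hx.symm
      trans := fun {t s u} h h' => by
        filter_upwards [h, h'] with x hx hx' using hx.trans hx' }

/-- the model -/
def N : Type := Quotient D.sd

/-- the class of a term -/
def cl (t : D.Tm) : D.N := Quotient.mk D.sd t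

theorem cl_eq {t s : D.Tm} : D.cl t = D.cl s ↔ {x | D.ev t x = D.ev s x} ∈ D.W := by
  exact ⟨fun h => Quotient.exact (s := D.sd) h, fun h => Quotient.sound (s := D.sd) h⟩

theorem cl_surj (a : D.N) : ∃ t, D.cl t = a := Quotient.exists_rep a

/-- a representative -/
noncomputable def out (a : D.N) : D.Tm := (D.cl_surj a).choose

theorem cl_out (a : D.N) : D.cl (D.out a) = a := (D.cl_surj a).choose_spec

theorem out_cl (t : D.Tm) : {x | D.ev (D.out (D.cl t)) x = D.ev t x} ∈ D.W :=
  D.cl_eq.1 (D.cl_out _)

theorem out_mem {ι : Type} [Finite ι] (t : ι → D.Tm) (P : (ι → ℕ) → Prop) :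
    {x | P fun i => D.ev (D.out (D.cl (t i))) x} ∈ D.W ↔ {x | P fun i => D.ev (t i) x} ∈ D.W := by
  have h : {x | ∀ i, D.ev (D.out (D.cl (t i))) x = D.ev (t i) x} ∈ D.W :=
    Filter.eventually_all.2 fun i => D.out_cl (t i)
  constructor
  · intro h'
    filter_upwards [h, h'] with x hx hx'
    have : (fun i => D.ev (D.out (D.cl (t i))) x) = fun i => D.ev (t i) x := funext hx
    rw [← this]
    exact hx'
  · intro h'
    filter_upwards [h, h'] with x hx hx'
    have : (fun i => D.ev (D.out (D.cl (t i))) x) = fun i => D.ev (t i) x := funext hx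
    rw [this]
    exact hx'

/-- the action -/
instance act : MulAction AQ D.N where
  smul g := Quotient.map (D.rn g) fun t s h => by
    have h1 := (D.rn_mem ![t, s] (fun w => w 0 = w 1) g).2 h
    exact h1
  one_smul a := by
    obtain ⟨t, rfl⟩ := D.cl_surj a
    show D.cl (D.rn 1 t) = D.cl t
    congr 1
    have : Prod.map (1 : AQ) (id : Fin D.κ → Fin D.κ) = id := by
      funext v
      rfl
    show t.relabel _ = t
    rw [this, Term.relabel_id]
  mul_smul g h a := by
    obtain ⟨t, rfl⟩ := D.cl_surj a
    show D.cl (D.rn (g * h) t) = D.cl (D.rn g (D.rn h t))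
    congr 1
    show t.relabel _ = (t.relabel _).relabel _
    rw [Term.relabel_relabel]
    rfl

theorem smul_cl (g : AQ) (t : D.Tm) : g • D.cl t = D.cl (D.rn g t) := rfl

/-- the structure -/
instance str [∀ n, IsEmpty (L.Functions n)] : L.Structure D.N where
  funMap f := isEmptyElim f
  RelMap R v := {x | D.S.RelMap R fun i => D.ev (D.out (v i)) x} ∈ D.W

variable [∀ n, IsEmpty (L.Functions n)]

theorem rel_cl {n : ℕ} (R : L.Relations n) (t : Fin n → D.Tm) :
    Structure.RelMap R (fun i => D.cl (t i)) ↔ {x | D.S.RelMap R fun i => D.ev (t i) x} ∈ D.W :=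
  D.out_mem t fun w => D.S.RelMap R w

theorem rel_smul (g : AQ) {n : ℕ} (R : L.Relations n) (v : Fin n → D.N) :
    Structure.RelMap R (fun i => g • v i) ↔ Structure.RelMap R v := by
  have h : v = fun i => D.cl (D.out (v i)) := funext fun i => (D.cl_out _).symm
  rw [h]
  show Structure.RelMap R (fun i => D.cl (D.rn g (D.out (v i)))) ↔ _
  rw [D.rel_cl, D.rel_cl]
  exact D.rn_mem (fun i => D.out (v i)) (fun w => D.S.RelMap R w) g

instance ctN [∀ n, Countable (L.Relations n)] : Countable D.N := by
  have h1 : Countable L.Symbols := by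
    have : Countable (Σ n, L.Functions n) := by infer_instance
    have : Countable (Σ n, L.Relations n) := by infer_instance
    exact inferInstanceAs (Countable ((Σ n, L.Functions n) ⊕ (Σ n, L.Relations n)))
  have h2 : ∀ n, Countable (L.BoundedFormula Empty n) := fun n =>
    Function.Injective.countable (f := fun φ : L.BoundedFormula Empty n =>
      (⟨n, φ⟩ : Σ n, L.BoundedFormula Empty n)) fun φ ψ h => by simpa using h
  have h3 : ∀ n, Countable ((LK L).Functions n) := fun n =>
    inferInstanceAs (Countable (L.BoundedFormula Empty (n + 1) ⊕ Option ℕ))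
  have h4 : Countable (Σ n, (LK L).Functions n) := inferInstance
  have h5 : Countable D.Tm := inferInstance
  exact inferInstanceAs (Countable (Quotient D.sd))

theorem sys [∀ n, Countable (L.Relations n)] : Sys L D.N where
  ct := D.ctN
  rel g n R t := D.rel_smul g R t
  sup a := by
    obtain ⟨t, rfl⟩ := D.cl_surj a
    obtain ⟨K, h1, -⟩ := D.fin_sup t
    exact ⟨K, fun g hg => by rw [D.smul_cl, h1 g hg]⟩

/-- values of terms of a relational language -/
theorem term_real {α : Type} (T : L.Term α) (v : α → D.Tm) :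
    ∃ a, T = Term.var a := by
  cases T with
  | var a => exact ⟨a, rfl⟩
  | func f => exact isEmptyElim f

/-- Łoś -/
theorem los {n : ℕ} (φ : L.BoundedFormula Empty n) (t : Fin n → D.Tm) :
    φ.Realize (default : Empty → D.N) (fun i => D.cl (t i)) ↔
      {x | @BoundedFormula.Realize L ℕ D.S Empty n φ default (fun i => D.ev (t i) x)} ∈ D.W := by
  induction φ with
  | falsum =>
    constructor
    · intro h
      exact False.elim h
    · intro h
      have : {x : ℚ → ℕ | False} ∈ D.W := h
      have h2 : (∅ : Set (ℚ → ℕ)) ∈ D.W := by simpa using this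
      exact absurd h2 (D.W.empty_notMem)
  | equal T₁ T₂ =>
    obtain ⟨a, rfl⟩ : ∃ a, T₁ = Term.var a := by
      cases T₁ with
      | var a => exact ⟨a, rfl⟩
      | func f => exact isEmptyElim f
    obtain ⟨b, rfl⟩ : ∃ a, T₂ = Term.var a := by
      cases T₂ with
      | var a => exact ⟨a, rfl⟩
      | func f => exact isEmptyElim f
    rcases a with a | a
    · exact a.elim
    rcases b with b | b
    · exact b.elim
    exact D.cl_eq
  | rel R ts =>
    have h : ∀ i, ∃ a, ts i = Term.var (Sum.inr a) := by
      intro i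
      rcases h : ts i with a | ⟨f, -⟩
      · rcases a with a | a
        · exact a.elim
        · exact ⟨a, rfl⟩
      · exact isEmptyElim f
    choose u hu using h
    obtain rfl : ts = fun i => Term.var (Sum.inr (u i)) := funext hu
    exact D.rel_cl R (fun i => t (u i))
  | imp φ ψ ih₁ ih₂ =>
    show (φ.Realize _ _ → ψ.Realize _ _) ↔ _
    rw [ih₁, ih₂]
    constructor
    · intro h
      by_cases h1 : {x | @BoundedFormula.Realize L ℕ D.S Empty _ φ default (fun i => D.ev (t i) x)} ∈ D.W
      · filter_upwards [h h1] with x hx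
        exact fun _ => hx
      · have h2 := Ultrafilter.compl_mem_iff_notMem.2 h1
        filter_upwards [h2] with x hx
        exact fun h3 => absurd h3 hx
    · intro h h1
      filter_upwards [h, h1] with x hx hx1
      exact hx hx1
  | @all n φ ih =>
    show (∀ a : D.N, φ.Realize _ (Fin.snoc _ a)) ↔ _
    constructor
    · intro h
      by_contra hc
      have h2 := Ultrafilter.compl_mem_iff_notMem.2 hc
      let s : D.Tm := Term.func (L := LK L) (Sum.inl φ.not) t
      have h3 := h (D.cl s)
      have h4 : (Fin.snoc (fun i => D.cl (t i)) (D.cl s) : Fin (n + 1) → D.N) =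
          fun i => D.cl ((Fin.snoc t s : Fin (n + 1) → D.Tm) i) := by
        funext i
        refine Fin.lastCases ?_ (fun i => ?_) i
        · simp
        · simp
      rw [h4] at h3
      have h5 := (ih (Fin.snoc t s)).1 h3
      have h6 : ({x | @BoundedFormula.Realize L ℕ D.S Empty _ φ default
          (fun i => D.ev ((Fin.snoc t s : Fin (n + 1) → D.Tm) i) x)} ∩
          {x | @BoundedFormula.Realize L ℕ D.S Empty _ φ.all default (fun i => D.ev (t i) x)}ᶜ).Nonempty :=
        Filter.nonempty_of_mem (Filter.inter_mem h5 h2)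
      obtain ⟨x, hx1, hx2⟩ := h6
      apply hx2
      have h7 : (fun i => D.ev ((Fin.snoc t s : Fin (n + 1) → D.Tm) i) x) =
          Fin.snoc (fun i => D.ev (t i) x) (D.ev s x) := by
        funext i
        refine Fin.lastCases ?_ (fun i => ?_) i
        · simp
        · simp
      rw [mem_setOf_eq, h7] at hx1
      by_contra hx3
      have h8 : ∃ a : ℕ, @BoundedFormula.Realize L ℕ D.S Empty (n + 1) φ.not default
          (Fin.snoc (fun i => D.ev (t i) x) a) := by
        by_contra h9
        push Not at h9
        apply hx3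
        intro a
        by_contra h10
        exact h9 a h10
      have h9 : D.ev s x = h8.choose := by
        show D.op (Sum.inl φ.not) (fun i => D.ev (t i) x) = _
        exact dif_pos h8
      rw [h9] at hx1
      exact h8.choose_spec hx1
    · intro h a
      obtain ⟨s, rfl⟩ := D.cl_surj a
      have h4 : (Fin.snoc (fun i => D.cl (t i)) (D.cl s) : Fin (n + 1) → D.N) =
          fun i => D.cl ((Fin.snoc t s : Fin (n + 1) → D.Tm) i) := by
        funext i
        refine Fin.lastCases ?_ (fun i => ?_) i
        · simp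
        · simp
      rw [h4]
      refine (ih (Fin.snoc t s)).2 ?_
      filter_upwards [h] with x hx
      have h7 : (fun i => D.ev ((Fin.snoc t s : Fin (n + 1) → D.Tm) i) x) =
          Fin.snoc (fun i => D.ev (t i) x) (D.ev s x) := by
        funext i
        refine Fin.lastCases ?_ (fun i => ?_) i
        · simp
        · simp
      rw [h7]
      exact hx (D.ev s x)

/-- Łoś for formulas in finitely many variables -/
theorem losF {β : Type} [Finite β] (φ : L.Formula β) (t : β → D.Tm) :
    φ.Realize (fun b => D.cl (t b)) ↔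
      {x | @Formula.Realize L ℕ D.S β φ (fun b => D.ev (t b) x)} ∈ D.W := by
  obtain ⟨r, ⟨e⟩⟩ := Finite.exists_equiv_fin β
  let ψ : L.BoundedFormula Empty r :=
    BoundedFormula.relabel (Sum.inr : Fin r → Empty ⊕ Fin r) (Formula.relabel e φ)
  have key : ∀ (M : Type) (I : L.Structure M) (v : β → M) (u : Empty → M),
      @Formula.Realize L M I β φ v ↔
        @BoundedFormula.Realize L M I Empty r ψ u (fun i => v (e.symm i)) := by
    intro M I v u
    show _ ↔ @BoundedFormula.Realize L M I Empty r (BoundedFormula.relabel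
      (Sum.inr : Fin r → Empty ⊕ Fin r) (Formula.relabel e φ)) u (fun i => v (e.symm i))
    rw [Formula.realize_relabel_sumInr, Formula.realize_relabel]
    have : (fun i => v (e.symm i)) ∘ e = v := by
      funext b
      simp
    rw [this]
  rw [key D.N D.str _ default]
  have h1 := D.los ψ (fun i => t (e.symm i))
  rw [h1]
  have : {x | @BoundedFormula.Realize L ℕ D.S Empty r ψ default fun i => D.ev (t (e.symm i)) x} =
      {x | @Formula.Realize L ℕ D.S β φ fun b => D.ev (t b) x} := by
    ext x
    rw [mem_setOf_eq, mem_setOf_eq]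
    exact (key ℕ D.S (fun b => D.ev (t b) x) _).symm
  rw [this]

end Dk

end EAU
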