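import Pool.Agent.EAU.Defs
import Pool.Agent.EAP.PB

/-!
# EAU, part B: [WUF] an ultrafilter on `ℚ → ℕ` invariant under the automorphisms of `ℚ` (helper34)

For the sets which depend on finitely many coordinates; it contains `{x | x p < x q}` for `p < q`.
Ramsey's theorem and a limit.
-/

set_option autoImplicit false
set_option linter.unusedVariables false

namespace EAU

open Set

/-- `A` depends on the coordinates in `K` only -/
def Dep (K : Finset ℚ) (A : Set (ℚ → ℕ)) : Prop :=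
  ∀ x y : ℚ → ℕ, (∀ q ∈ K, x q = y q) → (x ∈ A ↔ y ∈ A)

/-- homogeneous sets -/
theorem wuf_hmg (I : Finset (Finset ℚ × Set (ℚ → ℕ))) :
    ∃ B : Set ℕ, B.Infinite ∧ ∀ p ∈ I, Dep p.1 p.2 → ∀ e e' : ℚ → ℕ,
      StrictMonoOn e (p.1 : Set ℚ) → StrictMonoOn e' (p.1 : Set ℚ) → (∀ q ∈ p.1, e q ∈ B) →
      (∀ q ∈ p.1, e' q ∈ B) → (e ∈ p.2 ↔ e' ∈ p.2) := by
  classical
  obtain ⟨B, hB, h⟩ := Pool.Agent.Helper18.EH.ramsey_le (κ := I → Prop)
    ((I.sup fun p => p.1.card) + 1)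
    (fun s p => ∃ e : ℚ → ℕ, StrictMonoOn e (p.1.1 : Set ℚ) ∧ p.1.1.image e = s ∧ e ∈ p.1.2)
  refine ⟨B, hB, fun p hp hD e e' he he' heB heB' => ?_⟩
  have hcard : ∀ e : ℚ → ℕ, StrictMonoOn e (p.1 : Set ℚ) → (p.1.image e).card = p.1.card :=
    fun e he => Finset.card_image_of_injOn he.injOn
  have hsub : ∀ e : ℚ → ℕ, (∀ q ∈ p.1, e q ∈ B) → ((p.1.image e : Finset ℕ) : Set ℕ) ⊆ B := by
    intro e he x hx
    obtain ⟨q, hq, rfl⟩ := Finset.mem_image.1 (Finset.mem_coe.1 hx)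
    exact he q hq
  have hkey : ∀ e : ℚ → ℕ, StrictMonoOn e (p.1 : Set ℚ) →
      ((∃ e₁ : ℚ → ℕ, StrictMonoOn e₁ (p.1 : Set ℚ) ∧ p.1.image e₁ = p.1.image e ∧ e₁ ∈ p.2) ↔
        e ∈ p.2) := by
    intro e he
    constructor
    · rintro ⟨e₁, h1, h2, h3⟩
      have h4 := EAP.mono_unique p.1.finite_toSet h1 he (by
        rw [← Finset.coe_image, h2, Finset.coe_image])
      exact (hD e₁ e fun q hq => h4 hq).1 h3
    · intro h3
      exact ⟨e, he, rfl, h3⟩
  have h1 := congrFun (h (p.1.image e) (p.1.image e') (hsub e heB) (hsub e' heB')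
    (by rw [hcard e he, hcard e' he']) (by
      rw [hcard e he]
      exact Nat.lt_succ_of_le (Finset.le_sup (f := fun p : Finset ℚ × Set (ℚ → ℕ) => p.1.card) hp)))
    ⟨p, hp⟩
  rw [← hkey e he, ← hkey e' he']
  exact iff_of_eq h1

/-- [WUF] -/
theorem thm_WUF : ∃ W : Ultrafilter (ℚ → ℕ), (∀ p q : ℚ, p < q → {x : ℚ → ℕ | x p < x q} ∈ W) ∧
    ∀ (K : Finset ℚ) (A : Set (ℚ → ℕ)), Dep K A → ∀ g : AQ,
      ({x : ℚ → ℕ | (fun q => x (g q)) ∈ A} ∈ W ↔ A ∈ W) := by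
  classical
  choose B hB hom using wuf_hmg
  let b : Finset (Finset ℚ × Set (ℚ → ℕ)) → ℕ → ℕ := fun I => Nat.nth (· ∈ B I)
  have hbm : ∀ I, StrictMono (b I) := fun I => Nat.nth_strictMono (hB I)
  have hbB : ∀ I n, b I n ∈ B I := fun I n => Nat.nth_mem_of_infinite (hB I) n
  let X : Finset (Finset ℚ × Set (ℚ → ℕ)) × Finset ℚ → ℚ → ℕ := fun i q =>
    b i.1 (i.2.filter (· < q)).card
  have hXm : ∀ i, StrictMonoOn (X i) (i.2 : Set ℚ) := by
    intro i p hp q hq hpq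
    apply hbm
    apply Finset.card_lt_card
    refine Finset.ssubset_iff_subset_ne.2 ⟨fun r hr => ?_, fun h => ?_⟩
    · rw [Finset.mem_filter] at hr ⊢
      exact ⟨hr.1, hr.2.trans hpq⟩
    · have : p ∈ i.2.filter (· < p) := by
        rw [h, Finset.mem_filter]
        exact ⟨hp, hpq⟩
      exact lt_irrefl _ (Finset.mem_filter.1 this).2
  have hXB : ∀ i q, X i q ∈ B i.1 := fun i q => hbB _ _
  let U : Ultrafilter (Finset (Finset ℚ × Set (ℚ → ℕ)) × Finset ℚ) := Ultrafilter.of Filter.atTop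
  have hU : ∀ i, {j | i ≤ j} ∈ U := fun i =>
    Ultrafilter.of_le Filter.atTop (Filter.mem_atTop i)
  refine ⟨U.map X, fun p q hpq => ?_, fun K A hA g => ?_⟩
  · refine Ultrafilter.mem_map.2 (Filter.mem_of_superset (hU (∅, {p, q})) fun j hj => ?_)
    have h1 : ({p, q} : Finset ℚ) ⊆ j.2 := hj.2
    exact hXm j (h1 (by simp)) (h1 (by simp)) hpq
  · have hev : {j | X j ∈ A ↔ (fun q => X j (g q)) ∈ A} ∈ U := by
      refine Filter.mem_of_superset (hU ({(K, A)}, K ∪ K.image g)) fun j hj => ?_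
      have h1 : ({(K, A)} : Finset (Finset ℚ × Set (ℚ → ℕ))) ⊆ j.1 := hj.1
      have h2 : K ∪ K.image g ⊆ j.2 := hj.2
      have hK : ∀ q ∈ K, q ∈ j.2 := fun q hq => h2 (Finset.mem_union_left _ hq)
      have hK' : ∀ q ∈ K, g q ∈ j.2 := fun q hq =>
        h2 (Finset.mem_union_right _ (Finset.mem_image_of_mem _ hq))
      refine hom j.1 (K, A) (h1 (by simp)) hA (X j) (fun q => X j (g q))
        (fun p hp q hq hpq => hXm j (hK p hp) (hK q hq) hpq)
        (fun p hp q hq hpq => hXm j (hK' p hp) (hK' q hq) (g.strictMono hpq))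
        (fun q _ => hXB j q) (fun q _ => hXB j (g q))
    rw [Ultrafilter.mem_map, Ultrafilter.mem_map]
    constructor
    · intro h
      filter_upwards [h, hev] with j h1 h2
      exact h2.2 h1
    · intro h
      filter_upwards [h, hev] with j h1 h2
      exact h2.1 h1

end EAU
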